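import Mathlib

/-!
# Automorphisms of free groups and low-dimensional representations: definitions

`fsub S` is the free factor spanned by the letters of `S`, `R a w` is the automorphism
`x_a ↦ x_a * w` (with the letter `a` killed in `w`), `StabS S` is the copy of
`Aut (F_S)` inside `Aut (F)`.
-/

set_option autoImplicit false

namespace AFn

universe u v

section Free

variable {α : Type u} [DecidableEq α]

/-- the free factor spanned by the letters in `S` -/
def fsub (S : Finset α) : Subgroup (FreeGroup α) :=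
  Subgroup.closure (FreeGroup.of '' (S : Set α))

/-- the retraction onto the free factor `fsub S` -/
def ret (S : Finset α) : FreeGroup α →* FreeGroup α :=
  FreeGroup.lift (fun x => if x ∈ S then FreeGroup.of x else 1)

/-- killing the letter `a` -/
def kill (a : α) : FreeGroup α →* FreeGroup α :=
  FreeGroup.lift (fun x => if x = a then 1 else FreeGroup.of x)

/-- the endomorphism `x_a ↦ x_a * kill a w`, the other letters are fixed -/
def RHom (a : α) (w : FreeGroup α) : FreeGroup α →* FreeGroup α :=
  FreeGroup.lift (fun x => if x = a then FreeGroup.of a * kill a w else FreeGroup.of x)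

theorem kill_kill (a : α) (w : FreeGroup α) : kill a (kill a w) = kill a w := by
  have h : (kill a).comp (kill a) = kill a := by
    ext x
    by_cases hx : x = a <;> simp [kill, hx]
  exact DFunLike.congr_fun h w

theorem RHom_kill (a : α) (w g : FreeGroup α) : RHom a w (kill a g) = kill a g := by
  have h : (RHom a w).comp (kill a) = kill a := by
    ext x
    by_cases hx : x = a <;> simp [kill, RHom, hx]
  exact DFunLike.congr_fun h g

theorem RHom_comp (a : α) (w w' g : FreeGroup α) :
    RHom a w (RHom a w' g) = RHom a (w * w') g := by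
  have h : (RHom a w).comp (RHom a w') = RHom a (w * w') := by
    ext x
    by_cases hx : x = a
    · subst hx
      have h1 : RHom x w' (FreeGroup.of x) = FreeGroup.of x * kill x w' := by simp [RHom]
      have h2 : RHom x w (FreeGroup.of x) = FreeGroup.of x * kill x w := by simp [RHom]
      have h3 : RHom x (w * w') (FreeGroup.of x) = FreeGroup.of x * kill x (w * w') := by
        simp [RHom]
      rw [MonoidHom.comp_apply, h1, map_mul, h2, RHom_kill, h3, map_mul, mul_assoc]
    · simp [RHom, hx]
  exact DFunLike.congr_fun h g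

theorem RHom_one (a : α) (g : FreeGroup α) : RHom a 1 g = g := by
  have h : RHom a (1 : FreeGroup α) = MonoidHom.id _ := by
    ext x
    by_cases hx : x = a <;> simp [RHom, hx]
  rw [h]
  rfl

/-- the automorphism `x_a ↦ x_a * w`, as a homomorphism in `w` -/
def R (a : α) : FreeGroup α →* MulAut (FreeGroup α) where
  toFun w :=
    { toFun := RHom a w
      invFun := RHom a w⁻¹
      left_inv := fun g => by rw [RHom_comp, inv_mul_cancel, RHom_one]
      right_inv := fun g => by rw [RHom_comp, mul_inv_cancel, RHom_one]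
      map_mul' := fun x y => map_mul _ x y }
  map_one' := by
    ext g
    exact RHom_one a g
  map_mul' w w' := by
    ext g
    exact (RHom_comp a w w' g).symm

theorem R_apply (a : α) (w g : FreeGroup α) : R a w g = RHom a w g := rfl

/-- the endomorphism conjugating the letters of `S` by `ret S u` -/
def innHom (S : Finset α) (u : FreeGroup α) : FreeGroup α →* FreeGroup α :=
  FreeGroup.lift (fun x =>
    if x ∈ S then ret S u * FreeGroup.of x * (ret S u)⁻¹ else FreeGroup.of x)

/-- the subgroup generated by the conjugates of `w` by elements of `fsub S` -/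
def Mw (S : Finset α) (w : FreeGroup α) : Subgroup (FreeGroup α) :=
  Subgroup.closure {x | ∃ u ∈ fsub S, x = u * w * u⁻¹}

/-- the subgroup of automorphisms that fix the letters outside `S` and preserve `fsub S` -/
def StabS (S : Finset α) : Subgroup (MulAut (FreeGroup α)) where
  carrier := {φ | (∀ x, x ∉ S → φ (FreeGroup.of x) = FreeGroup.of x) ∧
    (∀ g, g ∈ fsub S → φ g ∈ fsub S ∧ φ⁻¹ g ∈ fsub S)}
  one_mem' := by
    refine ⟨fun x _ => rfl, fun g hg => ⟨hg, by simpa using hg⟩⟩
  mul_mem' := by
    rintro φ ψ ⟨h1, h2⟩ ⟨h3, h4⟩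
    refine ⟨fun x hx => ?_, fun g hg => ⟨?_, ?_⟩⟩
    · rw [MulAut.mul_apply, h3 x hx, h1 x hx]
    · exact (h2 _ (h4 _ hg).1).1
    · rw [mul_inv_rev, MulAut.mul_apply]
      exact (h4 _ (h2 _ hg).2).2
  inv_mem' := by
    rintro φ ⟨h1, h2⟩
    refine ⟨fun x hx => ?_, fun g hg => ⟨(h2 g hg).2, ?_⟩⟩
    · have := h1 x hx
      calc φ⁻¹ (FreeGroup.of x) = φ⁻¹ (φ (FreeGroup.of x)) := by rw [this]
        _ = FreeGroup.of x := by rw [← MulAut.mul_apply, inv_mul_cancel]; rfl
    · rw [inv_inv]
      exact (h2 g hg).1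

end Free

section Rep

/-- `σ` is multiplicative on the subgroup `Γ` -/
structure IsRepOn {G : Type u} [Group G] {V : Type v} [AddCommGroup V] [Module ℂ V]
    (Γ : Subgroup G) (σ : G → Module.End ℂ V) : Prop where
  one : σ 1 = 1
  mul : ∀ g ∈ Γ, ∀ h ∈ Γ, σ (g * h) = σ g * σ h

variable {α : Type u} [DecidableEq α]

/-- the standing assumptions on the finite-index subgroups `H` and `K` -/
structure Ctx (H : Subgroup (MulAut (FreeGroup α))) (K : Subgroup (FreeGroup α)) : Prop where
  Hn : H.Normal
  Hf : H.FiniteIndex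
  Kc : ∀ φ : MulAut (FreeGroup α), ∀ w ∈ K, φ w ∈ K
  Kf : K.FiniteIndex
  RH : ∀ a : α, ∀ w ∈ K, R a w ∈ H

/-- the automorphisms `R a w` with `w ∈ K ⊓ fsub (S.erase a)` and their conjugates by
`StabS S` act unipotently -/
def UnipOn {V : Type v} [AddCommGroup V] [Module ℂ V] (K : Subgroup (FreeGroup α))
    (S : Finset α) (σ : MulAut (FreeGroup α) → Module.End ℂ V) : Prop :=
  ∀ φ ∈ StabS S, ∀ a ∈ S, ∀ w ∈ K, w ∈ fsub (S.erase a) →
    IsNilpotent (σ (φ * R a w * φ⁻¹) - 1)

/-- the conjugates by `StabS S` of the `R a w` with `w ∈ K` in a factor spanned by at most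
`r` letters -/
def IsT (K : Subgroup (FreeGroup α)) (r : ℕ) (S : Finset α)
    (T : MulAut (FreeGroup α)) : Prop :=
  ∃ φ ∈ StabS S, ∃ a ∈ S, ∃ W ⊆ S.erase a, W.card ≤ r ∧ ∃ w ∈ K, w ∈ fsub W ∧
    T = φ * R a w * φ⁻¹

/-- the subgroup of `K ⊓ fsub S` generated by commutators and by the elements of proper
free factors -/
def DS (K : Subgroup (FreeGroup α)) (S : Finset α) : Subgroup (FreeGroup α) :=
  Subgroup.closure
    ({x | ∃ g ∈ K, ∃ h ∈ K, g ∈ fsub S ∧ h ∈ fsub S ∧ x = g * h * g⁻¹ * h⁻¹} ∪
     {x | ∃ φ ∈ StabS S, ∃ b ∈ S, ∃ w ∈ K, w ∈ fsub (S.erase b) ∧ x = φ w})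

/-- the energy of an endomorphism: the sum over the eigenvalues of the squares of the
logarithms of their absolute values -/
noncomputable def en {V : Type v} [AddCommGroup V] [Module ℂ V] [FiniteDimensional ℂ V]
    (A : Module.End ℂ V) : ℝ :=
  (A.charpoly.roots.map (fun μ => (Real.log ‖μ‖) ^ 2)).sum

end Rep

end AFn
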