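import Mathlib
import Pool.Agent.AFn.Defs

set_option autoImplicit false

namespace AFn

universe u v

variable {α : Type u} [DecidableEq α]

theorem fsub_mono {S T : Finset α} (h : S ⊆ T) : fsub S ≤ fsub T := by
  unfold fsub
  exact Subgroup.closure_mono (Set.image_mono (Finset.coe_subset.2 h))

theorem of_mem_fsub {S : Finset α} {x : α} (h : x ∈ S) : FreeGroup.of x ∈ fsub S := by
  unfold fsub
  exact Subgroup.subset_closure ⟨x, Finset.mem_coe.2 h, rfl⟩

/-- a homomorphism fixing the letters of `S` fixes `fsub S` -/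
private theorem hom_fix {S : Finset α} (f : FreeGroup α →* FreeGroup α)
    (h : ∀ x ∈ S, f (FreeGroup.of x) = FreeGroup.of x) {w : FreeGroup α} (hw : w ∈ fsub S) :
    f w = w := by
  unfold fsub at hw
  induction hw using Subgroup.closure_induction with
  | mem y hy =>
    obtain ⟨x, hx, rfl⟩ := hy
    exact h x (Finset.mem_coe.1 hx)
  | one => exact map_one f
  | mul y z _ _ hy hz => rw [map_mul, hy, hz]
  | inv y _ hy => rw [map_inv, hy]

/-- a homomorphism mapping the letters of `S` into a subgroup maps `fsub S` into it -/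
private theorem hom_map {S : Finset α} (f : FreeGroup α →* FreeGroup α)
    (P : Subgroup (FreeGroup α)) (h : ∀ x ∈ S, f (FreeGroup.of x) ∈ P)
    {w : FreeGroup α} (hw : w ∈ fsub S) : f w ∈ P := by
  unfold fsub at hw
  induction hw using Subgroup.closure_induction with
  | mem y hy =>
    obtain ⟨x, hx, rfl⟩ := hy
    exact h x (Finset.mem_coe.1 hx)
  | one => rw [map_one]; exact P.one_mem
  | mul y z _ _ hy hz => rw [map_mul]; exact P.mul_mem hy hz
  | inv y _ hy => rw [map_inv]; exact P.inv_mem hy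

theorem kill_eq {S : Finset α} {a : α} {w : FreeGroup α} (hw : w ∈ fsub S) (ha : a ∉ S) :
    kill a w = w := by
  refine hom_fix (kill a) (fun x hx => ?_) hw
  have hxa : x ≠ a := fun h => ha (h ▸ hx)
  simp [kill, hxa]

theorem ret_eq {S : Finset α} {w : FreeGroup α} (hw : w ∈ fsub S) : ret S w = w := by
  refine hom_fix (ret S) (fun x hx => ?_) hw
  simp [ret, hx]

theorem ret_mem (S : Finset α) (w : FreeGroup α) : ret S w ∈ fsub S := by
  induction w using FreeGroup.induction_on with
  | C1 => rw [map_one]; exact (fsub S).one_mem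
  | of x =>
    by_cases hx : x ∈ S
    · have h : ret S (FreeGroup.of x) = FreeGroup.of x := by simp [ret, hx]
      change ret S (FreeGroup.of x) ∈ fsub S
      rw [h]
      exact of_mem_fsub hx
    · have h : ret S (FreeGroup.of x) = 1 := by simp [ret, hx]
      change ret S (FreeGroup.of x) ∈ fsub S
      rw [h]
      exact (fsub S).one_mem
  | inv_of x hx => rw [map_inv]; exact (fsub S).inv_mem hx
  | mul x y hx hy => rw [map_mul]; exact (fsub S).mul_mem hx hy

theorem R_of_self (a : α) (w : FreeGroup α) :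
    R a w (FreeGroup.of a) = FreeGroup.of a * kill a w := by
  rw [R_apply]
  simp [RHom]

theorem R_of_ne {a x : α} (h : x ≠ a) (w : FreeGroup α) :
    R a w (FreeGroup.of x) = FreeGroup.of x := by
  rw [R_apply]
  simp [RHom, h]

theorem R_fix {S : Finset α} {a : α} {g : FreeGroup α} (ha : a ∉ S) (hg : g ∈ fsub S)
    (w : FreeGroup α) : R a w g = g := by
  refine hom_fix ((R a w : MulAut (FreeGroup α)) : FreeGroup α ≃* FreeGroup α).toMonoidHom
    (fun x hx => ?_) hg
  have hxa : x ≠ a := fun h => ha (h ▸ hx)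
  exact R_of_ne hxa w

theorem StabS_map {S : Finset α} {φ : MulAut (FreeGroup α)} (hφ : φ ∈ StabS S)
    {g : FreeGroup α} (hg : g ∈ fsub S) : φ g ∈ fsub S := (hφ.2 g hg).1

theorem StabS_fix {S : Finset α} {φ : MulAut (FreeGroup α)} (hφ : φ ∈ StabS S)
    {x : α} (hx : x ∉ S) : φ (FreeGroup.of x) = FreeGroup.of x := hφ.1 x hx

/-- an automorphism that fixes the letters outside `S` and such that it and its inverse map the
letters of `S` into `fsub S` is in `StabS S` -/
theorem mem_StabS_of {S : Finset α} {φ : MulAut (FreeGroup α)}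
    (h1 : ∀ x, x ∉ S → φ (FreeGroup.of x) = FreeGroup.of x)
    (h2 : ∀ x ∈ S, φ (FreeGroup.of x) ∈ fsub S)
    (h3 : ∀ x ∈ S, φ⁻¹ (FreeGroup.of x) ∈ fsub S) : φ ∈ StabS S := by
  refine ⟨h1, fun g hg => ⟨?_, ?_⟩⟩
  · exact hom_map (φ : FreeGroup α ≃* FreeGroup α).toMonoidHom (fsub S) h2 hg
  · exact hom_map (φ⁻¹ : MulAut (FreeGroup α)).toMonoidHom (fsub S) h3 hg

theorem StabS_mono {S T : Finset α} (h : S ⊆ T) : (StabS S : Subgroup (MulAut (FreeGroup α))) ≤
    StabS T := by
  intro φ hφ
  refine mem_StabS_of (fun x hx => StabS_fix hφ (fun h' => hx (h h'))) (fun x hx => ?_)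
    (fun x hx => ?_)
  · by_cases hxS : x ∈ S
    · exact fsub_mono h (StabS_map hφ (of_mem_fsub hxS))
    · rw [StabS_fix hφ hxS]
      exact of_mem_fsub hx
  · have hφ' : φ⁻¹ ∈ StabS S := (StabS S).inv_mem hφ
    by_cases hxS : x ∈ S
    · exact fsub_mono h (StabS_map hφ' (of_mem_fsub hxS))
    · rw [StabS_fix hφ' hxS]
      exact of_mem_fsub hx

theorem conj_R {S : Finset α} {φ : MulAut (FreeGroup α)} (hφ : φ ∈ StabS S) {a : α}
    (ha : a ∉ S) {w : FreeGroup α} (hw : w ∈ fsub S) :
    φ * R a w * φ⁻¹ = R a (φ w) := by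
  have hφ' : φ⁻¹ ∈ StabS S := (StabS S).inv_mem hφ
  have key : ∀ x : α, (φ * R a w * φ⁻¹) (FreeGroup.of x) = R a (φ w) (FreeGroup.of x) := by
    intro x
    rw [MulAut.mul_apply, MulAut.mul_apply]
    by_cases hx : x ∈ S
    · have hxa : x ≠ a := fun h => ha (h ▸ hx)
      rw [R_fix ha (StabS_map hφ' (of_mem_fsub hx)), R_of_ne hxa, ← MulAut.mul_apply,
        mul_inv_cancel]
      rfl
    · rw [StabS_fix hφ' hx]
      by_cases hxa : x = a
      · subst hxa
        rw [R_of_self, R_of_self, kill_eq hw hx, map_mul, StabS_fix hφ hx,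
          kill_eq (StabS_map hφ hw) hx]
      · rw [R_of_ne hxa, R_of_ne hxa, StabS_fix hφ hx]
  have h : (φ * R a w * φ⁻¹ : MulAut (FreeGroup α)).toMonoidHom
      = (R a (φ w) : MulAut (FreeGroup α)).toMonoidHom := by
    ext x
    exact key x
  ext g
  exact DFunLike.congr_fun h g

theorem R_mem_StabS {S : Finset α} {a : α} (ha : a ∈ S) {w : FreeGroup α}
    (hw : w ∈ fsub (S.erase a)) : R a w ∈ StabS S := by
  have hk : ∀ v ∈ fsub (S.erase a), ∀ x ∈ S, R a v (FreeGroup.of x) ∈ fsub S := by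
    intro v hv x hx
    by_cases hxa : x = a
    · subst hxa
      rw [R_of_self, kill_eq hv (Finset.notMem_erase x S)]
      exact (fsub S).mul_mem (of_mem_fsub hx) (fsub_mono (Finset.erase_subset x S) hv)
    · rw [R_of_ne hxa]
      exact of_mem_fsub hx
  have h1 : ∀ x, x ∉ S → R a w (FreeGroup.of x) = FreeGroup.of x := by
    intro x hx
    have hxa : x ≠ a := fun h => hx (h ▸ ha)
    exact R_of_ne hxa w
  refine mem_StabS_of h1 (hk w hw) ?_
  intro x hx
  rw [← map_inv]
  exact hk w⁻¹ ((fsub (S.erase a)).inv_mem hw) x hx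

end AFn
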