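import Mathlib
import Pool.Agent.AFn.Defs
import Pool.Agent.AFn.BasicA

set_option autoImplicit false

namespace AFn

universe u v

variable {α : Type u} [DecidableEq α]

/-- automorphisms agreeing on the letters are equal -/
private theorem aut_ext {φ ψ : MulAut (FreeGroup α)}
    (h : ∀ x, φ (FreeGroup.of x) = ψ (FreeGroup.of x)) : φ = ψ := by
  have h1 : (φ : MulAut (FreeGroup α)).toMonoidHom = (ψ : MulAut (FreeGroup α)).toMonoidHom := by
    ext x
    exact h x
  ext g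
  exact DFunLike.congr_fun h1 g

/-- the automorphism given by two homomorphisms inverse to each other on the letters -/
private def mkAut (f g : FreeGroup α →* FreeGroup α)
    (h1 : ∀ x, g (f (FreeGroup.of x)) = FreeGroup.of x)
    (h2 : ∀ x, f (g (FreeGroup.of x)) = FreeGroup.of x) : MulAut (FreeGroup α) where
  toFun := f
  invFun := g
  left_inv := fun y => by
    have h : g.comp f = MonoidHom.id _ := by
      ext x
      exact h1 x
    exact DFunLike.congr_fun h y
  right_inv := fun y => by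
    have h : f.comp g = MonoidHom.id _ := by
      ext x
      exact h2 x
    exact DFunLike.congr_fun h y
  map_mul' := fun x y => map_mul f x y

private theorem fsub_induct {S : Finset α} {P : FreeGroup α → Prop}
    (h1 : ∀ x ∈ S, P (FreeGroup.of x)) (h2 : P 1)
    (h3 : ∀ g ∈ fsub S, ∀ h ∈ fsub S, P g → P h → P (g * h))
    (h4 : ∀ g ∈ fsub S, P g → P g⁻¹) {g : FreeGroup α} (hg : g ∈ fsub S) : P g := by
  unfold fsub at hg h3 h4
  induction hg using Subgroup.closure_induction with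
  | mem y hy =>
    obtain ⟨x, hx, rfl⟩ := hy
    exact h1 x (Finset.mem_coe.1 hx)
  | one => exact h2
  | mul y z hy hz hPy hPz => exact h3 y hy z hz hPy hPz
  | inv y hy hPy => exact h4 y hy hPy

private theorem innHom_apply {S : Finset α} {v : FreeGroup α} (hv : v ∈ fsub S)
    {g : FreeGroup α} (hg : g ∈ fsub S) : innHom S v g = v * g * v⁻¹ := by
  refine fsub_induct (S := S) (P := fun g => innHom S v g = v * g * v⁻¹) ?_ ?_ ?_ ?_ hg
  · intro x hx
    simp [innHom, hx, ret_eq hv]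
  · rw [map_one]
    group
  · intro g _ h _ h1 h2
    rw [map_mul, h1, h2]
    group
  · intro g _ h1
    rw [map_inv, h1]
    group

private theorem innHom_of {S : Finset α} (v : FreeGroup α) {x : α} (hx : x ∉ S) :
    innHom S v (FreeGroup.of x) = FreeGroup.of x := by
  simp [innHom, hx]

private theorem inn_inv {S : Finset α} {v : FreeGroup α} (hv : v ∈ fsub S) (x : α) :
    innHom S v⁻¹ (innHom S v (FreeGroup.of x)) = FreeGroup.of x := by
  by_cases hx : x ∈ S
  · have hx' := of_mem_fsub hx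
    rw [innHom_apply hv hx', innHom_apply ((fsub S).inv_mem hv)
      ((fsub S).mul_mem ((fsub S).mul_mem hv hx') ((fsub S).inv_mem hv))]
    group
  · rw [innHom_of v hx, innHom_of _ hx]

/-- conjugating the letters of `S` by `u ∈ fsub S`: the copy of the inner automorphism -/
theorem exists_inn (S : Finset α) {u : FreeGroup α} (hu : u ∈ fsub S) :
    ∃ φ ∈ StabS S, (∀ g ∈ fsub S, φ g = u * g * u⁻¹) ∧
      (∀ g ∈ fsub S, φ⁻¹ g = u⁻¹ * g * u) := by
  have hu' := (fsub S).inv_mem hu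
  have h2 : ∀ x, innHom S u (innHom S u⁻¹ (FreeGroup.of x)) = FreeGroup.of x := by
    intro x
    have := inn_inv hu' x
    rwa [inv_inv] at this
  have e1 : ∀ g ∈ fsub S, mkAut (innHom S u) (innHom S u⁻¹) (inn_inv hu) h2 g = u * g * u⁻¹ :=
    fun g hg => innHom_apply hu hg
  have e2 : ∀ g ∈ fsub S, (mkAut (innHom S u) (innHom S u⁻¹) (inn_inv hu) h2)⁻¹ g =
      u⁻¹ * g * u := by
    intro g hg
    have h3 : innHom S u⁻¹ g = u⁻¹ * g * u⁻¹⁻¹ := innHom_apply hu' hg
    rw [inv_inv] at h3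
    exact h3
  refine ⟨mkAut (innHom S u) (innHom S u⁻¹) (inn_inv hu) h2, ?_, e1, e2⟩
  refine mem_StabS_of (fun x hx => innHom_of u hx) (fun x hx => ?_) (fun x hx => ?_)
  · rw [e1 _ (of_mem_fsub hx)]
    exact (fsub S).mul_mem ((fsub S).mul_mem hu (of_mem_fsub hx)) hu'
  · rw [e2 _ (of_mem_fsub hx)]
    exact (fsub S).mul_mem ((fsub S).mul_mem hu' (of_mem_fsub hx)) hu

/-- the value of `R a w` at the letter `a` -/
private theorem R_self {S : Finset α} {a : α} (ha : a ∉ S) {w : FreeGroup α} (hw : w ∈ fsub S) :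
    R a w (FreeGroup.of a) = FreeGroup.of a * w := by
  rw [R_of_self, kill_eq hw ha]

theorem R_comm {S : Finset α} {a b : α} (hab : a ≠ b) (ha : a ∉ S) (hb : b ∉ S)
    {w w' : FreeGroup α} (hw : w ∈ fsub S) (hw' : w' ∈ fsub S) :
    R a w * R b w' = R b w' * R a w := by
  refine aut_ext fun x => ?_
  rw [MulAut.mul_apply, MulAut.mul_apply]
  by_cases hxa : x = a
  · subst hxa
    rw [R_of_ne hab, R_self ha hw, map_mul, R_of_ne hab, R_fix hb hw]
  · by_cases hxb : x = b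
    · subst hxb
      rw [R_of_ne hxa, R_self hb hw', map_mul, R_of_ne hxa, R_fix ha hw']
    · rw [R_of_ne hxa, R_of_ne hxb, R_of_ne hxa]

theorem exists_swap {S : Finset α} {a b : α} (hab : a ≠ b) (ha : a ∉ S) (hb : b ∉ S) :
    ∃ t : MulAut (FreeGroup α), ∀ w ∈ fsub S, t * R a w * t⁻¹ = R b w := by
  obtain ⟨t, ht⟩ : ∃ t : MulAut (FreeGroup α), ∀ x, t (FreeGroup.of x) =
      FreeGroup.of (Equiv.swap a b x) := by
    refine ⟨mkAut (FreeGroup.map (Equiv.swap a b)) (FreeGroup.map (Equiv.swap a b))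
      (fun x => ?_) (fun x => ?_), fun x => ?_⟩
    · simp
    · simp
    · exact FreeGroup.map.of
  refine ⟨t, fun w hw => ?_⟩
  have hS : ∀ g ∈ fsub S, t g = g := by
    intro g hg
    refine fsub_induct (S := S) (P := fun g => t g = g) ?_ (map_one t) ?_ ?_ hg
    · intro x hx
      have h1 : x ≠ a := fun h => ha (h ▸ hx)
      have h2 : x ≠ b := fun h => hb (h ▸ hx)
      rw [ht, Equiv.swap_apply_of_ne_of_ne h1 h2]
    · intro g _ h _ h1 h2
      rw [map_mul, h1, h2]
    · intro g _ h1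
      rw [map_inv, h1]
  rw [mul_inv_eq_iff_eq_mul]
  refine aut_ext fun x => ?_
  rw [MulAut.mul_apply, MulAut.mul_apply]
  by_cases hxa : x = a
  · subst hxa
    rw [R_self ha hw, map_mul, ht, Equiv.swap_apply_left, hS w hw, R_self hb hw]
  · by_cases hxb : x = b
    · subst hxb
      rw [R_of_ne hxa, ht, Equiv.swap_apply_right, R_of_ne hab]
    · rw [R_of_ne hxa, ht, Equiv.swap_apply_of_ne_of_ne hxa hxb, R_of_ne hxb]

/-- the value of `R b (of a)⁻¹` at the letter `b` -/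
private theorem R_inv_self {a b : α} (hab : a ≠ b) :
    R b (FreeGroup.of a)⁻¹ (FreeGroup.of b) = FreeGroup.of b * (FreeGroup.of a)⁻¹ := by
  have h : (FreeGroup.of a)⁻¹ ∈ fsub ({a} : Finset α) :=
    (fsub _).inv_mem (of_mem_fsub (Finset.mem_singleton_self a))
  exact R_self (fun h => hab (Finset.mem_singleton.1 h).symm) h

theorem exists_t2 {S : Finset α} {a b : α} (hab : a ≠ b) (ha : a ∉ S) (hb : b ∉ S) :
    ∃ t : MulAut (FreeGroup α), ∀ w ∈ fsub S, t * R a w * t⁻¹ = R a w * R b w := by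
  refine ⟨R b (FreeGroup.of a)⁻¹, fun w hw => ?_⟩
  rw [mul_inv_eq_iff_eq_mul]
  refine aut_ext fun x => ?_
  rw [MulAut.mul_apply, MulAut.mul_apply, MulAut.mul_apply]
  by_cases hxa : x = a
  · subst hxa
    rw [R_self ha hw, map_mul, R_of_ne hab, R_fix hb hw, R_of_ne hab, R_self ha hw]
  · by_cases hxb : x = b
    · subst hxb
      rw [R_of_ne hxa, R_inv_self hab, map_mul, R_self hb hw, map_inv, R_of_ne hab, map_mul,
        map_mul, R_of_ne hxa, R_fix ha hw, map_inv, R_self ha hw]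
      group
    · rw [R_of_ne hxa, R_of_ne hxb, R_of_ne hxb, R_of_ne hxa]

theorem exists_t3 {S : Finset α} {a b c : α} (hab : a ≠ b) (hac : a ≠ c) (hbc : b ≠ c)
    (ha : a ∉ S) (hb : b ∉ S) (hc : c ∉ S) :
    ∃ t : MulAut (FreeGroup α), ∀ w ∈ fsub S, t * R a w * t⁻¹ = R a w * R b w * R c w := by
  obtain ⟨t, ht⟩ : ∃ t : MulAut (FreeGroup α), t = R c (FreeGroup.of a)⁻¹ *
    R b (FreeGroup.of a)⁻¹ := ⟨_, rfl⟩
  have t1 : t (FreeGroup.of a) = FreeGroup.of a := by
    rw [ht, MulAut.mul_apply, R_of_ne hab, R_of_ne hac]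
  have t2 : t (FreeGroup.of b) = FreeGroup.of b * (FreeGroup.of a)⁻¹ := by
    rw [ht, MulAut.mul_apply, R_inv_self hab, map_mul, R_of_ne hbc, map_inv, R_of_ne hac]
  have t3 : t (FreeGroup.of c) = FreeGroup.of c * (FreeGroup.of a)⁻¹ := by
    rw [ht, MulAut.mul_apply, R_of_ne hbc.symm, R_inv_self hac]
  have t4 : ∀ x, x ≠ b → x ≠ c → t (FreeGroup.of x) = FreeGroup.of x := by
    intro x h1 h2
    rw [ht, MulAut.mul_apply, R_of_ne h1, R_of_ne h2]
  have t5 : ∀ w ∈ fsub S, t w = w := by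
    intro w hw
    rw [ht, MulAut.mul_apply, R_fix hb hw, R_fix hc hw]
  refine ⟨t, fun w hw => ?_⟩
  rw [mul_inv_eq_iff_eq_mul]
  refine aut_ext fun x => ?_
  rw [MulAut.mul_apply, MulAut.mul_apply, MulAut.mul_apply, MulAut.mul_apply]
  by_cases hxa : x = a
  · subst hxa
    rw [R_self ha hw, map_mul, t1, t5 w hw, R_of_ne hac, R_of_ne hab, R_self ha hw]
  · by_cases hxb : x = b
    · subst hxb
      rw [R_of_ne hxa, t2, map_mul, R_of_ne hbc, map_inv, R_of_ne hac, map_mul, R_self hb hw,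
        map_inv, R_of_ne hab, map_mul, map_mul, R_of_ne hxa, R_fix ha hw, map_inv, R_self ha hw]
      group
    · by_cases hxc : x = c
      · subst hxc
        rw [R_of_ne hxa, t3]
        simp only [map_mul, map_inv, R_self hc hw, R_of_ne hac, R_of_ne hxb, R_fix hb hw,
          R_of_ne hab, R_of_ne hxa, R_fix ha hw, R_self ha hw]
        group
      · rw [R_of_ne hxa, t4 x hxb hxc, R_of_ne hxc, R_of_ne hxb, R_of_ne hxa]

private theorem Mw_conj {S : Finset α} {w u m : FreeGroup α} (hu : u ∈ fsub S)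
    (hm : m ∈ Mw S w) : u * m * u⁻¹ ∈ Mw S w := by
  unfold Mw at hm
  induction hm using Subgroup.closure_induction with
  | mem y hy =>
    obtain ⟨v, hv, rfl⟩ := hy
    unfold Mw
    refine Subgroup.subset_closure ⟨u * v, (fsub S).mul_mem hu hv, ?_⟩
    group
  | one =>
    have e : u * 1 * u⁻¹ = 1 := by group
    rw [e]
    exact (Mw S w).one_mem
  | mul y z _ _ hy hz =>
    have e : u * (y * z) * u⁻¹ = (u * y * u⁻¹) * (u * z * u⁻¹) := by group
    rw [e]
    exact (Mw S w).mul_mem hy hz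
  | inv y _ hy =>
    have e : u * y⁻¹ * u⁻¹ = (u * y * u⁻¹)⁻¹ := by group
    rw [e]
    exact (Mw S w).inv_mem hy

theorem delta_mem {S : Finset α} {p : α} (hp : p ∈ S) {w : FreeGroup α}
    (hw : w ∈ fsub (S.erase p)) {g : FreeGroup α} (hg : g ∈ fsub S) :
    R p w g * g⁻¹ ∈ Mw S w := by
  refine fsub_induct (S := S) (P := fun g => R p w g * g⁻¹ ∈ Mw S w) ?_ ?_ ?_ ?_ hg
  · intro x hx
    by_cases hxp : x = p
    · subst hxp
      rw [R_self (Finset.notMem_erase x S) hw]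
      unfold Mw
      exact Subgroup.subset_closure ⟨FreeGroup.of x, of_mem_fsub hx, rfl⟩
    · rw [R_of_ne hxp, mul_inv_cancel]
      exact (Mw S w).one_mem
  · rw [map_one, inv_one, mul_one]
    exact (Mw S w).one_mem
  · intro g hg h hh h1 h2
    have e : R p w (g * h) * (g * h)⁻¹ = (R p w g * g⁻¹) * (g * (R p w h * h⁻¹) * g⁻¹) := by
      rw [map_mul]
      group
    show R p w (g * h) * (g * h)⁻¹ ∈ Mw S w
    rw [e]
    exact (Mw S w).mul_mem h1 (Mw_conj hg h2)
  · intro g hg h1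
    have e : R p w g⁻¹ * g⁻¹⁻¹ = g⁻¹ * (R p w g * g⁻¹)⁻¹ * g⁻¹⁻¹ := by
      rw [map_inv]
      group
    show R p w g⁻¹ * g⁻¹⁻¹ ∈ Mw S w
    rw [e]
    exact Mw_conj ((fsub S).inv_mem hg) ((Mw S w).inv_mem h1)

theorem Mw_le {K : Subgroup (FreeGroup α)} (hK : K.Normal) {S : Finset α}
    {w : FreeGroup α} (hw : w ∈ K) (hwS : w ∈ fsub S) : Mw S w ≤ K ⊓ fsub S := by
  unfold Mw
  rw [Subgroup.closure_le]
  rintro x ⟨u, hu, rfl⟩
  exact ⟨hK.conj_mem w hw u, (fsub S).mul_mem ((fsub S).mul_mem hu hwS) ((fsub S).inv_mem hu)⟩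

theorem Ctx.Kn {H : Subgroup (MulAut (FreeGroup α))} {K : Subgroup (FreeGroup α)}
    (hc : Ctx H K) : K.Normal := by
  refine ⟨fun n hn g => ?_⟩
  have h := hc.Kc (MulAut.conj g) n hn
  rwa [MulAut.conj_apply] at h

/-- the special conjugate of `R b (u * w * u⁻¹)` which acts on `fsub (S.erase b)` as the
conjugation by `u * w * u⁻¹` -/
theorem exists_TT {S W : Finset α} {b : α} (hb : b ∈ S) (hW : W ⊆ S.erase b)
    {w u : FreeGroup α} (hw : w ∈ fsub W) (hu : u ∈ fsub (S.erase b)) :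
    ∃ ψ ∈ StabS S, ∀ g ∈ fsub (S.erase b),
      (ψ * R b w * ψ⁻¹) g = (u * w * u⁻¹) * g * (u * w * u⁻¹)⁻¹ := by
  have hbS : FreeGroup.of b ∈ fsub S := of_mem_fsub hb
  have hbn : b ∉ S.erase b := Finset.notMem_erase b S
  have hw' : w ∈ fsub (S.erase b) := fsub_mono hW hw
  obtain ⟨f, hf, f1, f2⟩ := exists_inn S ((fsub S).inv_mem hbS)
  obtain ⟨k, hk, k1, k2⟩ := exists_inn (S.erase b) hu
  obtain ⟨m, hm⟩ : ∃ m, m = u * w * u⁻¹ := ⟨_, rfl⟩
  have hmS : m ∈ fsub (S.erase b) := by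
    rw [hm]
    exact (fsub _).mul_mem ((fsub _).mul_mem hu hw') ((fsub _).inv_mem hu)
  have hmS' : m ∈ fsub S := fsub_mono (Finset.erase_subset b S) hmS
  refine ⟨f * k, (StabS S).mul_mem hf (StabS_mono (Finset.erase_subset b S) hk), ?_⟩
  intro g hg
  have hgS : g ∈ fsub S := fsub_mono (Finset.erase_subset b S) hg
  have e1 : f * k * R b w * (f * k)⁻¹ = f * R b m * f⁻¹ := by
    have e2 : k * R b w * k⁻¹ = R b m := by
      rw [conj_R hk hbn hw', k1 w hw', hm]
    rw [← e2]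
    group
  have e3 : R b m (FreeGroup.of b * g * (FreeGroup.of b)⁻¹) =
      FreeGroup.of b * m * g * (FreeGroup.of b * m)⁻¹ := by
    rw [map_mul, map_mul, map_inv, R_self hbn hmS, R_fix hbn hg]
  rw [e1, ← hm, MulAut.mul_apply, MulAut.mul_apply, f2 g hgS, inv_inv, e3, f1]
  · group
  · exact (fsub S).mul_mem ((fsub S).mul_mem ((fsub S).mul_mem hbS hmS') hgS)
      ((fsub S).inv_mem ((fsub S).mul_mem hbS hmS'))

end AFn
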