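import Mathlib

set_option autoImplicit false

namespace AFn

/-- a homomorphism to `ℂ` which is nonzero on a given element of infinite order -/
theorem exists_hom_ne_zero {A : Type*} [AddCommGroup A] (z : A)
    (hz : ∀ k : ℕ, k ≠ 0 → k • z ≠ 0) : ∃ χ : A →+ ℂ, χ z ≠ 0 := by
  have hB : Module.Baer ℤ ℚ := Module.Baer.of_divisible _
  have hinj : Function.Injective (zmultiplesHom A z) := by
    rw [injective_iff_map_eq_zero]
    intro k hk
    rw [zmultiplesHom_apply] at hk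
    by_contra hk0
    have h1 : k.natAbs • z = 0 := by
      obtain ⟨j, rfl | rfl⟩ := Int.eq_nat_or_neg k
      · rw [Int.natAbs_natCast]
        rwa [natCast_zsmul] at hk
      · rw [Int.natAbs_neg, Int.natAbs_natCast]
        rwa [neg_smul, natCast_zsmul, neg_eq_zero] at hk
    exact hz _ (Int.natAbs_ne_zero.mpr hk0) h1
  obtain ⟨χ, hχ⟩ := hB.extension_property_addMonoidHom (zmultiplesHom A z) hinj
    (Int.castAddHom ℚ)
  refine ⟨(algebraMap ℚ ℂ).toAddMonoidHom.comp χ, ?_⟩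
  have h1 : χ z = 1 := by
    have h2 := DFunLike.congr_fun hχ 1
    rw [AddMonoidHom.comp_apply, zmultiplesHom_apply, one_smul] at h2
    rw [h2]
    simp
  show (algebraMap ℚ ℂ) (χ z) ≠ 0
  rw [h1, map_one]
  exact one_ne_zero

/-- an additive functional which factors through a commutative representation -/
theorem exists_chi {M : Type*} [Monoid M] {F : Type*} [Group F] (A : Subgroup F) (Ψ : F → M)
    (h1 : Ψ 1 = 1) (hmul : ∀ x ∈ A, ∀ y ∈ A, Ψ (x * y) = Ψ x * Ψ y)
    (hcomm : ∀ x ∈ A, ∀ y ∈ A, Ψ x * Ψ y = Ψ y * Ψ x) (z : F) (hz : z ∈ A)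
    (hinf : ∀ k : ℕ, k ≠ 0 → Ψ (z ^ k) ≠ 1) :
    ∃ c : F → ℂ, (∀ x ∈ A, ∀ y ∈ A, c (x * y) = c x + c y) ∧
      (∀ x ∈ A, ∀ y ∈ A, Ψ x = Ψ y → c x = c y) ∧ c z ≠ 0 := by
  classical
  let f0 : A →* M :=
    { toFun := fun x => Ψ x
      map_one' := h1
      map_mul' := fun x y => hmul x x.2 y y.2 }
  let f : A →* Mˣ := f0.toHomUnits
  have hf : ∀ x : A, ((f x : Mˣ) : M) = Ψ x := fun x => rfl
  letI hC : CommGroup f.range :=
    { (inferInstance : Group f.range) with
      mul_comm := by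
        rintro ⟨_, x, rfl⟩ ⟨_, y, rfl⟩
        apply Subtype.ext
        apply Units.ext
        exact hcomm x x.2 y y.2 }
  obtain ⟨χ, hχ⟩ := exists_hom_ne_zero (A := Additive f.range)
    (Additive.ofMul (f.rangeRestrict ⟨z, hz⟩)) (by
      intro k hk h
      apply hinf k hk
      have h2 : (f.rangeRestrict ⟨z, hz⟩) ^ k = 1 := by
        rw [← ofMul_pow] at h
        exact Additive.ofMul.injective h
      rw [← map_pow] at h2
      have h3 : f (⟨z, hz⟩ ^ k) = 1 := congrArg Subtype.val h2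
      have h4 : ((f (⟨z, hz⟩ ^ k) : Mˣ) : M) = 1 := by rw [h3]; rfl
      rw [hf] at h4
      exact h4)
  refine ⟨fun x => if hx : x ∈ A then χ (Additive.ofMul (f.rangeRestrict ⟨x, hx⟩)) else 0,
    ?_, ?_, ?_⟩
  · intro x hx y hy
    show (if h : x * y ∈ A then χ (Additive.ofMul (f.rangeRestrict ⟨x * y, h⟩)) else 0) =
      (if h : x ∈ A then χ (Additive.ofMul (f.rangeRestrict ⟨x, h⟩)) else 0) +
      (if h : y ∈ A then χ (Additive.ofMul (f.rangeRestrict ⟨y, h⟩)) else 0)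
    rw [dif_pos (A.mul_mem hx hy), dif_pos hx, dif_pos hy, ← map_add, ← ofMul_mul, ← map_mul]
    rfl
  · intro x hx y hy h
    show (if h : x ∈ A then χ (Additive.ofMul (f.rangeRestrict ⟨x, h⟩)) else 0) =
      (if h : y ∈ A then χ (Additive.ofMul (f.rangeRestrict ⟨y, h⟩)) else 0)
    rw [dif_pos hx, dif_pos hy]
    have h2 : f.rangeRestrict ⟨x, hx⟩ = f.rangeRestrict ⟨y, hy⟩ := by
      apply Subtype.ext
      apply Units.ext
      exact h
    rw [h2]
  · show (if h : z ∈ A then χ (Additive.ofMul (f.rangeRestrict ⟨z, h⟩)) else 0) ≠ 0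
    rw [dif_pos hz]
    exact hχ

end AFn
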