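import Mathlib

/-!
# Cocycles and a transfer argument

Proof plan.

`cocycle_trivial`: `β (g * q.out) = β g + act g (β q.out)` for `q : P ⧸ P0` and
`β (g * q.out) = β ((g • q).out)` because `g * q.out = (g • q).out * p` with `p ∈ P0`,
`β p = 0`. Sum over `q` (the permutation `q ↦ g • q` of `P ⧸ P0`): with
`B = ∑ q, β q.out` one gets `B = n • β g + act g B`, `n = P0.index ≠ 0`. Take
`Λ = - (n : ℂ)⁻¹ • B`.

`cocycle_ext`: `c g = ∑ q, η (g * q.out * ((g • q).out)⁻¹)`.

`transfer_zero`: the transfer `t g = ∑ q, h (((g • q).out)⁻¹ * g * q.out)` is additive on `P`;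
`t (x ^ k) = n * h (x ^ k)` for `x ^ k ∈ P0` and `t g = n * h g` for `g ∈ P0`.
-/

set_option autoImplicit false

namespace AFn

universe u v

private theorem out_mem {P : Type u} [Group P] (P0 : Subgroup P) (g : P) (q : P ⧸ P0) :
    ((g • q).out)⁻¹ * (g * q.out) ∈ P0 := by
  have h1 : ((g • q).out : P ⧸ P0) = ((g * q.out : P) : P ⧸ P0) := by
    rw [QuotientGroup.out_eq']
    conv_lhs => rw [← QuotientGroup.out_eq' q]
    rfl
  exact QuotientGroup.eq.mp h1

private theorem out_mem' {P : Type u} [Group P] (P0 : Subgroup P) (hn : P0.Normal) (g : P)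
    (q : P ⧸ P0) : g * q.out * ((g • q).out)⁻¹ ∈ P0 := by
  have h1 := out_mem P0 g q
  have h2 := hn.conj_mem _ h1 (g • q).out
  have h3 : (g • q).out * (((g • q).out)⁻¹ * (g * q.out)) * ((g • q).out)⁻¹ =
      g * q.out * ((g • q).out)⁻¹ := by group
  rw [h3] at h2
  exact h2

private theorem smul_eq_self {P : Type u} [Group P] (P0 : Subgroup P) (hn : P0.Normal) (g : P)
    (hg : g ∈ P0) (q : P ⧸ P0) : g • q = q := by
  conv_rhs => rw [← QuotientGroup.out_eq' q]
  conv_lhs => rw [← QuotientGroup.out_eq' q]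
  change ((g * q.out : P) : P ⧸ P0) = ((q.out : P) : P ⧸ P0)
  rw [QuotientGroup.eq]
  have h1 := hn.conj_mem _ (P0.inv_mem hg) (q.out)⁻¹
  have h2 : (q.out)⁻¹ * g⁻¹ * ((q.out)⁻¹)⁻¹ = (g * q.out)⁻¹ * q.out := by group
  rw [h2] at h1
  exact h1

/-- a cocycle that vanishes on a subgroup of finite index is a coboundary -/
theorem cocycle_trivial {P : Type u} [Group P] (P0 : Subgroup P) (hf : P0.FiniteIndex)
    {M : Type v} [AddCommGroup M] [Module ℂ M] (act : P → M →ₗ[ℂ] M) (β : P → M)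
    (hβ : ∀ g h, β (g * h) = β g + act g (β h)) (h0 : ∀ g ∈ P0, β g = 0)
    (N : Submodule ℂ M) (hN : ∀ g, β g ∈ N) :
    ∃ Λ ∈ N, ∀ g, β g = act g Λ - Λ := by
  classical
  have := hf
  let _ : Fintype (P ⧸ P0) := P0.fintypeQuotientOfFiniteIndex
  have hcard : Fintype.card (P ⧸ P0) = P0.index := by
    rw [Subgroup.index_eq_card, Nat.card_eq_fintype_card]
  have hidx : (P0.index : ℂ) ≠ 0 := by
    exact_mod_cast hf.index_ne_zero
  set B : M := ∑ q : P ⧸ P0, β q.out with hB
  have key : ∀ g, B = (P0.index : ℂ) • β g + act g B := by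
    intro g
    have h1 : ∀ q : P ⧸ P0, β ((g • q).out) = β g + act g (β q.out) := by
      intro q
      have h2 : g * q.out = (g • q).out * (((g • q).out)⁻¹ * (g * q.out)) := by group
      rw [← hβ, h2, hβ, h0 _ (out_mem P0 g q), map_zero, add_zero]
    have h3 : ∑ q : P ⧸ P0, β ((g • q).out) = B := by
      rw [hB]
      exact Equiv.sum_comp (MulAction.toPerm g) (fun q : P ⧸ P0 => β q.out)
    have h4 : ∑ q : P ⧸ P0, β ((g • q).out) = (P0.index : ℂ) • β g + act g B := by
      rw [Finset.sum_congr rfl (fun q _ => h1 q), Finset.sum_add_distrib, ← map_sum, ← hB,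
        Finset.sum_const, Finset.card_univ, hcard, Nat.cast_smul_eq_nsmul]
    rw [← h4, h3]
  refine ⟨-((P0.index : ℂ)⁻¹ • B), ?_, ?_⟩
  · exact N.neg_mem (N.smul_mem _ (N.sum_mem (fun q _ => hN _)))
  · intro g
    have h4 : (P0.index : ℂ) • β g = B - act g B := by
      rw [eq_sub_iff_add_eq]
      exact (key g).symm
    have h5 : β g = (P0.index : ℂ)⁻¹ • (B - act g B) := by
      rw [← h4, smul_smul, inv_mul_cancel₀ hidx, one_smul]
    rw [h5, map_neg, map_smul, smul_sub]
    abel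

/-- extension of an equivariant homomorphism from a normal subgroup of finite index to a
cocycle -/
theorem cocycle_ext {P : Type u} [Group P] (P0 : Subgroup P) (hn : P0.Normal)
    (hf : P0.FiniteIndex) {M : Type v} [AddCommGroup M] [Module ℂ M] (act : P → M →ₗ[ℂ] M)
    (η : P → M) (hadd : ∀ g ∈ P0, ∀ g' ∈ P0, η (g * g') = η g + η g')
    (heq : ∀ y : P, ∀ g ∈ P0, η (y * g * y⁻¹) = act y (η g))
    (N : Submodule ℂ M) (hN : ∀ g ∈ P0, η g ∈ N) :
    ∃ c : P → M, (∀ g h, c (g * h) = c g + act g (c h)) ∧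
      (∀ g ∈ P0, c g = (P0.index : ℂ) • η g) ∧ (∀ g, c g ∈ N) := by
  classical
  have := hf
  let _ : Fintype (P ⧸ P0) := P0.fintypeQuotientOfFiniteIndex
  have hcard : Fintype.card (P ⧸ P0) = P0.index := by
    rw [Subgroup.index_eq_card, Nat.card_eq_fintype_card]
  refine ⟨fun g => ∑ q : P ⧸ P0, η (g * q.out * ((g • q).out)⁻¹), ?_, ?_, ?_⟩
  · intro g h
    have h1 : ∀ q : P ⧸ P0, η (g * h * q.out * (((g * h) • q).out)⁻¹) =
        act g (η (h * q.out * ((h • q).out)⁻¹)) +
          η (g * (h • q).out * ((g • (h • q)).out)⁻¹) := by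
      intro q
      have h2 : g * h * q.out * (((g * h) • q).out)⁻¹ =
          (g * (h * q.out * ((h • q).out)⁻¹) * g⁻¹) *
            (g * (h • q).out * ((g • (h • q)).out)⁻¹) := by
        rw [mul_smul]
        group
      rw [h2, hadd _ (hn.conj_mem _ (out_mem' P0 hn h q) g) _ (out_mem' P0 hn g (h • q)),
        heq _ _ (out_mem' P0 hn h q)]
    have h3 : ∑ q : P ⧸ P0, η (g * (h • q).out * ((g • (h • q)).out)⁻¹) =
        ∑ q : P ⧸ P0, η (g * q.out * ((g • q).out)⁻¹) :=
      Equiv.sum_comp (MulAction.toPerm h)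
        (fun q : P ⧸ P0 => η (g * q.out * ((g • q).out)⁻¹))
    change ∑ q : P ⧸ P0, η (g * h * q.out * (((g * h) • q).out)⁻¹) =
      ∑ q : P ⧸ P0, η (g * q.out * ((g • q).out)⁻¹) +
        act g (∑ q : P ⧸ P0, η (h * q.out * ((h • q).out)⁻¹))
    rw [Finset.sum_congr rfl (fun q _ => h1 q), Finset.sum_add_distrib, h3, map_sum, add_comm]
  · intro g hg
    change ∑ q : P ⧸ P0, η (g * q.out * ((g • q).out)⁻¹) = _
    have h1 : ∀ q : P ⧸ P0, η (g * q.out * ((g • q).out)⁻¹) = η g := by
      intro q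
      rw [smul_eq_self P0 hn g hg q, mul_inv_cancel_right]
    rw [Finset.sum_congr rfl (fun q _ => h1 q), Finset.sum_const, Finset.card_univ, hcard,
      Nat.cast_smul_eq_nsmul]
  · intro g
    exact N.sum_mem (fun q _ => hN _ (out_mem' P0 hn g q))

/-- an invariant additive map on a normal subgroup of finite index that vanishes on powers of
generators is zero -/
theorem transfer_zero {P : Type u} [Group P] (P0 : Subgroup P) (hn : P0.Normal)
    (hf : P0.FiniteIndex) (h : P → ℂ)
    (hadd : ∀ g ∈ P0, ∀ g' ∈ P0, h (g * g') = h g + h g')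
    (hinv : ∀ y : P, ∀ g ∈ P0, h (y * g * y⁻¹) = h g) (X : Set P)
    (hX : Subgroup.closure X = ⊤) (hpow : ∀ x ∈ X, ∀ k : ℕ, x ^ k ∈ P0 → h (x ^ k) = 0) :
    ∀ g ∈ P0, h g = 0 := by
  classical
  have := hf
  let _ : Fintype (P ⧸ P0) := P0.fintypeQuotientOfFiniteIndex
  have hcard : Fintype.card (P ⧸ P0) = P0.index := by
    rw [Subgroup.index_eq_card, Nat.card_eq_fintype_card]
  have hidx : (P0.index : ℂ) ≠ 0 := by
    exact_mod_cast hf.index_ne_zero
  set t : P → ℂ := fun g => ∑ q : P ⧸ P0, h (((g • q).out)⁻¹ * (g * q.out)) with ht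
  have tmul : ∀ g g', t (g * g') = t g + t g' := by
    intro g g'
    have h1 : ∀ q : P ⧸ P0, h ((((g * g') • q).out)⁻¹ * (g * g' * q.out)) =
        h (((g • (g' • q)).out)⁻¹ * (g * (g' • q).out)) +
          h (((g' • q).out)⁻¹ * (g' * q.out)) := by
      intro q
      have h2 : (((g * g') • q).out)⁻¹ * (g * g' * q.out) =
          (((g • (g' • q)).out)⁻¹ * (g * (g' • q).out)) *
            (((g' • q).out)⁻¹ * (g' * q.out)) := by
        rw [mul_smul]
        group
      rw [h2, hadd _ (out_mem P0 g (g' • q)) _ (out_mem P0 g' q)]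
    have h3 : ∑ q : P ⧸ P0, h (((g • (g' • q)).out)⁻¹ * (g * (g' • q).out)) =
        ∑ q : P ⧸ P0, h (((g • q).out)⁻¹ * (g * q.out)) :=
      Equiv.sum_comp (MulAction.toPerm g')
        (fun q : P ⧸ P0 => h (((g • q).out)⁻¹ * (g * q.out)))
    change ∑ q : P ⧸ P0, h ((((g * g') • q).out)⁻¹ * (g * g' * q.out)) = _
    rw [Finset.sum_congr rfl (fun q _ => h1 q), Finset.sum_add_distrib, h3]
  have tP0 : ∀ g ∈ P0, t g = (P0.index : ℂ) * h g := by
    intro g hg
    change ∑ q : P ⧸ P0, h (((g • q).out)⁻¹ * (g * q.out)) = _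
    have h1 : ∀ q : P ⧸ P0, h (((g • q).out)⁻¹ * (g * q.out)) = h g := by
      intro q
      rw [smul_eq_self P0 hn g hg q]
      have h2 := hinv (q.out)⁻¹ g hg
      rw [inv_inv, mul_assoc] at h2
      exact h2
    rw [Finset.sum_congr rfl (fun q _ => h1 q), Finset.sum_const, Finset.card_univ, hcard,
      nsmul_eq_mul]
  have t1 : t 1 = 0 := by
    have := tmul 1 1
    rw [mul_one] at this
    exact left_eq_add.mp this
  have tpow : ∀ g (k : ℕ), t (g ^ k) = k * t g := by
    intro g k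
    induction k with
    | zero => simp [t1]
    | succ k ih =>
      rw [pow_succ, tmul, ih]
      push_cast
      ring
  have tX : ∀ x ∈ X, t x = 0 := by
    intro x hx
    obtain ⟨k, hk0, -, hk⟩ :=
      Subgroup.exists_pow_mem_of_index_ne_zero hf.index_ne_zero x
    have h1 := tP0 _ hk
    rw [hpow x hx k hk, mul_zero, tpow] at h1
    rcases mul_eq_zero.mp h1 with h2 | h2
    · exact absurd (Nat.cast_eq_zero.mp h2) (by omega)
    · exact h2
  have tall : ∀ g, t g = 0 := by
    intro g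
    have hg : g ∈ Subgroup.closure X := by
      rw [hX]
      exact Subgroup.mem_top g
    induction hg using Subgroup.closure_induction with
    | mem x hx => exact tX x hx
    | one => exact t1
    | mul x y _ _ hx hy => rw [tmul, hx, hy, add_zero]
    | inv x _ hx =>
      have h1 := tmul x x⁻¹
      rw [mul_inv_cancel, t1, hx, zero_add] at h1
      exact h1.symm
  intro g hg
  have h1 := tP0 g hg
  rw [tall g] at h1
  rcases mul_eq_zero.mp h1.symm with h2 | h2
  · exact absurd h2 hidx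
  · exact h2

end AFn
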