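import Mathlib

/-!
# The unitary trick

Put `u ↦ u * t⁻¹` in `h`: `Λ (u * t⁻¹) = Λ u - φ u`. The sum of `‖Λ (u * t⁻¹)‖ ^ 2` over `u : G`
is the sum of `‖Λ u‖ ^ 2` (`Equiv.mulRight`), so
`∑ ‖φ u‖ ^ 2 = 2 * re ∑ conj (φ u) * Λ u` and the last sum is zero: it is
`(card Y)⁻¹ * ∑ y : Y, ∑ u, conj (φ (u * y)) * Λ (u * y)` with `Λ (u * y) = Λ u`.
-/

set_option autoImplicit false

namespace AFn

universe u v

/-- the unitary trick -/
theorem unitary_zero {G : Type u} [Group G] [Fintype G] (Y : Subgroup G) [Fintype Y] (t : G)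
    (Λ φ : G → ℂ) (hΛ : ∀ u, ∀ y ∈ Y, Λ (u * y) = Λ u)
    (h : ∀ u, φ (u * t) = Λ (u * t) - Λ u) (havg : ∀ u, ∑ y : Y, φ (u * y) = 0) :
    ∀ u, φ u = 0 := by
  have h1 : ∀ u, Λ (u * t⁻¹) = Λ u - φ u := by
    intro u
    have h2 := h (u * t⁻¹)
    rw [inv_mul_cancel_right] at h2
    rw [h2]; ring
  have h2 : ∑ u, Complex.normSq (Λ (u * t⁻¹)) = ∑ u, Complex.normSq (Λ u) :=
    Equiv.sum_comp (Equiv.mulRight t⁻¹) (fun u => Complex.normSq (Λ u))
  have h3 : ∑ u, (starRingEnd ℂ) (φ u) * Λ u = 0 := by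
    have e1 : ∀ y : Y, ∑ u, (starRingEnd ℂ) (φ u) * Λ u =
        ∑ u, (starRingEnd ℂ) (φ (u * y)) * Λ u := by
      intro y
      rw [← Equiv.sum_comp (Equiv.mulRight (y : G)) (fun u => (starRingEnd ℂ) (φ u) * Λ u)]
      refine Finset.sum_congr rfl fun u _ => ?_
      show (starRingEnd ℂ) (φ (u * y)) * Λ (u * y) = _
      rw [hΛ u y y.2]
    have e2 : ∑ _y : Y, ∑ u, (starRingEnd ℂ) (φ u) * Λ u = 0 := by
      rw [Finset.sum_congr rfl (fun y _ => e1 y), Finset.sum_comm]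
      refine Finset.sum_eq_zero fun u _ => ?_
      rw [← Finset.sum_mul, ← map_sum, havg u, map_zero, zero_mul]
    rw [Finset.sum_const, nsmul_eq_mul] at e2
    rcases mul_eq_zero.mp e2 with e3 | e3
    · exfalso
      rw [Nat.cast_eq_zero, Finset.card_univ] at e3
      exact Fintype.card_ne_zero e3
    · exact e3
  have h4 : ∀ u, Complex.normSq (Λ (u * t⁻¹)) =
      Complex.normSq (Λ u) + Complex.normSq (φ u) - 2 * ((starRingEnd ℂ) (φ u) * Λ u).re := by
    intro u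
    rw [h1, Complex.normSq_sub]
    have : (Λ u * (starRingEnd ℂ) (φ u)).re = ((starRingEnd ℂ) (φ u) * Λ u).re := by
      rw [mul_comm]
    rw [this]
  have h5 : ∑ u, Complex.normSq (φ u) = 0 := by
    have h6 := h2
    rw [Finset.sum_congr rfl (fun u _ => h4 u), Finset.sum_sub_distrib, Finset.sum_add_distrib,
      ← Finset.mul_sum] at h6
    have h7 : ∑ u, ((starRingEnd ℂ) (φ u) * Λ u).re = 0 := by
      rw [← Complex.re_sum, h3, Complex.zero_re]
    rw [h7] at h6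
    linarith
  intro u
  have h6 := (Finset.sum_eq_zero_iff_of_nonneg (fun u _ => Complex.normSq_nonneg (φ u))).mp h5
    u (Finset.mem_univ _)
  exact Complex.normSq_eq_zero.mp h6

end AFn
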