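import Mathlib

set_option autoImplicit false

namespace AFn

universe v

attribute [local instance 100] LieRing.ofAssociativeRing

/-- an endomorphism all of whose powers have trace zero is nilpotent -/
private lemma Kol_nil {V : Type v} [AddCommGroup V] [Module ℂ V] [FiniteDimensional ℂ V]
    (X : Module.End ℂ V) (h : ∀ k : ℕ, 1 ≤ k → LinearMap.trace ℂ V (X ^ k) = 0) :
    IsNilpotent X := by
  classical
  have hne : X.charpoly ≠ 0 := (LinearMap.charpoly_monic X).ne_zero
  obtain ⟨g, hg, hng⟩ := Polynomial.exists_eq_pow_rootMultiplicity_mul_and_not_dvd X.charpoly hne 0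
  set m := X.charpoly.rootMultiplicity 0 with hm
  rw [Polynomial.C_0, sub_zero] at hg hng
  have hcop : IsCoprime ((Polynomial.X : Polynomial ℂ) ^ (m + 1)) g :=
    ((Polynomial.irreducible_X (R := ℂ)).coprime_iff_not_dvd.mpr hng).pow_left
  obtain ⟨u, v, huv⟩ := hcop
  have htr : ∀ q : Polynomial ℂ,
      LinearMap.trace ℂ V (Polynomial.aeval X (q * Polynomial.X ^ (m + 1))) = 0 := by
    intro q
    induction q using Polynomial.induction_on' with
    | add p q hp hq => rw [add_mul, map_add, map_add, hp, hq, add_zero]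
    | monomial n a =>
      rw [Polynomial.monomial_mul_X_pow, Polynomial.aeval_monomial]
      rw [← Algebra.smul_def, map_smul, h _ (by omega), smul_zero]
  have hχ : Polynomial.aeval X X.charpoly = 0 := LinearMap.aeval_self_charpoly X
  set e : Module.End ℂ V := Polynomial.aeval X (u * Polynomial.X ^ (m + 1)) with he
  have hf : 1 - e = Polynomial.aeval X (v * g) := by
    rw [he, ← map_one (Polynomial.aeval (R := ℂ) X), ← map_sub, ← huv]
    congr 1
    ring
  have hee : e * (1 - e) = 0 := by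
    rw [hf, he, ← map_mul]
    have : u * Polynomial.X ^ (m + 1) * (v * g) = (u * v * Polynomial.X) * X.charpoly := by
      rw [hg]; ring
    rw [this, map_mul, hχ, mul_zero]
  have hid : IsIdempotentElem e := by
    have : e - e * e = 0 := by rw [← hee]; noncomm_ring
    exact (sub_eq_zero.mp this).symm
  have he0 : e = 0 := LinearMap.IsIdempotentElem.eq_zero_of_trace_eq_zero hid (htr u)
  refine ⟨m, ?_⟩
  have h1 : Polynomial.aeval X (v * g) = (1 : Module.End ℂ V) := by rw [← hf, he0, sub_zero]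
  have h2 : Polynomial.aeval X ((Polynomial.X : Polynomial ℂ) ^ m * (v * g)) = 0 := by
    have : (Polynomial.X : Polynomial ℂ) ^ m * (v * g) = v * X.charpoly := by rw [hg]; ring
    rw [this, map_mul, hχ, mul_zero]
  rw [map_mul, h1, mul_one, map_pow, Polynomial.aeval_X] at h2
  exact h2

/-- Kolchin's theorem: a multiplicatively closed set of unipotent endomorphisms of a nonzero
finite-dimensional complex vector space has a common nonzero fixed vector -/
theorem kolchin {V : Type v} [AddCommGroup V] [Module ℂ V] [FiniteDimensional ℂ V]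
    [Nontrivial V] (E : Set (Module.End ℂ V)) (hmul : ∀ s ∈ E, ∀ t ∈ E, s * t ∈ E)
    (hu : ∀ s ∈ E, IsNilpotent (s - 1)) : ∃ x : V, x ≠ 0 ∧ ∀ s ∈ E, s x = x := by
  classical
  set I : Submodule ℂ (Module.End ℂ V) := Submodule.span ℂ ((fun s => s - 1) '' E) with hI
  have hIm : ∀ a ∈ I, ∀ b ∈ I, a * b ∈ I := by
    intro a ha b hb
    induction ha using Submodule.span_induction with
    | mem a ha =>
      obtain ⟨s, hs, rfl⟩ := ha
      induction hb using Submodule.span_induction with
      | mem b hb =>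
        obtain ⟨t, ht, rfl⟩ := hb
        have e1 : (s - 1) * (t - 1) = (s * t - 1) - (s - 1) - (t - 1) := by noncomm_ring
        change (s - 1) * (t - 1) ∈ I
        rw [e1]
        exact I.sub_mem (I.sub_mem (Submodule.subset_span ⟨_, hmul s hs t ht, rfl⟩)
          (Submodule.subset_span ⟨_, hs, rfl⟩)) (Submodule.subset_span ⟨_, ht, rfl⟩)
      | zero => rw [mul_zero]; exact I.zero_mem
      | add x y _ _ hx hy => rw [mul_add]; exact I.add_mem hx hy
      | smul c x _ hx => rw [mul_smul_comm]; exact I.smul_mem c hx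
    | zero => rw [zero_mul]; exact I.zero_mem
    | add x y _ _ hx hy => rw [add_mul]; exact I.add_mem hx hy
    | smul c x _ hx => rw [smul_mul_assoc]; exact I.smul_mem c hx
  have hItr : ∀ a ∈ I, LinearMap.trace ℂ V a = 0 := by
    intro a ha
    induction ha using Submodule.span_induction with
    | mem a ha =>
      obtain ⟨s, hs, rfl⟩ := ha
      exact (LinearMap.isNilpotent_trace_of_isNilpotent (hu s hs)).eq_zero
    | zero => exact map_zero _
    | add x y _ _ hx hy => rw [map_add, hx, hy, add_zero]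
    | smul c x _ hx => rw [map_smul, hx, smul_zero]
  have hIp : ∀ a ∈ I, ∀ k : ℕ, 1 ≤ k → a ^ k ∈ I := by
    intro a ha k hk
    induction k, hk using Nat.le_induction with
    | base => rw [pow_one]; exact ha
    | succ k _ ih => rw [pow_succ]; exact hIm _ ih _ ha
  have hInil : ∀ a ∈ I, IsNilpotent a := fun a ha =>
    Kol_nil a (fun k hk => hItr _ (hIp a ha k hk))
  let L : LieSubalgebra ℂ (Module.End ℂ V) :=
    { I with
      lie_mem' := by
        intro a b ha hb
        change a ∈ I at ha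
        change b ∈ I at hb
        change ⁅a, b⁆ ∈ I
        rw [Ring.lie_def]
        exact I.sub_mem (hIm a ha b hb) (hIm b hb a ha) }
  have hL : ∀ a : Module.End ℂ V, a ∈ L ↔ a ∈ I := fun a => Iff.rfl
  have hnil : LieModule.IsNilpotent L V := by
    rw [LieModule.isNilpotent_iff_forall' (R := ℂ)]
    intro x
    have : LieModule.toEnd ℂ L V x = (x : Module.End ℂ V) := by
      ext y
      rfl
    rw [this]
    exact hInil _ ((hL _).mp x.2)
  have hnt := LieModule.nontrivial_max_triv_of_isNilpotent ℂ L V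
  obtain ⟨⟨x, hx⟩, hx0⟩ := exists_ne (0 : LieModule.maxTrivSubmodule ℂ L V)
  refine ⟨x, fun h => hx0 (Subtype.ext h), fun s hs => ?_⟩
  rw [LieModule.mem_maxTrivSubmodule] at hx
  have h1 : (s - 1) ∈ L := (hL _).mpr (Submodule.subset_span ⟨s, hs, rfl⟩)
  have h2 := hx ⟨s - 1, h1⟩
  have h3 : (s - 1) x = 0 := h2
  rw [LinearMap.sub_apply, Module.End.one_apply, sub_eq_zero] at h3
  exact h3

/-- the dual version -/
theorem kolchin_dual {V : Type v} [AddCommGroup V] [Module ℂ V] [FiniteDimensional ℂ V]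
    [Nontrivial V] (E : Set (Module.End ℂ V)) (hmul : ∀ s ∈ E, ∀ t ∈ E, s * t ∈ E)
    (hu : ∀ s ∈ E, IsNilpotent (s - 1)) :
    ∃ l : Module.Dual ℂ V, l ≠ 0 ∧ ∀ s ∈ E, ∀ x, l (s x) = l x := by
  classical
  have hpow : ∀ (f : Module.End ℂ V) (k : ℕ),
      (LinearMap.dualMap f : Module.End ℂ (Module.Dual ℂ V)) ^ k = LinearMap.dualMap (f ^ k) := by
    intro f k
    induction k with
    | zero => rw [pow_zero, pow_zero]; exact (LinearMap.dualMap_id).symm
    | succ k ih =>
      rw [pow_succ, ih, pow_succ']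
      exact (LinearMap.dualMap_comp_dualMap (f ^ k) f)
  obtain ⟨l, hl0, hl⟩ := kolchin (V := Module.Dual ℂ V)
    ((fun s : Module.End ℂ V => (LinearMap.dualMap s : Module.End ℂ (Module.Dual ℂ V))) '' E) (by
      rintro _ ⟨s, hs, rfl⟩ _ ⟨t, ht, rfl⟩
      exact ⟨t * s, hmul t ht s hs, rfl⟩) (by
      rintro _ ⟨s, hs, rfl⟩
      obtain ⟨k, hk⟩ := hu s hs
      refine ⟨k, ?_⟩
      have e1 : (LinearMap.dualMap s : Module.End ℂ (Module.Dual ℂ V)) - 1
          = LinearMap.dualMap (s - 1) := by
        ext l x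
        simp [LinearMap.dualMap_apply]
      change ((LinearMap.dualMap s : Module.End ℂ (Module.Dual ℂ V)) - 1) ^ k = 0
      rw [e1, hpow, hk]
      ext l x
      simp [LinearMap.dualMap_apply])
  refine ⟨l, hl0, fun s hs x => ?_⟩
  have := hl _ ⟨s, hs, rfl⟩
  have h2 := LinearMap.congr_fun this x
  exact h2

/-- the relative version: outside of a proper subspace `W` stable under `E` there is a
vector fixed modulo `W` -/
theorem kolchin_rel {V : Type v} [AddCommGroup V] [Module ℂ V] [FiniteDimensional ℂ V]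
    (E : Set (Module.End ℂ V)) (hmul : ∀ s ∈ E, ∀ t ∈ E, s * t ∈ E)
    (hu : ∀ s ∈ E, IsNilpotent (s - 1)) (W : Submodule ℂ V) (hW : W ≠ ⊤)
    (hWs : ∀ s ∈ E, ∀ x ∈ W, s x ∈ W) : ∃ x : V, x ∉ W ∧ ∀ s ∈ E, s x - x ∈ W := by
  classical
  have hnt : Nontrivial (V ⧸ W) := Submodule.Quotient.nontrivial_iff.2 hW
  obtain ⟨y, hy0, hy⟩ := kolchin (V := V ⧸ W)
    {g | ∃ s ∈ E, ∃ h : W ≤ W.comap s, g = W.mapQ W s h} (by
      rintro _ ⟨s, hs, h1, rfl⟩ _ ⟨t, ht, h2, rfl⟩
      refine ⟨s * t, hmul s hs t ht, fun x hx => h1 (h2 hx), ?_⟩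
      apply Submodule.linearMap_qext
      ext x
      simp) (by
      rintro _ ⟨s, hs, h1, rfl⟩
      have h3 : W ≤ W.comap (s - 1) := fun x hx => by
        change (s - 1) x ∈ W
        rw [LinearMap.sub_apply, Module.End.one_apply]
        exact W.sub_mem (hWs s hs x hx) hx
      have e1 : W.mapQ W s h1 - 1 = W.mapQ W (s - 1) h3 := by
        apply Submodule.linearMap_qext
        ext x
        simp
      rw [e1]
      exact Module.End.IsNilpotent.mapQ h3 (hu s hs))
  obtain ⟨x, rfl⟩ := Submodule.Quotient.mk_surjective W y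
  refine ⟨x, fun h => hy0 ((Submodule.Quotient.mk_eq_zero W).mpr h), fun s hs => ?_⟩
  have h1 := hy _ ⟨s, hs, fun x hx => hWs s hs x hx, rfl⟩
  rw [← Submodule.Quotient.mk_eq_zero, Submodule.Quotient.mk_sub, sub_eq_zero]
  exact h1

end AFn
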