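import Mathlib
import Pool.Agent.AFn.Defs

set_option autoImplicit false

namespace AFn

universe u v

section

variable {G : Type u} [Group G] {V : Type v} [AddCommGroup V] [Module ℂ V]

theorem IsRepOn.mono {Γ Γ' : Subgroup G} {σ : G → Module.End ℂ V} (h : IsRepOn Γ σ)
    (hle : Γ' ≤ Γ) : IsRepOn Γ' σ := by
  exact ⟨h.one, fun g hg k hk => h.mul g (hle hg) k (hle hk)⟩

theorem IsRepOn.mul_inv {Γ : Subgroup G} {σ : G → Module.End ℂ V} (h : IsRepOn Γ σ)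
    {g : G} (hg : g ∈ Γ) : σ g * σ g⁻¹ = 1 := by
  rw [← h.mul g hg g⁻¹ (Γ.inv_mem hg), mul_inv_cancel, h.one]

theorem IsRepOn.inv_mul {Γ : Subgroup G} {σ : G → Module.End ℂ V} (h : IsRepOn Γ σ)
    {g : G} (hg : g ∈ Γ) : σ g⁻¹ * σ g = 1 := by
  rw [← h.mul g⁻¹ (Γ.inv_mem hg) g hg, inv_mul_cancel, h.one]

theorem IsRepOn.conj {Γ : Subgroup G} {σ : G → Module.End ℂ V} (h : IsRepOn Γ σ)
    {g k : G} (hg : g ∈ Γ) (hk : k ∈ Γ) : σ (g * k * g⁻¹) = σ g * σ k * σ g⁻¹ := by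
  rw [h.mul (g * k) (Γ.mul_mem hg hk) g⁻¹ (Γ.inv_mem hg), h.mul g hg k hk]

theorem IsRepOn.twist {Γ Γ' : Subgroup G} {σ : G → Module.End ℂ V} (h : IsRepOn Γ σ)
    (φ : G) (hφ : ∀ g ∈ Γ', φ * g * φ⁻¹ ∈ Γ) : IsRepOn Γ' (fun g => σ (φ * g * φ⁻¹)) := by
  refine ⟨?_, fun g hg k hk => ?_⟩
  · show σ (φ * 1 * φ⁻¹) = 1
    rw [mul_one, mul_inv_cancel, h.one]
  · show σ (φ * (g * k) * φ⁻¹) = σ (φ * g * φ⁻¹) * σ (φ * k * φ⁻¹)
    rw [← h.mul _ (hφ g hg) _ (hφ k hk)]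
    congr 1
    group

theorem IsRepOn.exists_sub {Γ : Subgroup G} {σ : G → Module.End ℂ V} (h : IsRepOn Γ σ)
    (W : Submodule ℂ V) (hW : ∀ g ∈ Γ, ∀ x ∈ W, σ g x ∈ W) :
    ∃ σW : G → Module.End ℂ W, IsRepOn Γ σW ∧ ∀ g ∈ Γ, ∀ x : W, (σW g x : V) = σ g x := by
  classical
  refine ⟨fun g => if hg : ∀ x ∈ W, σ g x ∈ W then (σ g).restrict hg else 1, ⟨?_, ?_⟩, ?_⟩
  · have h1 : ∀ x ∈ W, σ 1 x ∈ W := hW 1 Γ.one_mem
    show (if hg : ∀ x ∈ W, σ 1 x ∈ W then (σ 1).restrict hg else 1) = 1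
    rw [dif_pos h1]
    ext x
    rw [LinearMap.coe_restrict_apply, h.one]
    rfl
  · intro g hg k hk
    have h1 : ∀ x ∈ W, σ (g * k) x ∈ W := hW _ (Γ.mul_mem hg hk)
    have h2 : ∀ x ∈ W, σ g x ∈ W := hW _ hg
    have h3 : ∀ x ∈ W, σ k x ∈ W := hW _ hk
    show (if hg : ∀ x ∈ W, σ (g * k) x ∈ W then (σ (g * k)).restrict hg else 1) =
      (if hg : ∀ x ∈ W, σ g x ∈ W then (σ g).restrict hg else 1) *
      (if hg : ∀ x ∈ W, σ k x ∈ W then (σ k).restrict hg else 1)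
    rw [dif_pos h1, dif_pos h2, dif_pos h3]
    ext x
    rw [LinearMap.coe_restrict_apply, h.mul g hg k hk]
    rfl
  · intro g hg x
    have h1 : ∀ x ∈ W, σ g x ∈ W := hW _ hg
    show ((if hg : ∀ x ∈ W, σ g x ∈ W then (σ g).restrict hg else 1) x : V) = σ g x
    rw [dif_pos h1, LinearMap.coe_restrict_apply]

theorem IsRepOn.exists_quot {Γ : Subgroup G} {σ : G → Module.End ℂ V} (h : IsRepOn Γ σ)
    (W : Submodule ℂ V) (hW : ∀ g ∈ Γ, ∀ x ∈ W, σ g x ∈ W) :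
    ∃ σQ : G → Module.End ℂ (V ⧸ W), IsRepOn Γ σQ ∧
      ∀ g ∈ Γ, ∀ x : V, σQ g (Submodule.Quotient.mk x) = Submodule.Quotient.mk (σ g x) := by
  classical
  have hc : ∀ g : G, (∀ x ∈ W, σ g x ∈ W) → W ≤ W.comap (σ g) := fun g hg x hx => hg x hx
  refine ⟨fun g => if hg : ∀ x ∈ W, σ g x ∈ W then W.mapQ W (σ g) (hc g hg) else 1,
    ⟨?_, ?_⟩, ?_⟩
  · have h1 : ∀ x ∈ W, σ 1 x ∈ W := hW 1 Γ.one_mem
    show (if hg : ∀ x ∈ W, σ 1 x ∈ W then W.mapQ W (σ 1) (hc 1 hg) else 1) = 1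
    rw [dif_pos h1]
    ext x
    show W.mapQ W (σ 1) (hc 1 h1) (Submodule.Quotient.mk x) = Submodule.Quotient.mk x
    rw [Submodule.mapQ_apply, h.one]
    rfl
  · intro g hg k hk
    have h1 : ∀ x ∈ W, σ (g * k) x ∈ W := hW _ (Γ.mul_mem hg hk)
    have h2 : ∀ x ∈ W, σ g x ∈ W := hW _ hg
    have h3 : ∀ x ∈ W, σ k x ∈ W := hW _ hk
    show (if hg : ∀ x ∈ W, σ (g * k) x ∈ W then W.mapQ W (σ (g * k)) (hc (g * k) hg) else 1) =
      (if hg : ∀ x ∈ W, σ g x ∈ W then W.mapQ W (σ g) (hc g hg) else 1) *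
      (if hg : ∀ x ∈ W, σ k x ∈ W then W.mapQ W (σ k) (hc k hg) else 1)
    rw [dif_pos h1, dif_pos h2, dif_pos h3]
    ext x
    show W.mapQ W (σ (g * k)) (hc _ h1) (Submodule.Quotient.mk x) =
      W.mapQ W (σ g) (hc _ h2) (W.mapQ W (σ k) (hc _ h3) (Submodule.Quotient.mk x))
    rw [Submodule.mapQ_apply, Submodule.mapQ_apply,
      Submodule.mapQ_apply, h.mul g hg k hk]
    rfl
  · intro g hg x
    have h1 : ∀ x ∈ W, σ g x ∈ W := hW _ hg
    show (if hg : ∀ x ∈ W, σ g x ∈ W then W.mapQ W (σ g) (hc g hg) else 1)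
      (Submodule.Quotient.mk x) = Submodule.Quotient.mk (σ g x)
    rw [dif_pos h1]
    rfl

theorem nilpotent_sub {W : Submodule ℂ V} {A : Module.End ℂ V} {B : Module.End ℂ W}
    (h : ∀ x : W, (B x : V) = A x) (hA : IsNilpotent (A - 1)) : IsNilpotent (B - 1) := by
  obtain ⟨n, hn⟩ := hA
  refine ⟨n, ?_⟩
  have key : ∀ m : ℕ, ∀ x : W, (((B - 1) ^ m) x : V) = ((A - 1) ^ m) x := by
    intro m
    induction m with
    | zero => intro x; rfl
    | succ m ih =>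
      intro x
      rw [pow_succ, pow_succ, Module.End.mul_apply, Module.End.mul_apply, ih]
      congr 1
      show (((B x) - x : W) : V) = A x - x
      rw [Submodule.coe_sub, h]
  ext x
  rw [key n x, hn]
  rfl

theorem nilpotent_quot {W : Submodule ℂ V} {A : Module.End ℂ V} {B : Module.End ℂ (V ⧸ W)}
    (h : ∀ x : V, B (Submodule.Quotient.mk x) = Submodule.Quotient.mk (A x))
    (hA : IsNilpotent (A - 1)) : IsNilpotent (B - 1) := by
  obtain ⟨n, hn⟩ := hA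
  refine ⟨n, ?_⟩
  have key : ∀ m : ℕ, ∀ x : V, ((B - 1) ^ m) (Submodule.Quotient.mk x) =
      Submodule.Quotient.mk (((A - 1) ^ m) x) := by
    intro m
    induction m with
    | zero => intro x; rfl
    | succ m ih =>
      intro x
      rw [pow_succ, pow_succ, Module.End.mul_apply, Module.End.mul_apply]
      have h1 : (B - 1) (Submodule.Quotient.mk x) =
          Submodule.Quotient.mk (p := W) ((A - 1) x) := by
        show B (Submodule.Quotient.mk x) - Submodule.Quotient.mk x =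
          Submodule.Quotient.mk (A x - x)
        rw [h, Submodule.Quotient.mk_sub]
      rw [h1, ih]
  ext x
  show ((B - 1) ^ n) (Submodule.Quotient.mk x) = 0
  rw [key n x, hn]
  rfl

private theorem eq_zero_of_pow_eq_zero84 {a : ℂ} {n : ℕ} (h : a ^ n = 0) : a = 0 := by
  by_contra hne
  exact pow_ne_zero n hne h

/-- a nilpotent endomorphism of a space of dimension at most one is zero -/
theorem nilpotent_dim_le_one [FiniteDimensional ℂ V] (hd : Module.finrank ℂ V ≤ 1)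
    {A : Module.End ℂ V} (hA : IsNilpotent A) : A = 0 := by
  have h1 : ∃ a : ℂ, A = a • (1 : Module.End ℂ V) := by
    rcases Nat.lt_or_ge (Module.finrank ℂ V) 1 with h0 | h0
    · have h00 : Module.finrank ℂ V = 0 := by omega
      have := Module.finrank_zero_iff.mp h00
      exact ⟨0, Subsingleton.elim _ _⟩
    · have h11 : Module.finrank ℂ V = 1 := le_antisymm hd h0
      obtain ⟨v, hv, hsp⟩ := finrank_eq_one_iff'.mp h11
      obtain ⟨a, ha⟩ := hsp (A v)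
      refine ⟨a, ?_⟩
      ext w
      obtain ⟨c, hc⟩ := hsp w
      rw [← hc, map_smul, ← ha, LinearMap.smul_apply, Module.End.one_apply, smul_comm]
  obtain ⟨a, ha⟩ := h1
  obtain ⟨n, hn⟩ := hA
  by_contra hne
  have hne1 : (1 : Module.End ℂ V) ≠ 0 := by
    intro h0
    apply hne
    rw [ha, h0, smul_zero]
  rw [ha, smul_pow, one_pow] at hn
  rcases smul_eq_zero.mp hn with h2 | h2
  · have h3 : a = 0 := eq_zero_of_pow_eq_zero84 h2
    apply hne
    rw [ha, h3, zero_smul]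
  · exact hne1 h2

end

end AFn
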