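import Mathlib
import Pool.Agent.AFn.Defs
import Pool.Agent.AFn.Basic
import Pool.Agent.AFn.RepLib
import Pool.Agent.AFn.Kolchin

set_option autoImplicit false

namespace AFn

universe u v

variable {α : Type u} [DecidableEq α]

theorem unip_mem {H : Subgroup (MulAut (FreeGroup α))} {K : Subgroup (FreeGroup α)}
    (hc : Ctx H K) {S : Finset α} {φ : MulAut (FreeGroup α)} (hφ : φ ∈ StabS S) {a : α}
    (ha : a ∈ S) {w : FreeGroup α} (hw : w ∈ K) (hwS : w ∈ fsub (S.erase a)) :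
    φ * R a w * φ⁻¹ ∈ H ⊓ StabS S := by
  refine ⟨hc.Hn.conj_mem _ (hc.RH a w hw) φ, ?_⟩
  exact (StabS S).mul_mem ((StabS S).mul_mem hφ (R_mem_StabS ha hwS)) ((StabS S).inv_mem hφ)

theorem IsT.mem {H : Subgroup (MulAut (FreeGroup α))} {K : Subgroup (FreeGroup α)}
    (hc : Ctx H K) {r : ℕ} {S : Finset α} {T : MulAut (FreeGroup α)} (hT : IsT K r S T) :
    T ∈ H ⊓ StabS S := by
  obtain ⟨φ, hφ, a, ha, W, hW, -, w, hwK, hw, rfl⟩ := hT
  exact unip_mem hc hφ ha hwK (fsub_mono hW hw)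

/-- the core of the induction: if the elements `T` act trivially in all representations of
smaller dimension then `g ↦ σ (R a g)` is invariant under them -/
theorem core {H : Subgroup (MulAut (FreeGroup α))} {K : Subgroup (FreeGroup α)}
    (hc : Ctx H K) (r : ℕ) (S : Finset α) (a : α) (ha : a ∉ S)
    (V : Type v) [AddCommGroup V] [Module ℂ V] [FiniteDimensional ℂ V]
    (σ : MulAut (FreeGroup α) → Module.End ℂ V) (Γ : Subgroup (MulAut (FreeGroup α)))
    (hΓ : H ⊓ StabS S ≤ Γ) (hσ : IsRepOn Γ σ) (hR : ∀ g ∈ K, g ∈ fsub S → R a g ∈ Γ)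
    (hu : UnipOn K S σ) (D : Subgroup (FreeGroup α)) (hDK : D ≤ K ⊓ fsub S)
    (hDinv : ∀ φ ∈ StabS S, ∀ d ∈ D, φ d ∈ D)
    (hDu : ∀ d ∈ D, IsNilpotent (σ (R a d) - 1))
    (IH : ∀ (V2 : Type v) [AddCommGroup V2] [Module ℂ V2] [FiniteDimensional ℂ V2]
      (τ : MulAut (FreeGroup α) → Module.End ℂ V2) (_ : IsRepOn (H ⊓ StabS S) τ)
      (_ : UnipOn K S τ) (_ : Module.finrank ℂ V2 < Module.finrank ℂ V)
      (T : MulAut (FreeGroup α)) (_ : IsT K r S T), τ T = 1)
    (hne : ∃ d ∈ D, σ (R a d) ≠ 1) :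
    ∀ T, IsT K r S T → ∀ g ∈ D, σ (R a (T g)) = σ (R a g) := by
  classical
  have hDR : ∀ d ∈ D, R a d ∈ Γ := fun d hd => hR d (hDK hd).1 (hDK hd).2
  -- conjugation
  have hconj : ∀ h ∈ H ⊓ StabS S, ∀ d ∈ D, σ (R a (h d)) = σ h * σ (R a d) * σ h⁻¹ := by
    intro h hh d hd
    rw [← conj_R hh.2 ha (hDK hd).2]
    exact hσ.conj (hΓ hh) (hDR d hd)
  have hconj2 : ∀ h ∈ H ⊓ StabS S, ∀ d ∈ D, σ (R a d) * σ h = σ h * σ (R a (h⁻¹ d)) := by
    intro h hh d hd
    rw [hconj h⁻¹ (inv_mem hh) d hd, inv_inv]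
    calc σ (R a d) * σ h = (σ h * σ h⁻¹) * (σ (R a d) * σ h) := by
          rw [hσ.mul_inv (hΓ hh), one_mul]
      _ = σ h * (σ h⁻¹ * σ (R a d) * σ h) := by simp only [mul_assoc]
  have hconj3 : ∀ h ∈ H ⊓ StabS S, ∀ d ∈ D, σ h * σ (R a d) = σ (R a (h d)) * σ h := by
    intro h hh d hd
    rw [hconj h hh d hd]
    calc σ h * σ (R a d) = σ h * σ (R a d) * (σ h⁻¹ * σ h) := by
          rw [hσ.inv_mul (hΓ hh), mul_one]
      _ = σ h * σ (R a d) * σ h⁻¹ * σ h := by simp only [mul_assoc]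
  -- the set of operators
  let E : Set (Module.End ℂ V) := {s | ∃ d ∈ D, s = σ (R a d)}
  have hEmul : ∀ s ∈ E, ∀ t ∈ E, s * t ∈ E := by
    rintro s ⟨d, hd, rfl⟩ t ⟨d', hd', rfl⟩
    refine ⟨d * d', mul_mem hd hd', ?_⟩
    rw [map_mul, hσ.mul _ (hDR d hd) _ (hDR d' hd')]
  have hEu : ∀ s ∈ E, IsNilpotent (s - 1) := by
    rintro s ⟨d, hd, rfl⟩
    exact hDu d hd
  obtain ⟨d0, hd0, hd0'⟩ := hne
  have hnt : Nontrivial V := by
    by_contra h
    rw [not_nontrivial_iff_subsingleton] at h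
    apply hd0'
    ext x
    exact Subsingleton.elim _ _
  -- fixed vectors
  let U : Submodule ℂ V :=
    { carrier := {x | ∀ d ∈ D, σ (R a d) x = x}
      add_mem' := fun {x y} hx hy d hd => by rw [map_add, hx d hd, hy d hd]
      zero_mem' := fun d hd => map_zero _
      smul_mem' := fun k x hx d hd => by rw [map_smul, hx d hd] }
  have hUmem : ∀ x, x ∈ U ↔ ∀ d ∈ D, σ (R a d) x = x := fun x => Iff.rfl
  have hU0 : U ≠ ⊥ := by
    obtain ⟨x, hx0, hx⟩ := kolchin E hEmul hEu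
    intro h
    apply hx0
    have : x ∈ U := (hUmem x).mpr fun d hd => hx _ ⟨d, hd, rfl⟩
    rwa [h, Submodule.mem_bot] at this
  -- the images
  let V' : Submodule ℂ V := Submodule.span ℂ {y | ∃ d ∈ D, ∃ x, y = σ (R a d) x - x}
  have hV'mem : ∀ d ∈ D, ∀ x, σ (R a d) x - x ∈ V' :=
    fun d hd x => Submodule.subset_span ⟨d, hd, x, rfl⟩
  have hV'0 : V' ≠ ⊤ := by
    obtain ⟨l, hl0, hl⟩ := kolchin_dual E hEmul hEu
    intro h
    apply hl0
    have h1 : V' ≤ LinearMap.ker l := by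
      rw [Submodule.span_le]
      rintro y ⟨d, hd, x, rfl⟩
      simp only [SetLike.mem_coe, LinearMap.mem_ker, map_sub]
      rw [hl _ ⟨d, hd, rfl⟩, sub_self]
    rw [h, top_le_iff, LinearMap.ker_eq_top] at h1
    exact h1
  -- invariance
  have hUinv : ∀ h ∈ H ⊓ StabS S, ∀ x ∈ U, σ h x ∈ U := by
    intro h hh x hx
    rw [hUmem]
    intro d hd
    have h1 := DFunLike.congr_fun (hconj2 h hh d hd) x
    rw [Module.End.mul_apply, Module.End.mul_apply,
      hx _ (hDinv h⁻¹ (inv_mem hh.2) d hd)] at h1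
    exact h1
  have hV'inv : ∀ h ∈ H ⊓ StabS S, ∀ x ∈ V', σ h x ∈ V' := by
    intro h hh x hx
    have h1 : V' ≤ V'.comap (σ h) := by
      rw [Submodule.span_le]
      rintro y ⟨d, hd, x, rfl⟩
      simp only [SetLike.mem_coe, Submodule.mem_comap, map_sub]
      have h2 := DFunLike.congr_fun (hconj3 h hh d hd) x
      rw [Module.End.mul_apply, Module.End.mul_apply] at h2
      rw [h2]
      exact hV'mem _ (hDinv h hh.2 d hd) _
    exact h1 hx
  have hσ' : IsRepOn (H ⊓ StabS S) σ := hσ.mono hΓ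
  obtain ⟨τ1, hτ1, hτ1'⟩ := hσ'.exists_sub V' hV'inv
  obtain ⟨τ2, hτ2, hτ2'⟩ := hσ'.exists_quot U hUinv
  have hu1 : UnipOn K S τ1 := by
    intro φ hφ b hb w hwK hw
    exact nilpotent_sub (hτ1' _ (unip_mem hc hφ hb hwK hw)) (hu φ hφ b hb w hwK hw)
  have hu2 : UnipOn K S τ2 := by
    intro φ hφ b hb w hwK hw
    exact nilpotent_quot (hτ2' _ (unip_mem hc hφ hb hwK hw)) (hu φ hφ b hb w hwK hw)
  have hd1 : Module.finrank ℂ V' < Module.finrank ℂ V := Submodule.finrank_lt hV'0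
  have hd2 : Module.finrank ℂ (V ⧸ U) < Module.finrank ℂ V := by
    have h1 := Submodule.finrank_quotient_add_finrank U
    have h2 : 0 < Module.finrank ℂ U := by
      rw [Nat.pos_iff_ne_zero]
      intro h
      exact hU0 (Submodule.finrank_eq_zero.mp h)
    omega
  intro T hT g hg
  have hTm := hT.mem hc
  have hT1 := IH V' τ1 hτ1 hu1 hd1 T hT
  have hT2 := IH (V ⧸ U) τ2 hτ2 hu2 hd2 T hT
  have hTx1 : ∀ x ∈ V', σ T x = x := by
    intro x hx
    have h1 := hτ1' T hTm ⟨x, hx⟩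
    rw [hT1] at h1
    exact h1.symm
  have hTx2 : ∀ x, σ T x - x ∈ U := by
    intro x
    have h1 := hτ2' T hTm x
    rw [hT2, Module.End.one_apply] at h1
    exact (Submodule.Quotient.eq U).mp h1.symm
  have hcomm : σ T * σ (R a g) = σ (R a g) * σ T := by
    ext x
    rw [Module.End.mul_apply, Module.End.mul_apply]
    have h1 : σ T (σ (R a g) x) = σ T x + (σ (R a g) x - x) := by
      have := hTx1 _ (hV'mem g hg x)
      rw [map_sub] at this
      rw [← this]; abel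
    have h2 : σ (R a g) (σ T x) = σ (R a g) x + (σ T x - x) := by
      have := (hUmem _).mp (hTx2 x) g hg
      rw [map_sub] at this
      rw [← this]; abel
    rw [h1, h2]; abel
  rw [hconj T hTm g hg, hcomm, mul_assoc, hσ.mul_inv (hΓ hTm), mul_one]

/-- unipotent operators in dimension at most two commute -/
theorem dim2_comm {V : Type v} [AddCommGroup V] [Module ℂ V] [FiniteDimensional ℂ V]
    (hd : Module.finrank ℂ V ≤ 2) (E : Set (Module.End ℂ V))
    (hmul : ∀ s ∈ E, ∀ t ∈ E, s * t ∈ E) (hu : ∀ s ∈ E, IsNilpotent (s - 1)) :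
    ∀ s ∈ E, ∀ t ∈ E, s * t = t * s := by
  classical
  rcases subsingleton_or_nontrivial V with hs | hn
  · intro s _ t _
    ext x
    exact Subsingleton.elim _ _
  obtain ⟨e, he0, he⟩ := kolchin E hmul hu
  have h1 : ∀ s ∈ E, ∀ x, s x - x ∈ Submodule.span ℂ {e} := by
    intro s hs x
    have hmap : ∀ x ∈ Submodule.span ℂ {e}, s x ∈ Submodule.span ℂ {e} := by
      intro x hx
      obtain ⟨k, rfl⟩ := Submodule.mem_span_singleton.mp hx
      rw [map_smul, he s hs]
      exact hx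
    have h2 : IsNilpotent
        ((Submodule.span ℂ {e}).mapQ (Submodule.span ℂ {e}) s hmap - 1) :=
      nilpotent_quot (fun x => rfl) (hu s hs)
    have h3 : Module.finrank ℂ (V ⧸ Submodule.span ℂ {e}) ≤ 1 := by
      have h4 := Submodule.finrank_quotient_add_finrank (Submodule.span ℂ {e})
      have h5 := finrank_span_singleton (K := ℂ) he0
      omega
    have h6 := nilpotent_dim_le_one h3 h2
    have h7 := DFunLike.congr_fun h6 (Submodule.Quotient.mk x)
    rw [LinearMap.sub_apply, Module.End.one_apply, LinearMap.zero_apply,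
      Submodule.mapQ_apply, ← Submodule.Quotient.mk_sub, Submodule.Quotient.mk_eq_zero] at h7
    exact h7
  have h2 : ∀ s ∈ E, ∀ t ∈ E, (s - 1) * (t - 1) = 0 := by
    intro s hs t ht
    ext x
    rw [Module.End.mul_apply, LinearMap.sub_apply, LinearMap.sub_apply,
      Module.End.one_apply, Module.End.one_apply, LinearMap.zero_apply]
    obtain ⟨k, hk⟩ := Submodule.mem_span_singleton.mp (h1 t ht x)
    rw [← hk, map_smul, he s hs, sub_self]
  intro s hs t ht
  have h3 := h2 s hs t ht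
  have h4 := h2 t ht s hs
  have h5 : s * t - t * s = (s - 1) * (t - 1) - (t - 1) * (s - 1) := by noncomm_ring
  rw [h3, h4, sub_self] at h5
  exact sub_eq_zero.mp h5

end AFn
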