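import Mathlib

set_option autoImplicit false

namespace AFn

universe u

/-- the abstract nondegeneracy lemma: functions on a group that are invariant under a normal subgroup of finite index -/
theorem nd_abstract {G : Type u} [Group G] (N : Subgroup G) (hN : N.Normal)
    (hNf : N.FiniteIndex) (v P P' : G → ℂ)
    (hv : ∀ k ∈ N, ∀ u, v (k * u) = v u) (hP : ∀ k ∈ N, ∀ u, P (k * u) = P u)
    (hP' : ∀ k ∈ N, ∀ u, P' (k * u) = P' u) (x y : G)
    (h1 : ∀ u, v u = P u - P (u * x⁻¹)) (h2 : ∀ u, v u = P' u - P' (u * y⁻¹))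
    (h3 : ∀ u, P' (u * x⁻¹) = P' u) : ∀ u, v u = 0 := by
  classical
  have : Finite (G ⧸ N) := inferInstance
  have : Fintype (G ⧸ N) := Fintype.ofFinite _
  have hd : ∀ f : G → ℂ, (∀ k ∈ N, ∀ u, f (k * u) = f u) →
      ∀ u, f ((QuotientGroup.mk u : G ⧸ N).out) = f u := by
    intro f hf u
    obtain ⟨h, hh⟩ := QuotientGroup.mk_out_eq_mul N u
    rw [hh]
    have hc : u * (h : G) * u⁻¹ ∈ N := hN.conj_mem h h.2 u
    have := hf _ hc u
    rw [← this]
    congr 1
    group
  set V : G ⧸ N → ℂ := fun q => v q.out with hV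
  set A : G ⧸ N → ℂ := fun q => P q.out with hA
  set B : G ⧸ N → ℂ := fun q => P' q.out with hB
  have eV : ∀ u, V (QuotientGroup.mk u) = v u := fun u => hd v hv u
  have eA : ∀ u, A (QuotientGroup.mk u) = P u := fun u => hd P hP u
  have eB : ∀ u, B (QuotientGroup.mk u) = P' u := fun u => hd P' hP' u
  set X : G ⧸ N := QuotientGroup.mk x⁻¹ with hX
  set Y : G ⧸ N := QuotientGroup.mk y⁻¹ with hY
  have g1 : ∀ q, V q = A q - A (q * X) := by
    intro q
    induction q using QuotientGroup.induction_on with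
    | H u =>
      have : (QuotientGroup.mk u : G ⧸ N) * X = QuotientGroup.mk (u * x⁻¹) := rfl
      rw [this, eV, eA, eA, h1]
  have g2 : ∀ q, V q = B q - B (q * Y) := by
    intro q
    induction q using QuotientGroup.induction_on with
    | H u =>
      have : (QuotientGroup.mk u : G ⧸ N) * Y = QuotientGroup.mk (u * y⁻¹) := rfl
      rw [this, eV, eB, eB, h2]
  have g3 : ∀ q, B (q * X) = B q := by
    intro q
    induction q using QuotientGroup.induction_on with
    | H u =>
      have : (QuotientGroup.mk u : G ⧸ N) * X = QuotientGroup.mk (u * x⁻¹) := rfl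
      rw [this, eB, eB, h3]
  have tr : ∀ (Z : G ⧸ N) (F : G ⧸ N → ℂ), ∑ q, F (q * Z) = ∑ q, F q := fun Z F =>
    Fintype.sum_equiv (Equiv.mulRight Z) _ _ (fun q => rfl)
  -- the first sum
  have s1 : ∑ q, V q * (starRingEnd ℂ) (B q) = 0 := by
    have e : ∀ q, V q * (starRingEnd ℂ) (B q) =
        A q * (starRingEnd ℂ) (B q) - (fun r => A r * (starRingEnd ℂ) (B r)) (q * X) := by
      intro q
      simp only [g3]
      rw [g1 q]
      ring
    rw [Finset.sum_congr rfl fun q _ => e q, Finset.sum_sub_distrib,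
      tr X (fun r => A r * (starRingEnd ℂ) (B r))]
    exact sub_self _
  have s1' : ∑ q, B q * (starRingEnd ℂ) (V q) = 0 := by
    have := congrArg (starRingEnd ℂ) s1
    rw [map_sum, map_zero] at this
    rw [← this]
    refine Finset.sum_congr rfl fun q _ => ?_
    rw [map_mul, Complex.conj_conj]
    ring
  have s2 : ∑ q, (B q - V q) * (starRingEnd ℂ) (B q - V q) =
      ∑ q, B q * (starRingEnd ℂ) (B q) := by
    rw [← tr Y (fun r => B r * (starRingEnd ℂ) (B r))]
    refine Finset.sum_congr rfl fun q _ => ?_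
    have : B q - V q = B (q * Y) := by rw [g2 q]; ring
    rw [this]
  have s3 : ∑ q, V q * (starRingEnd ℂ) (V q) = 0 := by
    have e : ∀ q, (B q - V q) * (starRingEnd ℂ) (B q - V q) =
        B q * (starRingEnd ℂ) (B q) - B q * (starRingEnd ℂ) (V q) -
          V q * (starRingEnd ℂ) (B q) + V q * (starRingEnd ℂ) (V q) := by
      intro q
      rw [map_sub]
      ring
    rw [Finset.sum_congr rfl fun q _ => e q, Finset.sum_add_distrib, Finset.sum_sub_distrib,
      Finset.sum_sub_distrib, s1, s1'] at s2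
    linear_combination s2
  have s4 : ∑ q, Complex.normSq (V q) = 0 := by
    have : ((∑ q, Complex.normSq (V q) : ℝ) : ℂ) = 0 := by
      rw [Complex.ofReal_sum, ← s3]
      exact Finset.sum_congr rfl fun q _ => (Complex.mul_conj (V q)).symm
    exact_mod_cast this
  intro u
  have := (Finset.sum_eq_zero_iff_of_nonneg fun q _ => Complex.normSq_nonneg (V q)).1 s4
    (QuotientGroup.mk u) (Finset.mem_univ _)
  rw [← eV u]
  exact Complex.normSq_eq_zero.1 this

end AFn
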