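import Mathlib
import Pool.Agent.AFn.Defs
import Pool.Agent.AFn.Basic
import Pool.Agent.AFn.NDa
import Pool.Agent.AFn.RepLib
import Pool.Agent.AFn.Kolchin

set_option autoImplicit false
set_option linter.unusedSectionVars false

/-!
The nondegeneracy lemma for `w` in a factor disjoint from the letters `p, q`, with the
conjugating elements in `fsub S` only.
-/

namespace AFn

universe u v

variable {α : Type u} [DecidableEq α]

private theorem gen_mem {S : Finset α} {w u : FreeGroup α} (hu : u ∈ fsub S) :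
    u * w * u⁻¹ ∈ Mw S w :=
  Subgroup.subset_closure ⟨u, hu, rfl⟩

private theorem conj_mem {S : Finset α} {w g : FreeGroup α} (hg : g ∈ fsub S)
    {m : FreeGroup α} (hm : m ∈ Mw S w) : g * m * g⁻¹ ∈ Mw S w := by
  induction hm using Subgroup.closure_induction with
  | mem x hx =>
    obtain ⟨u, hu, rfl⟩ := hx
    have h := gen_mem (w := w) (mul_mem hg hu)
    have he : g * u * w * (g * u)⁻¹ = g * (u * w * u⁻¹) * g⁻¹ := by group
    rwa [he] at h
  | one =>
    rw [mul_one, mul_inv_cancel]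
    exact one_mem _
  | mul x y _ _ hx hy =>
    have he : g * (x * y) * g⁻¹ = (g * x * g⁻¹) * (g * y * g⁻¹) := by group
    rw [he]
    exact mul_mem hx hy
  | inv x _ hx =>
    have he : g * x⁻¹ * g⁻¹ = (g * x * g⁻¹)⁻¹ := by group
    rw [he]
    exact inv_mem hx

private theorem c_one {S : Finset α} {w : FreeGroup α} {c : FreeGroup α → ℂ}
    (hadd : ∀ m ∈ Mw S w, ∀ m' ∈ Mw S w, c (m * m') = c m + c m') : c 1 = 0 := by
  have h := hadd 1 (one_mem _) 1 (one_mem _)
  rw [mul_one] at h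
  simpa using h

private theorem c_inv {S : Finset α} {w : FreeGroup α} {c : FreeGroup α → ℂ}
    (hadd : ∀ m ∈ Mw S w, ∀ m' ∈ Mw S w, c (m * m') = c m + c m')
    {m : FreeGroup α} (hm : m ∈ Mw S w) : c m⁻¹ = - c m := by
  have h := hadd m hm m⁻¹ (inv_mem hm)
  rw [mul_inv_cancel, c_one hadd] at h
  linear_combination -h

private theorem c_conj {K : Subgroup (FreeGroup α)} {S : Finset α} {w : FreeGroup α}
    {c : FreeGroup α → ℂ}
    (hadd : ∀ m ∈ Mw S w, ∀ m' ∈ Mw S w, c (m * m') = c m + c m')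
    (hinv : ∀ g ∈ K, g ∈ fsub S → ∀ u ∈ fsub S,
      c (g * (u * w * u⁻¹) * g⁻¹) = c (u * w * u⁻¹))
    {g : FreeGroup α} (hgK : g ∈ K) (hg : g ∈ fsub S)
    {m : FreeGroup α} (hm : m ∈ Mw S w) : c (g * m * g⁻¹) = c m := by
  induction hm using Subgroup.closure_induction with
  | mem x hx =>
    obtain ⟨u, hu, rfl⟩ := hx
    exact hinv g hgK hg u hu
  | one => simp
  | mul x y hxm hym hx hy =>
    have he : g * (x * y) * g⁻¹ = (g * x * g⁻¹) * (g * y * g⁻¹) := by group
    rw [he, hadd _ (conj_mem hg hxm) _ (conj_mem hg hym), hx, hy, hadd _ hxm _ hym]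
  | inv x hxm hx =>
    have he : g * x⁻¹ * g⁻¹ = (g * x * g⁻¹)⁻¹ := by group
    rw [he, c_inv hadd (conj_mem hg hxm), hx, c_inv hadd hxm]

private theorem R_self2 {p : α} {w : FreeGroup α} (hw : kill p w = w) :
    R p w (FreeGroup.of p) = FreeGroup.of p * w := by
  rw [R_of_self, hw]

/-- `delta_mem` without the condition that `w` lies in `fsub S` -/
theorem delta_mem2 {S : Finset α} {p : α} (hp : p ∈ S) {w : FreeGroup α}
    (hw : kill p w = w) {g : FreeGroup α} (hg : g ∈ fsub S) :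
    R p w g * g⁻¹ ∈ Mw S w := by
  unfold fsub at hg
  have key : ∀ g ∈ Subgroup.closure (FreeGroup.of '' (S : Set α)),
      g ∈ fsub S ∧ R p w g * g⁻¹ ∈ Mw S w := by
    intro g hg
    induction hg using Subgroup.closure_induction with
    | mem y hy =>
      obtain ⟨x, hx, rfl⟩ := hy
      refine ⟨of_mem_fsub hx, ?_⟩
      by_cases hxp : x = p
      · subst hxp
        rw [R_self2 hw]
        exact gen_mem (of_mem_fsub hx)
      · rw [R_of_ne hxp, mul_inv_cancel]
        exact one_mem _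
    | one => exact ⟨one_mem _, by rw [map_one, inv_one, mul_one]; exact one_mem _⟩
    | mul g h _ _ h1 h2 =>
      refine ⟨mul_mem h1.1 h2.1, ?_⟩
      have e : R p w (g * h) * (g * h)⁻¹ =
          (R p w g * g⁻¹) * (g * (R p w h * h⁻¹) * g⁻¹) := by
        rw [map_mul]
        group
      rw [e]
      exact mul_mem h1.2 (conj_mem h1.1 h2.2)
    | inv g _ h1 =>
      refine ⟨inv_mem h1.1, ?_⟩
      have e : R p w g⁻¹ * g⁻¹⁻¹ = g⁻¹ * (R p w g * g⁻¹)⁻¹ * g⁻¹⁻¹ := by
        rw [map_inv]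
        group
      rw [e]
      exact conj_mem (inv_mem h1.1) (inv_mem h1.2)
  exact (key g hg).2

private theorem d_mul (a : α) (w g h : FreeGroup α) :
    R a w (g * h) * (g * h)⁻¹ = (R a w g * g⁻¹) * (g * (R a w h * h⁻¹) * g⁻¹) := by
  rw [map_mul]
  group

private theorem P_mul {S : Finset α} {a : α} (ha : a ∈ S) {w : FreeGroup α}
    (hw : kill a w = w) {c : FreeGroup α → ℂ}
    (hadd : ∀ m ∈ Mw S w, ∀ m' ∈ Mw S w, c (m * m') = c m + c m')
    {g h : FreeGroup α} (hg : g ∈ fsub S) (hh : h ∈ fsub S) :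
    c (R a w (g * h) * (g * h)⁻¹) =
      c (R a w g * g⁻¹) + c (g * (R a w h * h⁻¹) * g⁻¹) := by
  rw [d_mul, hadd _ (delta_mem2 ha hw hg) _ (conj_mem hg (delta_mem2 ha hw hh))]

private theorem P_left {K : Subgroup (FreeGroup α)} {S : Finset α} {a : α} (ha : a ∈ S)
    {w : FreeGroup α} (hw : kill a w = w) {c : FreeGroup α → ℂ}
    (hadd : ∀ m ∈ Mw S w, ∀ m' ∈ Mw S w, c (m * m') = c m + c m')
    (hinv : ∀ g ∈ K, g ∈ fsub S → ∀ u ∈ fsub S,
      c (g * (u * w * u⁻¹) * g⁻¹) = c (u * w * u⁻¹))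
    (hP : ∀ g ∈ K, g ∈ fsub S → c (R a w g * g⁻¹) = 0)
    {g h : FreeGroup α} (hgK : g ∈ K) (hg : g ∈ fsub S) (hh : h ∈ fsub S) :
    c (R a w (g * h) * (g * h)⁻¹) = c (R a w h * h⁻¹) := by
  rw [P_mul ha hw hadd hg hh, hP g hgK hg, c_conj hadd hinv hgK hg (delta_mem2 ha hw hh),
    zero_add]

private theorem P_step {S : Finset α} {a : α} (ha : a ∈ S) {w : FreeGroup α}
    (hw : kill a w = w) {c : FreeGroup α → ℂ}
    (hadd : ∀ m ∈ Mw S w, ∀ m' ∈ Mw S w, c (m * m') = c m + c m')
    {u : FreeGroup α} (hu : u ∈ fsub S) :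
    c (u * w * u⁻¹) = c (R a w u * u⁻¹) -
      c (R a w (u * (FreeGroup.of a)⁻¹) * (u * (FreeGroup.of a)⁻¹)⁻¹) := by
  have hx : FreeGroup.of a ∈ fsub S := of_mem_fsub ha
  have h := P_mul ha hw hadd (mul_mem hu (inv_mem hx)) hx
  have h1 : u * (FreeGroup.of a)⁻¹ * FreeGroup.of a = u := by group
  have h2 : R a w (FreeGroup.of a) * (FreeGroup.of a)⁻¹ =
      FreeGroup.of a * w * (FreeGroup.of a)⁻¹ := by
    rw [R_self2 hw]
  have h3 : u * (FreeGroup.of a)⁻¹ * (FreeGroup.of a * w * (FreeGroup.of a)⁻¹) *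
      (u * (FreeGroup.of a)⁻¹)⁻¹ = u * w * u⁻¹ := by group
  rw [h1, h2, h3] at h
  rw [h]
  ring

/-- the nondegeneracy lemma, `w` arbitrary with `p, q` killed -/
theorem nd2 (K : Subgroup (FreeGroup α)) (hKn : K.Normal) (hKf : K.FiniteIndex)
    (S : Finset α) (p q : α) (hp : p ∈ S) (hq : q ∈ S) (hpq : p ≠ q) (w : FreeGroup α)
    (hwp : kill p w = w) (hwq : kill q w = w) (c : FreeGroup α → ℂ)
    (hadd : ∀ m ∈ Mw S w, ∀ m' ∈ Mw S w, c (m * m') = c m + c m')
    (hinv : ∀ g ∈ K, g ∈ fsub S → ∀ u ∈ fsub S,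
      c (g * (u * w * u⁻¹) * g⁻¹) = c (u * w * u⁻¹))
    (hP : ∀ g ∈ K, g ∈ fsub S → c (R p w g * g⁻¹) = 0)
    (hQ : ∀ g ∈ K, g ∈ fsub S → c (R q w g * g⁻¹) = 0) :
    ∀ u ∈ fsub S, c (u * w * u⁻¹) = 0 := by
  have hxp : FreeGroup.of p ∈ fsub S := of_mem_fsub hp
  have hxq : FreeGroup.of q ∈ fsub S := of_mem_fsub hq
  have key := nd_abstract (G := fsub S) (K.subgroupOf (fsub S)) inferInstance inferInstance
    (fun u => c ((u : FreeGroup α) * w * (u : FreeGroup α)⁻¹))
    (fun u => c (R p w (u : FreeGroup α) * (u : FreeGroup α)⁻¹))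
    (fun u => c (R q w (u : FreeGroup α) * (u : FreeGroup α)⁻¹))
    (fun k hk u => by
      have hk' : (k : FreeGroup α) ∈ K := hk
      have h := hinv k hk' k.2 u u.2
      have he : ((k * u : fsub S) : FreeGroup α) * w * ((k * u : fsub S) : FreeGroup α)⁻¹ =
          (k : FreeGroup α) * ((u : FreeGroup α) * w * (u : FreeGroup α)⁻¹) *
            (k : FreeGroup α)⁻¹ := by
        rw [Subgroup.coe_mul]
        group
      exact (congrArg c he).trans h)
    (fun k hk u => by
      have hk' : (k : FreeGroup α) ∈ K := hk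
      exact P_left hp hwp hadd hinv hP hk' k.2 u.2)
    (fun k hk u => by
      have hk' : (k : FreeGroup α) ∈ K := hk
      exact P_left hq hwq hadd hinv hQ hk' k.2 u.2)
    ⟨FreeGroup.of p, hxp⟩ ⟨FreeGroup.of q, hxq⟩
    (fun u => P_step hp hwp hadd u.2)
    (fun u => P_step hq hwq hadd u.2)
    (fun u => by
      have h : R q w ((u : FreeGroup α) * (FreeGroup.of p)⁻¹) *
          ((u : FreeGroup α) * (FreeGroup.of p)⁻¹)⁻¹ =
          R q w (u : FreeGroup α) * (u : FreeGroup α)⁻¹ := by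
        rw [map_mul, map_inv, R_of_ne hpq]
        group
      exact congrArg c h)
  intro u hu
  exact key ⟨u, hu⟩

section

variable {V : Type v} [AddCommGroup V] [Module ℂ V] [FiniteDimensional ℂ V]

/-- a representation of a group `D` containing the conjugates of `w` by `fsub S` and
`K ⊓ fsub S`, unipotent on `D` and invariant under `R p w` and `R q w`, kills `w` -/
theorem lemmaE2 (K : Subgroup (FreeGroup α)) (hKn : K.Normal) (hKf : K.FiniteIndex)
    (S : Finset α) (p q : α) (hp : p ∈ S) (hq : q ∈ S) (hpq : p ≠ q) (w : FreeGroup α)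
    (hwp : kill p w = w) (hwq : kill q w = w) (D : Subgroup (FreeGroup α))
    (hDw : ∀ u ∈ fsub S, u * w * u⁻¹ ∈ D) (hDK : K ⊓ fsub S ≤ D)
    (f : FreeGroup α → Module.End ℂ V) (hf : IsRepOn D f)
    (hu : ∀ d ∈ D, IsNilpotent (f d - 1))
    (hP : ∀ g ∈ K, g ∈ fsub S → f (R p w g) = f g)
    (hQ : ∀ g ∈ K, g ∈ fsub S → f (R q w g) = f g) : f w = 1 := by
  classical
  have hM : Mw S w ≤ D := by
    unfold Mw
    rw [Subgroup.closure_le]
    rintro x ⟨u, hu', rfl⟩
    exact hDw u hu'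
  have hwM : w ∈ Mw S w := by
    have := gen_mem (S := S) (w := w) (u := 1) (one_mem _)
    simpa using this
  -- the fixed vectors
  let V0 : Submodule ℂ V :=
    { carrier := {x | ∀ m ∈ Mw S w, f m x = x}
      add_mem' := fun {x y} hx hy d hd => by rw [map_add, hx d hd, hy d hd]
      zero_mem' := fun d _ => map_zero _
      smul_mem' := fun k x hx d hd => by rw [map_smul, hx d hd] }
  have hV0 : ∀ x, x ∈ V0 ↔ ∀ m ∈ Mw S w, f m x = x := fun x => Iff.rfl
  by_cases htop : V0 = ⊤
  · ext x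
    have hx : x ∈ V0 := by rw [htop]; exact Submodule.mem_top
    exact (hV0 x).1 hx w hwM
  exfalso
  -- the group generated by `Mw` and `K ⊓ fsub S` stabilises `V0`
  let D0 : Subgroup (FreeGroup α) := Mw S w ⊔ (K ⊓ fsub S)
  have hD0 : D0 ≤ D := sup_le hM hDK
  have hgV0 : ∀ g ∈ K ⊓ fsub S, ∀ x ∈ V0, f g x ∈ V0 := by
    intro g hg x hx
    rw [hV0]
    intro m hm
    have h1 : g⁻¹ * m * g ∈ Mw S w := by
      have := conj_mem (inv_mem hg.2) hm
      simpa using this
    have h2 : f m * f g = f g * f (g⁻¹ * m * g) := by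
      rw [← hf.mul m (hM hm) g (hDK hg), ← hf.mul g (hDK hg) _ (hM h1)]
      congr 1
      group
    have h3 := DFunLike.congr_fun h2 x
    rw [Module.End.mul_apply, Module.End.mul_apply, (hV0 x).1 hx _ h1] at h3
    exact h3
  have hstab : ∀ d ∈ D0, ∀ x ∈ V0, f d x ∈ V0 := by
    intro d hd
    have key : ∀ d ∈ Subgroup.closure ((Mw S w : Set (FreeGroup α)) ∪
        ((K ⊓ fsub S : Subgroup (FreeGroup α)) : Set (FreeGroup α))),
        d ∈ D ∧ ∀ x ∈ V0, f d x ∈ V0 := by
      intro d hd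
      induction hd using Subgroup.closure_induction with
      | mem y hy =>
        rcases hy with hy | hy
        · exact ⟨hM hy, fun x hx => by rw [(hV0 x).1 hx y hy]; exact hx⟩
        · exact ⟨hDK hy, hgV0 y hy⟩
      | one => exact ⟨one_mem _, fun x hx => by rw [hf.one]; exact hx⟩
      | mul y z _ _ hy hz =>
        refine ⟨mul_mem hy.1 hz.1, fun x hx => ?_⟩
        rw [hf.mul y hy.1 z hz.1, Module.End.mul_apply]
        exact hy.2 _ (hz.2 x hx)
      | inv y _ hy =>
        refine ⟨inv_mem hy.1, ?_⟩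
        -- `f y` is injective on the finite-dimensional `V0`, hence bijective
        have hle : V0 ≤ V0.comap (f y) := fun x hx => hy.2 x hx
        have hinj : Function.Injective ((f y).restrict (p := V0) (q := V0) hy.2) := by
          intro a b hab
          have h1 : f y (a : V) = f y (b : V) := by
            have := congrArg Subtype.val hab
            simpa using this
          have h2 := congrArg (f y⁻¹) h1
          rw [← Module.End.mul_apply, ← Module.End.mul_apply, hf.inv_mul hy.1] at h2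
          exact Subtype.ext h2
        have hsurj := LinearMap.surjective_of_injective hinj
        intro x hx
        obtain ⟨z, hz⟩ := hsurj ⟨x, hx⟩
        have h1 : f y (z : V) = x := by
          have := congrArg Subtype.val hz
          simpa using this
        have h2 : f y⁻¹ x = z := by
          rw [← h1, ← Module.End.mul_apply, hf.inv_mul hy.1]
          rfl
        rw [h2]
        exact z.2
    have : D0 = Subgroup.closure ((Mw S w : Set (FreeGroup α)) ∪
        ((K ⊓ fsub S : Subgroup (FreeGroup α)) : Set (FreeGroup α))) :=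
      Subgroup.sup_eq_closure _ _
    rw [this] at hd
    exact (key d hd).2
  obtain ⟨x, hxV, hx⟩ := kolchin_rel (V := V) {A | ∃ d ∈ D0, A = f d}
    (by
      rintro s ⟨m, hm, rfl⟩ t ⟨m', hm', rfl⟩
      exact ⟨m * m', mul_mem hm hm', (hf.mul m (hD0 hm) m' (hD0 hm')).symm⟩)
    (by
      rintro s ⟨m, hm, rfl⟩
      exact hu m (hD0 hm))
    V0 htop
    (by
      rintro s ⟨m, hm, rfl⟩ y hy
      exact hstab m hm y hy)
  have hMD0 : Mw S w ≤ D0 := le_sup_left
  have hKD0 : K ⊓ fsub S ≤ D0 := le_sup_right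
  have hδ : ∀ m ∈ Mw S w, f m x - x ∈ V0 := fun m hm => hx _ ⟨m, hMD0 hm, rfl⟩
  -- additivity
  have hadd : ∀ m ∈ Mw S w, ∀ m' ∈ Mw S w,
      f (m * m') x - x = (f m x - x) + (f m' x - x) := by
    intro m hm m' hm'
    have h1 := (hV0 _).1 (hδ m' hm') m hm
    rw [map_sub] at h1
    rw [hf.mul m (hM hm) m' (hM hm'), Module.End.mul_apply]
    have h2 : f m (f m' x) = f m' x - x + f m x := by rw [← h1]; abel
    rw [h2]; abel
  -- equivariance
  have hequi : ∀ g ∈ K ⊓ fsub S, ∀ m ∈ Mw S w,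
      f (g * m * g⁻¹) x - x = f g (f m x - x) := by
    intro g hg m hm
    have hgi : g⁻¹ ∈ K ⊓ fsub S := inv_mem hg
    have h1 : f g⁻¹ x - x ∈ V0 := hx _ ⟨g⁻¹, hKD0 hgi, rfl⟩
    have h2 := (hV0 _).1 h1 m hm
    rw [map_sub] at h2
    have h3 : f m (f g⁻¹ x) = f g⁻¹ x + (f m x - x) := by
      rw [sub_eq_iff_eq_add] at h2
      rw [h2]; abel
    have h4 : f (g * m * g⁻¹) x = f g (f m (f g⁻¹ x)) := by
      rw [hf.conj (hDK hg) (hM hm)]
      rfl
    have h5 : f g (f g⁻¹ x) = x := by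
      rw [← Module.End.mul_apply, hf.mul_inv (hDK hg)]
      rfl
    rw [h4, h3, map_add, h5]
    abel
  -- the span of the differences
  let Δ : Submodule ℂ V := Submodule.span ℂ {y | ∃ m ∈ Mw S w, y = f m x - x}
  have hΔs : ∀ g ∈ K ⊓ fsub S, ∀ y ∈ Δ, f g y ∈ Δ := by
    intro g hg y hy
    have h1 : Δ ≤ Δ.comap (f g) := by
      rw [Submodule.span_le]
      rintro y ⟨m, hm, rfl⟩
      show f g (f m x - x) ∈ Δ
      rw [← hequi g hg m hm]
      exact Submodule.subset_span ⟨_, conj_mem hg.2 hm, rfl⟩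
    exact h1 hy
  have hΔ0 : Δ ≠ ⊥ := by
    intro h
    apply hxV
    rw [hV0]
    intro m hm
    have h1 : f m x - x ∈ Δ := Submodule.subset_span ⟨m, hm, rfl⟩
    rw [h, Submodule.mem_bot, sub_eq_zero] at h1
    exact h1
  have hnt : Nontrivial Δ := Submodule.nontrivial_iff_ne_bot.mpr hΔ0
  obtain ⟨l0, hl0, hl⟩ := kolchin_dual (V := Δ)
    {A | ∃ g, ∃ hg : g ∈ K ⊓ fsub S, A = (f g).restrict (p := Δ) (q := Δ) (hΔs g hg)}
    (by
      rintro s ⟨m, hm, rfl⟩ t ⟨m', hm', rfl⟩
      refine ⟨m * m', mul_mem hm hm', ?_⟩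
      ext y
      simp only [Module.End.mul_apply, LinearMap.coe_restrict_apply]
      rw [hf.mul m (hDK hm) m' (hDK hm')]
      rfl)
    (by
      rintro s ⟨m, hm, rfl⟩
      exact nilpotent_sub (fun y => by simp) (hu m (hDK hm)))
  obtain ⟨l, hlext⟩ := LinearMap.exists_extend l0
  have hl' : ∀ y : Δ, l (y : V) = l0 y := fun y => DFunLike.congr_fun hlext y
  have key := nd2 K hKn hKf S p q hp hq hpq w hwp hwq (fun m => l (f m x - x))
    (by
      intro m hm m' hm'
      show l (f (m * m') x - x) = l (f m x - x) + l (f m' x - x)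
      rw [hadd m hm m' hm', map_add])
    (by
      intro g hgK hg u hu'
      show l (f (g * (u * w * u⁻¹) * g⁻¹) x - x) = l (f (u * w * u⁻¹) x - x)
      have hm := gen_mem (w := w) hu'
      rw [hequi g ⟨hgK, hg⟩ _ hm]
      have h1 : f (u * w * u⁻¹) x - x ∈ Δ := Submodule.subset_span ⟨_, hm, rfl⟩
      have h2 := hl _ ⟨g, ⟨hgK, hg⟩, rfl⟩ ⟨_, h1⟩
      rw [← hl', ← hl'] at h2
      simpa using h2)
    (by
      intro g hgK hg
      show l (f (R p w g * g⁻¹) x - x) = 0
      have h1 : f (R p w g * g⁻¹) = 1 := by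
        have hgD : g ∈ D := hDK ⟨hgK, hg⟩
        have hRD : R p w g ∈ D := by
          have := mul_mem (hM (delta_mem2 hp hwp hg)) hgD
          simpa using this
        rw [hf.mul _ hRD _ (inv_mem hgD), hP g hgK hg, hf.mul_inv hgD]
      rw [h1, Module.End.one_apply, sub_self, map_zero])
    (by
      intro g hgK hg
      show l (f (R q w g * g⁻¹) x - x) = 0
      have h1 : f (R q w g * g⁻¹) = 1 := by
        have hgD : g ∈ D := hDK ⟨hgK, hg⟩
        have hRD : R q w g ∈ D := by
          have := mul_mem (hM (delta_mem2 hq hwq hg)) hgD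
          simpa using this
        rw [hf.mul _ hRD _ (inv_mem hgD), hQ g hgK hg, hf.mul_inv hgD]
      rw [h1, Module.End.one_apply, sub_self, map_zero])
  -- all differences are killed by `l`
  have hall : ∀ m ∈ Mw S w, l (f m x - x) = 0 := by
    intro m hm
    have hm2 := hm
    unfold Mw at hm2
    have key2 : ∀ m ∈ Subgroup.closure {x | ∃ u ∈ fsub S, x = u * w * u⁻¹},
        m ∈ Mw S w ∧ l (f m x - x) = 0 := by
      intro m hm
      induction hm using Subgroup.closure_induction with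
      | mem y hy =>
        obtain ⟨u, hu', rfl⟩ := hy
        exact ⟨gen_mem hu', key u hu'⟩
      | one => exact ⟨one_mem _, by rw [hf.one, Module.End.one_apply, sub_self, map_zero]⟩
      | mul y z _ _ hy hz =>
        exact ⟨mul_mem hy.1 hz.1, by rw [hadd y hy.1 z hz.1, map_add, hy.2, hz.2, add_zero]⟩
      | inv y _ hy =>
        refine ⟨inv_mem hy.1, ?_⟩
        have h1 := hadd y hy.1 y⁻¹ (inv_mem hy.1)
        rw [mul_inv_cancel, hf.one, Module.End.one_apply, sub_self] at h1
        have h2 := congrArg l h1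
        rw [map_zero, map_add, hy.2, zero_add] at h2
        exact h2.symm
    exact (key2 m hm2).2
  apply hl0
  ext y
  have h1 : Δ ≤ LinearMap.ker l := by
    rw [Submodule.span_le]
    rintro y ⟨m, hm, rfl⟩
    exact hall m hm
  rw [← hl']
  exact h1 y.2

/-- the version with commuting elements -/
theorem lemmaN2 (K : Subgroup (FreeGroup α)) (hKn : K.Normal) (hKf : K.FiniteIndex)
    (S : Finset α) (p q : α) (hp : p ∈ S) (hq : q ∈ S) (hpq : p ≠ q) (w : FreeGroup α)
    (hwp : kill p w = w) (hwq : kill q w = w) (D : Subgroup (FreeGroup α))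
    (hDw : ∀ u ∈ fsub S, u * w * u⁻¹ ∈ D) (hDK : K ⊓ fsub S ≤ D)
    (f : FreeGroup α → Module.End ℂ V) (hf : IsRepOn D f)
    (hadd : ∀ m ∈ Mw S w, ∀ m' ∈ Mw S w, f (m * m') - 1 = (f m - 1) + (f m' - 1))
    (hcomm : ∀ g ∈ K, g ∈ fsub S → ∀ u ∈ fsub S,
      f g * f (u * w * u⁻¹) = f (u * w * u⁻¹) * f g)
    (hP : ∀ g ∈ K, g ∈ fsub S → f (R p w g) = f g)
    (hQ : ∀ g ∈ K, g ∈ fsub S → f (R q w g) = f g) : f w = 1 := by
  classical
  have hM : Mw S w ≤ D := by
    unfold Mw
    rw [Subgroup.closure_le]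
    rintro x ⟨u, hu', rfl⟩
    exact hDw u hu'
  have key : ∀ (l : Module.Dual ℂ V) (x : V), l (f w x - x) = 0 := by
    intro l x
    have h := nd2 K hKn hKf S p q hp hq hpq w hwp hwq (fun m => l (f m x - x))
      (by
        intro m hm m' hm'
        have h1 := DFunLike.congr_fun (hadd m hm m' hm') x
        rw [LinearMap.sub_apply, LinearMap.add_apply, LinearMap.sub_apply,
          LinearMap.sub_apply, Module.End.one_apply] at h1
        show l (f (m * m') x - x) = l (f m x - x) + l (f m' x - x)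
        rw [h1, map_add])
      (by
        intro g hgK hg u hu'
        show l (f (g * (u * w * u⁻¹) * g⁻¹) x - x) = l (f (u * w * u⁻¹) x - x)
        have hgD : g ∈ D := hDK ⟨hgK, hg⟩
        rw [hf.conj hgD (hDw u hu'), hcomm g hgK hg u hu', mul_assoc, hf.mul_inv hgD,
          mul_one])
      (by
        intro g hgK hg
        show l (f (R p w g * g⁻¹) x - x) = 0
        have h1 : f (R p w g * g⁻¹) = 1 := by
          have hgD : g ∈ D := hDK ⟨hgK, hg⟩
          have hRD : R p w g ∈ D := by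
            have := mul_mem (hM (delta_mem2 hp hwp hg)) hgD
            simpa using this
          rw [hf.mul _ hRD _ (inv_mem hgD), hP g hgK hg, hf.mul_inv hgD]
        rw [h1, Module.End.one_apply, sub_self, map_zero])
      (by
        intro g hgK hg
        show l (f (R q w g * g⁻¹) x - x) = 0
        have h1 : f (R q w g * g⁻¹) = 1 := by
          have hgD : g ∈ D := hDK ⟨hgK, hg⟩
          have hRD : R q w g ∈ D := by
            have := mul_mem (hM (delta_mem2 hq hwq hg)) hgD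
            simpa using this
          rw [hf.mul _ hRD _ (inv_mem hgD), hQ g hgK hg, hf.mul_inv hgD]
        rw [h1, Module.End.one_apply, sub_self, map_zero])
      1 (one_mem _)
    simpa using h
  ext x
  have h1 := (Module.forall_dual_apply_eq_zero_iff ℂ (f w x - x)).1 (fun l => key l x)
  exact sub_eq_zero.1 h1

end

end AFn
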