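import Mathlib
import Pool.Agent.AFn.Defs
import Pool.Agent.AFn.Basic
import Pool.Agent.AFn.NDa

set_option autoImplicit false
set_option linter.unusedSectionVars false

namespace AFn

universe u

variable {α : Type u} [DecidableEq α]

private theorem gen_mem_Mw {S : Finset α} {w u : FreeGroup α} (hu : u ∈ fsub S) :
    u * w * u⁻¹ ∈ Mw S w :=
  Subgroup.subset_closure ⟨u, hu, rfl⟩

private theorem conj_mem_Mw {S : Finset α} {w g : FreeGroup α} (hg : g ∈ fsub S)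
    {m : FreeGroup α} (hm : m ∈ Mw S w) : g * m * g⁻¹ ∈ Mw S w := by
  induction hm using Subgroup.closure_induction with
  | mem x hx =>
    obtain ⟨u, hu, rfl⟩ := hx
    have h := gen_mem_Mw (w := w) (mul_mem hg hu)
    have he : g * u * w * (g * u)⁻¹ = g * (u * w * u⁻¹) * g⁻¹ := by group
    rwa [he] at h
  | one =>
    rw [mul_one, mul_inv_cancel]
    exact one_mem _
  | mul x y _ _ hx hy =>
    have he : g * (x * y) * g⁻¹ = (g * x * g⁻¹) * (g * y * g⁻¹) := by group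
    rw [he]
    exact mul_mem hx hy
  | inv x _ hx =>
    have he : g * x⁻¹ * g⁻¹ = (g * x * g⁻¹)⁻¹ := by group
    rw [he]
    exact inv_mem hx

private theorem c_one {S : Finset α} {w : FreeGroup α} {c : FreeGroup α → ℂ}
    (hadd : ∀ m ∈ Mw S w, ∀ m' ∈ Mw S w, c (m * m') = c m + c m') : c 1 = 0 := by
  have h := hadd 1 (one_mem _) 1 (one_mem _)
  rw [mul_one] at h
  simpa using h

private theorem c_inv {S : Finset α} {w : FreeGroup α} {c : FreeGroup α → ℂ}
    (hadd : ∀ m ∈ Mw S w, ∀ m' ∈ Mw S w, c (m * m') = c m + c m')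
    {m : FreeGroup α} (hm : m ∈ Mw S w) : c m⁻¹ = - c m := by
  have h := hadd m hm m⁻¹ (inv_mem hm)
  rw [mul_inv_cancel, c_one hadd] at h
  linear_combination -h

private theorem c_conj {K : Subgroup (FreeGroup α)} {S : Finset α} {w : FreeGroup α}
    {c : FreeGroup α → ℂ}
    (hadd : ∀ m ∈ Mw S w, ∀ m' ∈ Mw S w, c (m * m') = c m + c m')
    (hinv : ∀ g ∈ K, g ∈ fsub S → ∀ u ∈ fsub S,
      c (g * (u * w * u⁻¹) * g⁻¹) = c (u * w * u⁻¹))
    {g : FreeGroup α} (hgK : g ∈ K) (hg : g ∈ fsub S)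
    {m : FreeGroup α} (hm : m ∈ Mw S w) : c (g * m * g⁻¹) = c m := by
  induction hm using Subgroup.closure_induction with
  | mem x hx =>
    obtain ⟨u, hu, rfl⟩ := hx
    exact hinv g hgK hg u hu
  | one => simp
  | mul x y hxm hym hx hy =>
    have he : g * (x * y) * g⁻¹ = (g * x * g⁻¹) * (g * y * g⁻¹) := by group
    rw [he, hadd _ (conj_mem_Mw hg hxm) _ (conj_mem_Mw hg hym), hx, hy, hadd _ hxm _ hym]
  | inv x hxm hx =>
    have he : g * x⁻¹ * g⁻¹ = (g * x * g⁻¹)⁻¹ := by group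
    rw [he, c_inv hadd (conj_mem_Mw hg hxm), hx, c_inv hadd hxm]

private theorem d_mul (a : α) (w g h : FreeGroup α) :
    R a w (g * h) * (g * h)⁻¹ = (R a w g * g⁻¹) * (g * (R a w h * h⁻¹) * g⁻¹) := by
  rw [map_mul]
  group

/-- additivity of `g ↦ c (R a w g * g⁻¹)` up to a twist -/
private theorem P_mul {S : Finset α} {a : α} (ha : a ∈ S) {w : FreeGroup α}
    (hw : w ∈ fsub (S.erase a)) {c : FreeGroup α → ℂ}
    (hadd : ∀ m ∈ Mw S w, ∀ m' ∈ Mw S w, c (m * m') = c m + c m')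
    {g h : FreeGroup α} (hg : g ∈ fsub S) (hh : h ∈ fsub S) :
    c (R a w (g * h) * (g * h)⁻¹) =
      c (R a w g * g⁻¹) + c (g * (R a w h * h⁻¹) * g⁻¹) := by
  rw [d_mul, hadd _ (delta_mem ha hw hg) _ (conj_mem_Mw hg (delta_mem ha hw hh))]

private theorem P_left {K : Subgroup (FreeGroup α)} {S : Finset α} {a : α} (ha : a ∈ S)
    {w : FreeGroup α} (hw : w ∈ fsub (S.erase a)) {c : FreeGroup α → ℂ}
    (hadd : ∀ m ∈ Mw S w, ∀ m' ∈ Mw S w, c (m * m') = c m + c m')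
    (hinv : ∀ g ∈ K, g ∈ fsub S → ∀ u ∈ fsub S,
      c (g * (u * w * u⁻¹) * g⁻¹) = c (u * w * u⁻¹))
    (hP : ∀ g ∈ K, g ∈ fsub S → c (R a w g * g⁻¹) = 0)
    {g h : FreeGroup α} (hgK : g ∈ K) (hg : g ∈ fsub S) (hh : h ∈ fsub S) :
    c (R a w (g * h) * (g * h)⁻¹) = c (R a w h * h⁻¹) := by
  rw [P_mul ha hw hadd hg hh, hP g hgK hg, c_conj hadd hinv hgK hg (delta_mem ha hw hh),
    zero_add]

private theorem P_step {S : Finset α} {a : α} (ha : a ∈ S) {w : FreeGroup α}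
    (hw : w ∈ fsub (S.erase a)) {c : FreeGroup α → ℂ}
    (hadd : ∀ m ∈ Mw S w, ∀ m' ∈ Mw S w, c (m * m') = c m + c m')
    {u : FreeGroup α} (hu : u ∈ fsub S) :
    c (u * w * u⁻¹) = c (R a w u * u⁻¹) -
      c (R a w (u * (FreeGroup.of a)⁻¹) * (u * (FreeGroup.of a)⁻¹)⁻¹) := by
  have hx : FreeGroup.of a ∈ fsub S := of_mem_fsub ha
  have h := P_mul ha hw hadd (mul_mem hu (inv_mem hx)) hx
  have h1 : u * (FreeGroup.of a)⁻¹ * FreeGroup.of a = u := by group
  have h2 : R a w (FreeGroup.of a) * (FreeGroup.of a)⁻¹ =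
      FreeGroup.of a * w * (FreeGroup.of a)⁻¹ := by
    rw [R_of_self, kill_eq hw (by simp)]
  have h3 : u * (FreeGroup.of a)⁻¹ * (FreeGroup.of a * w * (FreeGroup.of a)⁻¹) *
      (u * (FreeGroup.of a)⁻¹)⁻¹ = u * w * u⁻¹ := by group
  rw [h1, h2, h3] at h
  rw [h]
  ring

theorem nd (K : Subgroup (FreeGroup α)) (hKn : K.Normal) (hKf : K.FiniteIndex)
    (S : Finset α) (p q : α) (hp : p ∈ S) (hq : q ∈ S) (hpq : p ≠ q) (w : FreeGroup α)
    (hwK : w ∈ K) (hw : w ∈ fsub ((S.erase p).erase q)) (c : FreeGroup α → ℂ)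
    (hadd : ∀ m ∈ Mw S w, ∀ m' ∈ Mw S w, c (m * m') = c m + c m')
    (hinv : ∀ g ∈ K, g ∈ fsub S → ∀ u ∈ fsub S,
      c (g * (u * w * u⁻¹) * g⁻¹) = c (u * w * u⁻¹))
    (hP : ∀ g ∈ K, g ∈ fsub S → c (R p w g * g⁻¹) = 0)
    (hQ : ∀ g ∈ K, g ∈ fsub S → c (R q w g * g⁻¹) = 0) :
    ∀ u ∈ fsub S, c (u * w * u⁻¹) = 0 := by
  have hwp : w ∈ fsub (S.erase p) := fsub_mono (Finset.erase_subset _ _) hw
  have hwq : w ∈ fsub (S.erase q) :=
    fsub_mono (Finset.erase_subset_erase q (Finset.erase_subset p S)) hw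
  have hxp : FreeGroup.of p ∈ fsub S := of_mem_fsub hp
  have hxq : FreeGroup.of q ∈ fsub S := of_mem_fsub hq
  have key := nd_abstract (G := fsub S) (K.subgroupOf (fsub S)) inferInstance inferInstance
    (fun u => c ((u : FreeGroup α) * w * (u : FreeGroup α)⁻¹))
    (fun u => c (R p w (u : FreeGroup α) * (u : FreeGroup α)⁻¹))
    (fun u => c (R q w (u : FreeGroup α) * (u : FreeGroup α)⁻¹))
    (fun k hk u => by
      have hk' : (k : FreeGroup α) ∈ K := hk
      have h := hinv k hk' k.2 u u.2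
      have he : ((k * u : fsub S) : FreeGroup α) * w * ((k * u : fsub S) : FreeGroup α)⁻¹ =
          (k : FreeGroup α) * ((u : FreeGroup α) * w * (u : FreeGroup α)⁻¹) *
            (k : FreeGroup α)⁻¹ := by
        rw [Subgroup.coe_mul]
        group
      exact (congrArg c he).trans h)
    (fun k hk u => by
      have hk' : (k : FreeGroup α) ∈ K := hk
      exact P_left hp hwp hadd hinv hP hk' k.2 u.2)
    (fun k hk u => by
      have hk' : (k : FreeGroup α) ∈ K := hk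
      exact P_left hq hwq hadd hinv hQ hk' k.2 u.2)
    ⟨FreeGroup.of p, hxp⟩ ⟨FreeGroup.of q, hxq⟩
    (fun u => P_step hp hwp hadd u.2)
    (fun u => P_step hq hwq hadd u.2)
    (fun u => by
      have h : R q w ((u : FreeGroup α) * (FreeGroup.of p)⁻¹) *
          ((u : FreeGroup α) * (FreeGroup.of p)⁻¹)⁻¹ =
          R q w (u : FreeGroup α) * (u : FreeGroup α)⁻¹ := by
        rw [map_mul, map_inv, R_of_ne hpq]
        group
      exact congrArg c h)
  intro u hu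
  exact key ⟨u, hu⟩

end AFn
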