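import Mathlib
import Pool.Agent.AFn.Defs
import Pool.Agent.AFn.Basic
import Pool.Agent.AFn.RepLib
import Pool.Agent.AFn.Kolchin
import Pool.Agent.AFn.ND

set_option autoImplicit false

namespace AFn

universe u v

variable {α : Type u} [DecidableEq α] {V : Type v} [AddCommGroup V] [Module ℂ V]
  [FiniteDimensional ℂ V]

/-- elements of `Mw S w` act by operators commuting with the whole representation -/
private theorem lemN_comm {Γ : Subgroup (FreeGroup α)} {S : Finset α} {w : FreeGroup α}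
    {f : FreeGroup α → Module.End ℂ V} (hf : IsRepOn Γ f) (hM : Mw S w ≤ Γ)
    (hcomm : ∀ u ∈ fsub S, ∀ g ∈ Γ, f (u * w * u⁻¹) * f g = f g * f (u * w * u⁻¹))
    {m : FreeGroup α} (hm : m ∈ Mw S w) : ∀ g ∈ Γ, f m * f g = f g * f m := by
  have hm' : m ∈ Subgroup.closure {x | ∃ u ∈ fsub S, x = u * w * u⁻¹} := hm
  induction hm' using Subgroup.closure_induction with
  | mem x hx =>
    obtain ⟨u, hu, rfl⟩ := hx
    exact fun g hg => hcomm u hu g hg
  | one =>
    intro g _
    rw [hf.one, one_mul, mul_one]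
  | mul x y hx hy ihx ihy =>
    intro g hg
    have hx' : x ∈ Mw S w := hx
    have hy' : y ∈ Mw S w := hy
    rw [hf.mul x (hM hx') y (hM hy'), mul_assoc, ihy hy' g hg, ← mul_assoc, ihx hx' g hg, mul_assoc]
  | inv x hx ihx =>
    intro g hg
    have hx' : x ∈ Mw S w := hx
    have h1 := hf.mul_inv (hM hx')
    have h2 := hf.inv_mul (hM hx')
    calc f x⁻¹ * f g = f x⁻¹ * f g * (f x * f x⁻¹) := by rw [h1, mul_one]
      _ = f x⁻¹ * (f g * f x) * f x⁻¹ := by simp only [mul_assoc]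
      _ = f x⁻¹ * (f x * f g) * f x⁻¹ := by rw [ihx hx' g hg]
      _ = (f x⁻¹ * f x) * (f g * f x⁻¹) := by simp only [mul_assoc]
      _ = f g * f x⁻¹ := by rw [h2, one_mul]

/-- elements of `Mw S w` act unipotently -/
private theorem lemN_nil {Γ : Subgroup (FreeGroup α)} {S : Finset α} {w : FreeGroup α}
    {f : FreeGroup α → Module.End ℂ V} (hf : IsRepOn Γ f) (hM : Mw S w ≤ Γ)
    (hcomm : ∀ u ∈ fsub S, ∀ g ∈ Γ, f (u * w * u⁻¹) * f g = f g * f (u * w * u⁻¹))
    (hu : ∀ u ∈ fsub S, IsNilpotent (f (u * w * u⁻¹) - 1))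
    {m : FreeGroup α} (hm : m ∈ Mw S w) : IsNilpotent (f m - 1) := by
  have hm' : m ∈ Subgroup.closure {x | ∃ u ∈ fsub S, x = u * w * u⁻¹} := hm
  induction hm' using Subgroup.closure_induction with
  | mem x hx =>
    obtain ⟨u, hu', rfl⟩ := hx
    exact hu u hu'
  | one =>
    rw [hf.one, sub_self]
    exact IsNilpotent.zero
  | mul x y hx hy ihx ihy =>
    have hx' : x ∈ Mw S w := hx
    have hy' : y ∈ Mw S w := hy
    have hc : Commute (f x) (f y) := lemN_comm hf hM hcomm hx' (y) (hM hy')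
    have hc1 : Commute (f x - 1) (f y) := hc.sub_left (Commute.one_left _)
    have hc2 : Commute (f x - 1) (f y - 1) := hc1.sub_right (Commute.one_right _)
    have h1 : IsNilpotent ((f x - 1) * f y) := hc1.isNilpotent_mul_right (ihx hx')
    have h2 : f (x * y) - 1 = (f x - 1) * f y + (f y - 1) := by
      rw [hf.mul x (hM hx') y (hM hy')]
      noncomm_ring
    rw [h2]
    have h3 : Commute ((f x - 1) * f y) (f y - 1) :=
      Commute.mul_left hc2 ((Commute.refl (f y)).sub_right (Commute.one_right _))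
    exact h3.isNilpotent_add h1 (ihy hy')
  | inv x hx ihx =>
    have hx' : x ∈ Mw S w := hx
    have h1 := hf.mul_inv (hM hx')
    have h2 := hf.inv_mul (hM hx')
    have hc : Commute (f x) (f x⁻¹) := by
      show f x * f x⁻¹ = f x⁻¹ * f x
      rw [h1, h2]
    have hc1 : Commute (f x - 1) (- f x⁻¹) :=
      (hc.sub_left (Commute.one_left _)).neg_right
    have h3 : f x⁻¹ - 1 = (f x - 1) * (- f x⁻¹) := by
      rw [mul_neg, sub_mul, h1, one_mul, neg_sub]
    rw [h3]
    exact hc1.isNilpotent_mul_right (ihx hx')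

/-- a vector fixed by the generators is fixed by `Mw S w` -/
private theorem lemN_fix {Γ : Subgroup (FreeGroup α)} {S : Finset α} {w : FreeGroup α}
    {f : FreeGroup α → Module.End ℂ V} (hf : IsRepOn Γ f) (hM : Mw S w ≤ Γ) {x : V}
    (hx : ∀ u ∈ fsub S, f (u * w * u⁻¹) x = x)
    {m : FreeGroup α} (hm : m ∈ Mw S w) : f m x = x := by
  have hm' : m ∈ Subgroup.closure {x | ∃ u ∈ fsub S, x = u * w * u⁻¹} := hm
  induction hm' using Subgroup.closure_induction with
  | mem y hy =>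
    obtain ⟨u, hu', rfl⟩ := hy
    exact hx u hu'
  | one => rw [hf.one]; rfl
  | mul y z hy hz ihy ihz =>
    have hy' : y ∈ Mw S w := hy
    have hz' : z ∈ Mw S w := hz
    rw [hf.mul y (hM hy') z (hM hz'), Module.End.mul_apply, ihz hz', ihy hy']
  | inv y hy ihy =>
    have hy' : y ∈ Mw S w := hy
    have h2 := hf.inv_mul (hM hy')
    have h3 : f y⁻¹ (f y x) = x := by
      rw [← Module.End.mul_apply, h2]
      rfl
    rwa [ihy hy'] at h3

theorem lemmaN (K : Subgroup (FreeGroup α)) (hKc : ∀ φ : MulAut (FreeGroup α), ∀ w ∈ K, φ w ∈ K)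
    (hKn : K.Normal) (hKf : K.FiniteIndex)
    (S : Finset α) (p q : α) (hp : p ∈ S) (hq : q ∈ S) (hpq : p ≠ q) (w : FreeGroup α)
    (hwK : w ∈ K) (hw : w ∈ fsub ((S.erase p).erase q))
    (f : FreeGroup α → Module.End ℂ V) (hf : IsRepOn (K ⊓ fsub S) f)
    (hcomm : ∀ u ∈ fsub S, ∀ g ∈ K, g ∈ fsub S →
      f (u * w * u⁻¹) * f g = f g * f (u * w * u⁻¹))
    (hu : ∀ u ∈ fsub S, IsNilpotent (f (u * w * u⁻¹) - 1))
    (hP : ∀ g ∈ K, g ∈ fsub S → f (R p w g) = f g)
    (hQ : ∀ g ∈ K, g ∈ fsub S → f (R q w g) = f g) :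
    f w = 1 := by
  have hwp : w ∈ fsub (S.erase p) := fsub_mono (Finset.erase_subset _ _) hw
  have hwq : w ∈ fsub (S.erase q) := by
    refine fsub_mono ?_ hw
    exact Finset.erase_subset_erase _ (Finset.erase_subset _ _)
  have hwS : w ∈ fsub S := fsub_mono (Finset.erase_subset _ _) hwp
  have hM : Mw S w ≤ K ⊓ fsub S := Mw_le hKn hwK hwS
  have hcomm' : ∀ u ∈ fsub S, ∀ g ∈ K ⊓ fsub S,
      f (u * w * u⁻¹) * f g = f g * f (u * w * u⁻¹) :=
    fun u hu' g hg => hcomm u hu' g hg.1 hg.2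
  have hgen : ∀ u ∈ fsub S, u * w * u⁻¹ ∈ Mw S w := fun u hu' =>
    Subgroup.subset_closure ⟨u, hu', rfl⟩
  -- the space of fixed vectors
  let V0 : Submodule ℂ V := ⨅ m : Mw S w, LinearMap.ker (f m - 1)
  have hV0 : ∀ x : V, x ∈ V0 ↔ ∀ m ∈ Mw S w, f m x = x := by
    intro x
    simp only [V0, Submodule.mem_iInf, LinearMap.mem_ker, LinearMap.sub_apply,
      Module.End.one_apply, sub_eq_zero, Subtype.forall]
  by_cases htop : V0 = ⊤
  · have hwM : w ∈ Mw S w := by
      have := hgen 1 (one_mem _)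
      simpa using this
    ext x
    have hx : x ∈ V0 := by rw [htop]; exact Submodule.mem_top
    exact (hV0 x).1 hx w hwM
  exfalso
  obtain ⟨x, hxV, hx⟩ := kolchin_rel (V := V) {A | ∃ m ∈ Mw S w, A = f m}
    (by
      rintro s ⟨m, hm, rfl⟩ t ⟨m', hm', rfl⟩
      exact ⟨m * m', mul_mem hm hm', (hf.mul m (hM hm) m' (hM hm')).symm⟩)
    (by
      rintro s ⟨m, hm, rfl⟩
      exact lemN_nil hf hM hcomm' hu hm)
    V0 htop
    (by
      rintro s ⟨m, hm, rfl⟩ y hy
      rw [(hV0 y).1 hy m hm]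
      exact hy)
  apply hxV
  rw [hV0]
  intro m hm
  refine lemN_fix hf hM ?_ hm
  -- the fixed vectors of the generators
  intro u₀ hu₀
  have key : ∀ l : Module.Dual ℂ V, l (f (u₀ * w * u₀⁻¹) x - x) = 0 := by
    intro l
    refine nd K hKn hKf S p q hp hq hpq w hwK hw (fun g => l (f g x - x)) ?_ ?_ ?_ ?_ u₀ hu₀
    · intro m hm m' hm'
      have h1 : f m' x - x ∈ V0 := hx (f m') ⟨m', hm', rfl⟩
      have h2 := (hV0 _).1 h1 m hm
      have h3 : f (m * m') x - x = (f m x - x) + (f m' x - x) := by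
        rw [hf.mul m (hM hm) m' (hM hm'), Module.End.mul_apply]
        rw [map_sub] at h2
        have h4 : f m (f m' x) = f m' x - x + f m x := by
          rw [← h2]; abel
        rw [h4]; abel
      show l (f (m * m') x - x) = l (f m x - x) + l (f m' x - x)
      rw [h3, map_add]
    · intro g hgK hgS u hu'
      have hg : g ∈ K ⊓ fsub S := ⟨hgK, hgS⟩
      have h1 : f (g * (u * w * u⁻¹) * g⁻¹) = f (u * w * u⁻¹) := by
        rw [hf.conj hg (hM (hgen u hu')), ← hcomm u hu' g hgK hgS, mul_assoc, hf.mul_inv hg,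
          mul_one]
      show l (f (g * (u * w * u⁻¹) * g⁻¹) x - x) = l (f (u * w * u⁻¹) x - x)
      rw [h1]
    · intro g hgK hgS
      have hg : g ∈ K ⊓ fsub S := ⟨hgK, hgS⟩
      have hR : R p w g ∈ K ⊓ fsub S :=
        ⟨hKc _ g hgK, StabS_map (R_mem_StabS hp hwp) hgS⟩
      have h1 : f (R p w g * g⁻¹) = 1 := by
        rw [hf.mul _ hR _ (inv_mem hg), hP g hgK hgS, hf.mul_inv hg]
      show l (f (R p w g * g⁻¹) x - x) = 0
      rw [h1, Module.End.one_apply, sub_self, map_zero]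
    · intro g hgK hgS
      have hg : g ∈ K ⊓ fsub S := ⟨hgK, hgS⟩
      have hR : R q w g ∈ K ⊓ fsub S :=
        ⟨hKc _ g hgK, StabS_map (R_mem_StabS hq hwq) hgS⟩
      have h1 : f (R q w g * g⁻¹) = 1 := by
        rw [hf.mul _ hR _ (inv_mem hg), hQ g hgK hgS, hf.mul_inv hg]
      show l (f (R q w g * g⁻¹) x - x) = 0
      rw [h1, Module.End.one_apply, sub_self, map_zero]
  exact sub_eq_zero.1 ((Module.forall_dual_apply_eq_zero_iff ℂ _).1 key)

end AFn
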