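import Mathlib
import Pool.Agent.AFn.Defs
import Pool.Agent.AFn.Basic
import Pool.Agent.AFn.RepLib
import Pool.Agent.AFn.Kolchin
import Pool.Agent.AFn.ND
import Pool.Agent.AFn.LemN

set_option autoImplicit false

namespace AFn

universe u v

variable {α : Type u} [DecidableEq α] {V : Type v} [AddCommGroup V] [Module ℂ V]
  [FiniteDimensional ℂ V]

/-- Lemma E: if `f` is invariant under the elements `T` then it is trivial on the elements of
small rank -/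
theorem lemmaE (K : Subgroup (FreeGroup α)) (hKc : ∀ φ : MulAut (FreeGroup α), ∀ w ∈ K, φ w ∈ K)
    (hKn : K.Normal) (hKf : K.FiniteIndex) (r : ℕ)
    (S W : Finset α) (hW : W ⊆ S) (hWr : W.card ≤ r) (hcard : W.card + 3 ≤ S.card)
    (f : FreeGroup α → Module.End ℂ V) (hf : IsRepOn (K ⊓ fsub S) f)
    (hT : ∀ T, IsT K r S T → ∀ b ∈ S, ∀ g ∈ K, g ∈ fsub (S.erase b) → f (T g) = f g)
    (w : FreeGroup α) (hwK : w ∈ K) (hw : w ∈ fsub W)
    (hu : ∀ u ∈ fsub S, IsNilpotent (f (u * w * u⁻¹) - 1)) :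
    f w = 1 := by
  classical
  have h1 : 3 ≤ (S \ W).card := by
    rw [Finset.card_sdiff_of_subset hW]; omega
  obtain ⟨b, hb, p, hp, q, hq, hbp, hbq, hpq⟩ := Finset.two_lt_card.mp h1
  rw [Finset.mem_sdiff] at hb hp hq
  have hpS : p ∈ S.erase b := Finset.mem_erase.mpr ⟨hbp.symm, hp.1⟩
  have hqS : q ∈ S.erase b := Finset.mem_erase.mpr ⟨hbq.symm, hq.1⟩
  have hle : fsub (S.erase b) ≤ fsub S := fsub_mono (Finset.erase_subset _ _)
  have hWb : W ⊆ S.erase b := fun x hx =>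
    Finset.mem_erase.mpr ⟨fun h => hb.2 (h ▸ hx), hW hx⟩
  have hWp : W ⊆ S.erase p := fun x hx =>
    Finset.mem_erase.mpr ⟨fun h => hp.2 (h ▸ hx), hW hx⟩
  have hWq : W ⊆ S.erase q := fun x hx =>
    Finset.mem_erase.mpr ⟨fun h => hq.2 (h ▸ hx), hW hx⟩
  have hWpq : W ⊆ ((S.erase b).erase p).erase q := fun x hx =>
    Finset.mem_erase.mpr ⟨fun h => hq.2 (h ▸ hx), Finset.mem_erase.mpr
      ⟨fun h => hp.2 (h ▸ hx), hWb hx⟩⟩
  have hf' : IsRepOn (K ⊓ fsub (S.erase b)) f := hf.mono (inf_le_inf_left _ hle)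
  have hone : (1 : MulAut (FreeGroup α)) ∈ StabS S := one_mem _
  refine lemmaN K hKc hKn hKf (S.erase b) p q hpS hqS hpq w hwK (fsub_mono hWpq hw) f hf'
    ?_ ?_ ?_ ?_
  · intro u hu' g hgK hg
    obtain ⟨ψ, hψ, hψ2⟩ := exists_TT hb.1 hWb hw hu'
    have hTT : IsT K r S (ψ * R b w * ψ⁻¹) :=
      ⟨ψ, hψ, b, hb.1, W, hWb, hWr, w, hwK, hw, rfl⟩
    have h2 := hT _ hTT b hb.1 g hgK hg
    rw [hψ2 g hg] at h2
    have hmK : u * w * u⁻¹ ∈ K := hKn.conj_mem _ hwK _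
    have hmS : u * w * u⁻¹ ∈ fsub S :=
      mul_mem (mul_mem (hle hu') (fsub_mono hW hw)) (inv_mem (hle hu'))
    have hm : u * w * u⁻¹ ∈ K ⊓ fsub S := ⟨hmK, hmS⟩
    have hg' : g ∈ K ⊓ fsub S := ⟨hgK, hle hg⟩
    rw [hf.conj hm hg'] at h2
    calc f (u * w * u⁻¹) * f g
        = f (u * w * u⁻¹) * f g * (f (u * w * u⁻¹)⁻¹ * f (u * w * u⁻¹)) := by
          rw [hf.inv_mul hm, mul_one]
      _ = (f (u * w * u⁻¹) * f g * f (u * w * u⁻¹)⁻¹) * f (u * w * u⁻¹) := by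
          simp only [mul_assoc]
      _ = f g * f (u * w * u⁻¹) := by rw [h2]
  · intro u hu'
    exact hu u (hle hu')
  · intro g hgK hg
    have hTT : IsT K r S (1 * R p w * 1⁻¹) :=
      ⟨1, hone, p, hp.1, W, hWp, hWr, w, hwK, hw, rfl⟩
    have h2 := hT _ hTT b hb.1 g hgK hg
    rwa [one_mul, inv_one, mul_one] at h2
  · intro g hgK hg
    have hTT : IsT K r S (1 * R q w * 1⁻¹) :=
      ⟨1, hone, q, hq.1, W, hWq, hWr, w, hwK, hw, rfl⟩
    have h2 := hT _ hTT b hb.1 g hgK hg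
    rwa [one_mul, inv_one, mul_one] at h2

end AFn
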