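import Mathlib
import Pool.Agent.AFn.Defs
import Pool.Agent.AFn.Basic
import Pool.Agent.AFn.RepLib
import Pool.Agent.AFn.Kolchin
import Pool.Agent.AFn.ND
import Pool.Agent.AFn.LemN
import Pool.Agent.AFn.LemE
import Pool.Agent.AFn.Core

set_option autoImplicit false

namespace AFn

universe u v

variable {α : Type u} [DecidableEq α]

/-- Theorem Y: a representation of `H ⊓ StabS S` of dimension at most `|S| - r - 1` in which
the elements `R a w` are unipotent kills the elements of rank at most `r` -/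
theorem theoremY {H : Subgroup (MulAut (FreeGroup α))} {K : Subgroup (FreeGroup α)}
    (hc : Ctx H K) (r : ℕ) (n : ℕ) : ∀ (S : Finset α) (_ : S.card = n)
    (V : Type v) [AddCommGroup V] [Module ℂ V] [FiniteDimensional ℂ V]
    (σ : MulAut (FreeGroup α) → Module.End ℂ V) (_ : IsRepOn (H ⊓ StabS S) σ)
    (_ : UnipOn K S σ) (_ : Module.finrank ℂ V + r + 1 ≤ S.card)
    (T : MulAut (FreeGroup α)) (_ : IsT K r S T), σ T = 1 := by
  classical
  induction n with
  | zero =>
    intro S hS V _ _ _ σ _ _ hd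
    omega
  | succ n ih =>
    intro S hS V _ _ _ σ hσ hu hd T hT
    obtain ⟨φ, hφ, a, ha, W, hW, hWr, w, hwK, hw, rfl⟩ := hT
    -- twist
    have htw : ∀ g ∈ H ⊓ StabS S, φ * g * φ⁻¹ ∈ H ⊓ StabS S := fun g hg =>
      ⟨hc.Hn.conj_mem _ hg.1 φ,
        (StabS S).mul_mem ((StabS S).mul_mem hφ hg.2) ((StabS S).inv_mem hφ)⟩
    obtain ⟨σ', hσ'def⟩ : ∃ σ' : MulAut (FreeGroup α) → Module.End ℂ V,
        σ' = fun g => σ (φ * g * φ⁻¹) := ⟨_, rfl⟩
    have hσ' : IsRepOn (H ⊓ StabS S) σ' := by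
      rw [hσ'def]; exact hσ.twist φ htw
    have hu' : UnipOn K S σ' := by
      intro ψ hψ b hb w' hw'K hw'
      rw [hσ'def]
      have h1 := hu (φ * ψ) ((StabS S).mul_mem hφ hψ) b hb w' hw'K hw'
      have h2 : φ * (ψ * R b w' * ψ⁻¹) * φ⁻¹ = φ * ψ * R b w' * (φ * ψ)⁻¹ := by
        rw [mul_inv_rev]; simp only [mul_assoc]
      show IsNilpotent (σ (φ * (ψ * R b w' * ψ⁻¹) * φ⁻¹) - 1)
      rw [h2]
      exact h1
    suffices hmain : σ' (R a w) = 1 by
      rw [hσ'def] at hmain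
      exact hmain
    have haS : a ∉ S.erase a := Finset.notMem_erase a S
    have hcardS : (S.erase a).card = n := by rw [Finset.card_erase_of_mem ha]; omega
    have hStab : (StabS (S.erase a) : Subgroup (MulAut (FreeGroup α))) ≤ StabS S :=
      StabS_mono (Finset.erase_subset _ _)
    have hu1 : ∀ g ∈ K, g ∈ fsub (S.erase a) → IsNilpotent (σ' (R a g) - 1) := by
      intro g hgK hg
      have := hu' 1 (one_mem _) a ha g hgK hg
      rwa [one_mul, inv_one, mul_one] at this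
    have hRm : ∀ g ∈ K, g ∈ fsub (S.erase a) → R a g ∈ H ⊓ StabS S := fun g hgK hg =>
      ⟨hc.RH a g hgK, R_mem_StabS ha hg⟩
    rcases Nat.lt_or_ge (Module.finrank ℂ V) 2 with hV | hV
    · have h1 := nilpotent_dim_le_one (by omega) (hu1 w hwK (fsub_mono hW hw))
      exact sub_eq_zero.mp h1
    by_cases hne : ∀ d ∈ K ⊓ fsub (S.erase a), σ' (R a d) = 1
    · exact hne w ⟨hwK, fsub_mono hW hw⟩
    push Not at hne
    have hf : IsRepOn (K ⊓ fsub (S.erase a)) (fun g => σ' (R a g)) := by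
      refine ⟨by simp only [map_one]; exact hσ'.one, fun g hg h hh => ?_⟩
      simp only [map_mul]
      exact hσ'.mul _ (hRm g hg.1 hg.2) _ (hRm h hh.1 hh.2)
    have hΓ : H ⊓ StabS (S.erase a) ≤ H ⊓ StabS S := inf_le_inf_left _ hStab
    have huS' : UnipOn K (S.erase a) σ' := by
      intro ψ hψ b hb w' hw'K hw'
      refine hu' ψ (hStab hψ) b (Finset.mem_of_mem_erase hb) w' hw'K ?_
      exact fsub_mono (Finset.erase_subset_erase _ (Finset.erase_subset _ _)) hw'
    have hinv := core hc r (S.erase a) a haS V σ' (H ⊓ StabS S) hΓ hσ' hRm huS'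
      (K ⊓ fsub (S.erase a)) le_rfl
      (fun ψ hψ d hd => ⟨hc.Kc ψ d hd.1, StabS_map hψ hd.2⟩)
      (fun d hd => hu1 d hd.1 hd.2)
      (by
        intro V2 _ _ _ τ hτ huτ hdτ T hT
        refine ih (S.erase a) hcardS V2 τ hτ huτ ?_ T hT
        omega)
      hne
    have hKn := hc.Kn
    have hconjmem : ∀ u ∈ fsub (S.erase a), u * w * u⁻¹ ∈ K ⊓ fsub (S.erase a) :=
      fun u hu2 => ⟨hKn.conj_mem _ hwK _,
        (fsub _).mul_mem ((fsub _).mul_mem hu2 (fsub_mono hW hw)) ((fsub _).inv_mem hu2)⟩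
    have hTinv : ∀ T, IsT K r (S.erase a) T → ∀ g ∈ K, g ∈ fsub (S.erase a) →
        σ' (R a (T g)) = σ' (R a g) := fun T hT g hgK hg => hinv T hT g ⟨hgK, hg⟩
    rcases Nat.lt_or_ge (Module.finrank ℂ V) 3 with hV3 | hV3
    · -- dimension two
      have hpq : 2 ≤ (S.erase a \ W).card := by
        rw [Finset.card_sdiff_of_subset hW]; omega
      obtain ⟨p, hp, q, hq, hpq⟩ := Finset.one_lt_card.mp hpq
      rw [Finset.mem_sdiff] at hp hq
      have hWp : W ⊆ (S.erase a).erase p := fun x hx =>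
        Finset.mem_erase.mpr ⟨fun h => hp.2 (h ▸ hx), hW hx⟩
      have hWq : W ⊆ (S.erase a).erase q := fun x hx =>
        Finset.mem_erase.mpr ⟨fun h => hq.2 (h ▸ hx), hW hx⟩
      have hWpq : W ⊆ ((S.erase a).erase p).erase q := fun x hx =>
        Finset.mem_erase.mpr ⟨fun h => hq.2 (h ▸ hx), hWp hx⟩
      have hcomm := dim2_comm (V := V) (by omega)
        {s | ∃ d ∈ K ⊓ fsub (S.erase a), s = σ' (R a d)}
        (by
          rintro s ⟨d, hd, rfl⟩ t ⟨d', hd', rfl⟩
          exact ⟨d * d', mul_mem hd hd', (hf.mul d hd d' hd').symm⟩)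
        (by
          rintro s ⟨d, hd, rfl⟩
          exact hu1 d hd.1 hd.2)
      refine lemmaN K hc.Kc hKn hc.Kf (S.erase a) p q hp.1 hq.1 hpq w hwK
        (fsub_mono hWpq hw) (fun g => σ' (R a g)) hf ?_ ?_ ?_ ?_
      · intro u hu2 g hgK hg
        exact hcomm _ ⟨_, hconjmem u hu2, rfl⟩ _ ⟨g, ⟨hgK, hg⟩, rfl⟩
      · intro u hu2
        exact hu1 _ (hconjmem u hu2).1 (hconjmem u hu2).2
      · intro g hgK hg
        have h1 := hTinv (1 * R p w * 1⁻¹)
          ⟨1, one_mem _, p, hp.1, W, hWp, hWr, w, hwK, hw, rfl⟩ g hgK hg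
        rwa [one_mul, inv_one, mul_one] at h1
      · intro g hgK hg
        have h1 := hTinv (1 * R q w * 1⁻¹)
          ⟨1, one_mem _, q, hq.1, W, hWq, hWr, w, hwK, hw, rfl⟩ g hgK hg
        rwa [one_mul, inv_one, mul_one] at h1
    · refine lemmaE K hc.Kc hKn hc.Kf r (S.erase a) W hW hWr ?_
        (fun g => σ' (R a g)) hf ?_ w hwK hw ?_
      · omega
      · intro T hT b hb g hgK hg
        exact hTinv T hT g hgK (fsub_mono (Finset.erase_subset _ _) hg)
      · intro u hu2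
        exact hu1 _ (hconjmem u hu2).1 (hconjmem u hu2).2

end AFn
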