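import Mathlib
import Pool.Agent.AFn.Defs
import Pool.Agent.AFn.Basic
import Pool.Agent.AFn.RepLib
import Pool.Agent.AFn.Kolchin
import Pool.Agent.AFn.ND
import Pool.Agent.AFn.LemN
import Pool.Agent.AFn.LemE
import Pool.Agent.AFn.Core
import Pool.Agent.AFn.ThmY

set_option autoImplicit false

namespace AFn

universe u v

variable {α : Type u} [DecidableEq α]

theorem DS_le {H : Subgroup (MulAut (FreeGroup α))} {K : Subgroup (FreeGroup α)}
    (hc : Ctx H K) (S : Finset α) : DS K S ≤ K ⊓ fsub S := by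
  rw [DS, Subgroup.closure_le]
  rintro x (⟨g, hg, h, hh, hgS, hhS, rfl⟩ | ⟨φ, hφ, b, hb, w, hwK, hw, rfl⟩)
  · exact ⟨K.mul_mem (K.mul_mem (K.mul_mem hg hh) (K.inv_mem hg)) (K.inv_mem hh),
      (fsub S).mul_mem ((fsub S).mul_mem ((fsub S).mul_mem hgS hhS) ((fsub S).inv_mem hgS))
        ((fsub S).inv_mem hhS)⟩
  · exact ⟨hc.Kc φ w hwK, StabS_map hφ (fsub_mono (Finset.erase_subset _ _) hw)⟩

theorem DS_inv {H : Subgroup (MulAut (FreeGroup α))} {K : Subgroup (FreeGroup α)}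
    (hc : Ctx H K) (S : Finset α) : ∀ φ ∈ StabS S, ∀ d ∈ DS K S, φ d ∈ DS K S := by
  intro φ hφ d hd
  have h1 : DS K S ≤ (DS K S).comap (φ : FreeGroup α ≃* FreeGroup α).toMonoidHom := by
    conv_lhs => rw [DS]
    rw [Subgroup.closure_le]
    rintro x (⟨g, hg, h, hh, hgS, hhS, rfl⟩ | ⟨ψ, hψ, b, hb, w, hwK, hw, rfl⟩)
    · refine Subgroup.subset_closure (Or.inl ⟨φ g, hc.Kc φ g hg, φ h, hc.Kc φ h hh,
        StabS_map hφ hgS, StabS_map hφ hhS, ?_⟩)
      show φ (g * h * g⁻¹ * h⁻¹) = _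
      simp only [map_mul, map_inv]
    · refine Subgroup.subset_closure (Or.inr ⟨φ * ψ, (StabS S).mul_mem hφ hψ, b, hb, w, hwK,
        hw, ?_⟩)
      rfl
  exact h1 hd

theorem stage2 {H : Subgroup (MulAut (FreeGroup α))} {K : Subgroup (FreeGroup α)}
    (hc : Ctx H K) (r : ℕ) (S : Finset α) (a : α) (ha : a ∉ S)
    (V : Type v) [AddCommGroup V] [Module ℂ V] [FiniteDimensional ℂ V]
    (σ : MulAut (FreeGroup α) → Module.End ℂ V) (hσ : IsRepOn H σ)
    (hu : UnipOn K S σ) (hD : ∀ d ∈ DS K S, IsNilpotent (σ (R a d) - 1))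
    (hd : Module.finrank ℂ V + r ≤ S.card) (hcard : r + 3 ≤ S.card)
    (W : Finset α) (hW : W ⊆ S) (hWr : W.card ≤ r) (w : FreeGroup α) (hwK : w ∈ K)
    (hw : w ∈ fsub W) : σ (R a w) = 1 := by
  classical
  have hKD : ∀ b ∈ S, ∀ g ∈ K, g ∈ fsub (S.erase b) → g ∈ DS K S := by
    intro b hb g hgK hg
    exact Subgroup.subset_closure (Or.inr ⟨1, one_mem _, b, hb, g, hgK, hg, rfl⟩)
  have hRm : ∀ g ∈ K, g ∈ fsub S → R a g ∈ H := fun g hgK _ => hc.RH a g hgK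
  have hwD : ∀ u ∈ fsub S, u * w * u⁻¹ ∈ DS K S := by
    intro u hu2
    obtain ⟨φ, hφ, hφ1, hφ2⟩ := exists_inn S hu2
    have h1 : ∃ b ∈ S, b ∉ W := by
      by_contra h
      push Not at h
      have := Finset.card_le_card (show S ⊆ W from h)
      omega
    obtain ⟨b, hb, hbW⟩ := h1
    have h2 : W ⊆ S.erase b := fun x hx =>
      Finset.mem_erase.mpr ⟨fun h => hbW (h ▸ hx), hW hx⟩
    rw [← hφ1 w (fsub_mono hW hw)]
    exact Subgroup.subset_closure (Or.inr ⟨φ, hφ, b, hb, w, hwK, fsub_mono h2 hw, rfl⟩)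
  by_cases hne : ∀ d ∈ DS K S, σ (R a d) = 1
  · have := hwD 1 (one_mem _)
    rw [one_mul, inv_one, mul_one] at this
    exact hne w this
  push Not at hne
  have hinv := core hc r S a ha V σ H inf_le_left hσ hRm hu (DS K S) (DS_le hc S)
    (DS_inv hc S) hD
    (by
      intro V2 _ _ _ τ hτ huτ hdτ T hT
      refine theoremY hc r S.card S rfl V2 τ hτ huτ ?_ T hT
      omega) hne
  have hf : IsRepOn (K ⊓ fsub S) (fun g => σ (R a g)) := by
    refine ⟨by simp only [map_one]; exact hσ.one, fun g hg h hh => ?_⟩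
    simp only [map_mul]
    exact hσ.mul _ (hRm g hg.1 hg.2) _ (hRm h hh.1 hh.2)
  refine lemmaE K hc.Kc hc.Kn hc.Kf r S W hW hWr ?_ (fun g => σ (R a g)) hf ?_ w hwK hw ?_
  · omega
  · intro T hT b hb g hgK hg
    exact hinv T hT g (hKD b hb g hgK hg)
  · intro u hu2
    exact hD _ (hwD u hu2)

end AFn
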