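import Mathlib
import Pool.Agent.AFn.Defs
import Pool.Agent.AFn.Basic
import Pool.Agent.AFn.RepLib
import Pool.Agent.AFn.Kolchin
import Pool.Agent.AFn.Core
import Pool.Agent.AFn.ThmY
import Pool.Agent.AFn.Stage2
import Pool.Agent.AFn.ND2

set_option autoImplicit false

namespace AFn

universe u v

variable {α : Type u} [DecidableEq α]

/-- a word in no letters is trivial -/
theorem fsub_empty {w : FreeGroup α} (hw : w ∈ fsub (∅ : Finset α)) : w = 1 := by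
  unfold fsub at hw
  rw [Finset.coe_empty, Set.image_empty, Subgroup.closure_empty] at hw
  exact Subgroup.mem_bot.mp hw

/-- conjugates of elements of smaller factors are in `DS` -/
theorem conj_mem_DS {K : Subgroup (FreeGroup α)} {S : Finset α} {b : α} (hb : b ∈ S)
    {w u : FreeGroup α} (hwK : w ∈ K) (hw : w ∈ fsub (S.erase b)) (hu : u ∈ fsub S) :
    u * w * u⁻¹ ∈ DS K S := by
  obtain ⟨φ, hφ, hφ1, hφ2⟩ := exists_inn S hu
  rw [← hφ1 w (fsub_mono (Finset.erase_subset _ _) hw)]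
  exact Subgroup.subset_closure (Or.inr ⟨φ, hφ, b, hb, w, hwK, hw, rfl⟩)

/-- stage 2 for a group of automorphisms `Γ` and without a condition on the number of letters -/
theorem stage2g {H : Subgroup (MulAut (FreeGroup α))} {K : Subgroup (FreeGroup α)}
    (hc : Ctx H K) (r : ℕ) (S : Finset α) (a : α) (ha : a ∉ S)
    (V : Type v) [AddCommGroup V] [Module ℂ V] [FiniteDimensional ℂ V]
    (σ : MulAut (FreeGroup α) → Module.End ℂ V) (Γ : Subgroup (MulAut (FreeGroup α)))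
    (hΓ : H ⊓ StabS S ≤ Γ) (hσ : IsRepOn Γ σ) (hR : ∀ g ∈ K, g ∈ fsub S → R a g ∈ Γ)
    (hu : UnipOn K S σ) (hD : ∀ d ∈ DS K S, IsNilpotent (σ (R a d) - 1))
    (hd : Module.finrank ℂ V + r ≤ S.card)
    (W : Finset α) (hW : W ⊆ S) (hWr : W.card ≤ r) (w : FreeGroup α) (hwK : w ∈ K)
    (hw : w ∈ fsub W) : σ (R a w) = 1 := by
  classical
  rcases Nat.eq_zero_or_pos (Module.finrank ℂ V) with h0 | h0
  · have := Module.finrank_zero_iff.mp h0
    exact Subsingleton.elim _ _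
  have hKD : ∀ b ∈ S, ∀ g ∈ K, g ∈ fsub (S.erase b) → g ∈ DS K S := by
    intro b hb g hgK hg
    exact Subgroup.subset_closure (Or.inr ⟨1, one_mem _, b, hb, g, hgK, hg, rfl⟩)
  have hbex : ∃ b ∈ S, b ∉ W := by
    by_contra h
    push Not at h
    have := Finset.card_le_card (show S ⊆ W from h)
    omega
  obtain ⟨b, hb, hbW⟩ := hbex
  have hWb : W ⊆ S.erase b := fun x hx =>
    Finset.mem_erase.mpr ⟨fun h => hbW (h ▸ hx), hW hx⟩
  have hwD : w ∈ DS K S := hKD b hb w hwK (fsub_mono hWb hw)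
  rcases Nat.lt_or_ge (Module.finrank ℂ V) 2 with h2 | h2
  · exact sub_eq_zero.mp (nilpotent_dim_le_one (by omega) (hD w hwD))
  rcases Nat.eq_zero_or_pos r with hr | hr
  · have hW0 : W = ∅ := Finset.card_eq_zero.mp (by omega)
    rw [hW0] at hw
    rw [fsub_empty hw, map_one]
    exact hσ.one
  by_cases hne : ∀ d ∈ DS K S, σ (R a d) = 1
  · exact hne w hwD
  push Not at hne
  have hinv := core hc r S a ha V σ Γ hΓ hσ hR hu (DS K S) (DS_le hc S) (DS_inv hc S) hD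
    (by
      intro V2 _ _ _ τ hτ huτ hdτ T hT
      refine theoremY hc r S.card S rfl V2 τ hτ huτ ?_ T hT
      omega) hne
  -- two letters outside `W`
  have hpq : 2 ≤ (S \ W).card := by
    rw [Finset.card_sdiff_of_subset hW]; omega
  obtain ⟨p, hp, q, hq, hpq⟩ := Finset.one_lt_card.mp hpq
  rw [Finset.mem_sdiff] at hp hq
  have hcex : ∃ c ∈ S, c ∉ ({p, q} : Finset α) := by
    by_contra h
    push Not at h
    have h1 := Finset.card_le_card (show S ⊆ {p, q} from h)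
    rw [Finset.card_pair hpq] at h1
    omega
  obtain ⟨c, hcS, hcpq⟩ := hcex
  have hpqS : ({p, q} : Finset α) ⊆ S := by
    intro x hx
    rw [Finset.mem_insert, Finset.mem_singleton] at hx
    rcases hx with rfl | rfl
    · exact hp.1
    · exact hq.1
  have hpqc : ({p, q} : Finset α) ⊆ S.erase c := fun x hx =>
    Finset.mem_erase.mpr ⟨fun h => hcpq (h ▸ hx), hpqS hx⟩
  have hWp : W ⊆ S.erase p := fun x hx =>
    Finset.mem_erase.mpr ⟨fun h => hp.2 (h ▸ hx), hW hx⟩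
  have hWq : W ⊆ S.erase q := fun x hx =>
    Finset.mem_erase.mpr ⟨fun h => hq.2 (h ▸ hx), hW hx⟩
  have hDK : K ⊓ fsub ({p, q} : Finset α) ≤ DS K S := fun g hg =>
    hKD c hcS g hg.1 (fsub_mono hpqc hg.2)
  have hDSle : DS K S ≤ K ⊓ fsub S := DS_le hc S
  have hf : IsRepOn (DS K S) (fun g => σ (R a g)) := by
    refine ⟨by simp only [map_one]; exact hσ.one, fun g hg h hh => ?_⟩
    simp only [map_mul]
    exact hσ.mul _ (hR g (hDSle hg).1 (hDSle hg).2) _ (hR h (hDSle hh).1 (hDSle hh).2)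
  refine lemmaE2 K hc.Kn hc.Kf {p, q} p q (Finset.mem_insert_self _ _)
    (Finset.mem_insert_of_mem (Finset.mem_singleton_self _)) hpq w (kill_eq hw hp.2)
    (kill_eq hw hq.2) (DS K S) ?_ hDK (fun g => σ (R a g)) hf hD ?_ ?_
  · intro u hu'
    exact conj_mem_DS hp.1 hwK (fsub_mono hWp hw) (fsub_mono hpqS hu')
  · intro g hgK hg
    have h1 := hinv (1 * R p w * 1⁻¹)
      ⟨1, one_mem _, p, hp.1, W, hWp, hWr, w, hwK, hw, rfl⟩ g (hDK ⟨hgK, hg⟩)
    rwa [one_mul, inv_one, mul_one] at h1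
  · intro g hgK hg
    have h1 := hinv (1 * R q w * 1⁻¹)
      ⟨1, one_mem _, q, hq.1, W, hWq, hWr, w, hwK, hw, rfl⟩ g (hDK ⟨hgK, hg⟩)
    rwa [one_mul, inv_one, mul_one] at h1

/-- the elements of `H` preserving a subspace -/
private def stabB {G : Type u} [Group G] {V : Type v} [AddCommGroup V] [Module ℂ V]
    {H : Subgroup G} {σ : G → Module.End ℂ V} (hσ : IsRepOn H σ) (B : Submodule ℂ V) :
    Subgroup G where
  carrier := {h | h ∈ H ∧ (∀ x ∈ B, σ h x ∈ B) ∧ (∀ x ∈ B, σ h⁻¹ x ∈ B)}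
  one_mem' := ⟨one_mem _, fun x hx => by rw [hσ.one]; exact hx,
    fun x hx => by rw [inv_one, hσ.one]; exact hx⟩
  mul_mem' := by
    rintro g h ⟨hg, hg1, hg2⟩ ⟨hh, hh1, hh2⟩
    refine ⟨mul_mem hg hh, fun x hx => ?_, fun x hx => ?_⟩
    · rw [hσ.mul g hg h hh, Module.End.mul_apply]
      exact hg1 _ (hh1 x hx)
    · rw [mul_inv_rev, hσ.mul _ (inv_mem hh) _ (inv_mem hg), Module.End.mul_apply]
      exact hh2 _ (hg2 x hx)
  inv_mem' := by
    rintro g ⟨hg, hg1, hg2⟩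
    exact ⟨inv_mem hg, hg2, by rw [inv_inv]; exact hg1⟩

/-- stage 2 on a subspace -/
theorem stage2_sub {H : Subgroup (MulAut (FreeGroup α))} {K : Subgroup (FreeGroup α)}
    (hc : Ctx H K) (r : ℕ) (S : Finset α) (a : α) (ha : a ∉ S)
    (V : Type v) [AddCommGroup V] [Module ℂ V] [FiniteDimensional ℂ V]
    (σ : MulAut (FreeGroup α) → Module.End ℂ V) (hσ : IsRepOn H σ)
    (hu : UnipOn K S σ) (hD : ∀ d ∈ DS K S, IsNilpotent (σ (R a d) - 1))
    (B : Submodule ℂ V) (hB1 : ∀ h ∈ H ⊓ StabS S, ∀ x ∈ B, σ h x ∈ B)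
    (hB2 : ∀ g ∈ K, g ∈ fsub S → ∀ x ∈ B, σ (R a g) x ∈ B)
    (hd : Module.finrank ℂ B + r ≤ S.card)
    (W : Finset α) (hW : W ⊆ S) (hWr : W.card ≤ r) (w : FreeGroup α) (hwK : w ∈ K)
    (hw : w ∈ fsub W) : ∀ x ∈ B, σ (R a w) x = x := by
  have hΓ : H ⊓ StabS S ≤ stabB hσ B := fun h hh =>
    ⟨hh.1, hB1 h hh, hB1 h⁻¹ (inv_mem hh)⟩
  have hR : ∀ g ∈ K, g ∈ fsub S → R a g ∈ stabB hσ B := fun g hgK hg =>
    ⟨hc.RH a g hgK, hB2 g hgK hg, by
      rw [← map_inv]; exact hB2 g⁻¹ (inv_mem hgK) (inv_mem hg)⟩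
  have hσB : IsRepOn (stabB hσ B) σ := hσ.mono (fun h hh => hh.1)
  obtain ⟨τ, hτ, hτ'⟩ := hσB.exists_sub B (fun g hg => hg.2.1)
  have huτ : UnipOn K S τ := by
    intro φ hφ b hb w' hw'K hw'
    exact nilpotent_sub (hτ' _ (hΓ (unip_mem hc hφ hb hw'K hw'))) (hu φ hφ b hb w' hw'K hw')
  have hDτ : ∀ d ∈ DS K S, IsNilpotent (τ (R a d) - 1) := fun d hd' =>
    nilpotent_sub (hτ' _ (hR d (DS_le hc S hd').1 (DS_le hc S hd').2)) (hD d hd')
  have h1 := stage2g hc r S a ha B τ (stabB hσ B) hΓ hτ hR huτ hDτ hd W hW hWr w hwK hw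
  intro x hx
  have h2 := hτ' _ (hR w hwK (fsub_mono hW hw)) ⟨x, hx⟩
  rw [h1] at h2
  exact h2.symm

/-- stage 2 on a quotient -/
theorem stage2_quot {H : Subgroup (MulAut (FreeGroup α))} {K : Subgroup (FreeGroup α)}
    (hc : Ctx H K) (r : ℕ) (S : Finset α) (a : α) (ha : a ∉ S)
    (V : Type v) [AddCommGroup V] [Module ℂ V] [FiniteDimensional ℂ V]
    (σ : MulAut (FreeGroup α) → Module.End ℂ V) (hσ : IsRepOn H σ)
    (hu : UnipOn K S σ) (hD : ∀ d ∈ DS K S, IsNilpotent (σ (R a d) - 1))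
    (B : Submodule ℂ V) (hB1 : ∀ h ∈ H ⊓ StabS S, ∀ x ∈ B, σ h x ∈ B)
    (hB2 : ∀ g ∈ K, g ∈ fsub S → ∀ x ∈ B, σ (R a g) x ∈ B)
    (hd : Module.finrank ℂ (V ⧸ B) + r ≤ S.card)
    (W : Finset α) (hW : W ⊆ S) (hWr : W.card ≤ r) (w : FreeGroup α) (hwK : w ∈ K)
    (hw : w ∈ fsub W) : ∀ x, σ (R a w) x - x ∈ B := by
  have hΓ : H ⊓ StabS S ≤ stabB hσ B := fun h hh =>
    ⟨hh.1, hB1 h hh, hB1 h⁻¹ (inv_mem hh)⟩
  have hR : ∀ g ∈ K, g ∈ fsub S → R a g ∈ stabB hσ B := fun g hgK hg =>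
    ⟨hc.RH a g hgK, hB2 g hgK hg, by
      rw [← map_inv]; exact hB2 g⁻¹ (inv_mem hgK) (inv_mem hg)⟩
  have hσB : IsRepOn (stabB hσ B) σ := hσ.mono (fun h hh => hh.1)
  obtain ⟨τ, hτ, hτ'⟩ := hσB.exists_quot B (fun g hg => hg.2.1)
  have huτ : UnipOn K S τ := by
    intro φ hφ b hb w' hw'K hw'
    exact nilpotent_quot (hτ' _ (hΓ (unip_mem hc hφ hb hw'K hw'))) (hu φ hφ b hb w' hw'K hw')
  have hDτ : ∀ d ∈ DS K S, IsNilpotent (τ (R a d) - 1) := fun d hd' =>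
    nilpotent_quot (hτ' _ (hR d (DS_le hc S hd').1 (DS_le hc S hd').2)) (hD d hd')
  have h1 := stage2g hc r S a ha (V ⧸ B) τ (stabB hσ B) hΓ hτ hR huτ hDτ hd W hW hWr w hwK hw
  intro x
  have h2 := hτ' _ (hR w hwK (fsub_mono hW hw)) x
  rw [h1, Module.End.one_apply] at h2
  exact (Submodule.Quotient.eq B).mp h2.symm

/-- Theorem Y on a subspace -/
theorem thmY_sub {H : Subgroup (MulAut (FreeGroup α))} {K : Subgroup (FreeGroup α)}
    (hc : Ctx H K) (r : ℕ) (S : Finset α)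
    (V : Type v) [AddCommGroup V] [Module ℂ V] [FiniteDimensional ℂ V]
    (σ : MulAut (FreeGroup α) → Module.End ℂ V) (hσ : IsRepOn H σ) (hu : UnipOn K S σ)
    (B : Submodule ℂ V) (hB1 : ∀ h ∈ H ⊓ StabS S, ∀ x ∈ B, σ h x ∈ B)
    (hd : Module.finrank ℂ B + r + 1 ≤ S.card)
    (T : MulAut (FreeGroup α)) (hT : IsT K r S T) : ∀ x ∈ B, σ T x = x := by
  have hσB : IsRepOn (H ⊓ StabS S) σ := hσ.mono inf_le_left
  obtain ⟨τ, hτ, hτ'⟩ := hσB.exists_sub B hB1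
  have huτ : UnipOn K S τ := by
    intro φ hφ b hb w' hw'K hw'
    exact nilpotent_sub (hτ' _ (unip_mem hc hφ hb hw'K hw')) (hu φ hφ b hb w' hw'K hw')
  have h1 := theoremY hc r S.card S rfl B τ hτ huτ hd T hT
  intro x hx
  have h2 := hτ' _ (hT.mem hc) ⟨x, hx⟩
  rw [h1] at h2
  exact h2.symm

/-- Theorem Y on a quotient -/
theorem thmY_quot {H : Subgroup (MulAut (FreeGroup α))} {K : Subgroup (FreeGroup α)}
    (hc : Ctx H K) (r : ℕ) (S : Finset α)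
    (V : Type v) [AddCommGroup V] [Module ℂ V] [FiniteDimensional ℂ V]
    (σ : MulAut (FreeGroup α) → Module.End ℂ V) (hσ : IsRepOn H σ) (hu : UnipOn K S σ)
    (B : Submodule ℂ V) (hB1 : ∀ h ∈ H ⊓ StabS S, ∀ x ∈ B, σ h x ∈ B)
    (hd : Module.finrank ℂ (V ⧸ B) + r + 1 ≤ S.card)
    (T : MulAut (FreeGroup α)) (hT : IsT K r S T) : ∀ x, σ T x - x ∈ B := by
  have hσB : IsRepOn (H ⊓ StabS S) σ := hσ.mono inf_le_left
  obtain ⟨τ, hτ, hτ'⟩ := hσB.exists_quot B hB1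
  have huτ : UnipOn K S τ := by
    intro φ hφ b hb w' hw'K hw'
    exact nilpotent_quot (hτ' _ (unip_mem hc hφ hb hw'K hw')) (hu φ hφ b hb w' hw'K hw')
  have h1 := theoremY hc r S.card S rfl (V ⧸ B) τ hτ huτ hd T hT
  intro x
  have h2 := hτ' _ (hT.mem hc) x
  rw [h1, Module.End.one_apply] at h2
  exact (Submodule.Quotient.eq B).mp h2.symm

end AFn
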