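import Mathlib
import Pool.Agent.AFn.Defs
import Pool.Agent.AFn.Basic
import Pool.Agent.AFn.RepLib
import Pool.Agent.AFn.Kolchin
import Pool.Agent.AFn.Core
import Pool.Agent.AFn.Stage2g

set_option autoImplicit false

namespace AFn

universe u v

variable {α : Type u} [DecidableEq α]

/-- the elements of rank at most `r` of `K ⊓ fsub S` -/
def XS (K : Subgroup (FreeGroup α)) (r : ℕ) (S : Finset α) : Set (FreeGroup α) :=
  {w | ∃ φ ∈ StabS S, ∃ W ⊆ S, W.card ≤ r ∧ ∃ w0 ∈ K, w0 ∈ fsub W ∧ w = φ w0}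

theorem XS_mem {H : Subgroup (MulAut (FreeGroup α))} {K : Subgroup (FreeGroup α)}
    (hc : Ctx H K) {r : ℕ} {S : Finset α} {w : FreeGroup α} (hw : w ∈ XS K r S) :
    w ∈ K ⊓ fsub S := by
  obtain ⟨φ, hφ, W, hW, -, w0, hw0K, hw0, rfl⟩ := hw
  exact ⟨hc.Kc φ w0 hw0K, StabS_map hφ (fsub_mono hW hw0)⟩

theorem XS_map {K : Subgroup (FreeGroup α)} {r : ℕ} {S : Finset α} {w : FreeGroup α}
    (hw : w ∈ XS K r S) {ψ : MulAut (FreeGroup α)} (hψ : ψ ∈ StabS S) : ψ w ∈ XS K r S := by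
  obtain ⟨φ, hφ, W, hW, hWr, w0, hw0K, hw0, rfl⟩ := hw
  exact ⟨ψ * φ, mul_mem hψ hφ, W, hW, hWr, w0, hw0K, hw0, rfl⟩

theorem XS_conj {K : Subgroup (FreeGroup α)} {r : ℕ} {S : Finset α} {w : FreeGroup α}
    (hw : w ∈ XS K r S) {u : FreeGroup α} (hu : u ∈ fsub S) : u * w * u⁻¹ ∈ XS K r S := by
  obtain ⟨ψ, hψ, hψ1, -⟩ := exists_inn S hu
  have hwS : w ∈ fsub S := by
    obtain ⟨φ, hφ, W, hW, -, w0, -, hw0, rfl⟩ := hw
    exact StabS_map hφ (fsub_mono hW hw0)
  rw [← hψ1 w hwS]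
  exact XS_map hw hψ

/-- conjugating a representation by an element of `StabS S` -/
theorem twist_unip {K : Subgroup (FreeGroup α)} {S : Finset α}
    {V : Type v} [AddCommGroup V] [Module ℂ V]
    {σ : MulAut (FreeGroup α) → Module.End ℂ V} (hu : UnipOn K S σ)
    {φ : MulAut (FreeGroup α)} (hφ : φ ∈ StabS S) :
    UnipOn K S (fun g => σ (φ * g * φ⁻¹)) := by
  intro ψ hψ b hb w' hw'K hw'
  have h1 := hu (φ * ψ) ((StabS S).mul_mem hφ hψ) b hb w' hw'K hw'
  have h2 : φ * (ψ * R b w' * ψ⁻¹) * φ⁻¹ = φ * ψ * R b w' * (φ * ψ)⁻¹ := by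
    rw [mul_inv_rev]; simp only [mul_assoc]
  show IsNilpotent (σ (φ * (ψ * R b w' * ψ⁻¹) * φ⁻¹) - 1)
  rw [h2]
  exact h1

/-- a rank one decomposition from the lack of two independent values -/
theorem rank_one_of {V : Type v} [AddCommGroup V] [Module ℂ V] [FiniteDimensional ℂ V]
    (N : Module.End ℂ V) (h : Module.finrank ℂ (LinearMap.range N) ≤ 1) :
    ∃ (e : V) (l : Module.Dual ℂ V), ∀ x, N x = l x • e := by
  classical
  by_cases h0 : ∀ x, N x = 0
  · exact ⟨0, 0, fun x => by rw [h0 x, smul_zero]⟩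
  push Not at h0
  obtain ⟨x0, hx0⟩ := h0
  obtain ⟨l', hl'⟩ : ∃ l' : Module.Dual ℂ V, l' (N x0) ≠ 0 := by
    by_contra hcon
    push Not at hcon
    exact hx0 ((Module.forall_dual_apply_eq_zero_iff ℂ _).1 hcon)
  refine ⟨N x0, (l' (N x0))⁻¹ • (l'.comp N), fun x => ?_⟩
  obtain ⟨v, hv⟩ := finrank_le_one_iff.mp h
  obtain ⟨c, hc⟩ := hv ⟨N x, LinearMap.mem_range_self N x⟩
  obtain ⟨c0, hc0⟩ := hv ⟨N x0, LinearMap.mem_range_self N x0⟩
  have e1 : N x = c • (v : V) := (congrArg Subtype.val hc).symm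
  have e2 : N x0 = c0 • (v : V) := (congrArg Subtype.val hc0).symm
  have hc00 : c0 ≠ 0 := by
    rintro rfl
    rw [zero_smul] at e2
    exact hx0 e2
  have hlv : l' (v : V) ≠ 0 := by
    intro h1
    rw [e2, map_smul, h1, smul_zero] at hl'
    exact hl' rfl
  show N x = ((l' (N x0))⁻¹ • l' (N x)) • N x0
  rw [e1, e2, map_smul, map_smul, smul_smul]
  congr 1
  simp only [smul_eq_mul]
  field_simp

/-- in the critical dimension the elements `R a w` are of the form `1 + e ⊗ l` -/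
theorem rank_le_one {H : Subgroup (MulAut (FreeGroup α))} {K : Subgroup (FreeGroup α)}
    (hc : Ctx H K) (r : ℕ) (hr : 1 ≤ r) (S : Finset α) (a : α) (ha : a ∉ S)
    (V : Type v) [AddCommGroup V] [Module ℂ V] [FiniteDimensional ℂ V]
    (σ : MulAut (FreeGroup α) → Module.End ℂ V) (hσ : IsRepOn H σ)
    (hu : UnipOn K S σ) (hD : ∀ d ∈ DS K S, IsNilpotent (σ (R a d) - 1))
    (hd : Module.finrank ℂ V + r ≤ S.card + 1)
    (W : Finset α) (hW : W ⊆ S) (hWr : W.card ≤ r) (w : FreeGroup α) (hwK : w ∈ K)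
    (hw : w ∈ fsub W) :
    ∃ (e : V) (l : Module.Dual ℂ V), ∀ x, σ (R a w) x - x = l x • e := by
  classical
  obtain ⟨N, hN⟩ : ∃ N : Module.End ℂ V, N = σ (R a w) - 1 := ⟨_, rfl⟩
  have hNx : ∀ x, N x = σ (R a w) x - x := fun x => by rw [hN]; rfl
  suffices hmain : Module.finrank ℂ (LinearMap.range N) ≤ 1 by
    obtain ⟨e, l, hel⟩ := rank_one_of N hmain
    exact ⟨e, l, fun x => by rw [← hNx]; exact hel x⟩
  by_contra hrank
  push Not at hrank
  have hwX : w ∈ XS K r S := ⟨1, one_mem _, W, hW, hWr, w, hwK, hw, rfl⟩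
  have hRH : ∀ g ∈ K ⊓ fsub S, R a g ∈ H := fun g hg => hc.RH a g hg.1
  have hconj : ∀ h ∈ H ⊓ StabS S, ∀ g ∈ K ⊓ fsub S,
      σ (R a g) * σ h = σ h * σ (R a (h⁻¹ g)) := by
    intro h hh g hg
    have hgi : h⁻¹ g ∈ K ⊓ fsub S := ⟨hc.Kc _ g hg.1, StabS_map (inv_mem hh.2) hg.2⟩
    rw [← hσ.mul _ (hRH g hg) _ hh.1, ← hσ.mul _ hh.1 _ (hRH _ hgi)]
    congr 1
    rw [← conj_R (inv_mem hh.2) ha hg.2]
    group
  have hconjg : ∀ g ∈ K ⊓ fsub S, ∀ m ∈ K ⊓ fsub S,
      σ (R a m) * σ (R a g) = σ (R a g) * σ (R a (g⁻¹ * m * g)) := by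
    intro g hg m hm
    have h1 : g⁻¹ * m * g ∈ K ⊓ fsub S := mul_mem (mul_mem (inv_mem hg) hm) hg
    rw [← hσ.mul _ (hRH m hm) _ (hRH g hg), ← hσ.mul _ (hRH g hg) _ (hRH _ h1),
      ← map_mul, ← map_mul]
    congr 2
    group
  -- the subspaces
  let U : Submodule ℂ V :=
    { carrier := {x | ∀ m ∈ XS K r S, σ (R a m) x = x}
      add_mem' := fun {x y} hx hy d hd => by rw [map_add, hx d hd, hy d hd]
      zero_mem' := fun d _ => map_zero _
      smul_mem' := fun k x hx d hd => by rw [map_smul, hx d hd] }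
  have hU : ∀ x, x ∈ U ↔ ∀ m ∈ XS K r S, σ (R a m) x = x := fun x => Iff.rfl
  let V' : Submodule ℂ V := Submodule.span ℂ {y | ∃ m ∈ XS K r S, ∃ x, y = σ (R a m) x - x}
  have hV' : ∀ m ∈ XS K r S, ∀ x, σ (R a m) x - x ∈ V' :=
    fun m hm x => Submodule.subset_span ⟨m, hm, x, rfl⟩
  have hU1 : ∀ h ∈ H ⊓ StabS S, ∀ x ∈ U, σ h x ∈ U := by
    intro h hh x hx
    rw [hU]
    intro m hm
    have h1 := DFunLike.congr_fun (hconj h hh m (XS_mem hc hm)) x
    rw [Module.End.mul_apply, Module.End.mul_apply,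
      (hU x).1 hx _ (XS_map hm (inv_mem hh.2))] at h1
    exact h1
  have hU2 : ∀ g ∈ K, g ∈ fsub S → ∀ x ∈ U, σ (R a g) x ∈ U := by
    intro g hgK hg x hx
    rw [hU]
    intro m hm
    have h1 := DFunLike.congr_fun (hconjg g ⟨hgK, hg⟩ m (XS_mem hc hm)) x
    have h2 := XS_conj hm (inv_mem hg)
    rw [inv_inv] at h2
    rw [Module.End.mul_apply, Module.End.mul_apply, (hU x).1 hx _ h2] at h1
    exact h1
  have hV'1 : ∀ h ∈ H ⊓ StabS S, ∀ x ∈ V', σ h x ∈ V' := by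
    intro h hh x hx
    have h1 : V' ≤ V'.comap (σ h) := by
      rw [Submodule.span_le]
      rintro y ⟨m, hm, x, rfl⟩
      simp only [SetLike.mem_coe, Submodule.mem_comap, map_sub]
      have hm2 : h m ∈ XS K r S := XS_map hm hh.2
      have h2 := DFunLike.congr_fun (hconj h hh (h m) (XS_mem hc hm2)) x
      rw [Module.End.mul_apply, Module.End.mul_apply] at h2
      have h3 : h⁻¹ (h m) = m := by
        rw [← MulAut.mul_apply, inv_mul_cancel]; rfl
      rw [h3] at h2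
      rw [← h2]
      exact hV' _ hm2 _
    exact h1 hx
  have hV'2 : ∀ g ∈ K, g ∈ fsub S → ∀ x ∈ V', σ (R a g) x ∈ V' := by
    intro g hgK hg x hx
    have h1 : V' ≤ V'.comap (σ (R a g)) := by
      rw [Submodule.span_le]
      rintro y ⟨m, hm, x, rfl⟩
      simp only [SetLike.mem_coe, Submodule.mem_comap, map_sub]
      have hm2 : g * m * g⁻¹ ∈ XS K r S := XS_conj hm hg
      have h2 := DFunLike.congr_fun (hconjg g ⟨hgK, hg⟩ _ (XS_mem hc hm2)) x
      rw [Module.End.mul_apply, Module.End.mul_apply] at h2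
      have h3 : g⁻¹ * (g * m * g⁻¹) * g = m := by group
      rw [h3] at h2
      rw [← h2]
      exact hV' _ hm2 _
    exact h1 hx
  -- dimensions
  have hrn := LinearMap.finrank_range_add_finrank_ker N
  have hrV' : LinearMap.range N ≤ V' := by
    rintro y ⟨x, rfl⟩
    rw [hNx]
    exact hV' w hwX x
  have hUk : U ≤ LinearMap.ker N := by
    intro x hx
    rw [LinearMap.mem_ker, hNx, (hU x).1 hx w hwX, sub_self]
  have hdV' := Submodule.finrank_mono hrV'
  have hdU := Submodule.finrank_mono hUk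
  have hqU := Submodule.finrank_quotient_add_finrank U
  have hqV' := Submodule.finrank_quotient_add_finrank V'
  have hS2 : 2 ≤ Module.finrank ℂ V := by omega
  have hrS : r < S.card := by omega
  have hXD : ∀ m ∈ XS K r S, m ∈ DS K S := by
    rintro m ⟨φ, hφ, W', hW', hW'r, w0, hw0K, hw0, rfl⟩
    have hbex : ∃ b ∈ S, b ∉ W' := by
      by_contra h
      push Not at h
      have := Finset.card_le_card (show S ⊆ W' from h)
      omega
    obtain ⟨b, hb, hbW⟩ := hbex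
    have hWb : W' ⊆ S.erase b := fun x hx =>
      Finset.mem_erase.mpr ⟨fun h => hbW (h ▸ hx), hW' hx⟩
    exact Subgroup.subset_closure (Or.inr ⟨φ, hφ, b, hb, w0, hw0K, fsub_mono hWb hw0, rfl⟩)
  have hnt : Nontrivial V := Module.nontrivial_of_finrank_pos (R := ℂ) (by omega)
  have hU0 : 0 < Module.finrank ℂ U := by
    obtain ⟨x, hx0, hx⟩ := kolchin {s | ∃ d ∈ DS K S, s = σ (R a d)}
      (by
        rintro s ⟨d, hd1, rfl⟩ t ⟨d', hd', rfl⟩
        refine ⟨d * d', mul_mem hd1 hd', ?_⟩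
        rw [map_mul, hσ.mul _ (hRH d (DS_le hc S hd1)) _ (hRH d' (DS_le hc S hd'))])
      (by
        rintro s ⟨d, hd1, rfl⟩
        exact hD d hd1)
    have hxU : x ∈ U := (hU x).2 fun m hm => hx _ ⟨m, hXD m hm, rfl⟩
    rw [Nat.pos_iff_ne_zero]
    intro h
    have h2 := Submodule.finrank_eq_zero.mp h
    rw [h2, Submodule.mem_bot] at hxU
    exact hx0 hxU
  -- the elements of rank at most r act trivially modulo `U`
  have hmodU : ∀ m ∈ XS K r S, ∀ x, σ (R a m) x - x ∈ U := by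
    rintro m ⟨φ, hφ, W', hW', hW'r, w0, hw0K, hw0, rfl⟩ x
    have hσ' : IsRepOn H (fun g => σ (φ * g * φ⁻¹)) :=
      hσ.twist φ (fun g hg => hc.Hn.conj_mem _ hg φ)
    have hD' : ∀ d ∈ DS K S, IsNilpotent (σ (φ * R a d * φ⁻¹) - 1) := by
      intro d hd1
      rw [conj_R hφ ha (DS_le hc S hd1).2]
      exact hD _ (DS_inv hc S φ hφ d hd1)
    have h1 := stage2_quot hc r S a ha V (fun g => σ (φ * g * φ⁻¹)) hσ' (twist_unip hu hφ) hD'
      U (by
        intro h hh x hx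
        exact hU1 _ ⟨hc.Hn.conj_mem _ hh.1 φ,
          (StabS S).mul_mem ((StabS S).mul_mem hφ hh.2) ((StabS S).inv_mem hφ)⟩ x hx)
      (by
        intro g hgK hg x hx
        show σ (φ * R a g * φ⁻¹) x ∈ U
        rw [conj_R hφ ha hg]
        exact hU2 _ (hc.Kc φ g hgK) (StabS_map hφ hg) x hx)
      (by omega) W' hW' hW'r w0 hw0K hw0 x
    rw [conj_R hφ ha (fsub_mono hW' hw0)] at h1
    exact h1
  have hV'U : V' ≤ U := by
    rw [Submodule.span_le]
    rintro y ⟨m, hm, x, rfl⟩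
    exact hmodU m hm x
  have hdV'U := Submodule.finrank_mono hV'U
  -- two letters outside `W`
  have hpq : 2 ≤ (S \ W).card := by
    rw [Finset.card_sdiff_of_subset hW]; omega
  obtain ⟨p, hp, q, hq, hpq⟩ := Finset.one_lt_card.mp hpq
  rw [Finset.mem_sdiff] at hp hq
  have hpqS : ({p, q} : Finset α) ⊆ S := by
    intro x hx
    rw [Finset.mem_insert, Finset.mem_singleton] at hx
    rcases hx with rfl | rfl
    · exact hp.1
    · exact hq.1
  have hcex : ∃ c ∈ S, c ∉ ({p, q} : Finset α) := by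
    by_contra h
    push Not at h
    have h1 := Finset.card_le_card (show S ⊆ {p, q} from h)
    rw [Finset.card_pair hpq] at h1
    omega
  obtain ⟨c, hcS, hcpq⟩ := hcex
  have hpqc : ({p, q} : Finset α) ⊆ S.erase c := fun x hx =>
    Finset.mem_erase.mpr ⟨fun h => hcpq (h ▸ hx), hpqS hx⟩
  have hWp : W ⊆ S.erase p := fun x hx =>
    Finset.mem_erase.mpr ⟨fun h => hp.2 (h ▸ hx), hW hx⟩
  have hWq : W ⊆ S.erase q := fun x hx =>
    Finset.mem_erase.mpr ⟨fun h => hq.2 (h ▸ hx), hW hx⟩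
  have hDK : K ⊓ fsub ({p, q} : Finset α) ≤ DS K S := fun g hg =>
    Subgroup.subset_closure (Or.inr ⟨1, one_mem _, c, hcS, g, hg.1, fsub_mono hpqc hg.2, rfl⟩)
  -- the elements `T`
  have hTU : ∀ T, IsT K r S T → ∀ x ∈ U, σ T x = x := fun T hT =>
    thmY_sub hc r S V σ hσ hu U hU1 (by omega) T hT
  have hTV' : ∀ T, IsT K r S T → ∀ x, σ T x - x ∈ V' := fun T hT =>
    thmY_quot hc r S V σ hσ hu V' hV'1 (by omega) T hT
  -- the elements of rank two
  have hgV' : ∀ g ∈ K, g ∈ fsub ({p, q} : Finset α) → ∀ x ∈ V', σ (R a g) x = x :=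
    fun g hgK hg => stage2_sub hc 2 S a ha V σ hσ hu hD V' hV'1 hV'2 (by omega) {p, q} hpqS
      (by rw [Finset.card_pair hpq]) g hgK hg
  have hgU : ∀ g ∈ K, g ∈ fsub ({p, q} : Finset α) → ∀ x, σ (R a g) x - x ∈ U :=
    fun g hgK hg => stage2_quot hc 2 S a ha V σ hσ hu hD U hU1 hU2 (by omega) {p, q} hpqS
      (by rw [Finset.card_pair hpq]) g hgK hg
  have hTinv : ∀ T, IsT K r S T → ∀ g ∈ K, g ∈ fsub ({p, q} : Finset α) →
      σ (R a (T g)) = σ (R a g) := by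
    intro T hT g hgK hg
    have hTm := hT.mem hc
    have hgm : g ∈ K ⊓ fsub S := ⟨hgK, fsub_mono hpqS hg⟩
    have hcomm : σ T * σ (R a g) = σ (R a g) * σ T := by
      ext x
      rw [Module.End.mul_apply, Module.End.mul_apply]
      have h1 : σ T (σ (R a g) x) = σ T x + (σ (R a g) x - x) := by
        have := hTU T hT _ (hgU g hgK hg x)
        rw [map_sub] at this
        rw [← this]; abel
      have h2 : σ (R a g) (σ T x) = σ (R a g) x + (σ T x - x) := by
        have := hgV' g hgK hg _ (hTV' T hT x)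
        rw [map_sub] at this
        rw [← this]; abel
      rw [h1, h2]; abel
    rw [← conj_R hTm.2 ha hgm.2, hσ.conj hTm.1 (hRH g hgm), hcomm, mul_assoc,
      hσ.mul_inv hTm.1, mul_one]
  have hDSle : DS K S ≤ K ⊓ fsub S := DS_le hc S
  have hf : IsRepOn (DS K S) (fun g => σ (R a g)) := by
    refine ⟨by simp only [map_one]; exact hσ.one, fun g hg h hh => ?_⟩
    simp only [map_mul]
    exact hσ.mul _ (hRH g (hDSle hg)) _ (hRH h (hDSle hh))
  have hfin : σ (R a w) = 1 := by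
    refine lemmaE2 K hc.Kn hc.Kf {p, q} p q (Finset.mem_insert_self _ _)
      (Finset.mem_insert_of_mem (Finset.mem_singleton_self _)) hpq w (kill_eq hw hp.2)
      (kill_eq hw hq.2) (DS K S) ?_ hDK (fun g => σ (R a g)) hf hD ?_ ?_
    · intro u hu'
      exact conj_mem_DS hp.1 hwK (fsub_mono hWp hw) (fsub_mono hpqS hu')
    · intro g hgK hg
      have h1 := hTinv (1 * R p w * 1⁻¹)
        ⟨1, one_mem _, p, hp.1, W, hWp, hWr, w, hwK, hw, rfl⟩ g hgK hg
      rwa [one_mul, inv_one, mul_one] at h1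
    · intro g hgK hg
      have h1 := hTinv (1 * R q w * 1⁻¹)
        ⟨1, one_mem _, q, hq.1, W, hWq, hWr, w, hwK, hw, rfl⟩ g hgK hg
      rwa [one_mul, inv_one, mul_one] at h1
  rw [hN, hfin, sub_self, LinearMap.range_zero, finrank_bot] at hrank
  omega

end AFn
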