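import Mathlib
import Pool.Agent.AFn.Defs
import Pool.Agent.AFn.Basic
import Pool.Agent.AFn.RepLib
import Pool.Agent.AFn.Core
import Pool.Agent.AFn.RankOne

set_option autoImplicit false

namespace AFn

universe u v

variable {α : Type u} [DecidableEq α]

/-- the subgroup generated by the elements of rank at most `r` -/
def NS (K : Subgroup (FreeGroup α)) (r : ℕ) (S : Finset α) : Subgroup (FreeGroup α) :=
  Subgroup.closure (XS K r S)

theorem XS_sub_NS {K : Subgroup (FreeGroup α)} {r : ℕ} {S : Finset α} {x : FreeGroup α}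
    (hx : x ∈ XS K r S) : x ∈ NS K r S := Subgroup.subset_closure hx

theorem XS_mono {K : Subgroup (FreeGroup α)} {r r' : ℕ} {S S' : Finset α} (hr : r ≤ r')
    (hS : S ⊆ S') {x : FreeGroup α} (hx : x ∈ XS K r S) : x ∈ XS K r' S' := by
  obtain ⟨φ, hφ, W, hW, hWr, w0, hw0K, hw0, rfl⟩ := hx
  exact ⟨φ, StabS_mono hS hφ, W, hW.trans hS, hWr.trans hr, w0, hw0K, hw0, rfl⟩

theorem XS_of {K : Subgroup (FreeGroup α)} {r : ℕ} {S I : Finset α} (hI : I ⊆ S)
    (hr : I.card ≤ r) {x : FreeGroup α} (hxK : x ∈ K) (hx : x ∈ fsub I) : x ∈ XS K r S :=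
  ⟨1, one_mem _, I, hI, hr, x, hxK, hx, rfl⟩

theorem XS_inv {K : Subgroup (FreeGroup α)} {r : ℕ} {S : Finset α} {x : FreeGroup α}
    (hx : x ∈ XS K r S) : x⁻¹ ∈ XS K r S := by
  obtain ⟨φ, hφ, W, hW, hWr, w0, hw0K, hw0, rfl⟩ := hx
  exact ⟨φ, hφ, W, hW, hWr, w0⁻¹, inv_mem hw0K, inv_mem hw0, (map_inv φ w0).symm⟩

theorem NS_le {H : Subgroup (MulAut (FreeGroup α))} {K : Subgroup (FreeGroup α)}
    (hc : Ctx H K) {r : ℕ} {S : Finset α} : NS K r S ≤ K ⊓ fsub S := by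
  unfold NS
  rw [Subgroup.closure_le]
  intro x hx
  exact XS_mem hc hx

theorem NS_mono {K : Subgroup (FreeGroup α)} {r r' : ℕ} {S S' : Finset α} (hr : r ≤ r')
    (hS : S ⊆ S') : NS K r S ≤ NS K r' S' := by
  unfold NS
  exact Subgroup.closure_mono (fun x hx => XS_mono hr hS hx)

theorem NS_map {K : Subgroup (FreeGroup α)} {r : ℕ} {S : Finset α} {x : FreeGroup α}
    (hx : x ∈ NS K r S) {ψ : MulAut (FreeGroup α)} (hψ : ψ ∈ StabS S) : ψ x ∈ NS K r S := by
  unfold NS at hx ⊢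
  induction hx using Subgroup.closure_induction with
  | mem y hy => exact Subgroup.subset_closure (XS_map hy hψ)
  | one => rw [map_one]; exact one_mem _
  | mul y z _ _ hy hz => rw [map_mul]; exact mul_mem hy hz
  | inv y _ hy => rw [map_inv]; exact inv_mem hy

theorem NS_conj {K : Subgroup (FreeGroup α)} {r : ℕ} {S : Finset α} {x : FreeGroup α}
    (hx : x ∈ NS K r S) {u : FreeGroup α} (hu : u ∈ fsub S) : u * x * u⁻¹ ∈ NS K r S := by
  unfold NS at hx ⊢
  induction hx using Subgroup.closure_induction with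
  | mem y hy => exact Subgroup.subset_closure (XS_conj hy hu)
  | one => rw [mul_one, mul_inv_cancel]; exact one_mem _
  | mul y z _ _ hy hz =>
    have e : u * (y * z) * u⁻¹ = (u * y * u⁻¹) * (u * z * u⁻¹) := by group
    rw [e]; exact mul_mem hy hz
  | inv y _ hy =>
    have e : u * y⁻¹ * u⁻¹ = (u * y * u⁻¹)⁻¹ := by group
    rw [e]; exact inv_mem hy

theorem NS_of {K : Subgroup (FreeGroup α)} {r : ℕ} {S I : Finset α} (hI : I ⊆ S)
    (hr : I.card ≤ r) {x : FreeGroup α} (hxK : x ∈ K) (hx : x ∈ fsub I) : x ∈ NS K r S :=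
  XS_sub_NS (XS_of hI hr hxK hx)

/-- the normal closure of an element of rank at most `r` -/
theorem Mw_le_NS {K : Subgroup (FreeGroup α)} {r : ℕ} {S : Finset α} {w : FreeGroup α}
    (hw : w ∈ NS K r S) : Mw S w ≤ NS K r S := by
  unfold Mw
  rw [Subgroup.closure_le]
  rintro x ⟨u, hu, rfl⟩
  exact NS_conj hw hu

/-- `R b w` changes the elements of `fsub S` by elements of the subgroup `NS` -/
theorem delta_NS {K : Subgroup (FreeGroup α)} {r : ℕ} {S : Finset α} {b : α} (hb : b ∈ S)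
    {w : FreeGroup α} (hw : w ∈ NS K r (S.erase b)) (hwf : w ∈ fsub (S.erase b))
    {h : FreeGroup α} (hh : h ∈ fsub S) : R b w h * h⁻¹ ∈ NS K r S :=
  Mw_le_NS (NS_mono le_rfl (Finset.erase_subset _ _) hw) (delta_mem hb hwf hh)

/-- `R b w` with `w ∈ K` acts trivially modulo `K` -/
theorem R_cong {K : Subgroup (FreeGroup α)} (hKn : K.Normal) {b : α} {w : FreeGroup α}
    (hw : kill b w ∈ K) (h : FreeGroup α) : R b w h * h⁻¹ ∈ K := by
  induction h using FreeGroup.induction_on with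
  | C1 => rw [map_one, inv_one, mul_one]; exact one_mem _
  | of x =>
    by_cases hx : x = b
    · subst hx
      change R x w (FreeGroup.of x) * (FreeGroup.of x)⁻¹ ∈ K
      rw [R_of_self]
      exact hKn.conj_mem _ hw _
    · change R b w (FreeGroup.of x) * (FreeGroup.of x)⁻¹ ∈ K
      rw [R_of_ne hx, mul_inv_cancel]
      exact one_mem _
  | inv_of x hx =>
    rw [map_inv]
    have h1 := inv_mem hx
    have h2 := hKn.conj_mem _ h1 (R b w (FreeGroup.of x))⁻¹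
    have e : (R b w (FreeGroup.of x))⁻¹ * (R b w (FreeGroup.of x) * (FreeGroup.of x)⁻¹)⁻¹ *
        (R b w (FreeGroup.of x))⁻¹⁻¹ = (R b w (FreeGroup.of x))⁻¹ * (FreeGroup.of x)⁻¹⁻¹ := by
      group
    rw [e] at h2
    exact h2
  | mul x y hx hy =>
    have e : R b w (x * y) * (x * y)⁻¹ = (R b w x * x⁻¹) * (x * (R b w y * y⁻¹) * x⁻¹) := by
      rw [map_mul]; group
    rw [e]
    exact mul_mem hx (hKn.conj_mem _ hy x)

/-- the elements `T` act trivially modulo `K` -/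
theorem IsT_cong {H : Subgroup (MulAut (FreeGroup α))} {K : Subgroup (FreeGroup α)}
    (hc : Ctx H K) {r : ℕ} {S : Finset α} {T : MulAut (FreeGroup α)} (hT : IsT K r S T)
    (h : FreeGroup α) : T h * h⁻¹ ∈ K := by
  obtain ⟨φ, hφ, a, ha, W, hW, -, w, hwK, hw, rfl⟩ := hT
  have hk : kill a w = w := kill_eq (fsub_mono hW hw) (Finset.notMem_erase a S)
  have h1 := hc.Kc φ _ (R_cong hc.Kn (b := a) (w := w) (by rw [hk]; exact hwK) (φ⁻¹ h))
  have e : φ (R a w (φ⁻¹ h) * (φ⁻¹ h)⁻¹) = (φ * R a w * φ⁻¹) h * h⁻¹ := by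
    have e2 : φ (φ⁻¹ h) = h := by
      rw [← MulAut.mul_apply, mul_inv_cancel]; rfl
    rw [map_mul, map_inv, e2]
    rfl
  rw [e] at h1
  exact h1

theorem IsT_cong' {H : Subgroup (MulAut (FreeGroup α))} {K : Subgroup (FreeGroup α)}
    (hc : Ctx H K) {r : ℕ} {S : Finset α} {T : MulAut (FreeGroup α)} (hT : IsT K r S T)
    {h : FreeGroup α} (hh : h ∈ fsub S) : T h * h⁻¹ ∈ K ⊓ fsub S :=
  ⟨IsT_cong hc hT h, (fsub S).mul_mem (StabS_map (hT.mem hc).2 hh) ((fsub S).inv_mem hh)⟩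

theorem IsT_conj {K : Subgroup (FreeGroup α)} {r : ℕ} {S : Finset α}
    {T ψ : MulAut (FreeGroup α)} (hT : IsT K r S T) (hψ : ψ ∈ StabS S) :
    IsT K r S (ψ * T * ψ⁻¹) := by
  obtain ⟨φ, hφ, a, ha, W, hW, hWr, w, hwK, hw, rfl⟩ := hT
  refine ⟨ψ * φ, mul_mem hψ hφ, a, ha, W, hW, hWr, w, hwK, hw, ?_⟩
  rw [mul_inv_rev]; simp only [mul_assoc]

theorem IsT_mono {K : Subgroup (FreeGroup α)} {r r' : ℕ} {S S' : Finset α} (hr : r ≤ r')
    (hS : S ⊆ S') {T : MulAut (FreeGroup α)} (hT : IsT K r S T) : IsT K r' S' T := by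
  obtain ⟨φ, hφ, a, ha, W, hW, hWr, w, hwK, hw, rfl⟩ := hT
  exact ⟨φ, StabS_mono hS hφ, a, hS ha, W, hW.trans (Finset.erase_subset_erase _ hS),
    hWr.trans hr, w, hwK, hw, rfl⟩

/-- for `x` of rank at most `r` in `fsub (S.erase b)`, `R b x` is one of the elements `T` -/
theorem IsT_of_XS {K : Subgroup (FreeGroup α)} {r : ℕ} {S : Finset α} {b : α} (hb : b ∈ S)
    {x : FreeGroup α} (hx : x ∈ XS K r (S.erase b)) : IsT K r S (R b x) := by
  obtain ⟨φ, hφ, W, hW, hWr, w, hwK, hw, rfl⟩ := hx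
  refine ⟨φ, StabS_mono (Finset.erase_subset _ _) hφ, b, hb, W, hW, hWr, w, hwK, hw, ?_⟩
  exact (conj_R hφ (Finset.notMem_erase b S) (fsub_mono hW hw)).symm

/-- an equivariant additive map on the elements of rank at most `r`, which vanishes on the
elements of rank at most `r - 1` -/
structure Datum (K : Subgroup (FreeGroup α)) (r : ℕ) (S : Finset α) {E : Type v}
    [AddCommGroup E] [Module ℂ E] (τ : MulAut (FreeGroup α) → Module.End ℂ E)
    (δ : FreeGroup α → E) : Prop where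
  add : ∀ x ∈ NS K r S, ∀ y ∈ NS K r S, δ (x * y) = δ x + δ y
  inv : ∀ g ∈ K ⊓ fsub S, ∀ x ∈ NS K r S, δ (g * x * g⁻¹) = δ x
  eqv : ∀ T, IsT K r S T → ∀ x ∈ NS K r S, δ (T x) = τ T (δ x)
  kill : ∀ x ∈ XS K (r - 1) S, δ x = 0

end AFn
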