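import Mathlib
import Pool.Agent.AFn.Defs
import Pool.Agent.AFn.Basic

/-!
# Fox calculus

Induction on `x` in `fsub S` (the closure of the letters of `S`): `L 1 = []`,
`L (of b) = [(of b, 1)]`, `L (of i) = []` for `i ≠ b`, `L (x * y) = L x ++ x • L y` because
`R b w (x * y) * (x * y)⁻¹ = (R b w x * x⁻¹) * (x * (R b w y * y⁻¹) * x⁻¹)`,
`L x⁻¹ = x⁻¹ • (L x).reverse` with the signs changed, because
`R b w x⁻¹ * x = x⁻¹ * (R b w x * x⁻¹)⁻¹ * x` (here `(u * w ^ e * u⁻¹)⁻¹ = u * w ^ (-e) * u⁻¹`).
-/

set_option autoImplicit false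

namespace AFn

universe u

variable {α : Type u} [DecidableEq α]

private def fox_prod (L : List (FreeGroup α × ℤ)) (w : FreeGroup α) : FreeGroup α :=
  (L.map (fun p => p.1 * w ^ p.2 * p.1⁻¹)).prod

private theorem fox_conj (L : List (FreeGroup α × ℤ)) (w x : FreeGroup α) :
    fox_prod (L.map (fun p => (x * p.1, p.2))) w = x * fox_prod L w * x⁻¹ := by
  unfold fox_prod
  induction L with
  | nil => simp
  | cons p L ih =>
    rw [List.map_cons, List.map_cons, List.prod_cons, ih, List.map_cons, List.prod_cons]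
    group

private theorem fox_inv (L : List (FreeGroup α × ℤ)) (w : FreeGroup α) :
    fox_prod (L.reverse.map (fun p => (p.1, -p.2))) w = (fox_prod L w)⁻¹ := by
  unfold fox_prod
  induction L with
  | nil => simp
  | cons p L ih =>
    rw [List.reverse_cons, List.map_append, List.map_append, List.prod_append, ih]
    simp only [List.map_cons, List.map_nil, List.prod_cons, List.prod_nil, zpow_neg,
      mul_inv_rev, inv_inv, mul_one, mul_assoc]

/-- the word `R b w x * x⁻¹` is a product of conjugates of `w` and `w⁻¹` that does not depend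
on `w` -/
theorem fox_list {S : Finset α} {b : α} (hb : b ∈ S) {x : FreeGroup α} (hx : x ∈ fsub S) :
    ∃ L : List (FreeGroup α × ℤ), (∀ p ∈ L, p.1 ∈ fsub S) ∧
      ∀ w : FreeGroup α, kill b w = w →
        R b w x * x⁻¹ = (L.map (fun p => p.1 * w ^ p.2 * p.1⁻¹)).prod := by
  have key : ∀ x ∈ fsub S, ∃ L : List (FreeGroup α × ℤ), (∀ p ∈ L, p.1 ∈ fsub S) ∧
      ∀ w : FreeGroup α, kill b w = w → R b w x * x⁻¹ = fox_prod L w := by
    intro x hx
    have hcl : ∀ y ∈ Subgroup.closure (FreeGroup.of '' (S : Set α)), y ∈ fsub S := fun y hy => hy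
    unfold fsub at hx
    induction hx using Subgroup.closure_induction with
    | mem y hy =>
      obtain ⟨i, hi, rfl⟩ := hy
      by_cases hib : i = b
      · subst hib
        refine ⟨[(FreeGroup.of i, 1)], ?_, ?_⟩
        · intro p hp
          rw [List.mem_singleton] at hp
          rw [hp]
          exact of_mem_fsub hb
        · intro w hw
          rw [R_of_self, hw]
          simp [fox_prod]
      · refine ⟨[], by simp, fun w hw => ?_⟩
        rw [R_of_ne hib, mul_inv_cancel]
        rfl
    | one =>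
      refine ⟨[], by simp, fun w hw => ?_⟩
      rw [map_one, inv_one, mul_one]
      rfl
    | mul x y hx' hy' ihx ihy =>
      obtain ⟨L1, h1, h2⟩ := ihx
      obtain ⟨L2, h3, h4⟩ := ihy
      refine ⟨L1 ++ L2.map (fun p => (x * p.1, p.2)), ?_, ?_⟩
      · intro p hp
        rcases List.mem_append.mp hp with hp | hp
        · exact h1 p hp
        · obtain ⟨q, hq, rfl⟩ := List.mem_map.mp hp
          exact (fsub S).mul_mem (hcl x hx') (h3 q hq)
      · intro w hw
        have e : R b w (x * y) * (x * y)⁻¹ = (R b w x * x⁻¹) * (x * (R b w y * y⁻¹) * x⁻¹) := by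
          rw [map_mul]; group
        have e2 : fox_prod (L1 ++ L2.map (fun p => (x * p.1, p.2))) w =
            fox_prod L1 w * fox_prod (L2.map (fun p => (x * p.1, p.2))) w := by
          unfold fox_prod
          rw [List.map_append, List.prod_append]
        rw [e, e2, h2 w hw, h4 w hw, fox_conj]
    | inv x hx' ihx =>
      obtain ⟨L1, h1, h2⟩ := ihx
      refine ⟨(L1.reverse.map (fun p => (p.1, -p.2))).map (fun p => (x⁻¹ * p.1, p.2)), ?_, ?_⟩
      · intro p hp
        obtain ⟨q, hq, rfl⟩ := List.mem_map.mp hp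
        obtain ⟨q', hq', rfl⟩ := List.mem_map.mp hq
        exact (fsub S).mul_mem ((fsub S).inv_mem (hcl x hx')) (h1 q' (List.mem_reverse.mp hq'))
      · intro w hw
        rw [fox_conj, fox_inv, ← h2 w hw, map_inv]
        group
  exact key x hx

end AFn
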