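import Mathlib
import Pool.Agent.AFn.Defs
import Pool.Agent.AFn.Basic
import Pool.Agent.AFn.Datum
import Pool.Agent.AFn.Fox

/-!
# Functions on the finite quotient of a free factor
-/

set_option autoImplicit false

namespace AFn

universe u v

variable {α : Type u} [DecidableEq α]

/-- the finite quotient of the free factor `fsub S` -/
abbrev QS (K : Subgroup (FreeGroup α)) (S : Finset α) : Type u :=
  ↥(fsub S) ⧸ (K.subgroupOf (fsub S))

/-- the projection of `fsub S` (composed with the retraction onto `fsub S`) -/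
def mkS (K : Subgroup (FreeGroup α)) [K.Normal] (S : Finset α) : FreeGroup α →* QS K S :=
  (QuotientGroup.mk' (K.subgroupOf (fsub S))).comp ((ret S).codRestrict (fsub S) (ret_mem S))

theorem mkS_surj (K : Subgroup (FreeGroup α)) [K.Normal] (S : Finset α) (q : QS K S) :
    ∃ u ∈ fsub S, mkS K S u = q := by
  obtain ⟨⟨u, hu⟩, rfl⟩ := QuotientGroup.mk_surjective q
  refine ⟨u, hu, ?_⟩
  have h : (ret S).codRestrict (fsub S) (ret_mem S) u = ⟨u, hu⟩ := Subtype.ext (ret_eq hu)
  show QuotientGroup.mk' _ ((ret S).codRestrict (fsub S) (ret_mem S) u) = _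
  rw [h]
  rfl

theorem mkS_eq_iff (K : Subgroup (FreeGroup α)) [K.Normal] {S : Finset α} {x y : FreeGroup α}
    (hx : x ∈ fsub S) (hy : y ∈ fsub S) : mkS K S x = mkS K S y ↔ x⁻¹ * y ∈ K := by
  have h1 : (ret S).codRestrict (fsub S) (ret_mem S) x = ⟨x, hx⟩ := Subtype.ext (ret_eq hx)
  have h2 : (ret S).codRestrict (fsub S) (ret_mem S) y = ⟨y, hy⟩ := Subtype.ext (ret_eq hy)
  show (QuotientGroup.mk ((ret S).codRestrict (fsub S) (ret_mem S) x) : QS K S) =
    QuotientGroup.mk ((ret S).codRestrict (fsub S) (ret_mem S) y) ↔ _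
  rw [h1, h2, QuotientGroup.eq]
  exact Subgroup.mem_subgroupOf

theorem mkS_one (K : Subgroup (FreeGroup α)) [K.Normal] {S : Finset α} {x : FreeGroup α}
    (hxK : x ∈ K) (hx : x ∈ fsub S) : mkS K S x = 1 := by
  rw [← map_one (mkS K S), mkS_eq_iff K hx (one_mem _), mul_one]
  exact inv_mem hxK

/-- right translation of functions -/
def tr {G : Type u} [Group G] (g : G) : (G → ℂ) →ₗ[ℂ] (G → ℂ) where
  toFun f := fun q => f (q * g)
  map_add' f f' := rfl
  map_smul' c f := rfl

theorem tr_apply {G : Type u} [Group G] (g : G) (f : G → ℂ) (q : G) : tr g f q = f (q * g) := rfl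

theorem tr_mul {G : Type u} [Group G] (g h : G) (f : G → ℂ) : tr (g * h) f = tr g (tr h f) := by
  funext q
  rw [tr_apply, tr_apply, tr_apply, mul_assoc]

theorem tr_one {G : Type u} [Group G] (f : G → ℂ) : tr 1 f = f := by
  funext q
  rw [tr_apply, mul_one]

/-- additive maps on the elements of rank at most `r`, invariant under conjugation by `K` and
zero on the elements of rank at most `r - 1` -/
structure AddInv (K : Subgroup (FreeGroup α)) (r : ℕ) (S : Finset α)
    (c : FreeGroup α → ℂ) : Prop where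
  add : ∀ x ∈ NS K r S, ∀ y ∈ NS K r S, c (x * y) = c x + c y
  inv : ∀ g ∈ K ⊓ fsub S, ∀ x ∈ NS K r S, c (g * x * g⁻¹) = c x
  kill : ∀ x ∈ XS K (r - 1) S, c x = 0

theorem Datum.addInv {K : Subgroup (FreeGroup α)} {r : ℕ} {S : Finset α} {E : Type v}
    [AddCommGroup E] [Module ℂ E] {τ : MulAut (FreeGroup α) → Module.End ℂ E}
    {δ : FreeGroup α → E} (hd : Datum K r S τ δ) (μ : E →ₗ[ℂ] ℂ) :
    AddInv K r S (fun x => μ (δ x)) := by
  refine ⟨fun x hx y hy => ?_, fun g hg x hx => ?_, fun x hx => ?_⟩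
  · show μ (δ (x * y)) = μ (δ x) + μ (δ y)
    rw [hd.add x hx y hy, map_add]
  · show μ (δ (g * x * g⁻¹)) = μ (δ x)
    rw [hd.inv g hg x hx]
  · show μ (δ x) = 0
    rw [hd.kill x hx, map_zero]

section

variable {K : Subgroup (FreeGroup α)} {r : ℕ} {S : Finset α} {c : FreeGroup α → ℂ}

theorem AddInv.one (hA : AddInv K r S c) : c 1 = 0 := by
  have h := hA.add 1 (one_mem _) 1 (one_mem _)
  rw [mul_one] at h
  exact left_eq_add.mp h

theorem AddInv.neg (hA : AddInv K r S c) {x : FreeGroup α} (hx : x ∈ NS K r S) :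
    c x⁻¹ = - c x := by
  have h := hA.add x hx x⁻¹ (inv_mem hx)
  rw [mul_inv_cancel, hA.one] at h
  exact eq_neg_of_add_eq_zero_right h.symm

theorem AddInv.sub (hA : AddInv K r S c) {x y : FreeGroup α} (hx : x ∈ NS K r S)
    (hy : y ∈ NS K r S) : c (x * y⁻¹) = c x - c y := by
  rw [hA.add x hx _ (inv_mem hy), hA.neg hy, sub_eq_add_neg]

theorem AddInv.zpow (hA : AddInv K r S c) {x : FreeGroup α} (hx : x ∈ NS K r S) (n : ℤ) :
    c (x ^ n) = n * c x := by
  have h : ∀ k : ℕ, c (x ^ k) = k * c x := by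
    intro k
    induction k with
    | zero => rw [pow_zero, hA.one]; simp
    | succ k ih =>
      rw [pow_succ, hA.add _ (pow_mem hx k) _ hx, ih]
      push_cast
      ring
  obtain ⟨k, rfl | rfl⟩ := Int.eq_nat_or_neg n
  · rw [zpow_natCast, h]; simp
  · rw [zpow_neg, zpow_natCast, hA.neg (pow_mem hx k), h]; simp

theorem AddInv.prod (hA : AddInv K r S c) (l : List (FreeGroup α)) (hl : ∀ x ∈ l, x ∈ NS K r S) :
    c l.prod = (l.map c).sum := by
  induction l with
  | nil => rw [List.prod_nil, hA.one]; rfl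
  | cons x l ih =>
    have h1 : l.prod ∈ NS K r S :=
      Subgroup.list_prod_mem _ (fun y hy => hl y (List.mem_cons_of_mem _ hy))
    rw [List.prod_cons, hA.add x (hl x List.mem_cons_self) _ h1,
      ih (fun y hy => hl y (List.mem_cons_of_mem _ hy)), List.map_cons, List.sum_cons]

/-- conjugates depend only on the class modulo `K` -/
theorem AddInv.cong (hA : AddInv K r S c) [K.Normal] {x u v : FreeGroup α} (hx : x ∈ NS K r S)
    (hu : u ∈ fsub S) (hv : v ∈ fsub S) (huv : mkS K S u = mkS K S v) :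
    c (u * x * u⁻¹) = c (v * x * v⁻¹) := by
  have h1 : u⁻¹ * v ∈ K := (mkS_eq_iff K hu hv).mp huv
  have h2 : v * u⁻¹ ∈ K := by
    have := ‹K.Normal›.conj_mem _ h1 u
    have e : u * (u⁻¹ * v) * u⁻¹ = v * u⁻¹ := by group
    rwa [e] at this
  have h3 := hA.inv (v * u⁻¹) ⟨h2, (fsub S).mul_mem hv ((fsub S).inv_mem hu)⟩ (u * x * u⁻¹)
    (NS_conj hx hu)
  rw [← h3]
  congr 1
  group

end

/-- the function `u ↦ c (u * x * u⁻¹)` on the finite quotient of `fsub S` -/
noncomputable def gfun (K : Subgroup (FreeGroup α)) (S : Finset α) (c : FreeGroup α → ℂ)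
    (x : FreeGroup α) : QS K S → ℂ :=
  fun q => c ((q.out : FreeGroup α) * x * (q.out : FreeGroup α)⁻¹)

section

variable {K : Subgroup (FreeGroup α)} [K.Normal] {r : ℕ} {S : Finset α} {c : FreeGroup α → ℂ}

theorem mkS_out (q : QS K S) : mkS K S (q.out : FreeGroup α) = q := by
  have h : (ret S).codRestrict (fsub S) (ret_mem S) (q.out : FreeGroup α) = q.out :=
    Subtype.ext (ret_eq q.out.2)
  show QuotientGroup.mk ((ret S).codRestrict (fsub S) (ret_mem S) (q.out : FreeGroup α)) = q
  rw [h]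
  exact Quotient.out_eq' q

theorem gfun_mk (hA : AddInv K r S c) {x : FreeGroup α} (hx : x ∈ NS K r S) {u : FreeGroup α}
    (hu : u ∈ fsub S) : gfun K S c x (mkS K S u) = c (u * x * u⁻¹) :=
  hA.cong hx (Subtype.prop _) hu (mkS_out _)

theorem gfun_add (hA : AddInv K r S c) {x y : FreeGroup α} (hx : x ∈ NS K r S)
    (hy : y ∈ NS K r S) : gfun K S c (x * y) = gfun K S c x + gfun K S c y := by
  funext q
  obtain ⟨u, hu, rfl⟩ := mkS_surj K S q
  rw [Pi.add_apply, gfun_mk hA (mul_mem hx hy) hu, gfun_mk hA hx hu, gfun_mk hA hy hu,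
    ← hA.add _ (NS_conj hx hu) _ (NS_conj hy hu)]
  congr 1
  group

theorem gfun_inv (hA : AddInv K r S c) {x : FreeGroup α} (hx : x ∈ NS K r S) :
    gfun K S c x⁻¹ = - gfun K S c x := by
  funext q
  obtain ⟨u, hu, rfl⟩ := mkS_surj K S q
  rw [Pi.neg_apply, gfun_mk hA (inv_mem hx) hu, gfun_mk hA hx hu, ← hA.neg (NS_conj hx hu)]
  congr 1
  group

/-- right translation -/
theorem gfun_tr (hA : AddInv K r S c) {x : FreeGroup α} (hx : x ∈ NS K r S) {g : FreeGroup α}
    (hg : g ∈ fsub S) : tr (mkS K S g) (gfun K S c x) = gfun K S c (g * x * g⁻¹) := by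
  funext q
  obtain ⟨u, hu, rfl⟩ := mkS_surj K S q
  rw [tr_apply, ← map_mul, gfun_mk hA hx ((fsub S).mul_mem hu hg),
    gfun_mk hA (NS_conj hx hg) hu]
  congr 1
  group

end

/-- a Fox list of an element of `fsub S` with respect to the letter `b` -/
noncomputable def foxL (S : Finset α) (b : α) (x : FreeGroup α) : List (FreeGroup α × ℤ) :=
  open Classical in
  if h : b ∈ S ∧ x ∈ fsub S then Classical.choose (fox_list h.1 h.2) else []

theorem foxL_spec {S : Finset α} {b : α} (hb : b ∈ S) {x : FreeGroup α} (hx : x ∈ fsub S) :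
    (∀ p ∈ foxL S b x, p.1 ∈ fsub S) ∧ ∀ w : FreeGroup α, kill b w = w →
        R b w x * x⁻¹ = ((foxL S b x).map (fun p => p.1 * w ^ p.2 * p.1⁻¹)).prod := by
  unfold foxL
  rw [dif_pos ⟨hb, hx⟩]
  exact Classical.choose_spec (fox_list hb hx)

/-- the operator on functions on the quotient given by the Fox list of `h` -/
noncomputable def bet (K : Subgroup (FreeGroup α)) [K.Normal] (S : Finset α) (b : α)
    (h : FreeGroup α) (s : QS K S → ℂ) : QS K S → ℂ :=
  fun q => ((foxL S b h).map (fun p => (p.2 : ℂ) * s (q * mkS K S p.1))).sum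

/-- `bet` on the functions `gfun` -/
theorem bet_gfun {K : Subgroup (FreeGroup α)} [K.Normal] {r : ℕ} {S : Finset α}
    {c : FreeGroup α → ℂ} (hA : AddInv K r S c) {b : α} (hb : b ∈ S) {w : FreeGroup α}
    (hw : w ∈ NS K r S) (hwb : kill b w = w) {h : FreeGroup α} (hh : h ∈ fsub S)
    {u : FreeGroup α} (hu : u ∈ fsub S) :
    bet K S b h (gfun K S c w) (mkS K S u) = c (u * (R b w h * h⁻¹) * u⁻¹) := by
  obtain ⟨h1, h2⟩ := foxL_spec hb hh
  rw [h2 w hwb]
  unfold bet
  generalize foxL S b h = L at h1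
  have e : u * (L.map (fun p => p.1 * w ^ p.2 * p.1⁻¹)).prod * u⁻¹ =
      (L.map (fun p => ((u * p.1) * w * (u * p.1)⁻¹) ^ p.2)).prod := by
    clear h1
    induction L with
    | nil => simp
    | cons p L ih =>
      rw [List.map_cons, List.prod_cons, List.map_cons, List.prod_cons, ← ih, conj_zpow]
      group
  rw [e, hA.prod]
  · rw [List.map_map]
    congr 1
    apply List.map_congr_left
    intro p hp
    have hup : u * p.1 ∈ fsub S := (fsub S).mul_mem hu (h1 p hp)
    show (p.2 : ℂ) * gfun K S c w (mkS K S u * mkS K S p.1) = c (((u * p.1) * w * (u * p.1)⁻¹) ^ p.2)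
    rw [← map_mul, gfun_mk hA hw hup, hA.zpow (NS_conj hw hup)]
  · intro y hy
    obtain ⟨p, hp, rfl⟩ := List.mem_map.mp hy
    exact zpow_mem (NS_conj hw ((fsub S).mul_mem hu (h1 p hp))) _

/-- `bet` is linear in the function -/
noncomputable def betL (K : Subgroup (FreeGroup α)) [K.Normal] (S : Finset α) (b : α)
    (h : FreeGroup α) : (QS K S → ℂ) →ₗ[ℂ] (QS K S → ℂ) where
  toFun := bet K S b h
  map_add' s t := by
    funext q
    show bet K S b h (s + t) q = bet K S b h s q + bet K S b h t q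
    unfold bet
    generalize foxL S b h = L
    induction L with
    | nil => simp
    | cons p L ih =>
      simp only [List.map_cons, List.sum_cons, Pi.add_apply] at ih ⊢
      rw [ih]
      ring
  map_smul' c s := by
    funext q
    show bet K S b h (c • s) q = c • bet K S b h s q
    unfold bet
    generalize foxL S b h = L
    induction L with
    | nil => simp
    | cons p L ih =>
      simp only [List.map_cons, List.sum_cons, Pi.smul_apply, smul_eq_mul] at ih ⊢
      rw [ih]
      ring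

theorem betL_apply (K : Subgroup (FreeGroup α)) [K.Normal] (S : Finset α) (b : α)
    (h : FreeGroup α) (s : QS K S → ℂ) : betL K S b h s = bet K S b h s := rfl

end AFn
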