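import Mathlib
import Pool.Agent.AFn.Defs
import Pool.Agent.AFn.Basic
import Pool.Agent.AFn.Datum
import Pool.Agent.AFn.Gfun

/-!
# The space of functions attached to a datum
-/

set_option autoImplicit false

namespace AFn

universe u v

variable {α : Type u} [DecidableEq α]

/-- the span of the functions `u ↦ μ (δ (u * w * u⁻¹))`, `w ∈ K ⊓ fsub W`, `μ` a functional -/
noncomputable def SS (K : Subgroup (FreeGroup α)) (S W : Finset α) {E : Type v}
    [AddCommGroup E] [Module ℂ E] (δ : FreeGroup α → E) : Submodule ℂ (QS K S → ℂ) :=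
  Submodule.span ℂ {f | ∃ μ : Module.Dual ℂ E, ∃ w ∈ K ⊓ fsub W,
    f = gfun K S (fun x => μ (δ x)) w}

/-- the functions invariant under right translation by `fsub J` -/
def FixJ (K : Subgroup (FreeGroup α)) [K.Normal] (S J : Finset α) :
    Submodule ℂ (QS K S → ℂ) where
  carrier := {f | ∀ y ∈ fsub J, tr (mkS K S y) f = f}
  add_mem' := fun {f f'} hf hf' y hy => by rw [map_add, hf y hy, hf' y hy]
  zero_mem' := fun y _ => map_zero _
  smul_mem' := fun c f hf y hy => by rw [map_smul, hf y hy]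

theorem mem_FixJ {K : Subgroup (FreeGroup α)} [K.Normal] {S J : Finset α} {f : QS K S → ℂ} :
    f ∈ FixJ K S J ↔ ∀ y ∈ fsub J, tr (mkS K S y) f = f := Iff.rfl

/-- the sum over the right translates by the image of `fsub J` -/
noncomputable def avJ (K : Subgroup (FreeGroup α)) [K.Normal] [K.FiniteIndex]
    (S J : Finset α) : (QS K S → ℂ) →ₗ[ℂ] (QS K S → ℂ) :=
  ∑ y ∈ (Set.toFinite (((fsub J).map (mkS K S) : Subgroup (QS K S)) : Set (QS K S))).toFinset,
    tr y

theorem mem_avSet {K : Subgroup (FreeGroup α)} [K.Normal] [K.FiniteIndex] {S J : Finset α}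
    {y : QS K S} : y ∈ (Set.toFinite (((fsub J).map (mkS K S) : Subgroup (QS K S)) :
      Set (QS K S))).toFinset ↔ ∃ g ∈ fsub J, mkS K S g = y := by
  rw [Set.Finite.mem_toFinset, SetLike.mem_coe, Subgroup.mem_map]

/-- reindexing the average by a left multiplication -/
theorem tr_avJ {K : Subgroup (FreeGroup α)} [K.Normal] [K.FiniteIndex] {S J : Finset α}
    {g : FreeGroup α} (hg : g ∈ fsub J) (f : QS K S → ℂ) :
    tr (mkS K S g) (avJ K S J f) = avJ K S J f := by
  classical
  unfold avJ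
  rw [LinearMap.sum_apply, map_sum]
  have h1 : ∀ y : QS K S, tr (mkS K S g) (tr y f) = tr (mkS K S g * y) f := fun y =>
    (tr_mul _ _ _).symm
  simp only [h1]
  refine Finset.sum_bij (fun y _ => mkS K S g * y) ?_ ?_ ?_ ?_
  · intro y hy
    rw [mem_avSet] at hy ⊢
    obtain ⟨k, hk, rfl⟩ := hy
    exact ⟨g * k, (fsub J).mul_mem hg hk, map_mul _ _ _⟩
  · intro y _ y' _ h
    exact mul_left_cancel h
  · intro y hy
    rw [mem_avSet] at hy
    obtain ⟨k, hk, rfl⟩ := hy
    refine ⟨mkS K S (g⁻¹ * k), mem_avSet.mpr ⟨_, (fsub J).mul_mem ((fsub J).inv_mem hg) hk, rfl⟩,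
      ?_⟩
    rw [← map_mul]
    congr 1
    group
  · intro y _
    rfl

/-- reindexing the average by a right multiplication -/
theorem avJ_tr {K : Subgroup (FreeGroup α)} [K.Normal] [K.FiniteIndex] {S J : Finset α}
    {g : FreeGroup α} (hg : g ∈ fsub J) (f : QS K S → ℂ) :
    avJ K S J (tr (mkS K S g) f) = avJ K S J f := by
  classical
  unfold avJ
  rw [LinearMap.sum_apply, LinearMap.sum_apply]
  have h1 : ∀ y : QS K S, tr y (tr (mkS K S g) f) = tr (y * mkS K S g) f := fun y =>
    (tr_mul _ _ _).symm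
  simp only [h1]
  refine Finset.sum_bij (fun y _ => y * mkS K S g) ?_ ?_ ?_ ?_
  · intro y hy
    rw [mem_avSet] at hy ⊢
    obtain ⟨k, hk, rfl⟩ := hy
    exact ⟨k * g, (fsub J).mul_mem hk hg, map_mul _ _ _⟩
  · intro y _ y' _ h
    exact mul_right_cancel h
  · intro y hy
    rw [mem_avSet] at hy
    obtain ⟨k, hk, rfl⟩ := hy
    refine ⟨mkS K S (k * g⁻¹), mem_avSet.mpr ⟨_, (fsub J).mul_mem hk ((fsub J).inv_mem hg), rfl⟩,
      ?_⟩
    rw [← map_mul]
    congr 1
    group
  · intro y _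
    rfl

/-- the average of an invariant function -/
theorem avJ_fix {K : Subgroup (FreeGroup α)} [K.Normal] [K.FiniteIndex] {S J : Finset α}
    {f : QS K S → ℂ} (hf : f ∈ FixJ K S J) : ∃ n : ℕ, n ≠ 0 ∧ avJ K S J f = (n : ℂ) • f := by
  classical
  refine ⟨(Set.toFinite (((fsub J).map (mkS K S) : Subgroup (QS K S)) :
    Set (QS K S))).toFinset.card, ?_, ?_⟩
  · apply Finset.card_ne_zero_of_mem (a := 1)
    rw [mem_avSet]
    exact ⟨1, one_mem _, map_one _⟩
  · unfold avJ
    rw [LinearMap.sum_apply]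
    have h1 : ∀ y ∈ (Set.toFinite (((fsub J).map (mkS K S) : Subgroup (QS K S)) :
      Set (QS K S))).toFinset, tr y f = f := by
      intro y hy
      rw [mem_avSet] at hy
      obtain ⟨k, hk, rfl⟩ := hy
      exact hf k hk
    rw [Finset.sum_congr rfl h1, Finset.sum_const]
    exact (Nat.cast_smul_eq_nsmul ℂ _ _).symm

theorem avJ_mem {K : Subgroup (FreeGroup α)} [K.Normal] [K.FiniteIndex] {S J : Finset α}
    (f : QS K S → ℂ) : avJ K S J f ∈ FixJ K S J := fun _ hg => tr_avJ hg f

end AFn
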