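import Mathlib
import Pool.Agent.AFn.Defs
import Pool.Agent.AFn.Basic
import Pool.Agent.AFn.Datum
import Pool.Agent.AFn.CocycA
import Pool.Agent.AFn.CocycB
import Pool.Agent.AFn.Gfun
import Pool.Agent.AFn.HLDefs

/-!
# Invariant additive maps vanish

Let `P := fsub S` (as a group), `P0 := K ⊓ fsub S` in it, `G := P ⧸ P0` (a finite group, since
`K` is normal of finite index). For `x ∈ NS K r S` the function `c_x u = c (u * x * u⁻¹)` on
`P` is right `P0`-invariant (by `hinv`, since `u * k = (u * k * u⁻¹) * u`), hence a function on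
`G`.

Step 1. `hT` holds for all `w ∈ NS K r (S.erase b)`: closure induction, `R b` is a
homomorphism and `R b w ∈ StabS S` preserves `NS K r S` (`NS_map`, `R_mem_StabS`).

Step 2. For `w ∈ NS K r (S.erase b)` put `β h u = c (u * (R b w h * h⁻¹) * u⁻¹)` for
`h, u ∈ fsub S` (`delta_NS` shows that the argument of `c` is in `NS K r S`). Then
`β (g * h) u = β g u + β h (u * g)` because
`R b w (g * h) * (g * h)⁻¹ = (R b w g * g⁻¹) * (g * (R b w h * h⁻¹) * g⁻¹)`, and `β h = 0` for
`h ∈ NS K r S` by `hT` and additivity. Let `i ∈ S.erase b`. Since `2 ≤ r` all elements of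
`K ⊓ fsub {i, b}` are in `NS K r S` (`NS_of`), so `cocycle_trivial` for the group
`fsub {i, b}` gives a function `Λ` with `β g u = Λ (u * g) - Λ u` for `g ∈ fsub {i, b}`. Since
`R b w (of i) = of i` we get `Λ (u * of i) = Λ u`; since `R b w (of b) * (of b)⁻¹ =
of b * w * (of b)⁻¹` we get `c_w (u * of b) = Λ (u * of b) - Λ u`.

Step 3. Let `w ∈ XS K r (S.erase b)`, `i ∈ S.erase b`. Apply Step 2 to
`w' = w * (of i * w⁻¹ * (of i)⁻¹) ∈ NS K r (S.erase b)`: `c_{w'} u = c_w u - c_w (u * of i)`,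
and the average of `c_{w'}` over the powers of `of i` (the subgroup `Y` of `G` generated by the
image of `of i`) is zero. `unitary_zero` with `t = of b` gives `c_{w'} = 0`, so
`c_w (u * of i) = c_w u` for all `u ∈ fsub S`. Hence `c_w (u * y) = c_w u` for all
`y ∈ fsub (S.erase b)`.

Step 4. `w = φ w0` with `φ ∈ StabS (S.erase b)`, `w0 ∈ K ⊓ fsub W`, `W ⊆ S.erase b`,
`W.card ≤ r`. Fix `u ∈ fsub S`. `transfer_zero` for the group `P = fsub W`, `P0 = K ⊓ fsub W`,
`h g = c (u * φ g * u⁻¹)` and the generators `of j`, `j ∈ W`: `h` is invariant by Step 3 (for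
`φ g ∈ XS K r (S.erase b)`), and `(of j) ^ k ∈ K` has rank one, so `u * φ (of j ^ k) * u⁻¹`
is in `XS K (r - 1) S` and `hkill` applies (`1 ≤ r - 1`).
-/

set_option autoImplicit false

namespace AFn

universe u

variable {α : Type u} [DecidableEq α]

section

variable {H : Subgroup (MulAut (FreeGroup α))} {K : Subgroup (FreeGroup α)} {r : ℕ}
  {S : Finset α} {b : α} {c : FreeGroup α → ℂ}

/-- Step 1 -/
private theorem hT_NS (hc : Ctx H K) (hb : b ∈ S)
    (hT : ∀ w ∈ XS K r (S.erase b), ∀ x ∈ NS K r S, ∀ u ∈ fsub S,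
      c (u * R b w x * u⁻¹) = c (u * x * u⁻¹)) {w : FreeGroup α}
    (hw : w ∈ NS K r (S.erase b)) : ∀ x ∈ NS K r S, ∀ u ∈ fsub S,
      c (u * R b w x * u⁻¹) = c (u * x * u⁻¹) := by
  unfold NS at hw
  induction hw using Subgroup.closure_induction with
  | mem y hy => exact hT y hy
  | one => intro x _ u _; rw [map_one, MulAut.one_apply]
  | mul y z hy hz h1 h2 =>
    intro x hx u hu
    rw [map_mul, MulAut.mul_apply]
    have h3 : z ∈ fsub (S.erase b) := (NS_le hc (K := K) (r := r) (S := S.erase b) hz).2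
    rw [h1 _ (NS_map hx (R_mem_StabS hb h3)) u hu, h2 x hx u hu]
  | inv y hy h1 =>
    intro x hx u hu
    have h3 : y ∈ fsub (S.erase b) := (NS_le hc (K := K) (r := r) (S := S.erase b) hy).2
    have h4 : R b y (R b y⁻¹ x) = x := by
      rw [← MulAut.mul_apply, ← map_mul, mul_inv_cancel, map_one]; rfl
    have h5 := h1 (R b y⁻¹ x) (NS_map hx (R_mem_StabS hb (inv_mem h3))) u hu
    rw [h4] at h5
    exact h5.symm

/-- Step 2 -/
private theorem step2 [K.Normal] [K.FiniteIndex] (hc : Ctx H K) (hr : 2 ≤ r) (hb : b ∈ S)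
    (hA : AddInv K r S c)
    (hT : ∀ w ∈ XS K r (S.erase b), ∀ x ∈ NS K r S, ∀ u ∈ fsub S,
      c (u * R b w x * u⁻¹) = c (u * x * u⁻¹)) {w : FreeGroup α}
    (hw : w ∈ NS K r (S.erase b)) {i : α} (hi : i ∈ S.erase b) :
    ∃ Λ : QS K S → ℂ, tr (mkS K S (FreeGroup.of i)) Λ = Λ ∧
      tr (mkS K S (FreeGroup.of b)) (gfun K S c w) = tr (mkS K S (FreeGroup.of b)) Λ - Λ := by
  have hwf : w ∈ fsub (S.erase b) := (NS_le hc hw).2
  have hwN : w ∈ NS K r S := NS_mono le_rfl (Finset.erase_subset _ _) hw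
  have hbn : b ∉ S.erase b := Finset.notMem_erase b S
  have hJb : ({i, b} : Finset α) ⊆ S := by
    intro x hx
    rcases Finset.mem_insert.mp hx with h | h
    · rw [h]; exact Finset.mem_of_mem_erase hi
    · rw [Finset.mem_singleton.mp h]; exact hb
  have hcard : ({i, b} : Finset α).card ≤ r := (Finset.card_insert_le _ _).trans (by simpa using hr)
  have hle : fsub ({i, b} : Finset α) ≤ fsub S := fsub_mono hJb
  have hd : ∀ g ∈ fsub S, R b w g * g⁻¹ ∈ NS K r S := fun g hg => delta_NS hb hw hwf hg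
  obtain ⟨Λ, -, hΛ⟩ := cocycle_trivial (P := ↥(fsub ({i, b} : Finset α)))
    (K.subgroupOf (fsub ({i, b} : Finset α))) inferInstance (M := QS K S → ℂ)
    (fun g => tr (mkS K S (g : FreeGroup α)))
    (fun g => gfun K S c (R b w (g : FreeGroup α) * (g : FreeGroup α)⁻¹))
    (fun g h => by
      have hg := hle g.2
      have hh := hle h.2
      show gfun K S c (R b w ((g : FreeGroup α) * h) * ((g : FreeGroup α) * h)⁻¹) =
        gfun K S c (R b w (g : FreeGroup α) * (g : FreeGroup α)⁻¹) +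
          tr (mkS K S (g : FreeGroup α)) (gfun K S c (R b w (h : FreeGroup α) * (h : FreeGroup α)⁻¹))
      rw [gfun_tr hA (hd _ hh) hg, ← gfun_add hA (hd _ hg) (NS_conj (hd _ hh) hg)]
      congr 1
      rw [map_mul]
      group)
    (fun g hg => by
      have hgK : (g : FreeGroup α) ∈ K := Subgroup.mem_subgroupOf.mp hg
      have hgN : (g : FreeGroup α) ∈ NS K r S := NS_of hJb hcard hgK g.2
      have hRg : R b w (g : FreeGroup α) ∈ NS K r S := NS_map hgN (R_mem_StabS hb hwf)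
      show gfun K S c (R b w (g : FreeGroup α) * (g : FreeGroup α)⁻¹) = 0
      rw [gfun_add hA hRg (inv_mem hgN), gfun_inv hA hgN]
      funext q
      obtain ⟨u, hu, rfl⟩ := mkS_surj K S q
      rw [Pi.add_apply, Pi.neg_apply, gfun_mk hA hRg hu, gfun_mk hA hgN hu,
        hT_NS hc hb hT hw _ hgN u hu]
      simp) ⊤ (fun _ => Submodule.mem_top)
  refine ⟨Λ, ?_, ?_⟩
  · have h1 := hΛ ⟨FreeGroup.of i, of_mem_fsub (Finset.mem_insert_self _ _)⟩
    change gfun K S c (R b w (FreeGroup.of i) * (FreeGroup.of i)⁻¹) =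
      tr (mkS K S (FreeGroup.of i)) Λ - Λ at h1
    rw [R_of_ne (Finset.ne_of_mem_erase hi), mul_inv_cancel] at h1
    have h2 : gfun K S c 1 = 0 := by
      funext q
      obtain ⟨u, hu, rfl⟩ := mkS_surj K S q
      rw [gfun_mk hA (one_mem _) hu, mul_one, mul_inv_cancel, hA.one]
      rfl
    rw [h2] at h1
    exact sub_eq_zero.mp h1.symm
  · have h1 := hΛ ⟨FreeGroup.of b, of_mem_fsub
      (Finset.mem_insert_of_mem (Finset.mem_singleton_self b))⟩
    change gfun K S c (R b w (FreeGroup.of b) * (FreeGroup.of b)⁻¹) =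
      tr (mkS K S (FreeGroup.of b)) Λ - Λ at h1
    rw [R_of_self, kill_eq hwf hbn] at h1
    rw [← h1, gfun_tr hA hwN (of_mem_fsub hb)]

/-- Step 3 -/
private theorem step3 [K.Normal] [K.FiniteIndex] (hc : Ctx H K) (hr : 2 ≤ r) (hb : b ∈ S)
    (hA : AddInv K r S c)
    (hT : ∀ w ∈ XS K r (S.erase b), ∀ x ∈ NS K r S, ∀ u ∈ fsub S,
      c (u * R b w x * u⁻¹) = c (u * x * u⁻¹)) {w : FreeGroup α}
    (hw : w ∈ XS K r (S.erase b)) {y : FreeGroup α} (hy : y ∈ fsub (S.erase b)) :
    tr (mkS K S y) (gfun K S c w) = gfun K S c w := by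
  classical
  have hwN' : w ∈ NS K r (S.erase b) := XS_sub_NS hw
  have hwN : w ∈ NS K r S := NS_mono le_rfl (Finset.erase_subset _ _) hwN'
  have key : ∀ i ∈ S.erase b, tr (mkS K S (FreeGroup.of i)) (gfun K S c w) = gfun K S c w := by
    intro i hi
    have hiE : FreeGroup.of i ∈ fsub (S.erase b) := of_mem_fsub hi
    have hiS : FreeGroup.of i ∈ fsub S := of_mem_fsub (Finset.mem_of_mem_erase hi)
    obtain ⟨w', hw'⟩ : ∃ w', w' = w * (FreeGroup.of i * w⁻¹ * (FreeGroup.of i)⁻¹) := ⟨_, rfl⟩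
    have hw'N : w' ∈ NS K r (S.erase b) := by
      rw [hw']
      exact mul_mem hwN' (NS_conj (inv_mem hwN') hiE)
    have hg : gfun K S c w' = gfun K S c w - tr (mkS K S (FreeGroup.of i)) (gfun K S c w) := by
      rw [hw', gfun_add hA hwN (NS_conj (inv_mem hwN) hiS), gfun_tr hA hwN hiS, sub_eq_add_neg,
        ← gfun_inv hA (NS_conj hwN hiS)]
      congr 2
      group
    have hav : avJ K S {i} (gfun K S c w') = 0 := by
      rw [hg, map_sub, avJ_tr (of_mem_fsub (Finset.mem_singleton_self i)), sub_self]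
    obtain ⟨Λ, h1, h2⟩ := step2 hc hr hb hA hT hw'N hi
    have hfix : ∀ y ∈ fsub ({i} : Finset α), tr (mkS K S y) Λ = Λ := by
      intro y hy
      unfold fsub at hy
      induction hy using Subgroup.closure_induction with
      | mem x hx =>
        obtain ⟨j, hj, rfl⟩ := hx
        have hij : j = i := Finset.mem_singleton.mp (Finset.mem_coe.mp hj)
        rw [hij]
        exact h1
      | one => rw [map_one, tr_one]
      | mul x y _ _ hx hy => rw [map_mul, tr_mul, hy, hx]
      | inv x _ hx =>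
        have h1 : tr (mkS K S x⁻¹) (tr (mkS K S x) Λ) = Λ := by
          rw [← tr_mul, ← map_mul, inv_mul_cancel, map_one, tr_one]
        rwa [hx] at h1
    let _ : Fintype (QS K S) := Subgroup.fintypeQuotientOfFiniteIndex
    let _ : Fintype ↥((fsub ({i} : Finset α)).map (mkS K S)) := Fintype.ofFinite _
    have hz := unitary_zero (G := QS K S) ((fsub ({i} : Finset α)).map (mkS K S))
      (mkS K S (FreeGroup.of b)) Λ (gfun K S c w')
      (fun u y hy => by
        obtain ⟨g, hg, rfl⟩ := Subgroup.mem_map.mp hy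
        exact congrFun (hfix g hg) u)
      (fun u => congrFun h2 u)
      (fun u => by
        have h1 := congrFun hav u
        unfold avJ at h1
        rw [LinearMap.sum_apply, Finset.sum_apply] at h1
        rw [← Finset.sum_coe_sort] at h1
        rw [Pi.zero_apply] at h1
        rw [← h1]
        refine Fintype.sum_equiv (Equiv.subtypeEquivRight (fun x => ?_)) _ _ (fun x => rfl)
        rw [Set.Finite.mem_toFinset, SetLike.mem_coe])
    have h3 : gfun K S c w' = 0 := by
      funext u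
      exact hz u
    rw [hg] at h3
    exact (sub_eq_zero.mp h3).symm
  unfold fsub at hy
  induction hy using Subgroup.closure_induction with
  | mem x hx =>
    obtain ⟨j, hj, rfl⟩ := hx
    exact key j (Finset.mem_coe.mp hj)
  | one => rw [map_one, tr_one]
  | mul x y _ _ hx hy => rw [map_mul, tr_mul, hy, hx]
  | inv x _ hx =>
    have h1 : tr (mkS K S x⁻¹) (tr (mkS K S x) (gfun K S c w)) = gfun K S c w := by
      rw [← tr_mul, ← map_mul, inv_mul_cancel, map_one, tr_one]
    rwa [hx] at h1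

end

theorem claimA {H : Subgroup (MulAut (FreeGroup α))} {K : Subgroup (FreeGroup α)}
    (hc : Ctx H K) (r : ℕ) (hr : 2 ≤ r) (S : Finset α) (b : α) (hb : b ∈ S)
    (c : FreeGroup α → ℂ)
    (hadd : ∀ x ∈ NS K r S, ∀ y ∈ NS K r S, c (x * y) = c x + c y)
    (hinv : ∀ g ∈ K ⊓ fsub S, ∀ x ∈ NS K r S, c (g * x * g⁻¹) = c x)
    (hkill : ∀ x ∈ XS K (r - 1) S, c x = 0)
    (hT : ∀ w ∈ XS K r (S.erase b), ∀ x ∈ NS K r S, ∀ u ∈ fsub S,
      c (u * R b w x * u⁻¹) = c (u * x * u⁻¹)) :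
    ∀ w ∈ XS K r (S.erase b), ∀ u ∈ fsub S, c (u * w * u⁻¹) = 0 := by
  haveI := hc.Kn
  haveI := hc.Kf
  have hA : AddInv K r S c := ⟨hadd, hinv, hkill⟩
  rintro w ⟨φ, hφ, W, hW, hWr, w0, hw0K, hw0, rfl⟩ u hu
  have hES : S.erase b ⊆ S := Finset.erase_subset _ _
  have hφS : φ ∈ StabS S := StabS_mono hES hφ
  have hmem : ∀ g : ↥(fsub W), g ∈ K.subgroupOf (fsub W) → φ (g : FreeGroup α) ∈
      XS K r (S.erase b) := fun g hg =>
    ⟨φ, hφ, W, hW, hWr, g, Subgroup.mem_subgroupOf.mp hg, g.2, rfl⟩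
  have hmemS : ∀ g : ↥(fsub W), g ∈ K.subgroupOf (fsub W) → φ (g : FreeGroup α) ∈
      NS K r S := fun g hg => XS_sub_NS (XS_mono le_rfl hES (hmem g hg))
  have hz := transfer_zero (P := ↥(fsub W)) (K.subgroupOf (fsub W)) inferInstance inferInstance
    (fun g => c (u * φ (g : FreeGroup α) * u⁻¹)) ?_ ?_
    ((fun x : ↥(fsub W) => (x : FreeGroup α)) ⁻¹' (FreeGroup.of '' (W : Set α))) ?_ ?_
    ⟨w0, hw0⟩ (Subgroup.mem_subgroupOf.mpr hw0K)
  · exact hz
  · intro g hg g' hg'
    show c (u * φ ((g : FreeGroup α) * g') * u⁻¹) = _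
    rw [← hadd _ (NS_conj (hmemS g hg) hu) _ (NS_conj (hmemS g' hg') hu), map_mul]
    congr 1
    group
  · intro y g hg
    show c (u * φ ((y : FreeGroup α) * g * (y : FreeGroup α)⁻¹) * u⁻¹) =
      c (u * φ (g : FreeGroup α) * u⁻¹)
    have hy : φ (y : FreeGroup α) ∈ fsub (S.erase b) := StabS_map hφ (fsub_mono hW y.2)
    have h1 := congrFun (step3 hc hr hb hA hT (hmem g hg) hy) (mkS K S u)
    rw [tr_apply, ← map_mul, gfun_mk hA (hmemS g hg) ((fsub S).mul_mem hu (fsub_mono hES hy)),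
      gfun_mk hA (hmemS g hg) hu] at h1
    rw [← h1, map_mul, map_mul, map_inv]
    congr 1
    group
  · exact Subgroup.closure_closure_coe_preimage
  · rintro x ⟨j, hj, hjx⟩ k hk
    have hjW : j ∈ W := Finset.mem_coe.mp hj
    show c (u * φ ((x ^ k : ↥(fsub W)) : FreeGroup α) * u⁻¹) = 0
    have hxk : ((x ^ k : ↥(fsub W)) : FreeGroup α) = FreeGroup.of j ^ k := by
      rw [Subgroup.coe_pow]
      exact congrArg (fun z => z ^ k) hjx.symm
    have hkK : FreeGroup.of j ^ k ∈ K := by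
      rw [← hxk]
      exact Subgroup.mem_subgroupOf.mp hk
    rw [hxk]
    apply hkill
    refine XS_conj ?_ hu
    refine ⟨φ, hφS, {j}, ?_, ?_, FreeGroup.of j ^ k, hkK, ?_, rfl⟩
    · intro x hx
      rw [Finset.mem_singleton.mp hx]
      exact hES (hW hjW)
    · rw [Finset.card_singleton]
      omega
    · exact pow_mem (of_mem_fsub (Finset.mem_singleton_self j)) k

end AFn
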