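import Mathlib
import Pool.Agent.AFn.Defs

set_option autoImplicit false

namespace AFn

open Polynomial

private theorem prod_norm_lt (s : Multiset ℂ) (hs : ∀ x ∈ s, ‖x‖ < 1) (h0 : s ≠ 0) : ‖s.prod‖ < 1 := by
  induction s using Multiset.induction_on with
  | empty => exact absurd rfl h0
  | cons a s ih =>
    rw [Multiset.prod_cons, norm_mul]
    have ha : ‖a‖ < 1 := hs a (Multiset.mem_cons_self a s)
    by_cases hz : s = 0
    · rw [hz, Multiset.prod_zero, norm_one, mul_one]
      exact ha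
    · have h1 := ih (fun x hx => hs x (Multiset.mem_cons_of_mem hx)) hz
      nlinarith [norm_nonneg a, norm_nonneg s.prod]

/-- a monic integer polynomial all of whose complex roots have absolute value less than one is a
power of `X` -/
private theorem eq_X_pow (p : ℤ[X]) (hp : p.Monic)
    (h : ∀ x ∈ (p.map (Int.castRingHom ℂ)).roots, ‖x‖ < 1) : ∃ k, p = X ^ k := by
  obtain ⟨q, hq, hnd⟩ := Polynomial.exists_eq_pow_rootMultiplicity_mul_and_not_dvd p hp.ne_zero 0
  rw [C_0, sub_zero] at hq hnd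
  refine ⟨p.rootMultiplicity 0, ?_⟩
  set k := p.rootMultiplicity 0
  have hqm : q.Monic := by
    have h1 : ((X : ℤ[X]) ^ k * q).Monic := by rw [← hq]; exact hp
    exact Monic.of_mul_monic_left (monic_X_pow k) h1
  have hq0 : q.coeff 0 ≠ 0 := by
    intro h0
    exact hnd (X_dvd_iff.mpr h0)
  have hsp : Splits (q.map (Int.castRingHom ℂ)) := IsAlgClosed.splits _
  have hmm : (q.map (Int.castRingHom ℂ)).Monic := hqm.map _
  have hc := hsp.coeff_zero_eq_prod_roots_of_monic hmm
  have hroots : (q.map (Int.castRingHom ℂ)).roots = 0 := by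
    by_contra hne
    have hlt := prod_norm_lt _ (fun x hx => h x (by
      rw [hq, Polynomial.map_mul]
      have hne0 : (map (Int.castRingHom ℂ) (X ^ k)) * (map (Int.castRingHom ℂ) q) ≠ 0 := by
        rw [← Polynomial.map_mul, ← hq]
        exact (hp.map _).ne_zero
      rw [Polynomial.roots_mul hne0]
      exact Multiset.mem_add.mpr (Or.inr hx))) hne
    have hn : ‖(q.map (Int.castRingHom ℂ)).coeff 0‖ < 1 := by
      rw [hc, norm_mul, norm_pow, norm_neg, norm_one, one_pow, one_mul]
      exact hlt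
    rw [coeff_map] at hn
    have h1 : ‖((q.coeff 0 : ℤ) : ℂ)‖ < 1 := hn
    rw [Complex.norm_intCast] at h1
    have h2 : (1 : ℝ) ≤ |((q.coeff 0 : ℤ) : ℝ)| := by
      exact_mod_cast Int.one_le_abs hq0
    linarith
  have hdeg : q.natDegree = 0 := by
    have h1 := hsp.natDegree_eq_card_roots
    rw [hroots, Multiset.card_zero, hqm.natDegree_map] at h1
    exact h1
  have hq1 : q = 1 := hqm.natDegree_eq_zero.mp hdeg
  rw [hq, hq1, mul_one]

/-- an invertible integer matrix that is the identity modulo `3` and whose eigenvalues all have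
absolute value one is unipotent -/
theorem int_unipotent {m : ℕ} (M : Matrix (Fin m) (Fin m) ℤ)
    (h3 : ∀ i j, (3 : ℤ) ∣ (M i j - (1 : Matrix (Fin m) (Fin m) ℤ) i j))
    (h : ∀ μ ∈ (LinearMap.charpoly (Matrix.toLin' (M.map (Int.cast : ℤ → ℂ)))).roots,
      ‖μ‖ = 1) :
    IsNilpotent (Matrix.toLin' (M.map (Int.cast : ℤ → ℂ)) - 1) := by
  choose N hN using h3
  let N' : Matrix (Fin m) (Fin m) ℤ := Matrix.of N
  have hM : M = 1 + (3 : ℤ) • N' := by
    ext i j
    have := hN i j
    simp only [Matrix.add_apply, Matrix.smul_apply, N', Matrix.of_apply, smul_eq_mul]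
    linarith
  set MC : Matrix (Fin m) (Fin m) ℂ := M.map (Int.cast : ℤ → ℂ) with hMC
  set NC : Matrix (Fin m) (Fin m) ℂ := N'.map (Int.cast : ℤ → ℂ) with hNC
  have hMN : MC = 1 + (3 : ℂ) • NC := by
    ext i j
    simp only [hMC, hNC, hM, Matrix.map_apply, Matrix.add_apply, Matrix.smul_apply, smul_eq_mul]
    push_cast
    congr 1
    simp only [Matrix.one_apply]
    split_ifs <;> simp
  have hmap : N'.charpoly.map (Int.castRingHom ℂ) = NC.charpoly := by
    rw [← Matrix.charpoly_map]
    rfl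
  have hroots : ∀ x ∈ (N'.charpoly.map (Int.castRingHom ℂ)).roots, ‖x‖ < 1 := by
    intro x hx
    rw [hmap, mem_roots (Matrix.charpoly_monic NC).ne_zero, IsRoot.def, Matrix.eval_charpoly] at hx
    have h1 : (1 + 3 * x) ∈ (LinearMap.charpoly (Matrix.toLin' MC)).roots := by
      rw [Matrix.charpoly_toLin', mem_roots (Matrix.charpoly_monic MC).ne_zero, IsRoot.def,
        Matrix.eval_charpoly]
      have h2 : Matrix.scalar (Fin m) (1 + 3 * x) - MC = (3 : ℂ) • (Matrix.scalar (Fin m) x - NC) := by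
        rw [hMN]
        ext i j
        simp only [Matrix.sub_apply, Matrix.add_apply, Matrix.smul_apply, smul_eq_mul,
          Matrix.scalar_apply, Matrix.diagonal_apply, Matrix.one_apply]
        split_ifs <;> ring
      rw [h2, Matrix.det_smul, hx, mul_zero]
    have h2 := h _ h1
    have h3 : ‖(3 : ℂ) * x‖ ≤ 2 := by
      calc ‖(3 : ℂ) * x‖ = ‖(1 + 3 * x) - 1‖ := by congr 1; ring
        _ ≤ ‖1 + 3 * x‖ + ‖(1 : ℂ)‖ := norm_sub_le _ _
        _ = 2 := by rw [h2, norm_one]; norm_num
    rw [norm_mul] at h3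
    have h4 : ‖(3 : ℂ)‖ = 3 := by norm_num
    rw [h4] at h3
    linarith
  obtain ⟨k, hk⟩ := eq_X_pow N'.charpoly (Matrix.charpoly_monic N') hroots
  have hCH : N' ^ k = 0 := by
    have := Matrix.aeval_self_charpoly N'
    rw [hk] at this
    simpa using this
  have hNCk : NC ^ k = 0 := by
    have h1 : NC = (Int.castRingHom ℂ).mapMatrix N' := rfl
    rw [h1, ← map_pow, hCH, map_zero]
  refine ⟨k, ?_⟩
  have h5 : Matrix.toLin' MC - 1 = Matrix.toLin' ((3 : ℂ) • NC) := by
    rw [hMN, map_add, Matrix.toLin'_one]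
    rw [← Module.End.one_eq_id]
    abel
  rw [h5, ← Matrix.toLin'_pow, _root_.smul_pow, hNCk, smul_zero, map_zero]

end AFn
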