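import Mathlib
import Pool.Agent.AFn.IntMat

set_option autoImplicit false

namespace AFn

/-- an element of `GL_2(ℤ)` that is the identity modulo `3` and commutes with a nonzero
nilpotent operator is unipotent -/
theorem gl2_comm_unipotent (M : Matrix (Fin 2) (Fin 2) ℤ)
    (h3 : ∀ i j, (3 : ℤ) ∣ (M i j - (1 : Matrix (Fin 2) (Fin 2) ℤ) i j))
    (hM : IsUnit M.det) (N : Module.End ℂ (Fin 2 → ℂ)) (hN : N ≠ 0) (hNn : IsNilpotent N)
    (hcomm : Matrix.toLin' (M.map (Int.cast : ℤ → ℂ)) * N =
      N * Matrix.toLin' (M.map (Int.cast : ℤ → ℂ))) :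
    IsNilpotent (Matrix.toLin' (M.map (Int.cast : ℤ → ℂ)) - 1) := by
  obtain ⟨A, hA⟩ : ∃ A, A = Matrix.toLin' (M.map (Int.cast : ℤ → ℂ)) := ⟨_, rfl⟩
  -- a power with square zero
  obtain ⟨N', hN'0, hN'2, hN'c⟩ : ∃ N' : Module.End ℂ (Fin 2 → ℂ), N' ≠ 0 ∧ N' * N' = 0 ∧
      A * N' = N' * A := by
    have hk1 : 1 < nilpotencyClass N := by
      by_contra h
      have h1 : nilpotencyClass N ≤ 1 := by omega
      have h2 := pow_nilpotencyClass hNn
      have h4 : N ^ 1 = 0 := pow_eq_zero_of_le h1 h2
      rw [pow_one] at h4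
      exact hN h4
    refine ⟨N ^ (nilpotencyClass N - 1), pow_pred_nilpotencyClass hNn, ?_, ?_⟩
    · rw [← pow_add]
      exact pow_eq_zero_of_le (by omega) (pow_nilpotencyClass hNn)
    · have h1 : Commute A N := by rw [hA]; exact hcomm
      exact h1.pow_right _
  obtain ⟨x, hx⟩ : ∃ x, N' x ≠ 0 := by
    by_contra h
    push Not at h
    exact hN'0 (LinearMap.ext h)
  have hNN : ∀ y, N' (N' y) = 0 := fun y => DFunLike.congr_fun hN'2 y
  have hAN : ∀ y, A (N' y) = N' (A y) := fun y => DFunLike.congr_fun hN'c y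
  have hx0 : x ≠ 0 := by
    rintro rfl
    exact hx (map_zero _)
  have hli : LinearIndependent ℂ ![x, N' x] := by
    rw [LinearIndependent.pair_iff' hx0]
    intro k hk
    have h1 := hNN x
    rw [← hk, map_smul] at h1
    rcases smul_eq_zero.mp h1 with h2 | h2
    · rw [h2, zero_smul] at hk
      exact hx hk.symm
    · exact hx h2
  have hspan := hli.span_eq_top_of_card_eq_finrank' (by simp)
  obtain ⟨μ, c, hμ⟩ : ∃ μ c : ℂ, A x = μ • x + c • N' x := by
    have h1 : A x ∈ Submodule.span ℂ (Set.range ![x, N' x]) := by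
      rw [hspan]; exact Submodule.mem_top
    rw [Matrix.range_cons, Matrix.range_cons, Matrix.range_empty, Set.union_empty,
      Set.singleton_union, Submodule.mem_span_pair] at h1
    obtain ⟨μ, c, h2⟩ := h1
    exact ⟨μ, c, h2.symm⟩
  have hAe : A (N' x) = μ • N' x := by
    rw [hAN, hμ, map_add, map_smul, map_smul, hNN, smul_zero, add_zero]
  -- the square of `A - μ`
  have hsq : ∀ y, A (A y - μ • y) - μ • (A y - μ • y) = 0 := by
    intro y
    have hy : y ∈ Submodule.span ℂ (Set.range ![x, N' x]) := by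
      rw [hspan]; exact Submodule.mem_top
    induction hy using Submodule.span_induction with
    | mem y hy =>
      obtain ⟨i, rfl⟩ := hy
      fin_cases i
      · show A (A x - μ • x) - μ • (A x - μ • x) = 0
        rw [hμ, add_sub_cancel_left, map_smul, hAe, smul_comm, sub_self]
      · show A (A (N' x) - μ • (N' x)) - μ • (A (N' x) - μ • (N' x)) = 0
        rw [hAe, sub_self, map_zero, smul_zero, sub_zero]
    | zero => simp
    | add y z _ _ hy hz =>
      have h1 : A (A (y + z) - μ • (y + z)) - μ • (A (y + z) - μ • (y + z)) =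
          (A (A y - μ • y) - μ • (A y - μ • y)) + (A (A z - μ • z) - μ • (A z - μ • z)) := by
        simp only [map_add, map_sub, map_smul, smul_add, smul_sub]
        abel
      rw [h1, hy, hz, add_zero]
    | smul k y _ hy =>
      have h1 : A (A (k • y) - μ • (k • y)) - μ • (A (k • y) - μ • (k • y)) =
          k • (A (A y - μ • y) - μ • (A y - μ • y)) := by
        simp only [map_sub, map_smul, smul_sub, smul_comm k μ]
      rw [h1, hy, smul_zero]
  have hroots : ∀ ν ∈ A.charpoly.roots, ν = μ := by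
    intro ν hν
    have h4 : Module.End.HasEigenvalue A ν := by
      rw [Module.End.hasEigenvalue_iff_isRoot_charpoly]
      exact (Polynomial.mem_roots'.mp hν).2
    obtain ⟨y, hy⟩ := h4.exists_hasEigenvector
    have h5 := hy.apply_eq_smul
    have h6 := hsq y
    rw [h5, ← sub_smul, map_smul, h5, smul_smul, smul_smul, ← sub_smul] at h6
    rcases smul_eq_zero.mp h6 with h7 | h7
    · have h8 : (ν - μ) * (ν - μ) = 0 := by linear_combination h7
      exact sub_eq_zero.mp (mul_self_eq_zero.mp h8)
    · exact absurd h7 hy.2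
  have hcard : A.charpoly.roots.card = 2 := by
    have h1 := IsAlgClosed.card_roots_eq_natDegree (p := A.charpoly)
    rw [h1, LinearMap.charpoly_natDegree]
    simp
  have hrep : A.charpoly.roots = Multiset.replicate 2 μ :=
    Multiset.eq_replicate.mpr ⟨hcard, hroots⟩
  have hdet : ((M.det : ℤ) : ℂ) = μ ^ 2 := by
    have h1 : (M.map (Int.cast : ℤ → ℂ)).det = μ ^ 2 := by
      rw [Matrix.det_eq_prod_roots_charpoly, ← Matrix.charpoly_toLin', ← hA, hrep,
        Multiset.prod_replicate]
    rw [← h1]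
    exact Int.cast_det M
  have hnorm : ‖μ‖ = 1 := by
    have h1 : ‖μ‖ ^ 2 = 1 := by
      rw [← norm_pow, ← hdet]
      rcases Int.isUnit_iff.mp hM with h | h
      · rw [h]; simp
      · rw [h]; simp
    have h2 : (0 : ℝ) ≤ ‖μ‖ := norm_nonneg _
    nlinarith
  refine int_unipotent M h3 fun ν hν => ?_
  rw [← hA] at hν
  rw [hroots ν hν]
  exact hnorm

end AFn
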