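import Mathlib
import Pool.Agent.AFn.Defs

set_option autoImplicit false

namespace AFn

universe v

variable {V : Type v} [AddCommGroup V] [Module ℂ V] [FiniteDimensional ℂ V]

open Polynomial in
/-- the roots of the characteristic polynomial of a scalar multiple -/
theorem roots_smul (A : Module.End ℂ V) (k : ℂ) (hk : k ≠ 0) :
    (LinearMap.charpoly (k • A)).roots = (LinearMap.charpoly A).roots.map (fun μ => k * μ) := by
  set d := Module.finrank ℂ V with hd
  have hsplit : (LinearMap.charpoly A).Splits := IsAlgClosed.splits _
  have hcard : Multiset.card (LinearMap.charpoly A).roots = d := by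
    rw [← hsplit.natDegree_eq_card_roots, LinearMap.charpoly_natDegree]
  have hprod : LinearMap.charpoly A
      = ((LinearMap.charpoly A).roots.map (fun μ => X - C μ)).prod := by
    have h := hsplit.eq_prod_roots
    rw [(LinearMap.charpoly_monic A).leadingCoeff, C_1, one_mul] at h
    exact h
  have hkey : LinearMap.charpoly (k • A)
      = (((LinearMap.charpoly A).roots.map (fun μ => k * μ)).map (fun μ => X - C μ)).prod := by
    apply Polynomial.funext
    intro t
    rw [LinearMap.eval_charpoly, Polynomial.eval_multiset_prod]
    have h1 : (algebraMap ℂ (Module.End ℂ V) t - k • A)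
        = k • (algebraMap ℂ (Module.End ℂ V) (k⁻¹ * t) - A) := by
      rw [smul_sub]
      congr 1
      rw [Algebra.algebraMap_eq_smul_one, Algebra.algebraMap_eq_smul_one, smul_smul,
        mul_inv_cancel_left₀ hk]
    rw [h1, LinearMap.det_smul, ← LinearMap.eval_charpoly, ← hd]
    conv_lhs => rw [hprod]
    rw [Polynomial.eval_multiset_prod, Multiset.map_map, Multiset.map_map, Multiset.map_map,
      ← hcard]
    generalize (LinearMap.charpoly A).roots = s
    induction s using Multiset.induction_on with
    | empty => simp
    | cons a s ih =>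
      simp only [Multiset.card_cons, Multiset.map_cons, Multiset.prod_cons, Function.comp_apply,
        Polynomial.eval_sub, Polynomial.eval_X, Polynomial.eval_C, pow_succ] at ih ⊢
      have : t - k * a = k * (k⁻¹ * t - a) := by
        rw [mul_sub, mul_inv_cancel_left₀ hk]
      rw [this, ← ih]
      ring
  rw [hkey, Polynomial.roots_multiset_prod_X_sub_C]

/-- multiplying an invertible endomorphism by a nonzero scalar -/
theorem en_smul (A : Module.End ℂ V) (hA : IsUnit A) (k : ℂ) (hk : k ≠ 0) :
    en (k • A) = en A + 2 * Real.log ‖k‖ * Real.log ‖LinearMap.det A‖ +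
      (Module.finrank ℂ V : ℝ) * (Real.log ‖k‖) ^ 2 := by
  have hsplit : (LinearMap.charpoly A).Splits := IsAlgClosed.splits _
  have hcard : Multiset.card (LinearMap.charpoly A).roots = Module.finrank ℂ V := by
    rw [← hsplit.natDegree_eq_card_roots, LinearMap.charpoly_natDegree]
  have hdet : LinearMap.det A = (LinearMap.charpoly A).roots.prod :=
    Module.End.det_eq_prod_roots_charpoly_of_splits hsplit
  have hdet0 : LinearMap.det A ≠ 0 := (LinearMap.isUnit_det A hA).ne_zero
  have hne : ∀ μ ∈ (LinearMap.charpoly A).roots, μ ≠ 0 := by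
    intro μ hμ h0
    apply hdet0
    rw [hdet]
    rw [h0] at hμ
    exact Multiset.prod_eq_zero hμ
  unfold en
  rw [roots_smul A k hk, hdet, ← hcard, Multiset.map_map]
  generalize (LinearMap.charpoly A).roots = s at hne
  induction s using Multiset.induction_on with
  | empty => simp
  | cons a s ih =>
    have ha : a ≠ 0 := hne a (Multiset.mem_cons_self a s)
    have hs : ∀ μ ∈ s, μ ≠ 0 := fun μ hμ => hne μ (Multiset.mem_cons_of_mem hμ)
    have hp : s.prod ≠ 0 := by
      intro h0
      exact hs 0 (Multiset.prod_eq_zero_iff.mp h0) rfl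
    have ih' := ih hs
    simp only [Multiset.map_cons, Multiset.sum_cons, Multiset.card_cons, Multiset.prod_cons,
      Function.comp_apply] at ih' ⊢
    rw [ih', norm_mul k a, norm_mul a s.prod,
      Real.log_mul (norm_ne_zero_iff.mpr hk) (norm_ne_zero_iff.mpr ha),
      Real.log_mul (norm_ne_zero_iff.mpr ha) (norm_ne_zero_iff.mpr hp)]
    push_cast
    ring

end AFn
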