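import Mathlib
import Pool.Agent.AFn.Defs

set_option autoImplicit false

namespace AFn

universe v

variable {V : Type v} [AddCommGroup V] [Module ℂ V] [FiniteDimensional ℂ V]

theorem en_nonneg (A : Module.End ℂ V) : 0 ≤ en A := by
  unfold en
  refine Multiset.sum_nonneg ?_
  intro x hx
  obtain ⟨μ, _, rfl⟩ := Multiset.mem_map.1 hx
  positivity

theorem en_conj (P Q A : Module.End ℂ V) (h1 : P * Q = 1) (h2 : Q * P = 1) :
    en (P * A * Q) = en A := by
  have e1 : P.comp Q = LinearMap.id := h1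
  have e2 : Q.comp P = LinearMap.id := h2
  have h3 : (LinearEquiv.ofLinearMap P Q e1 e2).conj A = P * A * Q := by
    ext x
    simp [LinearEquiv.conj_apply]
  unfold en
  rw [← h3, LinearEquiv.charpoly_conj]

theorem en_zero_imp (A : Module.End ℂ V) (h : en A = 0) :
    ∀ μ ∈ A.charpoly.roots, μ ≠ 0 → ‖μ‖ = 1 := by
  intro μ hμ h0
  unfold en at h
  have h1 : (Real.log ‖μ‖) ^ 2 ≤
      (A.charpoly.roots.map (fun μ => (Real.log ‖μ‖) ^ 2)).sum := by
    refine Multiset.single_le_sum ?_ _ (Multiset.mem_map_of_mem _ hμ)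
    intro x hx
    obtain ⟨ν, _, rfl⟩ := Multiset.mem_map.1 hx
    positivity
  rw [h] at h1
  have h2 : Real.log ‖μ‖ = 0 := by
    have := sq_nonneg (Real.log ‖μ‖)
    exact pow_eq_zero_iff (two_ne_zero) |>.1 (le_antisymm h1 this)
  have h3 : 0 < ‖μ‖ := norm_pos_iff.2 h0
  exact Real.eq_one_of_pos_of_log_eq_zero h3 h2

open Module.Basis in
/-- the characteristic polynomial is multiplicative in an invariant subspace -/
theorem charpoly_sub_quot (A : Module.End ℂ V) (W : Submodule ℂ V)
    (AW : Module.End ℂ W) (AQ : Module.End ℂ (V ⧸ W)) (h1 : ∀ x : W, (AW x : V) = A x)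
    (h2 : ∀ x : V, AQ (Submodule.Quotient.mk x) = Submodule.Quotient.mk (A x)) :
    A.charpoly = AW.charpoly * AQ.charpoly := by
  classical
  have he : W ≤ W.comap A := by
    intro x hx
    rw [Submodule.mem_comap]
    rw [← h1 ⟨x, hx⟩]
    exact (AW ⟨x, hx⟩).2
  have eW : AW = A.restrict he := by
    ext x
    rw [h1 x]
    rfl
  have eQ : AQ = W.mapQ W A he := by
    apply LinearMap.ext
    intro y
    obtain ⟨x, rfl⟩ := Submodule.Quotient.mk_surjective W y
    rw [h2 x]
    rfl
  let m := Module.Free.ChooseBasisIndex ℂ W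
  let bW : Module.Basis m ℂ W := Module.Free.chooseBasis ℂ W
  let n := Module.Free.ChooseBasisIndex ℂ (V ⧸ W)
  let bQ : Module.Basis n ℂ (V ⧸ W) := Module.Free.chooseBasis ℂ (V ⧸ W)
  let b := sumQuot bW bQ
  let A1 : Matrix m m ℂ := LinearMap.toMatrix bW bW (A.restrict he)
  let B : Matrix m n ℂ := Matrix.of fun i l ↦
    ((sumQuot bW bQ).repr (A ((sumQuot bW bQ) (Sum.inr l)))) (Sum.inl i)
  let D : Matrix n n ℂ := LinearMap.toMatrix bQ bQ (W.mapQ W A he)
  suffices LinearMap.toMatrix b b A = Matrix.fromBlocks A1 B 0 D by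
    rw [← LinearMap.charpoly_toMatrix A b, this, eW, eQ, ← LinearMap.charpoly_toMatrix _ bW,
      ← LinearMap.charpoly_toMatrix _ bQ, Matrix.charpoly_fromBlocks_zero₂₁]
  ext u v
  cases u with
  | inl i =>
    cases v with
    | inl k =>
      simp only [b, sumQuot_inl, Matrix.fromBlocks_apply₁₁, A1, LinearMap.toMatrix_apply]
      apply sumQuot_repr_inl_of_mem
    | inr l => simp [b, LinearMap.toMatrix_apply, Matrix.fromBlocks_apply₁₂, B]
  | inr j =>
    cases v with
    | inl k =>
      suffices W.mkQ (A (bW k)) = 0 by simp [LinearMap.toMatrix_apply, b, this]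
      rw [← LinearMap.mem_ker, Submodule.ker_mkQ]
      exact he (Submodule.coe_mem (bW k))
    | inr l =>
      simp only [LinearMap.toMatrix_apply, sumQuot_repr_inr,
        Matrix.fromBlocks_apply₂₂, b, D]
      rw [← sumQuot_inr bW bQ l, W.mapQ_apply]
      simp

theorem en_sub_quot (A : Module.End ℂ V) (W : Submodule ℂ V)
    (AW : Module.End ℂ W) (AQ : Module.End ℂ (V ⧸ W)) (h1 : ∀ x : W, (AW x : V) = A x)
    (h2 : ∀ x : V, AQ (Submodule.Quotient.mk x) = Submodule.Quotient.mk (A x)) :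
    en A = en AW + en AQ := by
  unfold en
  rw [charpoly_sub_quot A W AW AQ h1 h2, Polynomial.roots_mul, Multiset.map_add,
    Multiset.sum_add]
  exact mul_ne_zero (LinearMap.charpoly_monic _).ne_zero (LinearMap.charpoly_monic _).ne_zero

end AFn
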