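import Mathlib
import Pool.Agent.AFn.Defs
import Pool.Agent.AFn.Energy
import Pool.Agent.AFn.EnSmul

set_option autoImplicit false

namespace AFn

universe v

private theorem en_of_subsingleton {V : Type v} [AddCommGroup V] [Module ℂ V]
    [FiniteDimensional ℂ V] (hV : Subsingleton V) (A : Module.End ℂ V) : en A = 0 := by
  have h0 : Module.finrank ℂ V = 0 := Module.finrank_zero_of_subsingleton
  have h1 : A.charpoly.natDegree = 0 := by rw [LinearMap.charpoly_natDegree, h0]
  have h2 : A.charpoly.roots = 0 := by
    rw [← Multiset.card_eq_zero]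
    have := Polynomial.card_roots' A.charpoly
    omega
  unfold en
  rw [h2]
  simp

private theorem en_one {V : Type v} [AddCommGroup V] [Module ℂ V]
    [FiniteDimensional ℂ V] : en (1 : Module.End ℂ V) = 0 := by
  unfold en
  refine Multiset.sum_eq_zero ?_
  intro x hx
  obtain ⟨μ, hμ, rfl⟩ := Multiset.mem_map.1 hx
  have h1 : Module.End.HasEigenvalue (1 : Module.End ℂ V) μ := by
    rw [Module.End.hasEigenvalue_iff_isRoot_charpoly]
    exact Polynomial.isRoot_of_mem_roots hμ
  obtain ⟨x, hx⟩ := h1.exists_hasEigenvector
  have h2 : x = μ • x := by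
    have := hx.apply_eq_smul
    simpa using this
  have h3 : (1 - μ) • x = 0 := by rw [sub_smul, one_smul, ← h2, sub_self]
  have h4 : 1 - μ = 0 := (smul_eq_zero.1 h3).resolve_right hx.2
  have h5 : μ = 1 := (sub_eq_zero.1 h4).symm
  rw [h5]
  simp

/-- the case where `C` is a scalar -/
private theorem en_tri_scalar {V : Type v} [AddCommGroup V] [Module ℂ V]
    [FiniteDimensional ℂ V] (A B : Module.End ℂ V) (hA : IsUnit A) (hB : IsUnit B) (k : ℂ)
    (hk : k ≠ 0) :
    en (A * B * (k • 1)) + en A + en B + en (k • (1 : Module.End ℂ V)) =
      en (A * B) + en (B * (k • 1)) + en (A * (k • 1)) := by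
  have e1 : A * B * (k • 1) = k • (A * B) := by rw [mul_smul_comm, mul_one]
  have e2 : B * (k • (1 : Module.End ℂ V)) = k • B := by rw [mul_smul_comm, mul_one]
  have e3 : A * (k • (1 : Module.End ℂ V)) = k • A := by rw [mul_smul_comm, mul_one]
  have dA : LinearMap.det A ≠ 0 := (LinearMap.isUnit_det A hA).ne_zero
  have dB : LinearMap.det B ≠ 0 := (LinearMap.isUnit_det B hB).ne_zero
  rw [e1, e2, e3, en_smul (A * B) (hA.mul hB) k hk, en_smul A hA k hk, en_smul B hB k hk,
    en_smul (1 : Module.End ℂ V) isUnit_one k hk, en_one, map_mul, norm_mul,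
    Real.log_mul (norm_ne_zero_iff.2 dA) (norm_ne_zero_iff.2 dB), map_one, norm_one,
    Real.log_one]
  ring

private theorem en_tri_aux (n : ℕ) : ∀ (V : Type v) [AddCommGroup V] [Module ℂ V]
    [FiniteDimensional ℂ V], Module.finrank ℂ V = n → ∀ (A B C : Module.End ℂ V),
    IsUnit A → IsUnit B → IsUnit C → A * C = C * A → B * C = C * B →
    en (A * B * C) + en A + en B + en C = en (A * B) + en (B * C) + en (A * C) := by
  induction n using Nat.strong_induction_on with
  | _ n ih =>
    intro V _ _ _ hn A B C hA hB hC h1 h2
    rcases subsingleton_or_nontrivial V with hV | hV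
    · simp [en_of_subsingleton hV]
    · obtain ⟨k, hk⟩ := Module.End.exists_eigenvalue C
      have hCinj : Function.Injective C := ((Module.End.isUnit_iff C).1 hC).1
      have hAinj : Function.Injective A := ((Module.End.isUnit_iff A).1 hA).1
      have hBinj : Function.Injective B := ((Module.End.isUnit_iff B).1 hB).1
      have hk0 : k ≠ 0 := by
        rintro rfl
        obtain ⟨x, hx⟩ := hk.exists_hasEigenvector
        have h3 := hx.apply_eq_smul
        rw [zero_smul] at h3
        exact hx.2 (hCinj (by rw [h3, map_zero]))
      set W : Submodule ℂ V := Module.End.eigenspace C k with hW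
      have hWC : ∀ x : V, x ∈ W ↔ C x = k • x := fun x => Module.End.mem_eigenspace_iff
      have hst : ∀ T : Module.End ℂ V, T * C = C * T → W ≤ W.comap T := by
        intro T hT x hx
        rw [Submodule.mem_comap, hWC]
        have h3 : C (T x) = T (C x) := by
          rw [← Module.End.mul_apply, ← hT, Module.End.mul_apply]
        rw [h3, (hWC x).1 hx, map_smul]
      have sA := hst A h1
      have sB := hst B h2
      have sC := hst C rfl
      -- the restrictions and the quotients
      have hWne : W ≠ ⊥ := by
        have := Module.End.hasEigenvalue_iff.1 hk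
        exact this
      have hlt : Module.finrank ℂ (V ⧸ W) < n := by
        have h3 := Submodule.finrank_quotient_add_finrank W
        have h4 : 0 < Module.finrank ℂ W := by
          rw [Module.finrank_pos_iff]
          exact (Submodule.nontrivial_iff_ne_bot).2 hWne
        omega
      have unitW : ∀ T : Module.End ℂ V, ∀ sT : W ≤ W.comap T, IsUnit T →
          IsUnit (T.restrict (p := W) (q := W) (fun x hx => sT hx)) := by
        intro T sT hT
        rw [Module.End.isUnit_iff]
        have hinj : Function.Injective
            (T.restrict (p := W) (q := W) (fun x hx => sT hx)) := by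
          intro x y hxy
          have h3 : T x = T y := congrArg Subtype.val hxy
          exact Subtype.ext (((Module.End.isUnit_iff T).1 hT).1 h3)
        exact ⟨hinj, LinearMap.injective_iff_surjective.1 hinj⟩
      have unitQ : ∀ T : Module.End ℂ V, ∀ sT : W ≤ W.comap T, IsUnit T →
          IsUnit (W.mapQ W T sT) := by
        intro T sT hT
        rw [Module.End.isUnit_iff]
        have hsur : Function.Surjective (W.mapQ W T sT) := by
          intro y
          obtain ⟨x, rfl⟩ := Submodule.Quotient.mk_surjective W y
          obtain ⟨z, rfl⟩ := ((Module.End.isUnit_iff T).1 hT).2 x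
          exact ⟨Submodule.Quotient.mk z, rfl⟩
        exact ⟨LinearMap.injective_iff_surjective.2 hsur, hsur⟩
      set AW : Module.End ℂ W := A.restrict (p := W) (q := W) (fun x hx => sA hx) with hAW
      set BW : Module.End ℂ W := B.restrict (p := W) (q := W) (fun x hx => sB hx) with hBW
      set AQ : Module.End ℂ (V ⧸ W) := W.mapQ W A sA with hAQ
      set BQ : Module.End ℂ (V ⧸ W) := W.mapQ W B sB with hBQ
      set CQ : Module.End ℂ (V ⧸ W) := W.mapQ W C sC with hCQ
      have aW : ∀ x : W, (AW x : V) = A x := fun x => rfl
      have bW : ∀ x : W, (BW x : V) = B x := fun x => rfl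
      have cW : ∀ x : W, (((k • (1 : Module.End ℂ W)) x : W) : V) = C x := by
        intro x
        rw [(hWC x).1 x.2]
        rfl
      have aQ : ∀ x : V, AQ (Submodule.Quotient.mk x) = Submodule.Quotient.mk (A x) :=
        fun x => rfl
      have bQ : ∀ x : V, BQ (Submodule.Quotient.mk x) = Submodule.Quotient.mk (B x) :=
        fun x => rfl
      have cQ : ∀ x : V, CQ (Submodule.Quotient.mk x) = Submodule.Quotient.mk (C x) :=
        fun x => rfl
      have e7 : en (A * B * C) = en (AW * BW * (k • 1)) + en (AQ * BQ * CQ) := by
        refine en_sub_quot _ W _ _ (fun x => ?_) (fun x => ?_)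
        · simp only [Module.End.mul_apply]
          rw [aW, bW, cW]
        · simp only [Module.End.mul_apply]
          rw [cQ, bQ, aQ]
      have e6 : en (A * B) = en (AW * BW) + en (AQ * BQ) := by
        refine en_sub_quot _ W _ _ (fun x => ?_) (fun x => ?_)
        · simp only [Module.End.mul_apply]
          rw [aW, bW]
        · simp only [Module.End.mul_apply]
          rw [bQ, aQ]
      have e5 : en (B * C) = en (BW * (k • 1)) + en (BQ * CQ) := by
        refine en_sub_quot _ W _ _ (fun x => ?_) (fun x => ?_)
        · simp only [Module.End.mul_apply]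
          rw [bW, cW]
        · simp only [Module.End.mul_apply]
          rw [cQ, bQ]
      have e4 : en (A * C) = en (AW * (k • 1)) + en (AQ * CQ) := by
        refine en_sub_quot _ W _ _ (fun x => ?_) (fun x => ?_)
        · simp only [Module.End.mul_apply]
          rw [aW, cW]
        · simp only [Module.End.mul_apply]
          rw [cQ, aQ]
      have e3 : en A = en AW + en AQ := en_sub_quot A W AW AQ aW aQ
      have e2 : en B = en BW + en BQ := en_sub_quot B W BW BQ bW bQ
      have e1 : en C = en (k • (1 : Module.End ℂ W)) + en CQ := en_sub_quot C W _ CQ cW cQ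
      have iQ := ih (Module.finrank ℂ (V ⧸ W)) hlt (V ⧸ W) rfl AQ BQ CQ
        (unitQ A sA hA) (unitQ B sB hB) (unitQ C sC hC)
        (by
          apply LinearMap.ext
          intro y
          obtain ⟨x, rfl⟩ := Submodule.Quotient.mk_surjective W y
          simp only [Module.End.mul_apply]
          rw [cQ, aQ, aQ, cQ]
          congr 1
          exact LinearMap.congr_fun h1 x)
        (by
          apply LinearMap.ext
          intro y
          obtain ⟨x, rfl⟩ := Submodule.Quotient.mk_surjective W y
          simp only [Module.End.mul_apply]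
          rw [cQ, bQ, bQ, cQ]
          congr 1
          exact LinearMap.congr_fun h2 x)
      have iW := en_tri_scalar AW BW (unitW A sA hA) (unitW B sB hB) k hk0
      rw [e7, e6, e5, e4, e3, e2, e1]
      linarith

/-- the bilinearity of the energy form: `C` commutes with the invertible `A` and `B` -/
theorem en_tri {V : Type v} [AddCommGroup V] [Module ℂ V] [FiniteDimensional ℂ V]
    (A B C : Module.End ℂ V) (hA : IsUnit A) (hB : IsUnit B)
    (hC : IsUnit C) (h1 : A * C = C * A) (h2 : B * C = C * B) :
    en (A * B * C) + en A + en B + en C = en (A * B) + en (B * C) + en (A * C) :=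
  en_tri_aux (Module.finrank ℂ V) V rfl A B C hA hB hC h1 h2

end AFn
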