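import Mathlib
import Pool.Agent.AFn.Defs
import Pool.Agent.AFn.Basic
import Pool.Agent.AFn.RepLib
import Pool.Agent.AFn.Energy
import Pool.Agent.AFn.EnSmul
import Pool.Agent.AFn.EnTri

set_option autoImplicit false

namespace AFn

universe u v

variable {α : Type u} [DecidableEq α] {V : Type v} [AddCommGroup V] [Module ℂ V]
  [FiniteDimensional ℂ V]

/-- `k ∈ H` acts invertibly -/
private theorem isUnit_of {G : Type u} [Group G] {H : Subgroup G} {σ : G → Module.End ℂ V}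
    (hσ : IsRepOn H σ) {k : G} (hk : k ∈ H) : IsUnit (σ k) :=
  ⟨⟨σ k, σ k⁻¹, hσ.mul_inv hk, hσ.inv_mul hk⟩, rfl⟩

private theorem en_coset {G : Type u} [Group G] {H : Subgroup G} (hHn : H.Normal)
    {σ : G → Module.End ℂ V} (hσ : IsRepOn H σ) {h : G} (hh : h ∈ H) {g g' : G}
    (hg : (g : G ⧸ H) = (g' : G ⧸ H)) :
    en (σ (g * h * g⁻¹)) = en (σ (g' * h * g'⁻¹)) := by
  have h1 : g⁻¹ * g' ∈ H := QuotientGroup.eq.1 hg
  have h2 : g' * g⁻¹ ∈ H := hHn.mem_comm h1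
  have h3 : g * h * g⁻¹ ∈ H := hHn.conj_mem h hh g
  have h4 : g' * h * g'⁻¹ = (g' * g⁻¹) * (g * h * g⁻¹) * (g' * g⁻¹)⁻¹ := by group
  rw [h4, hσ.conj h2 h3]
  exact (en_conj _ _ _ (hσ.mul_inv h2) (hσ.inv_mul h2)).symm

/-- the energy, summed over the conjugates -/
private noncomputable def EE {G : Type u} [Group G] (H : Subgroup G) [Fintype (G ⧸ H)]
    (σ : G → Module.End ℂ V) (h : G) : ℝ :=
  ∑ q : G ⧸ H, en (σ (q.out * h * (q.out)⁻¹))

private theorem EE_conj {G : Type u} [Group G] {H : Subgroup G} [Fintype (G ⧸ H)]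
    (hHn : H.Normal) {σ : G → Module.End ℂ V} (hσ : IsRepOn H σ) {h : G} (hh : h ∈ H) (t : G) :
    EE H σ (t * h * t⁻¹) = EE H σ h := by
  unfold EE
  refine Fintype.sum_equiv (Equiv.mulRight (t : G ⧸ H)) _ _ fun q => ?_
  have h1 : q.out * (t * h * t⁻¹) * (q.out)⁻¹ = (q.out * t) * h * (q.out * t)⁻¹ := by group
  rw [h1]
  refine en_coset hHn hσ hh ?_
  rw [Equiv.coe_mulRight, QuotientGroup.out_eq', QuotientGroup.mk_mul, QuotientGroup.out_eq']

private theorem EE_zero {G : Type u} [Group G] {H : Subgroup G} [Fintype (G ⧸ H)]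
    (hHn : H.Normal) {σ : G → Module.End ℂ V} (hσ : IsRepOn H σ) {h : G} (hh : h ∈ H)
    (h0 : EE H σ h = 0) (φ : G) : en (σ (φ * h * φ⁻¹)) = 0 := by
  unfold EE at h0
  rw [Finset.sum_eq_zero_iff_of_nonneg fun q _ => en_nonneg _] at h0
  have h1 := h0 (φ : G ⧸ H) (Finset.mem_univ _)
  rw [← h1]
  refine en_coset hHn hσ hh ?_
  rw [QuotientGroup.out_eq']

/-- commuting elements and `en_tri` -/
private theorem tri_conj {G : Type u} [Group G] {H : Subgroup G} (hHn : H.Normal)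
    {σ : G → Module.End ℂ V} (hσ : IsRepOn H σ) {A B C : G} (hA : A ∈ H) (hB : B ∈ H)
    (hC : C ∈ H) (hAC : A * C = C * A) (hBC : B * C = C * B) (g : G) :
    en (σ (g * (A * B * C) * g⁻¹)) + en (σ (g * A * g⁻¹)) + en (σ (g * B * g⁻¹)) +
      en (σ (g * C * g⁻¹)) =
    en (σ (g * (A * B) * g⁻¹)) + en (σ (g * (B * C) * g⁻¹)) + en (σ (g * (A * C) * g⁻¹)) := by
  have kA : g * A * g⁻¹ ∈ H := hHn.conj_mem A hA g
  have kB : g * B * g⁻¹ ∈ H := hHn.conj_mem B hB g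
  have kC : g * C * g⁻¹ ∈ H := hHn.conj_mem C hC g
  have m2 : ∀ X Y : G, X ∈ H → Y ∈ H →
      σ (g * (X * Y) * g⁻¹) = σ (g * X * g⁻¹) * σ (g * Y * g⁻¹) := by
    intro X Y hX hY
    rw [← hσ.mul _ (hHn.conj_mem X hX g) _ (hHn.conj_mem Y hY g)]
    congr 1
    group
  rw [m2 (A * B) C (H.mul_mem hA hB) hC, m2 A B hA hB, m2 B C hB hC, m2 A C hA hC]
  refine en_tri _ _ _ (isUnit_of hσ kA) (isUnit_of hσ kB) (isUnit_of hσ kC) ?_ ?_
  · rw [← m2 A C hA hC, hAC, m2 C A hC hA]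
  · rw [← m2 B C hB hC, hBC, m2 C B hC hB]

private theorem EE_tri {G : Type u} [Group G] {H : Subgroup G} [Fintype (G ⧸ H)]
    (hHn : H.Normal) {σ : G → Module.End ℂ V} (hσ : IsRepOn H σ) {A B C : G} (hA : A ∈ H)
    (hB : B ∈ H) (hC : C ∈ H) (hAC : A * C = C * A) (hBC : B * C = C * B) :
    EE H σ (A * B * C) + EE H σ A + EE H σ B + EE H σ C =
      EE H σ (A * B) + EE H σ (B * C) + EE H σ (A * C) := by
  unfold EE
  rw [← Finset.sum_add_distrib, ← Finset.sum_add_distrib, ← Finset.sum_add_distrib,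
    ← Finset.sum_add_distrib, ← Finset.sum_add_distrib]
  exact Finset.sum_congr rfl fun q _ => tri_conj hHn hσ hA hB hC hAC hBC q.out

/-- three letters outside the support -/
theorem gram3 (H : Subgroup (MulAut (FreeGroup α))) (hHn : H.Normal) (hHf : H.FiniteIndex)
    (σ : MulAut (FreeGroup α) → Module.End ℂ V) (hσ : IsRepOn H σ) (S : Finset α)
    (a b c : α) (hab : a ≠ b) (hac : a ≠ c) (hbc : b ≠ c) (ha : a ∉ S) (hb : b ∉ S)
    (hc : c ∉ S) (w : FreeGroup α) (hw : w ∈ fsub S) (hR : ∀ x, R x w ∈ H)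
    (φ : MulAut (FreeGroup α)) : en (σ (φ * R a w * φ⁻¹)) = 0 := by
  have := hHf
  have : Fintype (MulAut (FreeGroup α) ⧸ H) := Fintype.ofFinite _
  have cab := R_comm hab ha hb hw hw
  have cac := R_comm hac ha hc hw hw
  have cbc := R_comm hbc hb hc hw hw
  have e1 : EE H σ (R b w) = EE H σ (R a w) := by
    obtain ⟨t, ht⟩ := exists_swap (S := S) hab ha hb
    rw [← ht w hw, EE_conj hHn hσ (hR a)]
  have e2 : EE H σ (R c w) = EE H σ (R a w) := by
    obtain ⟨t, ht⟩ := exists_swap (S := S) hac ha hc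
    rw [← ht w hw, EE_conj hHn hσ (hR a)]
  have e3 : EE H σ (R a w * R b w) = EE H σ (R a w) := by
    obtain ⟨t, ht⟩ := exists_t2 (S := S) hab ha hb
    rw [← ht w hw, EE_conj hHn hσ (hR a)]
  have e4 : EE H σ (R a w * R c w) = EE H σ (R a w) := by
    obtain ⟨t, ht⟩ := exists_t2 (S := S) hac ha hc
    rw [← ht w hw, EE_conj hHn hσ (hR a)]
  have e5 : EE H σ (R b w * R c w) = EE H σ (R b w) := by
    obtain ⟨t, ht⟩ := exists_t2 (S := S) hbc hb hc
    rw [← ht w hw, EE_conj hHn hσ (hR b)]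
  have e6 : EE H σ (R a w * R b w * R c w) = EE H σ (R a w) := by
    obtain ⟨t, ht⟩ := exists_t3 (S := S) hab hac hbc ha hb hc
    rw [← ht w hw, EE_conj hHn hσ (hR a)]
  have key := EE_tri hHn hσ (hR a) (hR b) (hR c) cac cbc
  rw [e6, e3, e4, e5, e1, e2] at key
  exact EE_zero hHn hσ (hR a) (by linarith) φ

/-- two letters outside the support, elements of the commutator subgroup -/
theorem gram2 (H : Subgroup (MulAut (FreeGroup α))) (hHn : H.Normal) (hHf : H.FiniteIndex)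
    (σ : MulAut (FreeGroup α) → Module.End ℂ V) (hσ : IsRepOn H σ) (S : Finset α)
    (a b : α) (hab : a ≠ b) (ha : a ∉ S) (hb : b ∉ S) (K : Subgroup (FreeGroup α))
    (hR : ∀ x, ∀ w ∈ K, R x w ∈ H) (w : FreeGroup α)
    (hw : w ∈ ⁅K ⊓ fsub S, K ⊓ fsub S⁆) (φ : MulAut (FreeGroup α)) :
    en (σ (φ * R a w * φ⁻¹)) = 0 := by
  have := hHf
  have : Fintype (MulAut (FreeGroup α) ⧸ H) := Fintype.ofFinite _
  have hwN : w ∈ K ⊓ fsub S := by
    have h1 : ⁅K ⊓ fsub S, K ⊓ fsub S⁆ ≤ K ⊓ fsub S := by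
      rw [Subgroup.commutator_le]
      intro x hx y hy
      rw [commutatorElement_def]
      exact (K ⊓ fsub S).mul_mem ((K ⊓ fsub S).mul_mem ((K ⊓ fsub S).mul_mem hx hy)
        ((K ⊓ fsub S).inv_mem hx)) ((K ⊓ fsub S).inv_mem hy)
    exact h1 hw
  have e1 : EE H σ (R b w) = EE H σ (R a w) := by
    obtain ⟨t, ht⟩ := exists_swap (S := S) hab ha hb
    rw [← ht w hwN.2, EE_conj hHn hσ (hR a w hwN.1)]
  have e2 : EE H σ (R a w * R b w) = EE H σ (R a w) := by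
    obtain ⟨t, ht⟩ := exists_t2 (S := S) hab ha hb
    rw [← ht w hwN.2, EE_conj hHn hσ (hR a w hwN.1)]
  have e3 : EE H σ (R a w * R b w) = EE H σ (R a w) + EE H σ (R b w) := by
    unfold EE
    rw [← Finset.sum_add_distrib]
    refine Finset.sum_congr rfl fun q _ => ?_
    have hL : ∀ x ∈ K ⊓ fsub S, ∀ y ∈ K ⊓ fsub S,
        en (σ (q.out * (R a (x * y) * R b w) * (q.out)⁻¹)) -
            en (σ (q.out * R a (x * y) * (q.out)⁻¹)) - en (σ (q.out * R b w * (q.out)⁻¹)) =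
          (en (σ (q.out * (R a x * R b w) * (q.out)⁻¹)) -
            en (σ (q.out * R a x * (q.out)⁻¹)) - en (σ (q.out * R b w * (q.out)⁻¹))) +
          (en (σ (q.out * (R a y * R b w) * (q.out)⁻¹)) -
            en (σ (q.out * R a y * (q.out)⁻¹)) - en (σ (q.out * R b w * (q.out)⁻¹))) := by
      intro x hx y hy
      have h1 := tri_conj hHn hσ (hR a x hx.1) (hR a y hy.1) (hR b w hwN.1)
        (R_comm hab ha hb hx.2 hwN.2) (R_comm hab ha hb hy.2 hwN.2) q.out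
      rw [map_mul]
      linarith
    set L : FreeGroup α → ℝ := fun x => en (σ (q.out * (R a x * R b w) * (q.out)⁻¹)) -
      en (σ (q.out * R a x * (q.out)⁻¹)) - en (σ (q.out * R b w * (q.out)⁻¹)) with hLdef
    have hL' : ∀ x ∈ K ⊓ fsub S, ∀ y ∈ K ⊓ fsub S, L (x * y) = L x + L y := hL
    have L1 : L 1 = 0 := by
      have := hL' 1 (K ⊓ fsub S).one_mem 1 (K ⊓ fsub S).one_mem
      rw [mul_one] at this
      linarith
    have Li : ∀ x ∈ K ⊓ fsub S, L x⁻¹ = - L x := by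
      intro x hx
      have := hL' x hx x⁻¹ ((K ⊓ fsub S).inv_mem hx)
      rw [mul_inv_cancel, L1] at this
      linarith
    let M : Subgroup (FreeGroup α) :=
      { carrier := {x | x ∈ K ⊓ fsub S ∧ L x = 0}
        one_mem' := ⟨(K ⊓ fsub S).one_mem, L1⟩
        mul_mem' := by
          rintro x y ⟨hx, hx0⟩ ⟨hy, hy0⟩
          exact ⟨(K ⊓ fsub S).mul_mem hx hy, by rw [hL' x hx y hy, hx0, hy0, add_zero]⟩
        inv_mem' := by
          rintro x ⟨hx, hx0⟩
          exact ⟨(K ⊓ fsub S).inv_mem hx, by rw [Li x hx, hx0, neg_zero]⟩ }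
    have hM : ⁅K ⊓ fsub S, K ⊓ fsub S⁆ ≤ M := by
      rw [Subgroup.commutator_le]
      intro x hx y hy
      have hxy := (K ⊓ fsub S).mul_mem hx hy
      have hxi := (K ⊓ fsub S).inv_mem hx
      have hyi := (K ⊓ fsub S).inv_mem hy
      have hxyx := (K ⊓ fsub S).mul_mem hxy hxi
      refine ⟨(K ⊓ fsub S).mul_mem hxyx hyi, ?_⟩
      rw [commutatorElement_def, hL' _ hxyx _ hyi, hL' _ hxy _ hxi, hL' x hx y hy, Li x hx,
        Li y hy]
      ring
    have h0 : L w = 0 := (hM hw).2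
    rw [hLdef] at h0
    simp only at h0
    linarith
  rw [e2, e1] at e3
  exact EE_zero hHn hσ (hR a w hwN.1) (by linarith) φ

end AFn
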