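import Mathlib
import Pool.Agent.AFn.Defs

set_option autoImplicit false

namespace AFn

universe u

theorem exists_H {G : Type u} [Group G] (Hin : Subgroup G) (hf : Hin.FiniteIndex) {m : ℕ}
    (ρ : Hin →* Matrix.GeneralLinearGroup (Fin m) ℤ) :
    ∃ H : Subgroup G, H.Normal ∧ H.FiniteIndex ∧ ∀ h ∈ H, ∃ hh : h ∈ Hin, ∀ i j,
      (3 : ℤ) ∣ ((ρ ⟨h, hh⟩ : Matrix (Fin m) (Fin m) ℤ) i j -
        (1 : Matrix (Fin m) (Fin m) ℤ) i j) := by
  haveI : NeZero (3 : ℕ) := ⟨by norm_num⟩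
  set q : Matrix.GeneralLinearGroup (Fin m) ℤ →* Matrix.GeneralLinearGroup (Fin m) (ZMod 3) :=
    Matrix.GeneralLinearGroup.map (Int.castRingHom (ZMod 3)) with hq
  set N : Subgroup Hin := (q.comp ρ).ker with hN
  haveI hNf : N.FiniteIndex := by
    rw [hN]
    exact Subgroup.finiteIndex_ker _
  set N' : Subgroup G := N.map Hin.subtype with hN'
  haveI hN'f : N'.FiniteIndex := by
    refine ⟨?_⟩
    have h1 : N'.index = N.index * Hin.index := by
      rw [hN', Subgroup.index_map_subtype]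
    rw [h1]
    exact mul_ne_zero hNf.index_ne_zero hf.index_ne_zero
  refine ⟨N'.normalCore, inferInstance, inferInstance, fun h hh => ?_⟩
  have h1 : h ∈ N' := Subgroup.normalCore_le _ hh
  rw [hN', Subgroup.mem_map] at h1
  obtain ⟨x, hx, rfl⟩ := h1
  refine ⟨x.2, fun i j => ?_⟩
  have h2 : q (ρ x) = 1 := by
    have := hx
    rw [hN, MonoidHom.mem_ker] at this
    exact this
  have h3 : ((ρ x : Matrix (Fin m) (Fin m) ℤ) i j : ZMod 3) =
      (((1 : Matrix (Fin m) (Fin m) ℤ) i j : ℤ) : ZMod 3) := by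
    have h4 : (q (ρ x) : Matrix (Fin m) (Fin m) (ZMod 3)) i j =
        (1 : Matrix (Fin m) (Fin m) (ZMod 3)) i j := by
      rw [h2]
      rfl
    have h5 : (q (ρ x) : Matrix (Fin m) (Fin m) (ZMod 3)) i j =
        ((ρ x : Matrix (Fin m) (Fin m) ℤ) i j : ZMod 3) := by
      rw [hq]
      rfl
    rw [← h5, h4, Matrix.one_apply, Matrix.one_apply]
    split_ifs <;> simp
  have h6 : ((((ρ x : Matrix (Fin m) (Fin m) ℤ) i j -
      (1 : Matrix (Fin m) (Fin m) ℤ) i j : ℤ)) : ZMod 3) = 0 := by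
    rw [Int.cast_sub, h3, sub_self]
  exact (ZMod.intCast_zmod_eq_zero_iff_dvd _ 3).1 h6

theorem exists_K {α : Type u} [DecidableEq α] [Finite α]
    (H : Subgroup (MulAut (FreeGroup α))) (hn : H.Normal) (hf : H.FiniteIndex)
    (L : Subgroup (FreeGroup α)) (hL : L.FiniteIndex) :
    ∃ K : Subgroup (FreeGroup α), Ctx H K ∧ K ≤ L := by
  haveI : Finite (MulAut (FreeGroup α) ⧸ H) := Subgroup.finite_quotient_of_finiteIndex
  haveI : Finite (FreeGroup α ⧸ L) := Subgroup.finite_quotient_of_finiteIndex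
  haveI : Finite (FreeGroup α →* (MulAut (FreeGroup α) ⧸ H) × Equiv.Perm (FreeGroup α ⧸ L)) :=
    Finite.of_equiv _ FreeGroup.lift
  set K : Subgroup (FreeGroup α) :=
    ⨅ f : FreeGroup α →* (MulAut (FreeGroup α) ⧸ H) × Equiv.Perm (FreeGroup α ⧸ L), f.ker with hK
  have hmem : ∀ w : FreeGroup α, w ∈ K ↔
      ∀ f : FreeGroup α →* (MulAut (FreeGroup α) ⧸ H) × Equiv.Perm (FreeGroup α ⧸ L), f w = 1 := by
    intro w
    rw [hK, Subgroup.mem_iInf]
    exact forall_congr' fun f => MonoidHom.mem_ker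
  refine ⟨K, ⟨hn, hf, ?_, ?_, ?_⟩, ?_⟩
  · intro φ w hw
    rw [hmem] at hw ⊢
    intro f
    exact hw (f.comp φ.toMonoidHom)
  · rw [hK]
    haveI : ∀ f : FreeGroup α →* (MulAut (FreeGroup α) ⧸ H) × Equiv.Perm (FreeGroup α ⧸ L),
        f.ker.FiniteIndex := fun f => Subgroup.finiteIndex_ker f
    exact Subgroup.finiteIndex_iInf this
  · intro a w hw
    rw [hmem] at hw
    have h1 := hw (MonoidHom.prod ((QuotientGroup.mk' H).comp (R a)) 1)
    have h2 : QuotientGroup.mk' H (R a w) = 1 := congrArg Prod.fst h1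
    rw [QuotientGroup.mk'_apply, QuotientGroup.eq_one_iff] at h2
    exact h2
  · intro w hw
    rw [hmem] at hw
    have h1 := hw (MonoidHom.prod 1 (MulAction.toPermHom (FreeGroup α) (FreeGroup α ⧸ L)))
    have h2 : MulAction.toPermHom (FreeGroup α) (FreeGroup α ⧸ L) w = 1 := congrArg Prod.snd h1
    have h3 : w • ((1 : FreeGroup α) : FreeGroup α ⧸ L) = ((1 : FreeGroup α) : FreeGroup α ⧸ L) := by
      have := Equiv.congr_fun h2 ((1 : FreeGroup α) : FreeGroup α ⧸ L)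
      simpa using this
    rw [MulAction.Quotient.smul_coe, smul_eq_mul, mul_one] at h3
    have h4 := QuotientGroup.eq.1 h3
    rw [mul_one] at h4
    exact (Subgroup.inv_mem_iff L).1 h4

open Classical in
/-- the complexification of an integral representation, extended by `1` outside its domain -/
noncomputable def rhoC {G : Type u} [Group G] (Hin : Subgroup G) {m : ℕ}
    (ρ : Hin →* Matrix.GeneralLinearGroup (Fin m) ℤ) (g : G) : Module.End ℂ (Fin m → ℂ) :=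
  if h : g ∈ Hin then
    Matrix.toLin' ((ρ ⟨g, h⟩ : Matrix (Fin m) (Fin m) ℤ).map (Int.cast : ℤ → ℂ))
  else 1

theorem rhoC_rep {G : Type u} [Group G] (Hin : Subgroup G) {m : ℕ}
    (ρ : Hin →* Matrix.GeneralLinearGroup (Fin m) ℤ) : IsRepOn Hin (rhoC Hin ρ) := by
  constructor
  · unfold rhoC
    rw [dif_pos Hin.one_mem]
    have h1 : ρ ⟨1, Hin.one_mem⟩ = 1 := map_one ρ
    rw [h1, Units.val_one, Matrix.map_one _ Int.cast_zero Int.cast_one, Matrix.toLin'_one]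
    rfl
  · intro g hg h hh
    unfold rhoC
    rw [dif_pos hg, dif_pos hh, dif_pos (Hin.mul_mem hg hh)]
    have h1 : ρ ⟨g * h, Hin.mul_mem hg hh⟩ = ρ ⟨g, hg⟩ * ρ ⟨h, hh⟩ := by
      rw [← map_mul]
      rfl
    have h2 : ((ρ ⟨g, hg⟩ : Matrix (Fin m) (Fin m) ℤ) * (ρ ⟨h, hh⟩ : Matrix (Fin m) (Fin m) ℤ)).map
        (Int.cast : ℤ → ℂ) = (ρ ⟨g, hg⟩ : Matrix (Fin m) (Fin m) ℤ).map (Int.cast : ℤ → ℂ) *
          (ρ ⟨h, hh⟩ : Matrix (Fin m) (Fin m) ℤ).map (Int.cast : ℤ → ℂ) :=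
      Matrix.map_mul (f := Int.castRingHom ℂ)
    rw [h1, Units.val_mul, h2, Matrix.toLin'_mul]
    rfl

theorem rhoC_eq_one {G : Type u} [Group G] (Hin : Subgroup G) {m : ℕ}
    (ρ : Hin →* Matrix.GeneralLinearGroup (Fin m) ℤ) (g : G) (hg : g ∈ Hin)
    (h : rhoC Hin ρ g = 1) : ρ ⟨g, hg⟩ = 1 := by
  unfold rhoC at h
  rw [dif_pos hg] at h
  have h1 : (ρ ⟨g, hg⟩ : Matrix (Fin m) (Fin m) ℤ).map (Int.cast : ℤ → ℂ) = 1 := by
    apply Matrix.toLin'.injective
    rw [h, Matrix.toLin'_one]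
    rfl
  apply Units.ext
  ext i j
  have h2 : (((ρ ⟨g, hg⟩ : Matrix (Fin m) (Fin m) ℤ) i j : ℤ) : ℂ) =
      (1 : Matrix (Fin m) (Fin m) ℂ) i j := by
    have := congrFun (congrFun h1 i) j
    rwa [Matrix.map_apply] at this
  rw [Units.val_one]
  rw [Matrix.one_apply] at h2 ⊢
  split_ifs at h2 ⊢ with hij
  · exact_mod_cast h2
  · exact_mod_cast h2

end AFn
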