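import Mathlib
import Pool.Agent.AFn.Defs
import Pool.Agent.AFn.RepLib
import Pool.Agent.AFn.Kolchin

set_option autoImplicit false

namespace AFn

universe u v

private lemma uc_ring1 {R : Type*} [Ring R] {a b : R} (h : a * b = 1) :
    b - 1 = (a - 1) * (-b) := by
  rw [mul_neg, sub_mul, h, one_mul]
  abel

private lemma uc_ring2 {R : Type*} [Ring R] (a b : R) :
    a * b - 1 = (a - 1) * b + (b - 1) := by
  rw [sub_mul, one_mul]
  abel

section

variable {G : Type u} [Group G]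

private lemma uc_comm_mem {Γ : Subgroup G} {g h : G} (hg : g ∈ Γ) (hh : h ∈ Γ) :
    g * h * g⁻¹ * h⁻¹ ∈ ⁅Γ, Γ⁆ := by
  have := Subgroup.commutator_mem_commutator hg hh
  rwa [commutatorElement_def] at this

private lemma uc_comm_le (Γ : Subgroup G) : ⁅Γ, Γ⁆ ≤ Γ := by
  rw [Subgroup.commutator_le]
  intro g hg h hh
  rw [commutatorElement_def]
  exact Γ.mul_mem (Γ.mul_mem (Γ.mul_mem hg hh) (Γ.inv_mem hg)) (Γ.inv_mem hh)

/-- subgroups between the commutator subgroup and `Γ` are normal in `Γ` -/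
private lemma uc_conj {Γ D : Subgroup G} (hD : ⁅Γ, Γ⁆ ≤ D) (hDΓ : D ≤ Γ) {g d : G}
    (hg : g ∈ Γ) (hd : d ∈ D) : g⁻¹ * d * g ∈ D := by
  have h1 : g⁻¹ * d * g = (g⁻¹ * d * (g⁻¹)⁻¹ * d⁻¹) * d := by group
  rw [h1]
  exact D.mul_mem (hD (uc_comm_mem (Γ.inv_mem hg) (hDΓ hd))) hd

variable {V : Type v} [AddCommGroup V] [Module ℂ V]

/-- the vectors fixed by a subgroup -/
private def ucFix (D : Subgroup G) (f : G → Module.End ℂ V) : Submodule ℂ V where
  carrier := {x | ∀ d ∈ D, f d x = x}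
  add_mem' := by
    intro x y hx hy d hd
    rw [map_add, hx d hd, hy d hd]
  zero_mem' := by
    intro d _
    exact map_zero _
  smul_mem' := by
    intro c x hx d hd
    rw [map_smul, hx d hd]

private lemma ucFix_mem {D : Subgroup G} {f : G → Module.End ℂ V} {x : V} :
    x ∈ ucFix D f ↔ ∀ d ∈ D, f d x = x := Iff.rfl

private lemma ucFix_stable {Γ D : Subgroup G} (hD : ⁅Γ, Γ⁆ ≤ D) (hDΓ : D ≤ Γ)
    {f : G → Module.End ℂ V} (hf : IsRepOn Γ f) :
    ∀ g ∈ Γ, ∀ x ∈ ucFix D f, f g x ∈ ucFix D f := by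
  intro g hg x hx d hd
  have h1 : f d (f g x) = f (d * g) x := by
    rw [hf.mul d (hDΓ hd) g hg]
    rfl
  have h2 : d * g = g * (g⁻¹ * d * g) := by group
  have h3 := uc_conj hD hDΓ hg hd
  rw [h1, h2, hf.mul g hg _ (hDΓ h3), Module.End.mul_apply, hx _ h3]

end

/-- if the commutator subgroup of `Γ` acts unipotently then it generates together with any set
of elements acting unipotently a group that acts unipotently -/
theorem unip_closure {G : Type u} [Group G] (Γ : Subgroup G) (X : Set G)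
    (hX : ∀ x ∈ X, x ∈ Γ) (n : ℕ) : ∀ (V : Type v) [AddCommGroup V] [Module ℂ V]
    [FiniteDimensional ℂ V] (_ : Module.finrank ℂ V = n) (f : G → Module.End ℂ V)
    (_ : IsRepOn Γ f) (_ : ∀ g ∈ ⁅Γ, Γ⁆, IsNilpotent (f g - 1))
    (_ : ∀ x ∈ X, IsNilpotent (f x - 1)),
    ∀ d ∈ Subgroup.closure X ⊔ ⁅Γ, Γ⁆, IsNilpotent (f d - 1) := by
  induction n using Nat.strong_induction_on with
  | _ n ih =>
    intro V _ _ _ hn f hf hc hx d hd
    set D := Subgroup.closure X ⊔ ⁅Γ, Γ⁆ with hDdef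
    have hDc : ⁅Γ, Γ⁆ ≤ D := le_sup_right
    have hcΓ := uc_comm_le Γ
    have hDΓ : D ≤ Γ := sup_le ((Subgroup.closure_le Γ).2 hX) hcΓ
    have hDeq : D = Subgroup.closure (X ∪ (⁅Γ, Γ⁆ : Subgroup G)) := by
      rw [Subgroup.closure_union, Subgroup.closure_eq]
    rcases Nat.eq_zero_or_pos n with h0 | h0
    · have hs : Subsingleton V := by
        rw [h0] at hn
        exact Module.finrank_zero_iff.mp hn
      have : f d - 1 = 0 := by
        ext x
        exact Subsingleton.elim _ _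
      rw [this]
      exact IsNilpotent.zero
    · have hnt : Nontrivial V := Module.nontrivial_of_finrank_pos (R := ℂ) (by omega)
      -- the fixed vectors of the commutator subgroup
      obtain ⟨x1, hx1, hx1f⟩ := kolchin (V := V) (f '' (⁅Γ, Γ⁆ : Subgroup G)) (by
        rintro _ ⟨s, hs, rfl⟩ _ ⟨t, ht, rfl⟩
        exact ⟨s * t, Subgroup.mul_mem _ hs ht, hf.mul s (hcΓ hs) t (hcΓ ht)⟩) (by
        rintro _ ⟨s, hs, rfl⟩
        exact hc s hs)
      set V1 := ucFix ⁅Γ, Γ⁆ f with hV1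
      have hV1s : ∀ g ∈ Γ, ∀ x ∈ V1, f g x ∈ V1 := ucFix_stable le_rfl hcΓ hf
      have hV1nt : Nontrivial V1 := by
        refine ⟨⟨⟨x1, ?_⟩, 0, ?_⟩⟩
        · exact fun c hcc => hx1f _ ⟨c, hcc, rfl⟩
        · intro h
          exact hx1 (congrArg Subtype.val h)
      obtain ⟨f1, hf1, hf1v⟩ := hf.exists_sub V1 hV1s
      have hcomm : ∀ g ∈ Γ, ∀ h ∈ Γ, Commute (f1 g) (f1 h) := by
        intro g hg h hh
        have e1 : g * h = h * g * (g⁻¹ * h⁻¹ * (g⁻¹)⁻¹ * (h⁻¹)⁻¹) := by group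
        have hcm : g⁻¹ * h⁻¹ * (g⁻¹)⁻¹ * (h⁻¹)⁻¹ ∈ ⁅Γ, Γ⁆ :=
          uc_comm_mem (Γ.inv_mem hg) (Γ.inv_mem hh)
        have e2 : f1 (g⁻¹ * h⁻¹ * (g⁻¹)⁻¹ * (h⁻¹)⁻¹) = 1 := by
          ext x
          rw [hf1v _ (hcΓ hcm) x]
          exact x.2 _ hcm
        show f1 g * f1 h = f1 h * f1 g
        rw [← hf1.mul g hg h hh, ← hf1.mul h hh g hg, e1, hf1.mul _ (Γ.mul_mem hh hg) _ (hcΓ hcm),
          e2, mul_one]
      have hnil1 : ∀ a ∈ D, a ∈ Γ ∧ IsNilpotent (f1 a - 1) := by
        intro a ha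
        rw [hDeq] at ha
        induction ha using Subgroup.closure_induction with
        | mem a ha =>
          rcases ha with ha | ha
          · exact ⟨hX a ha, nilpotent_sub (hf1v a (hX a ha)) (hx a ha)⟩
          · exact ⟨hcΓ ha, nilpotent_sub (hf1v a (hcΓ ha)) (hc a ha)⟩
        | one =>
          refine ⟨Γ.one_mem, ?_⟩
          rw [hf1.one, sub_self]
          exact IsNilpotent.zero
        | mul a b _ _ iha ihb =>
          refine ⟨Γ.mul_mem iha.1 ihb.1, ?_⟩
          have e1 : f1 (a * b) - 1 = (f1 a - 1) * f1 b + (f1 b - 1) := by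
            rw [hf1.mul a iha.1 b ihb.1]
            exact uc_ring2 _ _
          rw [e1]
          have c1 : Commute (f1 a - 1) (f1 b) :=
            (hcomm a iha.1 b ihb.1).sub_left (Commute.one_left _)
          have c2 : Commute (f1 a - 1) (f1 b - 1) := c1.sub_right (Commute.one_right _)
          have c3 : Commute (f1 b) (f1 b - 1) := (Commute.refl _).sub_right (Commute.one_right _)
          exact Commute.isNilpotent_add (c2.mul_left c3) (c1.isNilpotent_mul_right iha.2) ihb.2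
        | inv a _ iha =>
          refine ⟨Γ.inv_mem iha.1, ?_⟩
          have e1 : f1 a⁻¹ - 1 = (f1 a - 1) * (-f1 a⁻¹) := uc_ring1 (hf1.mul_inv iha.1)
          rw [e1]
          have c1 : Commute (f1 a - 1) (-f1 a⁻¹) :=
            ((hcomm a iha.1 a⁻¹ (Γ.inv_mem iha.1)).sub_left (Commute.one_left _)).neg_right
          exact c1.isNilpotent_mul_right iha.2
      -- a vector fixed by `D`
      obtain ⟨x2, hx2, hx2f⟩ := kolchin (V := V1) (f1 '' (D : Set G)) (by
        rintro _ ⟨s, hs, rfl⟩ _ ⟨t, ht, rfl⟩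
        exact ⟨s * t, D.mul_mem hs ht, hf1.mul s (hDΓ hs) t (hDΓ ht)⟩) (by
        rintro _ ⟨s, hs, rfl⟩
        exact (hnil1 s hs).2)
      set V2 := ucFix D f with hV2
      have hV2s : ∀ g ∈ Γ, ∀ x ∈ V2, f g x ∈ V2 := ucFix_stable hDc hDΓ hf
      have hx2V : (x2 : V) ∈ V2 := by
        intro a ha
        rw [← hf1v a (hDΓ ha) x2, hx2f _ ⟨a, ha, rfl⟩]
      have hx2ne : (x2 : V) ≠ 0 := fun h => hx2 (Subtype.ext h)
      have hpos : 0 < Module.finrank ℂ V2 := by
        have : Nontrivial V2 := ⟨⟨⟨x2, hx2V⟩, 0, fun h => hx2ne (congrArg Subtype.val h)⟩⟩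
        exact Module.finrank_pos
      have hlt : Module.finrank ℂ (V ⧸ V2) < n := by
        have := Submodule.finrank_quotient_add_finrank V2
        omega
      obtain ⟨fQ, hfQ, hfQv⟩ := hf.exists_quot V2 hV2s
      have hQ := ih _ hlt (V ⧸ V2) rfl fQ hfQ
        (fun g hg => nilpotent_quot (hfQv g (hcΓ hg)) (hc g hg))
        (fun x hxX => nilpotent_quot (hfQv x (hX x hxX)) (hx x hxX)) d hd
      obtain ⟨k, hk⟩ := hQ
      refine ⟨k + 1, ?_⟩
      have key : ∀ m : ℕ, ∀ x : V, ((fQ d - 1) ^ m) (Submodule.Quotient.mk x) =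
          Submodule.Quotient.mk (((f d - 1) ^ m) x) := by
        intro m
        induction m with
        | zero => intro x; rfl
        | succ m ihm =>
          intro x
          rw [pow_succ, pow_succ, Module.End.mul_apply, Module.End.mul_apply]
          have h1 : (fQ d - 1) (Submodule.Quotient.mk x) =
              Submodule.Quotient.mk (p := V2) ((f d - 1) x) := by
            show fQ d (Submodule.Quotient.mk x) - Submodule.Quotient.mk x =
              Submodule.Quotient.mk (f d x - x)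
            rw [hfQv d (hDΓ hd), Submodule.Quotient.mk_sub]
          rw [h1, ihm]
      ext x
      have h2 : ((f d - 1) ^ k) x ∈ V2 := by
        have h3 := key k x
        rw [hk] at h3
        exact (Submodule.Quotient.mk_eq_zero V2).1 h3.symm
      rw [pow_succ', Module.End.mul_apply]
      show f d (((f d - 1) ^ k) x) - ((f d - 1) ^ k) x = 0
      rw [h2 d hd, sub_self]

end AFn
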