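import Mathlib
import Pool.Agent.AFn.Defs
import Pool.Agent.AFn.Basic
import Pool.Agent.AFn.RepLib
import Pool.Agent.AFn.Kolchin
import Pool.Agent.AFn.ND
import Pool.Agent.AFn.LemN
import Pool.Agent.AFn.LemE
import Pool.Agent.AFn.Core
import Pool.Agent.AFn.ThmY
import Pool.Agent.AFn.Energy
import Pool.Agent.AFn.EnSmul
import Pool.Agent.AFn.EnTri
import Pool.Agent.AFn.Gram
import Pool.Agent.AFn.IntMat
import Pool.Agent.AFn.Setup
import Pool.Agent.AFn.UnipCl
import Pool.Agent.AFn.Stage2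

set_option autoImplicit false

namespace AFn

/-- an element of `H` acting with zero energy is unipotent -/
theorem unip_of_en {G : Type*} [Group G] {m : ℕ} (Hin : Subgroup G)
    (ρ : Hin →* Matrix.GeneralLinearGroup (Fin m) ℤ) (g : G)
    (hg : ∃ hh : g ∈ Hin, ∀ i j,
      (3 : ℤ) ∣ ((ρ ⟨g, hh⟩ : Matrix (Fin m) (Fin m) ℤ) i j -
        (1 : Matrix (Fin m) (Fin m) ℤ) i j))
    (hen : en (rhoC Hin ρ g) = 0) : IsNilpotent (rhoC Hin ρ g - 1) := by
  obtain ⟨hh, h3⟩ := hg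
  have h1 : rhoC Hin ρ g =
      Matrix.toLin' ((ρ ⟨g, hh⟩ : Matrix (Fin m) (Fin m) ℤ).map (Int.cast : ℤ → ℂ)) := by
    unfold rhoC
    rw [dif_pos hh]
  have hrep := rhoC_rep Hin ρ
  have h2 : ∀ μ ∈ (rhoC Hin ρ g).charpoly.roots, ‖μ‖ = 1 := by
    intro μ hμ
    refine en_zero_imp _ hen μ hμ ?_
    rintro rfl
    have h4 : Module.End.HasEigenvalue (rhoC Hin ρ g) 0 := by
      rw [Module.End.hasEigenvalue_iff_isRoot_charpoly]
      exact (Polynomial.mem_roots'.mp hμ).2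
    obtain ⟨x, hx⟩ := h4.exists_hasEigenvector
    have h5 := hx.apply_eq_smul
    rw [zero_smul] at h5
    have h6 := DFunLike.congr_fun (hrep.inv_mul hh) x
    rw [Module.End.mul_apply, h5, map_zero] at h6
    exact hx.2 h6.symm
  rw [h1] at h2 ⊢
  exact int_unipotent _ h3 h2

/-- the core of the final theorem: the group `K` with the kernel property for the standard
basis, twisted by an arbitrary automorphism -/
theorem final_core (n m : ℕ) (Hin : Subgroup (MulAut (FreeGroup (Fin n))))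
    (hf : Hin.FiniteIndex) (ρ : Hin →* Matrix.GeneralLinearGroup (Fin m) ℤ) :
    ∃ K : Subgroup (FreeGroup (Fin n)), K.FiniteIndex ∧
      (∀ φ : MulAut (FreeGroup (Fin n)), ∀ w ∈ K, φ w ∈ K) ∧
      ∀ (φ : MulAut (FreeGroup (Fin n))) (a : Fin n) (W : Finset (Fin n)), a ∉ W →
        W.card + 5 ≤ n → W.card + m + 2 ≤ n → ∀ w ∈ K, w ∈ fsub W →
          ∃ hh : φ * R a w * φ⁻¹ ∈ Hin, ρ ⟨φ * R a w * φ⁻¹, hh⟩ = 1 := by
  classical
  obtain ⟨H, hHn, hHf, hH⟩ := exists_H Hin hf ρ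
  obtain ⟨K, hc, -⟩ := exists_K H hHn hHf ⊤ inferInstance
  refine ⟨K, hc.Kf, hc.Kc, ?_⟩
  intro φ a W haW hn1 hn2 w hwK hw
  have hHle : H ≤ Hin := fun h hh => (hH h hh).1
  have hmem : φ * R a w * φ⁻¹ ∈ H := hHn.conj_mem _ (hc.RH a w hwK) φ
  refine ⟨hHle hmem, ?_⟩
  apply rhoC_eq_one
  have hrep : IsRepOn H (rhoC Hin ρ) := (rhoC_rep Hin ρ).mono hHle
  have hrep' : IsRepOn H (fun g => rhoC Hin ρ (φ * g * φ⁻¹)) :=
    hrep.twist φ (fun g hg => hHn.conj_mem _ hg φ)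
  have hunip : ∀ g ∈ H, en (rhoC Hin ρ g) = 0 → IsNilpotent (rhoC Hin ρ g - 1) :=
    fun g hg hen => unip_of_en Hin ρ g (hH g hg) hen
  -- the letter c
  have hcex : ∃ c : Fin n, c ∉ W ∧ c ≠ a := by
    by_contra h
    push Not at h
    have h1 : (Finset.univ : Finset (Fin n)) ⊆ insert a W := by
      intro x _
      by_cases hx : x ∈ W
      · exact Finset.mem_insert_of_mem hx
      · rw [h x hx]; exact Finset.mem_insert_self _ _
    have h2 := Finset.card_le_card h1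
    rw [Finset.card_univ, Fintype.card_fin, Finset.card_insert_of_notMem haW] at h2
    omega
  obtain ⟨c, hcW, hca⟩ := hcex
  obtain ⟨S, hSdef⟩ : ∃ S : Finset (Fin n), S = (Finset.univ.erase a).erase c := ⟨_, rfl⟩
  have haS : a ∉ S := by rw [hSdef]; simp
  have hcS : c ∉ S := by rw [hSdef]; simp
  have hWS : W ⊆ S := by
    intro x hx
    rw [hSdef, Finset.mem_erase, Finset.mem_erase]
    exact ⟨fun h => hcW (h ▸ hx), fun h => haW (h ▸ hx), Finset.mem_univ _⟩
  have hScard : S.card = n - 2 := by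
    rw [hSdef, Finset.card_erase_of_mem, Finset.card_erase_of_mem, Finset.card_univ,
      Fintype.card_fin]
    · omega
    · exact Finset.mem_univ _
    · exact Finset.mem_erase.mpr ⟨hca, Finset.mem_univ _⟩
  -- three free letters
  have h3 : ∀ (ψ : MulAut (FreeGroup (Fin n))) (x b : Fin n), x ∉ S.erase b → b ∈ S →
      ∀ w' ∈ K, w' ∈ fsub (S.erase b) →
      IsNilpotent (rhoC Hin ρ (ψ * R x w' * ψ⁻¹) - 1) := by
    intro ψ x b hx hb w' hw'K hw'
    have hbS : b ∉ S.erase b := Finset.notMem_erase b S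
    have haS' : a ∉ S.erase b := fun h => haS (Finset.mem_of_mem_erase h)
    have hcS' : c ∉ S.erase b := fun h => hcS (Finset.mem_of_mem_erase h)
    have hab : a ≠ b := fun h => haS (h ▸ hb)
    have hcb : c ≠ b := fun h => hcS (h ▸ hb)
    refine hunip _ (hHn.conj_mem _ (hc.RH x w' hw'K) ψ) ?_
    have hxx : x = a ∨ x = b ∨ x = c := by
      by_contra h
      push Not at h
      apply hx
      rw [Finset.mem_erase, hSdef, Finset.mem_erase, Finset.mem_erase]
      exact ⟨h.2.1, h.2.2, h.1, Finset.mem_univ _⟩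
    rcases hxx with rfl | rfl | rfl
    · exact gram3 H hHn hHf _ hrep (S.erase b) x b c hab hca.symm hcb.symm haS' hbS hcS' w'
        hw' (fun y => hc.RH y w' hw'K) ψ
    · exact gram3 H hHn hHf _ hrep (S.erase x) x a c hab.symm hcb.symm hca.symm hbS haS' hcS'
        w' hw' (fun y => hc.RH y w' hw'K) ψ
    · exact gram3 H hHn hHf _ hrep (S.erase b) x b a hcb hca hab.symm hcS' hbS haS' w' hw'
        (fun y => hc.RH y w' hw'K) ψ
  have hunipOn : UnipOn K S (fun g => rhoC Hin ρ (φ * g * φ⁻¹)) := by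
    intro ψ hψ b hb w' hw'K hw'
    show IsNilpotent (rhoC Hin ρ (φ * (ψ * R b w' * ψ⁻¹) * φ⁻¹) - 1)
    have h4 : φ * (ψ * R b w' * ψ⁻¹) * φ⁻¹ = φ * ψ * R b w' * (φ * ψ)⁻¹ := by
      rw [mul_inv_rev]; simp only [mul_assoc]
    rw [h4]
    exact h3 (φ * ψ) b b (Finset.notMem_erase b S) hb w' hw'K hw'
  have hfrep : IsRepOn (K ⊓ fsub S) (fun g => rhoC Hin ρ (φ * R a g * φ⁻¹)) := by
    refine ⟨?_, fun g hg h hh => ?_⟩
    · show rhoC Hin ρ (φ * R a 1 * φ⁻¹) = 1
      rw [map_one, mul_one, mul_inv_cancel]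
      exact hrep.one
    · show rhoC Hin ρ (φ * R a (g * h) * φ⁻¹) = _
      rw [map_mul]
      exact hrep'.mul _ (hc.RH a g hg.1) _ (hc.RH a h hh.1)
  have hDunip : ∀ d ∈ DS K S, IsNilpotent (rhoC Hin ρ (φ * R a d * φ⁻¹) - 1) := by
    intro d hd
    have h5 := unip_closure (K ⊓ fsub S)
      {x | ∃ ψ ∈ StabS S, ∃ b ∈ S, ∃ w ∈ K, w ∈ fsub (S.erase b) ∧ x = ψ w}
      (by
        rintro x ⟨ψ, hψ, b, hb, w', hw'K, hw', rfl⟩
        exact ⟨hc.Kc ψ w' hw'K,
          StabS_map hψ (fsub_mono (Finset.erase_subset _ _) hw')⟩)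
      (Module.finrank ℂ (Fin m → ℂ)) (Fin m → ℂ) rfl
      (fun g => rhoC Hin ρ (φ * R a g * φ⁻¹)) hfrep
      (by
        intro g hg
        have hgK : g ∈ K := by
          have h7 : ⁅K ⊓ fsub S, K ⊓ fsub S⁆ ≤ K ⊓ fsub S := by
            rw [Subgroup.commutator_le]
            intro g1 hg1 g2 hg2
            exact (K ⊓ fsub S).mul_mem ((K ⊓ fsub S).mul_mem ((K ⊓ fsub S).mul_mem hg1 hg2)
              ((K ⊓ fsub S).inv_mem hg1)) ((K ⊓ fsub S).inv_mem hg2)
          exact (h7 hg).1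
        refine hunip _ (hHn.conj_mem _ (hc.RH a g hgK) φ) ?_
        exact gram2 H hHn hHf _ hrep S a c hca.symm haS hcS K hc.RH g hg φ)
      (by
        rintro x ⟨ψ, hψ, b, hb, w', hw'K, hw', rfl⟩
        show IsNilpotent (rhoC Hin ρ (φ * R a (ψ w') * φ⁻¹) - 1)
        rw [← conj_R hψ haS (fsub_mono (Finset.erase_subset _ _) hw')]
        have h4 : φ * (ψ * R a w' * ψ⁻¹) * φ⁻¹ = φ * ψ * R a w' * (φ * ψ)⁻¹ := by
          rw [mul_inv_rev]; simp only [mul_assoc]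
        rw [h4]
        exact h3 (φ * ψ) a b (fun h => haS (Finset.mem_of_mem_erase h)) hb w' hw'K hw')
      d
    refine h5 ?_
    revert hd
    apply SetLike.le_def.mp
    rw [DS, Subgroup.closure_union, sup_comm]
    refine sup_le_sup_left ?_ _
    rw [Subgroup.closure_le]
    rintro x ⟨g, hg, h, hh, hgS, hhS, rfl⟩
    exact Subgroup.commutator_mem_commutator (show g ∈ K ⊓ fsub S from ⟨hg, hgS⟩)
      (show h ∈ K ⊓ fsub S from ⟨hh, hhS⟩)
  have h6 := stage2 hc W.card S a haS (Fin m → ℂ) (fun g => rhoC Hin ρ (φ * g * φ⁻¹)) hrep'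
    hunipOn hDunip
    (by rw [Module.finrank_fin_fun, hScard]; omega)
    (by omega) W hWS le_rfl w hwK hw
  exact h6

end AFn
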