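import Mathlib

set_option autoImplicit false

namespace AFn

/-- an integer matrix in `GL_2(ℤ)` that is the identity modulo `3` and has an eigenvector in
the kernel of a nonzero integer matrix is unipotent -/
theorem gl2_unipotent (M N : Matrix (Fin 2) (Fin 2) ℤ)
    (h3 : ∀ i j, (3 : ℤ) ∣ (M i j - (1 : Matrix (Fin 2) (Fin 2) ℤ) i j))
    (hM : IsUnit M.det) (hN : N ≠ 0) (e : Fin 2 → ℂ) (he : e ≠ 0) (χ : ℂ)
    (h1 : Matrix.toLin' (N.map (Int.cast : ℤ → ℂ)) e = 0)
    (h2 : Matrix.toLin' (M.map (Int.cast : ℤ → ℂ)) e = χ • e) :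
    IsNilpotent (Matrix.toLin' (M.map (Int.cast : ℤ → ℂ)) - 1) := by
  -- an integer vector proportional to e
  have hv : ∃ v : Fin 2 → ℤ, v ≠ 0 ∧ ∃ k : ℂ, (fun i => (v i : ℂ)) = k • e := by
    have hrow : ∃ i, N i 0 ≠ 0 ∨ N i 1 ≠ 0 := by
      by_contra h
      push Not at h
      apply hN
      ext i j
      fin_cases j
      · exact (h i).1
      · exact (h i).2
    obtain ⟨i, hi⟩ := hrow
    have h4 : (N i 0 : ℂ) * e 0 + (N i 1 : ℂ) * e 1 = 0 := by
      have := congrFun h1 i
      simpa [Matrix.toLin'_apply, Matrix.mulVec, dotProduct, Fin.sum_univ_two] using this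
    refine ⟨![- N i 1, N i 0], ?_, ?_⟩
    · intro h
      have h5 := congrFun h 0
      have h6 := congrFun h 1
      simp at h5 h6
      rcases hi with hi | hi
      · exact hi h6
      · exact hi h5
    · by_cases h0 : N i 0 = 0
      · have hi1 : N i 1 ≠ 0 := hi.resolve_left (fun h => h h0)
        rw [h0] at h4
        simp only [Int.cast_zero, zero_mul, zero_add, mul_eq_zero, Int.cast_eq_zero] at h4
        have he1 : e 1 = 0 := h4.resolve_left hi1
        have he0 : e 0 ≠ 0 := by
          intro h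
          apply he
          ext j
          fin_cases j
          · exact h
          · exact he1
        refine ⟨- (N i 1 : ℂ) / e 0, ?_⟩
        ext j
        fin_cases j
        · simp; field_simp
        · simp [he1, h0]
      · have h0' : (N i 0 : ℂ) ≠ 0 := by exact_mod_cast h0
        have he1 : e 1 ≠ 0 := by
          intro h
          rw [h, mul_zero, add_zero, mul_eq_zero] at h4
          apply he
          ext j
          fin_cases j
          · exact h4.resolve_left h0'
          · exact h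
        refine ⟨(N i 0 : ℂ) / e 1, ?_⟩
        ext j
        fin_cases j
        · simp
          field_simp
          linear_combination (-1 : ℂ) * h4
        · simp; field_simp
  obtain ⟨v, hv0, k, hvk⟩ := hv
  -- the eigenvalue equation for v
  have h5 : ∀ i, (M i 0 : ℂ) * v 0 + (M i 1 : ℂ) * v 1 = χ * v i := by
    intro i
    have h6 : Matrix.toLin' (M.map (Int.cast : ℤ → ℂ)) (fun i => (v i : ℂ)) =
        χ • (fun i => (v i : ℂ)) := by
      rw [hvk, map_smul, h2, smul_comm]
    have := congrFun h6 i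
    simpa [Matrix.toLin'_apply, Matrix.mulVec, dotProduct, Fin.sum_univ_two] using this
  -- determinant
  have hdet : M.det = 1 := by
    rcases Int.isUnit_iff.mp hM with h | h
    · exact h
    · exfalso
      rw [Matrix.det_fin_two] at h
      obtain ⟨a, ha⟩ := h3 0 0
      obtain ⟨b, hb⟩ := h3 0 1
      obtain ⟨c, hc⟩ := h3 1 0
      obtain ⟨d, hd⟩ := h3 1 1
      simp at ha hb hc hd
      have ha' : M 0 0 = 1 + 3 * a := by linarith
      have hd' : M 1 1 = 1 + 3 * d := by linarith
      rw [ha', hd', hb, hc] at h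
      have : (3 : ℤ) * (a + d + 3 * a * d - 3 * b * c) = -2 := by linarith
      omega
  -- the eigenvalue is a root of the characteristic polynomial
  have hdet' : M 0 0 * M 1 1 - M 0 1 * M 1 0 = 1 := by rw [← Matrix.det_fin_two]; exact hdet
  have hdetC : (M 0 0 : ℂ) * M 1 1 - M 0 1 * M 1 0 = 1 := by exact_mod_cast hdet'
  have hchar : χ * χ - ((M 0 0 + M 1 1 : ℤ) : ℂ) * χ + 1 = 0 := by
    have e0 := h5 0
    have e1 := h5 1
    have hvv : (v 0 : ℂ) ≠ 0 ∨ (v 1 : ℂ) ≠ 0 := by
      by_contra h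
      push Not at h
      apply hv0
      ext j
      fin_cases j
      · exact_mod_cast h.1
      · exact_mod_cast h.2
    push_cast
    rcases hvv with h | h
    · have : (v 0 : ℂ) * (χ * χ - (M 0 0 + M 1 1) * χ + 1) = 0 := by
        linear_combination (-(v 0 : ℂ)) * hdetC + (M 1 1 - χ) * e0 - (M 0 1 : ℂ) * e1
      exact (mul_eq_zero.mp this).resolve_left h
    · have : (v 1 : ℂ) * (χ * χ - (M 0 0 + M 1 1) * χ + 1) = 0 := by
        linear_combination (-(v 1 : ℂ)) * hdetC + (M 0 0 - χ) * e1 - (M 1 0 : ℂ) * e0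
      exact (mul_eq_zero.mp this).resolve_left h
  -- the eigenvalue is rational
  have hrat : ∃ q : ℚ, χ = q := by
    have hvv : v 0 ≠ 0 ∨ v 1 ≠ 0 := by
      by_contra h
      push Not at h
      apply hv0
      ext j
      fin_cases j
      · exact h.1
      · exact h.2
    rcases hvv with h | h
    · refine ⟨((M 0 0 * v 0 + M 0 1 * v 1 : ℤ) : ℚ) / (v 0 : ℚ), ?_⟩
      have h' : (v 0 : ℂ) ≠ 0 := by exact_mod_cast h
      push_cast
      rw [eq_div_iff h']
      exact (h5 0).symm
    · refine ⟨((M 1 0 * v 0 + M 1 1 * v 1 : ℤ) : ℚ) / (v 1 : ℚ), ?_⟩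
      have h' : (v 1 : ℂ) ≠ 0 := by exact_mod_cast h
      push_cast
      rw [eq_div_iff h']
      exact (h5 1).symm
  obtain ⟨q, hq⟩ := hrat
  have hqeq : q * q - ((M 0 0 + M 1 1 : ℤ) : ℚ) * q + 1 = 0 := by
    rw [hq] at hchar
    exact_mod_cast hchar
  -- q is an integer
  have hint : IsIntegral ℤ q := by
    refine ⟨Polynomial.X ^ 2 - Polynomial.C (M 0 0 + M 1 1) * Polynomial.X + Polynomial.C 1,
      ?_, ?_⟩
    · monicity!
    · simp only [Polynomial.eval₂_add, Polynomial.eval₂_sub, Polynomial.eval₂_mul,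
        Polynomial.eval₂_pow, Polynomial.eval₂_X, Polynomial.eval₂_C]
      simp only [map_one, eq_intCast]
      linear_combination hqeq
  obtain ⟨z, hz⟩ := IsIntegrallyClosed.isIntegral_iff.mp hint
  have hz' : q = z := by rw [← hz]; simp
  rw [hz'] at hqeq
  have hzeq : z * (M 0 0 + M 1 1 - z) = 1 := by
    have : ((z * z - (M 0 0 + M 1 1) * z + 1 : ℤ) : ℚ) = 0 := by
      push_cast
      push_cast at hqeq
      linarith
    have h7 : z * z - (M 0 0 + M 1 1) * z + 1 = 0 := by exact_mod_cast this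
    linarith
  have htr : M 0 0 + M 1 1 = 2 := by
    have hzu : z = 1 ∨ z = -1 := Int.isUnit_iff.mp (IsUnit.of_mul_eq_one _ hzeq)
    rcases hzu with h | h
    · rw [h] at hzeq; linarith
    · exfalso
      rw [h] at hzeq
      obtain ⟨a, ha⟩ := h3 0 0
      obtain ⟨d, hd⟩ := h3 1 1
      simp at ha hd
      omega
  -- Cayley-Hamilton
  refine ⟨2, ?_⟩
  have h8 : Matrix.toLin' (M.map (Int.cast : ℤ → ℂ)) - 1 =
      Matrix.toLin' ((M.map (Int.cast : ℤ → ℂ)) - 1) := by
    rw [map_sub, Matrix.toLin'_one]; rfl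
  have h9 : (M.map (Int.cast : ℤ → ℂ) - 1) * (M.map (Int.cast : ℤ → ℂ) - 1) = 0 := by
    have htrC : (M 0 0 : ℂ) + M 1 1 = 2 := by exact_mod_cast htr
    ext i j
    fin_cases i <;> fin_cases j <;>
      simp [Matrix.mul_apply, Fin.sum_univ_two, Matrix.sub_apply, Matrix.map_apply]
    · linear_combination (M 0 0 : ℂ) * htrC - hdetC
    · linear_combination (M 0 1 : ℂ) * htrC
    · linear_combination (M 1 0 : ℂ) * htrC
    · linear_combination (M 1 1 : ℂ) * htrC - hdetC
  rw [h8, pow_two, Module.End.mul_eq_comp, ← Matrix.toLin'_mul, h9, map_zero]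

end AFn
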