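import Mathlib
import Pool.Agent.AFn.Final
import Pool.Agent.AFn.GL2

set_option autoImplicit false

namespace AFn


/-- the final theorem without the restriction `|W| + 5 ≤ n` -/
theorem final_core2 (n m : ℕ) (Hin : Subgroup (MulAut (FreeGroup (Fin n))))
    (hf : Hin.FiniteIndex) (ρ : Hin →* Matrix.GeneralLinearGroup (Fin m) ℤ) :
    ∃ K : Subgroup (FreeGroup (Fin n)), K.FiniteIndex ∧
      (∀ φ : MulAut (FreeGroup (Fin n)), ∀ w ∈ K, φ w ∈ K) ∧
      ∀ (φ : MulAut (FreeGroup (Fin n))) (a : Fin n) (W : Finset (Fin n)), a ∉ W →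
        W.card + m + 2 ≤ n → ∀ w ∈ K, w ∈ fsub W →
          ∃ hh : φ * R a w * φ⁻¹ ∈ Hin, ρ ⟨φ * R a w * φ⁻¹, hh⟩ = 1 := by
  classical
  obtain ⟨H, hHn, hHf, hH⟩ := exists_H Hin hf ρ
  obtain ⟨K, hc, -⟩ := exists_K H hHn hHf ⊤ inferInstance
  refine ⟨K, hc.Kf, hc.Kc, ?_⟩
  intro φ a W haW hn2 w hwK hw
  have hHle : H ≤ Hin := fun h hh => (hH h hh).1
  have hmem : φ * R a w * φ⁻¹ ∈ H := hHn.conj_mem _ (hc.RH a w hwK) φ
  refine ⟨hHle hmem, ?_⟩
  apply rhoC_eq_one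
  have hrep : IsRepOn H (rhoC Hin ρ) := (rhoC_rep Hin ρ).mono hHle
  have hrep' : IsRepOn H (fun g => rhoC Hin ρ (φ * g * φ⁻¹)) :=
    hrep.twist φ (fun g hg => hHn.conj_mem _ hg φ)
  have hunip : ∀ g ∈ H, en (rhoC Hin ρ g) = 0 → IsNilpotent (rhoC Hin ρ g - 1) :=
    fun g hg hen => unip_of_en Hin ρ g (hH g hg) hen
  -- the letter c
  have hcex : ∃ c : Fin n, c ∉ W ∧ c ≠ a := by
    by_contra h
    push Not at h
    have h1 : (Finset.univ : Finset (Fin n)) ⊆ insert a W := by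
      intro x _
      by_cases hx : x ∈ W
      · exact Finset.mem_insert_of_mem hx
      · rw [h x hx]; exact Finset.mem_insert_self _ _
    have h2 := Finset.card_le_card h1
    rw [Finset.card_univ, Fintype.card_fin, Finset.card_insert_of_notMem haW] at h2
    omega
  obtain ⟨c, hcW, hca⟩ := hcex
  obtain ⟨S, hSdef⟩ : ∃ S : Finset (Fin n), S = (Finset.univ.erase a).erase c := ⟨_, rfl⟩
  have haS : a ∉ S := by rw [hSdef]; simp
  have hcS : c ∉ S := by rw [hSdef]; simp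
  have hWS : W ⊆ S := by
    intro x hx
    rw [hSdef, Finset.mem_erase, Finset.mem_erase]
    exact ⟨fun h => hcW (h ▸ hx), fun h => haW (h ▸ hx), Finset.mem_univ _⟩
  have hScard : S.card = n - 2 := by
    rw [hSdef, Finset.card_erase_of_mem, Finset.card_erase_of_mem, Finset.card_univ,
      Fintype.card_fin]
    · omega
    · exact Finset.mem_univ _
    · exact Finset.mem_erase.mpr ⟨hca, Finset.mem_univ _⟩
  -- dimension zero
  rcases Nat.eq_zero_or_pos m with hm0 | hm0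
  · subst hm0
    ext x i
    exact i.elim0
  -- three free letters
  have h3 : ∀ (ψ : MulAut (FreeGroup (Fin n))) (x b : Fin n), x ∉ S.erase b → b ∈ S →
      ∀ w' ∈ K, w' ∈ fsub (S.erase b) →
      IsNilpotent (rhoC Hin ρ (ψ * R x w' * ψ⁻¹) - 1) := by
    intro ψ x b hx hb w' hw'K hw'
    have hbS : b ∉ S.erase b := Finset.notMem_erase b S
    have haS' : a ∉ S.erase b := fun h => haS (Finset.mem_of_mem_erase h)
    have hcS' : c ∉ S.erase b := fun h => hcS (Finset.mem_of_mem_erase h)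
    have hab : a ≠ b := fun h => haS (h ▸ hb)
    have hcb : c ≠ b := fun h => hcS (h ▸ hb)
    refine hunip _ (hHn.conj_mem _ (hc.RH x w' hw'K) ψ) ?_
    have hxx : x = a ∨ x = b ∨ x = c := by
      by_contra h
      push Not at h
      apply hx
      rw [Finset.mem_erase, hSdef, Finset.mem_erase, Finset.mem_erase]
      exact ⟨h.2.1, h.2.2, h.1, Finset.mem_univ _⟩
    rcases hxx with rfl | rfl | rfl
    · exact gram3 H hHn hHf _ hrep (S.erase b) x b c hab hca.symm hcb.symm haS' hbS hcS' w'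
        hw' (fun y => hc.RH y w' hw'K) ψ
    · exact gram3 H hHn hHf _ hrep (S.erase x) x a c hab.symm hcb.symm hca.symm hbS haS' hcS'
        w' hw' (fun y => hc.RH y w' hw'K) ψ
    · exact gram3 H hHn hHf _ hrep (S.erase b) x b a hcb hca hab.symm hcS' hbS haS' w' hw'
        (fun y => hc.RH y w' hw'K) ψ
  have hunipOn : UnipOn K S (fun g => rhoC Hin ρ (φ * g * φ⁻¹)) := by
    intro ψ hψ b hb w' hw'K hw'
    show IsNilpotent (rhoC Hin ρ (φ * (ψ * R b w' * ψ⁻¹) * φ⁻¹) - 1)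
    have h4 : φ * (ψ * R b w' * ψ⁻¹) * φ⁻¹ = φ * ψ * R b w' * (φ * ψ)⁻¹ := by
      rw [mul_inv_rev]; simp only [mul_assoc]
    rw [h4]
    exact h3 (φ * ψ) b b (Finset.notMem_erase b S) hb w' hw'K hw'
  have hfrep : IsRepOn (K ⊓ fsub S) (fun g => rhoC Hin ρ (φ * R a g * φ⁻¹)) := by
    refine ⟨?_, fun g hg h hh => ?_⟩
    · show rhoC Hin ρ (φ * R a 1 * φ⁻¹) = 1
      rw [map_one, mul_one, mul_inv_cancel]
      exact hrep.one
    · show rhoC Hin ρ (φ * R a (g * h) * φ⁻¹) = _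
      rw [map_mul]
      exact hrep'.mul _ (hc.RH a g hg.1) _ (hc.RH a h hh.1)
  have hDunip : ∀ d ∈ DS K S, IsNilpotent (rhoC Hin ρ (φ * R a d * φ⁻¹) - 1) := by
    intro d hd
    have h5 := unip_closure (K ⊓ fsub S)
      {x | ∃ ψ ∈ StabS S, ∃ b ∈ S, ∃ w ∈ K, w ∈ fsub (S.erase b) ∧ x = ψ w}
      (by
        rintro x ⟨ψ, hψ, b, hb, w', hw'K, hw', rfl⟩
        exact ⟨hc.Kc ψ w' hw'K,
          StabS_map hψ (fsub_mono (Finset.erase_subset _ _) hw')⟩)
      (Module.finrank ℂ (Fin m → ℂ)) (Fin m → ℂ) rfl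
      (fun g => rhoC Hin ρ (φ * R a g * φ⁻¹)) hfrep
      (by
        intro g hg
        have hgK : g ∈ K := by
          have h7 : ⁅K ⊓ fsub S, K ⊓ fsub S⁆ ≤ K ⊓ fsub S := by
            rw [Subgroup.commutator_le]
            intro g1 hg1 g2 hg2
            exact (K ⊓ fsub S).mul_mem ((K ⊓ fsub S).mul_mem ((K ⊓ fsub S).mul_mem hg1 hg2)
              ((K ⊓ fsub S).inv_mem hg1)) ((K ⊓ fsub S).inv_mem hg2)
          exact (h7 hg).1
        refine hunip _ (hHn.conj_mem _ (hc.RH a g hgK) φ) ?_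
        exact gram2 H hHn hHf _ hrep S a c hca.symm haS hcS K hc.RH g hg φ)
      (by
        rintro x ⟨ψ, hψ, b, hb, w', hw'K, hw', rfl⟩
        show IsNilpotent (rhoC Hin ρ (φ * R a (ψ w') * φ⁻¹) - 1)
        rw [← conj_R hψ haS (fsub_mono (Finset.erase_subset _ _) hw')]
        have h4 : φ * (ψ * R a w' * ψ⁻¹) * φ⁻¹ = φ * ψ * R a w' * (φ * ψ)⁻¹ := by
          rw [mul_inv_rev]; simp only [mul_assoc]
        rw [h4]
        exact h3 (φ * ψ) a b (fun h => haS (Finset.mem_of_mem_erase h)) hb w' hw'K hw')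
      d
    refine h5 ?_
    revert hd
    apply SetLike.le_def.mp
    rw [DS, Subgroup.closure_union, sup_comm]
    refine sup_le_sup_left ?_ _
    rw [Subgroup.closure_le]
    rintro x ⟨g, hg, h, hh, hgS, hhS, rfl⟩
    exact Subgroup.commutator_mem_commutator (show g ∈ K ⊓ fsub S from ⟨hg, hgS⟩)
      (show h ∈ K ⊓ fsub S from ⟨hh, hhS⟩)
  -- large dimension: stage 2
  rcases Nat.lt_or_ge (W.card + 4) n with hlarge | hsmall
  · exact stage2 hc W.card S a haS (Fin m → ℂ) (fun g => rhoC Hin ρ (φ * g * φ⁻¹)) hrep'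
      hunipOn hDunip
      (by rw [Module.finrank_fin_fun, hScard]; omega)
      (by omega) W hWS le_rfl w hwK hw
  -- now m is one or two
  have hm2 : m ≤ 2 := by omega
  have hbex : ∃ b ∈ S, b ∉ W := by
    by_contra h
    push Not at h
    have := Finset.card_le_card (show S ⊆ W from h)
    omega
  obtain ⟨b0, hb0, hb0W⟩ := hbex
  have hWb0 : W ⊆ S.erase b0 := fun x hx =>
    Finset.mem_erase.mpr ⟨fun h => hb0W (h ▸ hx), hWS hx⟩
  have hwD : w ∈ DS K S :=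
    Subgroup.subset_closure (Or.inr ⟨1, one_mem _, b0, hb0, w, hwK, fsub_mono hWb0 hw, rfl⟩)
  by_contra hw1
  rcases Nat.lt_or_ge m 2 with hm1 | hm1
  · -- dimension one
    have h8 := nilpotent_dim_le_one (V := Fin m → ℂ)
      (by rw [Module.finrank_fin_fun]; omega) (hDunip w hwD)
    exact hw1 (sub_eq_zero.mp h8)
  -- dimension two
  have hm2' : m = 2 := by omega
  subst hm2'
  have hKn := hc.Kn
  let E : Set (Module.End ℂ (Fin 2 → ℂ)) :=
    {s | ∃ d ∈ DS K S, s = rhoC Hin ρ (φ * R a d * φ⁻¹)}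
  have hEmul : ∀ s ∈ E, ∀ t ∈ E, s * t ∈ E := by
    rintro s ⟨d, hd, rfl⟩ t ⟨d', hd', rfl⟩
    exact ⟨d * d', mul_mem hd hd',
      (hfrep.mul d (DS_le hc S hd) d' (DS_le hc S hd')).symm⟩
  have hEu : ∀ s ∈ E, IsNilpotent (s - 1) := by
    rintro s ⟨d, hd, rfl⟩
    exact hDunip d hd
  obtain ⟨e, he0, he⟩ := kolchin E hEmul hEu
  -- every element of K ⊓ fsub S acts unipotently
  have hall : ∀ g ∈ K, g ∈ fsub S → IsNilpotent (rhoC Hin ρ (φ * R a g * φ⁻¹) - 1) := by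
    intro g hgK hg
    have hgm : φ * R a g * φ⁻¹ ∈ H := hHn.conj_mem _ (hc.RH a g hgK) φ
    -- g e is fixed by the element w
    have hconj : ∀ d ∈ DS K S, g * d * g⁻¹ ∈ DS K S := by
      intro d hd
      obtain ⟨ψ, hψ, hψ1, -⟩ := exists_inn S hg
      rw [← hψ1 d (DS_le hc S hd).2]
      exact DS_inv hc S ψ hψ d hd
    have hfix : ∀ d ∈ DS K S, rhoC Hin ρ (φ * R a d * φ⁻¹)
        (rhoC Hin ρ (φ * R a g * φ⁻¹) e) = rhoC Hin ρ (φ * R a g * φ⁻¹) e := by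
      intro d hd
      have hd2 : g⁻¹ * d * g ∈ DS K S := by
        have hginv : g⁻¹ ∈ fsub S := inv_mem hg
        obtain ⟨ψ, hψ, hψ1, -⟩ := exists_inn S hginv
        have := DS_inv hc S ψ hψ d hd
        rw [hψ1 d (DS_le hc S hd).2, inv_inv] at this
        exact this
      have h9 : rhoC Hin ρ (φ * R a d * φ⁻¹) * rhoC Hin ρ (φ * R a g * φ⁻¹) =
          rhoC Hin ρ (φ * R a g * φ⁻¹) * rhoC Hin ρ (φ * R a (g⁻¹ * d * g) * φ⁻¹) := by
        have e1 := hfrep.mul d (DS_le hc S hd) g ⟨hgK, hg⟩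
        have e2 := hfrep.mul g ⟨hgK, hg⟩ (g⁻¹ * d * g) (DS_le hc S hd2)
        have e3 : g * (g⁻¹ * d * g) = d * g := by group
        rw [e3] at e2
        exact e1.symm.trans e2
      have h10 := DFunLike.congr_fun h9 e
      rw [Module.End.mul_apply, Module.End.mul_apply, he _ ⟨_, hd2, rfl⟩] at h10
      exact h10
    -- the fixed space of w is the line spanned by e
    have hline : ∃ χ : ℂ, rhoC Hin ρ (φ * R a g * φ⁻¹) e = χ • e := by
      by_contra hno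
      push Not at hno
      have hli : LinearIndependent ℂ ![e, rhoC Hin ρ (φ * R a g * φ⁻¹) e] := by
        rw [LinearIndependent.pair_iff' he0]
        intro k hk
        exact hno k hk.symm
      have hspan := hli.span_eq_top_of_card_eq_finrank' (by simp)
      apply hw1
      have h11 : ∀ x ∈ Submodule.span ℂ
          (Set.range ![e, rhoC Hin ρ (φ * R a g * φ⁻¹) e]),
          rhoC Hin ρ (φ * R a w * φ⁻¹) x = x := by
        intro x hx
        induction hx using Submodule.span_induction with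
        | mem x hx =>
          obtain ⟨i, rfl⟩ := hx
          fin_cases i
          · exact he _ ⟨w, hwD, rfl⟩
          · exact hfix w hwD
        | zero => exact map_zero _
        | add x y _ _ hx hy => rw [map_add, hx, hy]
        | smul k x _ hx => rw [map_smul, hx]
      refine LinearMap.ext fun x => ?_
      exact h11 x (hspan ▸ Submodule.mem_top)
    obtain ⟨χ, hχ⟩ := hline
    obtain ⟨hgin, hg3⟩ := hH _ hgm
    obtain ⟨hwin, hw3⟩ := hH _ hmem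
    have hrg : rhoC Hin ρ (φ * R a g * φ⁻¹) = Matrix.toLin'
        ((ρ ⟨φ * R a g * φ⁻¹, hgin⟩ : Matrix (Fin 2) (Fin 2) ℤ).map (Int.cast : ℤ → ℂ)) := by
      unfold rhoC; rw [dif_pos hgin]
    have hrw : rhoC Hin ρ (φ * R a w * φ⁻¹) = Matrix.toLin'
        ((ρ ⟨φ * R a w * φ⁻¹, hwin⟩ : Matrix (Fin 2) (Fin 2) ℤ).map (Int.cast : ℤ → ℂ)) := by
      unfold rhoC; rw [dif_pos hwin]
    rw [hrg]
    refine gl2_unipotent _
      ((ρ ⟨φ * R a w * φ⁻¹, hwin⟩ : Matrix (Fin 2) (Fin 2) ℤ) - 1) hg3 ?_ ?_ e he0 χ ?_ ?_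
    · exact (Matrix.isUnit_iff_isUnit_det _).mp
        (Units.isUnit (ρ ⟨φ * R a g * φ⁻¹, hgin⟩))
    · intro h0
      apply hw1
      rw [hrw, sub_eq_zero.mp h0]
      have h12 : (1 : Matrix (Fin 2) (Fin 2) ℤ).map (Int.cast : ℤ → ℂ) = 1 :=
        Matrix.map_one _ (by simp) (by simp)
      rw [h12, Matrix.toLin'_one]
      rfl
    · have h13 : ((ρ ⟨φ * R a w * φ⁻¹, hwin⟩ : Matrix (Fin 2) (Fin 2) ℤ) - 1).map
          (Int.cast : ℤ → ℂ) = ((ρ ⟨φ * R a w * φ⁻¹, hwin⟩ :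
            Matrix (Fin 2) (Fin 2) ℤ)).map (Int.cast : ℤ → ℂ) - 1 := by
        ext i j
        simp [Matrix.one_apply]
      rw [h13, map_sub, Matrix.toLin'_one, ← hrw, LinearMap.sub_apply, he _ ⟨w, hwD, rfl⟩]
      simp
    · rw [← hrg]
      exact hχ
  -- the core
  have hne : ∃ d ∈ K ⊓ fsub S, (fun g => rhoC Hin ρ (φ * g * φ⁻¹)) (R a d) ≠ 1 :=
    ⟨w, ⟨hwK, fsub_mono hWS hw⟩, hw1⟩
  have hinv := core hc W.card S a haS (Fin 2 → ℂ) (fun g => rhoC Hin ρ (φ * g * φ⁻¹)) H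
    inf_le_left hrep' (fun g hgK _ => hc.RH a g hgK) hunipOn (K ⊓ fsub S) le_rfl
    (fun ψ hψ d hd => ⟨hc.Kc ψ d hd.1, StabS_map hψ hd.2⟩)
    (fun d hd => hall d hd.1 hd.2)
    (by
      intro V2 _ _ _ τ hτ huτ hdτ T hT
      rw [Module.finrank_fin_fun] at hdτ
      obtain ⟨ψ, hψ, b, hb, W', hW', hW'r, w', hw'K, hw', rfl⟩ := hT
      have h14 := huτ ψ hψ b hb w' hw'K (fsub_mono hW' hw')
      exact sub_eq_zero.mp (nilpotent_dim_le_one (by omega) h14))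
    hne
  have hTinv : ∀ T, IsT K W.card S T → ∀ g ∈ K, g ∈ fsub S →
      rhoC Hin ρ (φ * R a (T g) * φ⁻¹) = rhoC Hin ρ (φ * R a g * φ⁻¹) :=
    fun T hT g hgK hg => hinv T hT g ⟨hgK, hg⟩
  have hpq : 2 ≤ (S \ W).card := by
    rw [Finset.card_sdiff_of_subset hWS]; omega
  obtain ⟨p, hp, q, hq, hpq⟩ := Finset.one_lt_card.mp hpq
  rw [Finset.mem_sdiff] at hp hq
  have hWp : W ⊆ S.erase p := fun x hx =>
    Finset.mem_erase.mpr ⟨fun h => hp.2 (h ▸ hx), hWS hx⟩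
  have hWq : W ⊆ S.erase q := fun x hx =>
    Finset.mem_erase.mpr ⟨fun h => hq.2 (h ▸ hx), hWS hx⟩
  have hWpq : W ⊆ (S.erase p).erase q := fun x hx =>
    Finset.mem_erase.mpr ⟨fun h => hq.2 (h ▸ hx), hWp hx⟩
  have hconjmem : ∀ u ∈ fsub S, u * w * u⁻¹ ∈ K ⊓ fsub S :=
    fun u hu2 => ⟨hKn.conj_mem _ hwK _,
      (fsub _).mul_mem ((fsub _).mul_mem hu2 (fsub_mono hWS hw)) ((fsub _).inv_mem hu2)⟩
  have hcomm := dim2_comm (V := Fin 2 → ℂ) (by rw [Module.finrank_fin_fun])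
    {s | ∃ d ∈ K ⊓ fsub S, s = rhoC Hin ρ (φ * R a d * φ⁻¹)}
    (by
      rintro s ⟨d, hd, rfl⟩ t ⟨d', hd', rfl⟩
      exact ⟨d * d', mul_mem hd hd', (hfrep.mul d hd d' hd').symm⟩)
    (by
      rintro s ⟨d, hd, rfl⟩
      exact hall d hd.1 hd.2)
  apply hw1
  refine lemmaN K hc.Kc hKn hc.Kf S p q hp.1 hq.1 hpq w hwK
    (fsub_mono hWpq hw) (fun g => rhoC Hin ρ (φ * R a g * φ⁻¹)) hfrep ?_ ?_ ?_ ?_
  · intro u hu2 g hgK hg
    exact hcomm _ ⟨_, hconjmem u hu2, rfl⟩ _ ⟨g, ⟨hgK, hg⟩, rfl⟩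
  · intro u hu2
    exact hall _ (hconjmem u hu2).1 (hconjmem u hu2).2
  · intro g hgK hg
    have h1 := hTinv (1 * R p w * 1⁻¹)
      ⟨1, one_mem _, p, hp.1, W, hWp, le_rfl, w, hwK, hw, rfl⟩ g hgK hg
    rwa [one_mul, inv_one, mul_one] at h1
  · intro g hgK hg
    have h1 := hTinv (1 * R q w * 1⁻¹)
      ⟨1, one_mem _, q, hq.1, W, hWq, le_rfl, w, hwK, hw, rfl⟩ g hgK hg
    rwa [one_mul, inv_one, mul_one] at h1

end AFn
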