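import Mathlib
import Pool.Agent.AFn.Defs
import Pool.Agent.AFn.Basic

set_option autoImplicit false

namespace AFn

universe u v

variable {α : Type u} [DecidableEq α]

private theorem aut_ext' {φ ψ : MulAut (FreeGroup α)}
    (h : ∀ x, φ (FreeGroup.of x) = ψ (FreeGroup.of x)) : φ = ψ := by
  have h1 : (φ : MulAut (FreeGroup α)).toMonoidHom = (ψ : MulAut (FreeGroup α)).toMonoidHom := by
    ext x
    exact h x
  ext g
  exact DFunLike.congr_fun h1 g

/-- the automorphism inverting the letter `a` -/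
def iotaHom (a : α) : FreeGroup α →* FreeGroup α :=
  FreeGroup.lift (fun x => if x = a then (FreeGroup.of a)⁻¹ else FreeGroup.of x)

theorem iotaHom_iotaHom (a : α) (g : FreeGroup α) : iotaHom a (iotaHom a g) = g := by
  have h : (iotaHom a).comp (iotaHom a) = MonoidHom.id _ := by
    ext x
    by_cases hx : x = a <;> simp [iotaHom, hx]
  exact DFunLike.congr_fun h g

/-- the automorphism inverting the letter `a` -/
def iota (a : α) : MulAut (FreeGroup α) where
  toFun := iotaHom a
  invFun := iotaHom a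
  left_inv := iotaHom_iotaHom a
  right_inv := iotaHom_iotaHom a
  map_mul' := fun x y => map_mul _ x y

theorem iota_self (a : α) : iota a (FreeGroup.of a) = (FreeGroup.of a)⁻¹ := by
  show iotaHom a (FreeGroup.of a) = _
  simp [iotaHom]

theorem iota_ne {a x : α} (h : x ≠ a) : iota a (FreeGroup.of x) = FreeGroup.of x := by
  show iotaHom a (FreeGroup.of x) = _
  simp [iotaHom, h]

theorem iota_inv (a : α) : (iota a)⁻¹ = iota a := rfl

theorem iota_sq (a : α) : iota a * iota a = 1 := by
  have := mul_inv_cancel (iota a)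
  rwa [iota_inv] at this

theorem iota_fix {S : Finset α} {a : α} (ha : a ∉ S) {g : FreeGroup α} (hg : g ∈ fsub S) :
    iota a g = g := by
  unfold fsub at hg
  induction hg using Subgroup.closure_induction with
  | mem y hy =>
    obtain ⟨x, hx, rfl⟩ := hy
    have hxa : x ≠ a := fun h => ha (h ▸ hx)
    exact iota_ne hxa
  | one => exact map_one _
  | mul x y _ _ hx hy => rw [map_mul, hx, hy]
  | inv x _ hx => rw [map_inv, hx]

/-- `iota a` commutes with the automorphisms in `StabS S`, `a ∉ S` -/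
theorem iota_comm {S : Finset α} {a : α} (ha : a ∉ S) {h : MulAut (FreeGroup α)}
    (hh : h ∈ StabS S) : iota a * h = h * iota a := by
  refine aut_ext' fun x => ?_
  rw [MulAut.mul_apply, MulAut.mul_apply]
  by_cases hx : x ∈ S
  · have hxa : x ≠ a := fun h' => ha (h' ▸ hx)
    rw [iota_ne hxa, iota_fix ha (StabS_map hh (of_mem_fsub hx))]
  · rw [StabS_fix hh hx]
    by_cases hxa : x = a
    · subst hxa
      rw [iota_self, map_inv, StabS_fix hh hx]
    · rw [iota_ne hxa, StabS_fix hh hx]

/-- left and right multiplications commute -/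
theorem R_iota_comm {S : Finset α} {a : α} (ha : a ∉ S) {g g' : FreeGroup α}
    (hg : g ∈ fsub S) (hg' : g' ∈ fsub S) :
    R a g * (iota a * R a g' * (iota a)⁻¹) = (iota a * R a g' * (iota a)⁻¹) * R a g := by
  have e1 : ∀ x ≠ a, (iota a * R a g' * (iota a)⁻¹) (FreeGroup.of x) = FreeGroup.of x := by
    intro x hx
    rw [MulAut.mul_apply, MulAut.mul_apply, iota_inv, iota_ne hx, R_of_ne hx, iota_ne hx]
  have e2 : ∀ y ∈ fsub S, (iota a * R a g' * (iota a)⁻¹) y = y := by
    intro y hy
    rw [MulAut.mul_apply, MulAut.mul_apply, iota_inv, iota_fix ha hy, R_fix ha hy,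
      iota_fix ha hy]
  have e3 : (iota a * R a g' * (iota a)⁻¹) (FreeGroup.of a) = g'⁻¹ * FreeGroup.of a := by
    rw [MulAut.mul_apply, MulAut.mul_apply, iota_inv, iota_self, map_inv, R_of_self,
      kill_eq hg' ha, mul_inv_rev, map_mul, map_inv, map_inv, iota_self, iota_fix ha hg',
      inv_inv]
  generalize iota a * R a g' * (iota a)⁻¹ = L at e1 e2 e3 ⊢
  refine aut_ext' fun x => ?_
  rw [MulAut.mul_apply, MulAut.mul_apply]
  by_cases hxa : x = a
  · subst hxa
    rw [e3, map_mul, map_inv, R_fix ha hg', R_of_self, kill_eq hg ha, map_mul, e3, e2 g hg,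
      mul_assoc]
  · rw [e1 x hxa, R_of_ne hxa, e1 x hxa]

/-- moving the end of the letter `c` across the letter `a`: first relation -/
theorem slide1 {S : Finset α} {a c : α} (hac : a ≠ c) (ha : a ∉ S) (hc : c ∉ S)
    {w : FreeGroup α} (hw : w ∈ fsub S) :
    (R c (FreeGroup.of a))⁻¹ * R a w * R c (FreeGroup.of a) = R a w * R c w := by
  have hka : kill c (FreeGroup.of a) = FreeGroup.of a := by simp [kill, hac]
  have e1 : R c (FreeGroup.of a) (FreeGroup.of c) = FreeGroup.of c * FreeGroup.of a := by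
    rw [R_of_self, hka]
  have hkai : kill c (FreeGroup.of a)⁻¹ = (FreeGroup.of a)⁻¹ := by rw [map_inv, hka]
  have e2 : (R c (FreeGroup.of a))⁻¹ (FreeGroup.of c) =
      FreeGroup.of c * (FreeGroup.of a)⁻¹ := by
    rw [← map_inv, R_of_self, hkai]
  have e3 : ∀ x ≠ c, (R c (FreeGroup.of a))⁻¹ (FreeGroup.of x) = FreeGroup.of x := by
    intro x hx
    rw [← map_inv, R_of_ne hx]
  have e4 : ∀ g ∈ fsub S, (R c (FreeGroup.of a))⁻¹ g = g := by
    intro g hg
    rw [← map_inv, R_fix hc hg]
  have ew : R c w (FreeGroup.of c) = FreeGroup.of c * w := by rw [R_of_self, kill_eq hw hc]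
  have ewa : R a w (FreeGroup.of a) = FreeGroup.of a * w := by rw [R_of_self, kill_eq hw ha]
  refine aut_ext' fun x => ?_
  rw [MulAut.mul_apply, MulAut.mul_apply, MulAut.mul_apply]
  by_cases hxa : x = a
  · subst hxa
    rw [R_of_ne hac, ewa, map_mul, e3 x hac, e4 w hw, R_of_ne hac, ewa]
  · by_cases hxc : x = c
    · subst hxc
      rw [e1, map_mul, R_of_ne hxa, ewa, map_mul, map_mul, e2, e3 a hac, e4 w hw, ew, map_mul,
        R_of_ne hxa, R_fix ha hw]
      group
    · rw [R_of_ne hxc, R_of_ne hxa, e3 x hxc, R_of_ne hxc, R_of_ne hxa]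

/-- moving the end of the letter `c` across the letter `a`: second relation -/
theorem slide2 {S : Finset α} {a c : α} (hac : a ≠ c) (ha : a ∉ S) (hc : c ∉ S)
    {w : FreeGroup α} (hw : w ∈ fsub S) :
    R c (FreeGroup.of a) * (iota a * R a w * (iota a)⁻¹) * (R c (FreeGroup.of a))⁻¹ =
      (iota a * R a w * (iota a)⁻¹) * R c w := by
  have hka : kill c (FreeGroup.of a) = FreeGroup.of a := by simp [kill, hac]
  have e1 : R c (FreeGroup.of a) (FreeGroup.of c) = FreeGroup.of c * FreeGroup.of a := by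
    rw [R_of_self, hka]
  have hkai : kill c (FreeGroup.of a)⁻¹ = (FreeGroup.of a)⁻¹ := by rw [map_inv, hka]
  have e2 : (R c (FreeGroup.of a))⁻¹ (FreeGroup.of c) =
      FreeGroup.of c * (FreeGroup.of a)⁻¹ := by
    rw [← map_inv, R_of_self, hkai]
  have e3 : ∀ x ≠ c, (R c (FreeGroup.of a))⁻¹ (FreeGroup.of x) = FreeGroup.of x := by
    intro x hx
    rw [← map_inv, R_of_ne hx]
  have l1 : ∀ x ≠ a, (iota a * R a w * (iota a)⁻¹) (FreeGroup.of x) = FreeGroup.of x := by
    intro x hx
    rw [MulAut.mul_apply, MulAut.mul_apply, iota_inv, iota_ne hx, R_of_ne hx, iota_ne hx]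
  have l2 : ∀ y ∈ fsub S, (iota a * R a w * (iota a)⁻¹) y = y := by
    intro y hy
    rw [MulAut.mul_apply, MulAut.mul_apply, iota_inv, iota_fix ha hy, R_fix ha hy,
      iota_fix ha hy]
  have l3 : (iota a * R a w * (iota a)⁻¹) (FreeGroup.of a) = w⁻¹ * FreeGroup.of a := by
    rw [MulAut.mul_apply, MulAut.mul_apply, iota_inv, iota_self, map_inv, R_of_self,
      kill_eq hw ha, mul_inv_rev, map_mul, map_inv, map_inv, iota_self, iota_fix ha hw,
      inv_inv]
  have ew : R c w (FreeGroup.of c) = FreeGroup.of c * w := by rw [R_of_self, kill_eq hw hc]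
  generalize iota a * R a w * (iota a)⁻¹ = L at l1 l2 l3 ⊢
  refine aut_ext' fun x => ?_
  rw [MulAut.mul_apply, MulAut.mul_apply, MulAut.mul_apply]
  by_cases hxa : x = a
  · subst hxa
    rw [e3 x hac, l3, map_mul, map_inv, R_fix hc hw, R_of_ne hac, R_of_ne hac, l3]
  · by_cases hxc : x = c
    · subst hxc
      rw [e2, map_mul, map_inv, l1 x hxa, l3, map_mul, e1, map_inv, map_mul, map_inv,
        R_fix hc hw, R_of_ne hac, ew, map_mul, l1 x hxa, l2 w hw]
      group
    · rw [e3 x hxc, l1 x hxa, R_of_ne hxc, R_of_ne hxc, l1 x hxa]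

end AFn
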