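import Mathlib
import Pool.Agent.AFn.Defs
import Pool.Agent.AFn.Basic
import Pool.Agent.AFn.RepLib
import Pool.Agent.AFn.Iota

set_option autoImplicit false

namespace AFn

universe u v

variable {α : Type u} [DecidableEq α]

/-- the left multiplication at the letter `x` -/
def Lw (x : α) (w : FreeGroup α) : MulAut (FreeGroup α) := iota x * R x w * (iota x)⁻¹

theorem iota_R_comm {W : Finset α} {x y : α} (hxy : x ≠ y) (hx : x ∉ W) (hy : y ∉ W)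
    {w : FreeGroup α} (hw : w ∈ fsub W) : iota x * R y w = R y w * iota x := by
  have h1 : x ∉ insert y W := by
    rw [Finset.mem_insert]
    rintro (h | h)
    · exact hxy h
    · exact hx h
  have h2 : W ⊆ (insert y W).erase y := fun z hz => Finset.mem_erase.mpr
    ⟨fun h => hy (h ▸ hz), Finset.mem_insert_of_mem hz⟩
  exact iota_comm h1 (R_mem_StabS (Finset.mem_insert_self y W) (fsub_mono h2 hw))

/-- sliding the letter `c` around the letter `a` -/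
theorem slide_or {H : Subgroup (MulAut (FreeGroup α))} {K : Subgroup (FreeGroup α)}
    (hc : Ctx H K) {V : Type v} [AddCommGroup V] [Module ℂ V]
    (σ : MulAut (FreeGroup α) → Module.End ℂ V) (hσ : IsRepOn H σ) {W : Finset α} {a c : α}
    (hac : a ≠ c) (ha : a ∉ W) (hcW : c ∉ W) {w : FreeGroup α} (hwK : w ∈ K) (hw : w ∈ fsub W)
    (hstar : ∀ φ : MulAut (FreeGroup α), σ (φ * R a w * φ⁻¹) = 1 ∨ σ (φ * Lw a w * φ⁻¹) = 1)
    (φ : MulAut (FreeGroup α)) (h0 : σ (φ * Lw a w * φ⁻¹) = 1) :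
    σ (φ * R a w * φ⁻¹) * σ (φ * R c w * φ⁻¹) = 1 ∨ σ (φ * R c w * φ⁻¹) = 1 := by
  by_contra hcon
  push Not at hcon
  obtain ⟨hn1, hn2⟩ := hcon
  obtain ⟨t, ht⟩ : ∃ t : MulAut (FreeGroup α), t = R c (FreeGroup.of a) := ⟨_, rfl⟩
  have hRa : R a w ∈ H := hc.RH a w hwK
  have hRc : R c w ∈ H := hc.RH c w hwK
  have hLa : Lw a w ∈ H := hc.Hn.conj_mem _ hRa _
  have hmul : ∀ ψ X Y : MulAut (FreeGroup α), X ∈ H → Y ∈ H →
      σ (ψ * (X * Y) * ψ⁻¹) = σ (ψ * X * ψ⁻¹) * σ (ψ * Y * ψ⁻¹) := by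
    intro ψ X Y hX hY
    rw [← hσ.mul _ (hc.Hn.conj_mem _ hX ψ) _ (hc.Hn.conj_mem _ hY ψ)]
    congr 1
    simp only [mul_assoc, inv_mul_cancel_left]
  have s1 : t⁻¹ * R a w * t = R a w * R c w := by rw [ht]; exact slide1 hac ha hcW hw
  have s2 : t * Lw a w * t⁻¹ = Lw a w * R c w := by rw [ht]; exact slide2 hac ha hcW hw
  have cRc : R a w * R c w = R c w * R a w := R_comm hac ha hcW hw hw
  have cLc : Lw a w * R c w = R c w * Lw a w := by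
    have e1 : iota a * R c w = R c w * iota a := iota_R_comm hac ha hcW hw
    have e2 : (iota a)⁻¹ * R c w = R c w * (iota a)⁻¹ := by rw [iota_inv]; exact e1
    unfold Lw
    calc iota a * R a w * (iota a)⁻¹ * R c w = iota a * R a w * ((iota a)⁻¹ * R c w) := by
          simp only [mul_assoc]
      _ = iota a * (R a w * R c w) * (iota a)⁻¹ := by rw [e2]; simp only [mul_assoc]
      _ = (iota a * R c w) * R a w * (iota a)⁻¹ := by rw [cRc]; simp only [mul_assoc]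
      _ = R c w * (iota a * R a w * (iota a)⁻¹) := by rw [e1]; simp only [mul_assoc]
  have hcomm : ∀ ψ X Y : MulAut (FreeGroup α), X ∈ H → Y ∈ H → X * Y = Y * X →
      σ (ψ * X * ψ⁻¹) * σ (ψ * Y * ψ⁻¹) = σ (ψ * Y * ψ⁻¹) * σ (ψ * X * ψ⁻¹) := by
    intro ψ X Y hX hY h
    rw [← hmul _ _ _ hX hY, h, hmul _ _ _ hY hX]
  -- the two relations
  have r1 : ∀ ψ : MulAut (FreeGroup α), σ (ψ * R a w * ψ⁻¹) =
      σ (ψ * t * R a w * (ψ * t)⁻¹) * σ (ψ * t * R c w * (ψ * t)⁻¹) := by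
    intro ψ
    have e1 : ψ * R a w * ψ⁻¹ = ψ * t * (R a w * R c w) * (ψ * t)⁻¹ := by
      rw [← s1]
      simp only [mul_assoc, mul_inv_rev, mul_inv_cancel_left]
    rw [← hmul _ _ _ hRa hRc, e1]
  have r2 : ∀ ψ : MulAut (FreeGroup α), σ (ψ * t * Lw a w * (ψ * t)⁻¹) =
      σ (ψ * Lw a w * ψ⁻¹) * σ (ψ * R c w * ψ⁻¹) := by
    intro ψ
    have e1 : ψ * t * Lw a w * (ψ * t)⁻¹ = ψ * (Lw a w * R c w) * ψ⁻¹ := by
      rw [← s2]
      simp only [mul_assoc, mul_inv_rev]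
    rw [← hmul _ _ _ hLa hRc, e1]
  -- the invariant
  have hstep : ∀ ψ : MulAut (FreeGroup α),
      σ (ψ * t * R a w * (ψ * t)⁻¹) * σ (ψ * t * Lw a w * (ψ * t)⁻¹) *
        σ (ψ * t * R c w * (ψ * t)⁻¹) =
      σ (ψ * R a w * ψ⁻¹) * σ (ψ * t * Lw a w * (ψ * t)⁻¹) := by
    intro ψ
    rw [r1 ψ, mul_assoc, hcomm _ _ _ hLa hRc cLc, ← mul_assoc]
  have hγ : ∀ j : ℕ, σ (φ * t ^ j * R a w * (φ * t ^ j)⁻¹) *
      σ (φ * t ^ j * Lw a w * (φ * t ^ j)⁻¹) * σ (φ * t ^ j * R c w * (φ * t ^ j)⁻¹) =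
      σ (φ * R a w * φ⁻¹) * σ (φ * R c w * φ⁻¹) := by
    intro j
    induction j with
    | zero => rw [pow_zero, mul_one, h0, mul_one]
    | succ j ih =>
      rw [← ih, pow_succ, ← mul_assoc φ, hstep, r2 (φ * t ^ j), ← mul_assoc]
  -- going down
  have hdown : ∀ j : ℕ, σ (φ * t ^ (j + 1) * Lw a w * (φ * t ^ (j + 1))⁻¹) = 1 →
      σ (φ * t ^ j * Lw a w * (φ * t ^ j)⁻¹) = 1 := by
    intro j hj
    rcases hstar (φ * t ^ j) with h1 | h1
    · exfalso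
      have h2 := hγ (j + 1)
      rw [pow_succ, ← mul_assoc φ] at h2 hj
      rw [hstep, hj, mul_one, h1] at h2
      exact hn1 h2.symm
    · exact h1
  have hdown2 : ∀ i : ℕ, σ (φ * t ^ (i + 1) * Lw a w * (φ * t ^ (i + 1))⁻¹) = 1 →
      σ (φ * t ^ 1 * Lw a w * (φ * t ^ 1)⁻¹) = 1 := by
    intro i
    induction i with
    | zero => exact fun h => h
    | succ i ih => exact fun h => ih (hdown (i + 1) h)
  -- the power of `t` in `H`
  obtain ⟨k, hk0, -, hk⟩ := Subgroup.exists_pow_mem_of_index_ne_zero hc.Kf.index_ne_zero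
    (FreeGroup.of a)
  obtain ⟨i, rfl⟩ : ∃ i, k = i + 1 := ⟨k - 1, by omega⟩
  have htk : t ^ (i + 1) ∈ H := by
    rw [ht, ← map_pow]
    exact hc.RH c _ hk
  have hend : σ (φ * t ^ (i + 1) * Lw a w * (φ * t ^ (i + 1))⁻¹) = 1 := by
    have e1 : φ * t ^ (i + 1) * Lw a w * (φ * t ^ (i + 1))⁻¹ =
        (φ * t ^ (i + 1) * φ⁻¹) * (φ * Lw a w * φ⁻¹) * (φ * t ^ (i + 1) * φ⁻¹)⁻¹ := by
      simp only [mul_assoc, mul_inv_rev, inv_mul_cancel_left, inv_inv]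
    have hm : φ * t ^ (i + 1) * φ⁻¹ ∈ H := hc.Hn.conj_mem _ htk φ
    rw [e1, hσ.conj hm (hc.Hn.conj_mem _ hLa φ), h0, mul_one, hσ.mul_inv hm]
  have h3 := hdown2 i hend
  rw [pow_one, r2 φ, h0, one_mul] at h3
  exact hn2 h3

/-- a unipotent involution is trivial -/
theorem unip_sq {V : Type v} [AddCommGroup V] [Module ℂ V] {A : Module.End ℂ V}
    (h : IsNilpotent (A - 1)) (h2 : A * A = 1) : A = 1 := by
  obtain ⟨k, hk⟩ := h
  have h3 : (A - 1) * (A - 1) = (-2 : ℂ) • (A - 1) := by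
    rw [mul_sub, sub_mul, h2, mul_one, one_mul, smul_sub, neg_smul, neg_smul, two_smul, two_smul]
    abel
  have h4 : ∀ j : ℕ, (A - 1) ^ (j + 1) = ((-2 : ℂ) ^ j) • (A - 1) := by
    intro j
    induction j with
    | zero => simp
    | succ j ih =>
      rw [pow_succ, ih, smul_mul_assoc, h3, smul_smul, pow_succ]
  have h5 : (A - 1) ^ (k + 1) = 0 := by rw [pow_succ, hk, zero_mul]
  rw [h4 k] at h5
  rcases smul_eq_zero.mp h5 with h6 | h6
  · exact absurd h6 (pow_ne_zero k (by norm_num))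
  · exact sub_eq_zero.mp h6

/-- three letters: all transvections are trivial -/
theorem pattern {H : Subgroup (MulAut (FreeGroup α))} {K : Subgroup (FreeGroup α)}
    (hc : Ctx H K) {V : Type v} [AddCommGroup V] [Module ℂ V]
    (σ : MulAut (FreeGroup α) → Module.End ℂ V) (hσ : IsRepOn H σ) {W : Finset α}
    {a c c' : α} (hac : a ≠ c) (hac' : a ≠ c') (hcc' : c ≠ c') (ha : a ∉ W) (hcW : c ∉ W)
    (hcW' : c' ∉ W) {w : FreeGroup α} (hwK : w ∈ K) (hw : w ∈ fsub W)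
    (hstar : ∀ x ∉ W, ∀ φ : MulAut (FreeGroup α),
      σ (φ * R x w * φ⁻¹) = 1 ∨ σ (φ * Lw x w * φ⁻¹) = 1)
    (hu : ∀ x ∉ W, ∀ φ : MulAut (FreeGroup α), IsNilpotent (σ (φ * R x w * φ⁻¹) - 1))
    (φ : MulAut (FreeGroup α)) : σ (φ * R a w * φ⁻¹) = 1 := by
  by_contra hne
  -- changing the sign at the letter `x`
  have move : ∀ x y : α, x ≠ y → x ∉ W → y ∉ W → ∀ ψ : MulAut (FreeGroup α),
      σ (ψ * R y w * ψ⁻¹) ≠ 1 → ∃ ψ' : MulAut (FreeGroup α), σ (ψ' * R x w * ψ'⁻¹) ≠ 1 ∧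
        ∀ z, z ≠ x → z ∉ W → ψ' * R z w * ψ'⁻¹ = ψ * R z w * ψ⁻¹ := by
    intro x y hxy hx hy ψ hψ
    by_cases h1 : σ (ψ * R x w * ψ⁻¹) = 1
    · refine ⟨ψ * iota x, ?_, ?_⟩
      · have e1 : ψ * iota x * R x w * (ψ * iota x)⁻¹ = ψ * Lw x w * ψ⁻¹ := by
          unfold Lw
          simp only [mul_assoc, mul_inv_rev]
        rw [e1]
        intro h2
        rcases slide_or hc σ hσ hxy hx hy hwK hw (hstar x hx) ψ h2 with h3 | h3
        · rw [h1, one_mul] at h3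
          exact hψ h3
        · exact hψ h3
      · intro z hz hzW
        have e2 := iota_R_comm (Ne.symm hz) hx hzW hw
        calc ψ * iota x * R z w * (ψ * iota x)⁻¹ = ψ * (iota x * R z w) * (iota x)⁻¹ * ψ⁻¹ := by
              simp only [mul_assoc, mul_inv_rev]
          _ = ψ * R z w * ψ⁻¹ := by
              rw [e2]; simp only [mul_assoc, mul_inv_cancel_left]
    · exact ⟨ψ, h1, fun z _ _ => rfl⟩
  obtain ⟨φ1, h1, h1'⟩ := move c a hac.symm hcW ha φ hne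
  have h1a : σ (φ1 * R a w * φ1⁻¹) ≠ 1 := by rw [h1' a hac ha]; exact hne
  obtain ⟨φ2, h2, h2'⟩ := move c' a hac'.symm hcW' ha φ1 h1a
  have h2a : σ (φ2 * R a w * φ2⁻¹) ≠ 1 := by rw [h2' a hac' ha]; exact h1a
  have h2c : σ (φ2 * R c w * φ2⁻¹) ≠ 1 := by rw [h2' c hcc' hcW]; exact h1
  have e1 : σ (φ2 * R a w * φ2⁻¹) * σ (φ2 * R c w * φ2⁻¹) = 1 :=
    (slide_or hc σ hσ hac ha hcW hwK hw (hstar a ha) φ2
      ((hstar a ha φ2).resolve_left h2a)).resolve_right h2c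
  have e2 : σ (φ2 * R a w * φ2⁻¹) * σ (φ2 * R c' w * φ2⁻¹) = 1 :=
    (slide_or hc σ hσ hac' ha hcW' hwK hw (hstar a ha) φ2
      ((hstar a ha φ2).resolve_left h2a)).resolve_right h2
  have e3 : σ (φ2 * R c w * φ2⁻¹) * σ (φ2 * R c' w * φ2⁻¹) = 1 :=
    (slide_or hc σ hσ hcc' hcW hcW' hwK hw (hstar c hcW) φ2
      ((hstar c hcW φ2).resolve_left h2c)).resolve_right h2
  have hm : φ2 * R a w * φ2⁻¹ ∈ H := hc.Hn.conj_mem _ (hc.RH a w hwK) φ2
  have e4 : σ (φ2 * R c w * φ2⁻¹) = σ (φ2 * R c' w * φ2⁻¹) := by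
    calc σ (φ2 * R c w * φ2⁻¹) =
        σ (φ2 * R a w * φ2⁻¹)⁻¹ * (σ (φ2 * R a w * φ2⁻¹) * σ (φ2 * R c w * φ2⁻¹)) := by
          rw [← mul_assoc, hσ.inv_mul hm, one_mul]
      _ = σ (φ2 * R a w * φ2⁻¹)⁻¹ * (σ (φ2 * R a w * φ2⁻¹) * σ (φ2 * R c' w * φ2⁻¹)) := by
          rw [e1, e2]
      _ = σ (φ2 * R c' w * φ2⁻¹) := by
          rw [← mul_assoc, hσ.inv_mul hm, one_mul]
  rw [← e4] at e3
  exact h2c (unip_sq (hu c hcW φ2) e3)

end AFn
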