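import Mathlib
import Pool.Agent.AFn.Defs
import Pool.Agent.AFn.Basic
import Pool.Agent.AFn.RepLib
import Pool.Agent.AFn.Kolchin
import Pool.Agent.AFn.Core
import Pool.Agent.AFn.Stage2g
import Pool.Agent.AFn.RankOne
import Pool.Agent.AFn.Iota

set_option autoImplicit false

namespace AFn

universe u v

variable {α : Type u} [DecidableEq α]

/-- a unipotent operator commuting with an operator of rank one acts trivially on the image
and modulo the kernel -/
theorem rank1_comm {V : Type v} [AddCommGroup V] [Module ℂ V] [FiniteDimensional ℂ V]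
    {A N : Module.End ℂ V} (hA : IsNilpotent (A - 1)) {e : V} {l : Module.Dual ℂ V}
    (hN : ∀ x, N x = l x • e) (hcomm : A * N = N * A) :
    (∀ x, A (N x) = N x) ∧ (∀ x, N (A x - x) = 0) := by
  have hc : ∀ x, A (N x) = N (A x) := fun x => DFunLike.congr_fun hcomm x
  by_cases h0 : ∀ x, N x = 0
  · exact ⟨fun x => by rw [h0, map_zero], fun x => h0 _⟩
  push Not at h0
  obtain ⟨x1, hx1⟩ := h0
  have hl1 : l x1 ≠ 0 := by
    intro h
    rw [hN, h, zero_smul] at hx1
    exact hx1 rfl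
  have he : e ≠ 0 := by
    intro h
    rw [hN, h, smul_zero] at hx1
    exact hx1 rfl
  obtain ⟨μ, hμ⟩ : ∃ μ : ℂ, A e = μ • e := by
    have h1 := hc x1
    rw [hN, hN, map_smul] at h1
    refine ⟨(l x1)⁻¹ * l (A x1), ?_⟩
    rw [mul_smul, ← h1, smul_smul, inv_mul_cancel₀ hl1, one_smul]
  have hμ1 : μ = 1 := by
    obtain ⟨k, hk⟩ := hA
    have h2 : ∀ j : ℕ, ((A - 1) ^ j) e = (μ - 1) ^ j • e := by
      intro j
      induction j with
      | zero => simp
      | succ j ih =>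
        rw [pow_succ', Module.End.mul_apply, ih, map_smul, LinearMap.sub_apply,
          Module.End.one_apply, hμ, pow_succ, mul_smul, sub_smul, one_smul]
    have h3 := h2 k
    rw [hk, LinearMap.zero_apply] at h3
    rcases smul_eq_zero.mp h3.symm with h4 | h4
    · by_contra h5
      exact pow_ne_zero k (sub_ne_zero.mpr h5) h4
    · exact absurd h4 he
  have hAe : A e = e := by rw [hμ, hμ1, one_smul]
  have h5 : ∀ x, A (N x) = N x := fun x => by rw [hN, map_smul, hAe]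
  refine ⟨h5, fun x => ?_⟩
  rw [map_sub, ← hc, h5, sub_self]

/-- in the critical dimension, the left or the right transvection is trivial -/
theorem star [Fintype α] {H : Subgroup (MulAut (FreeGroup α))} {K : Subgroup (FreeGroup α)}
    (hc : Ctx H K) (r : ℕ) (hr : 1 ≤ r)
    (V : Type v) [AddCommGroup V] [Module ℂ V] [FiniteDimensional ℂ V]
    (σ : MulAut (FreeGroup α) → Module.End ℂ V) (hσ : IsRepOn H σ)
    (hT3 : ∀ (φ : MulAut (FreeGroup α)) (x : α) (W : Finset α), x ∉ W →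
      W.card + 3 ≤ Fintype.card α → ∀ w ∈ K, w ∈ fsub W →
      IsNilpotent (σ (φ * R x w * φ⁻¹) - 1))
    (hTD : ∀ (φ : MulAut (FreeGroup α)) (x : α) (S : Finset α), x ∉ S →
      S.card + 2 = Fintype.card α → ∀ d ∈ DS K S, IsNilpotent (σ (φ * R x d * φ⁻¹) - 1))
    (hd : Module.finrank ℂ V + r + 1 ≤ Fintype.card α) (hd2 : 2 ≤ Module.finrank ℂ V)
    (hdet : Module.finrank ℂ V = 2 → ∀ h ∈ H, ∀ N : Module.End ℂ V, N ≠ 0 →
      IsNilpotent N → σ h * N = N * σ h → IsNilpotent (σ h - 1))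
    (a : α) (W : Finset α) (haW : a ∉ W) (hWr : W.card ≤ r) (w : FreeGroup α) (hwK : w ∈ K)
    (hw : w ∈ fsub W) : σ (R a w) = 1 ∨ σ (iota a * R a w * (iota a)⁻¹) = 1 := by
  classical
  by_contra hcon
  push Not at hcon
  obtain ⟨hf1, hf2⟩ := hcon
  obtain ⟨S1, hS1⟩ : ∃ S1 : Finset α, S1 = Finset.univ.erase a := ⟨_, rfl⟩
  have haS1 : a ∉ S1 := by rw [hS1]; exact Finset.notMem_erase _ _
  have hS1card : S1.card = Fintype.card α - 1 := by
    rw [hS1, Finset.card_erase_of_mem (Finset.mem_univ _), Finset.card_univ]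
  have hmemS1 : ∀ x, x ≠ a → x ∈ S1 := fun x hx => by
    rw [hS1]; exact Finset.mem_erase.mpr ⟨hx, Finset.mem_univ _⟩
  have hWS1 : W ⊆ S1 := fun x hx => hmemS1 x (fun h => haW (h ▸ hx))
  have hcard : r + 3 ≤ Fintype.card α := by omega
  -- notation
  obtain ⟨f, hf⟩ : ∃ f : FreeGroup α → Module.End ℂ V, f = fun g => σ (R a g) := ⟨_, rfl⟩
  obtain ⟨f', hf'⟩ : ∃ f' : FreeGroup α → Module.End ℂ V,
      f' = fun g => σ (iota a * R a g * (iota a)⁻¹) := ⟨_, rfl⟩
  have hfx : ∀ g, f g = σ (R a g) := fun g => by rw [hf]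
  have hf'x : ∀ g, f' g = σ (iota a * R a g * (iota a)⁻¹) := fun g => by rw [hf']
  have hRH : ∀ g ∈ K ⊓ fsub S1, R a g ∈ H := fun g hg => hc.RH a g hg.1
  have hRH' : ∀ g ∈ K ⊓ fsub S1, iota a * R a g * (iota a)⁻¹ ∈ H := fun g hg =>
    hc.Hn.conj_mem _ (hc.RH a g hg.1) _
  have hrf : IsRepOn (K ⊓ fsub S1) f := by
    refine ⟨by rw [hfx, map_one]; exact hσ.one, fun g hg h hh => ?_⟩
    rw [hfx, hfx, hfx, map_mul]
    exact hσ.mul _ (hRH g hg) _ (hRH h hh)
  have hrf' : IsRepOn (K ⊓ fsub S1) f' := by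
    refine ⟨by rw [hf'x, map_one, mul_one, mul_inv_cancel]; exact hσ.one,
      fun g hg h hh => ?_⟩
    rw [hf'x, hf'x, hf'x, map_mul, ← hσ.mul _ (hRH' g hg) _ (hRH' h hh)]
    congr 1
    group
  -- `f` and `f'` commute
  have hff' : ∀ g ∈ K ⊓ fsub S1, ∀ g' ∈ K ⊓ fsub S1, f g * f' g' = f' g' * f g := by
    intro g hg g' hg'
    rw [hfx, hf'x, ← hσ.mul _ (hRH g hg) _ (hRH' g' hg'),
      ← hσ.mul _ (hRH' g' hg') _ (hRH g hg), R_iota_comm haS1 hg.2 hg'.2]
  -- equivariance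
  have hconj : ∀ h ∈ H ⊓ StabS S1, ∀ g ∈ K ⊓ fsub S1, f g * σ h = σ h * f (h⁻¹ g) := by
    intro h hh g hg
    have hgi : h⁻¹ g ∈ K ⊓ fsub S1 := ⟨hc.Kc _ g hg.1, StabS_map (inv_mem hh.2) hg.2⟩
    rw [hfx, hfx, ← hσ.mul _ (hRH g hg) _ hh.1, ← hσ.mul _ hh.1 _ (hRH _ hgi)]
    congr 1
    rw [← conj_R (inv_mem hh.2) haS1 hg.2]
    group
  have hconj' : ∀ h ∈ H ⊓ StabS S1, ∀ g ∈ K ⊓ fsub S1,
      f' g * σ h = σ h * f' (h⁻¹ g) := by
    intro h hh g hg
    have hgi : h⁻¹ g ∈ K ⊓ fsub S1 := ⟨hc.Kc _ g hg.1, StabS_map (inv_mem hh.2) hg.2⟩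
    rw [hf'x, hf'x, ← hσ.mul _ (hRH' g hg) _ hh.1, ← hσ.mul _ hh.1 _ (hRH' _ hgi)]
    congr 1
    rw [← conj_R (inv_mem hh.2) haS1 hg.2]
    have e1 : (iota a)⁻¹ * h = h * (iota a)⁻¹ := by
      rw [iota_inv]; exact iota_comm haS1 hh.2
    have e2 : iota a * h⁻¹ = h⁻¹ * iota a := iota_comm haS1 (inv_mem hh.2)
    have e3 : h * (iota a * h⁻¹) = iota a := by rw [e2, mul_inv_cancel_left]
    calc iota a * R a g * (iota a)⁻¹ * h = iota a * R a g * ((iota a)⁻¹ * h) := by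
          simp only [mul_assoc]
      _ = iota a * R a g * (h * (iota a)⁻¹) := by rw [e1]
      _ = h * (iota a * h⁻¹) * R a g * (h * (iota a)⁻¹) := by rw [e3]
      _ = h * (iota a * (h⁻¹ * R a g * h⁻¹⁻¹) * (iota a)⁻¹) := by
          simp only [mul_assoc, inv_inv]
  have hconjg : ∀ g ∈ K ⊓ fsub S1, ∀ m ∈ K ⊓ fsub S1,
      f' m * f' g = f' g * f' (g⁻¹ * m * g) := by
    intro g hg m hm
    have h1 : g⁻¹ * m * g ∈ K ⊓ fsub S1 := mul_mem (mul_mem (inv_mem hg) hm) hg
    rw [← hrf'.mul m hm g hg, ← hrf'.mul g hg _ h1]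
    congr 1
    group
  -- the set of elements of rank at most `r`
  have hXm : ∀ m ∈ XS K r S1, m ∈ K ⊓ fsub S1 := fun m hm => XS_mem hc hm
  -- facts on the twists
  have hS : ∀ W' : Finset α, W' ⊆ S1 → W'.card ≤ r → ∃ c ∈ S1, c ∉ W' ∧ W' ⊆ S1.erase c ∧
      (S1.erase c).card + 2 = Fintype.card α ∧ a ∉ S1.erase c := by
    intro W' hW' hW'r
    have hcex : ∃ c ∈ S1, c ∉ W' := by
      by_contra h
      push Not at h
      have := Finset.card_le_card (show S1 ⊆ W' from h)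
      omega
    obtain ⟨c, hcS, hcW⟩ := hcex
    refine ⟨c, hcS, hcW, fun x hx => Finset.mem_erase.mpr ⟨fun h => hcW (h ▸ hx), hW' hx⟩,
      ?_, fun h => haS1 (Finset.mem_of_mem_erase h)⟩
    rw [Finset.card_erase_of_mem hcS]
    omega
  have htw : ∀ φ : MulAut (FreeGroup α), IsRepOn H (fun g => σ (φ * g * φ⁻¹)) :=
    fun φ => hσ.twist φ (fun g hg => hc.Hn.conj_mem _ hg φ)
  have htwu : ∀ (φ : MulAut (FreeGroup α)) (S : Finset α), S.card + 2 = Fintype.card α →
      UnipOn K S (fun g => σ (φ * g * φ⁻¹)) := by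
    intro φ S hScard ψ hψ b hb w' hw'K hw'
    have h1 := hT3 (φ * ψ) b (S.erase b) (Finset.notMem_erase _ _)
      (by rw [Finset.card_erase_of_mem hb]; have := Finset.card_pos.mpr ⟨b, hb⟩; omega)
      w' hw'K hw'
    have h2 : φ * (ψ * R b w' * ψ⁻¹) * φ⁻¹ = φ * ψ * R b w' * (φ * ψ)⁻¹ := by
      rw [mul_inv_rev]; simp only [mul_assoc]
    show IsNilpotent (σ (φ * (ψ * R b w' * ψ⁻¹) * φ⁻¹) - 1)
    rw [h2]
    exact h1
  have hu0 : ∀ S : Finset α, S.card + 2 = Fintype.card α → UnipOn K S σ := by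
    intro S hScard
    have := htwu 1 S hScard
    simpa only [one_mul, inv_one, mul_one] using this
  have hf'tw : ∀ φ ∈ StabS S1, ∀ g ∈ fsub S1,
      σ (iota a * φ * R a g * (iota a * φ)⁻¹) = f' (φ g) := by
    intro φ hφ g hg
    have e1 : iota a * φ * R a g * (iota a * φ)⁻¹ =
        iota a * (φ * R a g * φ⁻¹) * (iota a)⁻¹ := by
      rw [mul_inv_rev]; simp only [mul_assoc]
    rw [hf'x, ← conj_R hφ haS1 hg, e1]
  have hftw : ∀ φ ∈ StabS S1, ∀ g ∈ fsub S1, σ (φ * R a g * φ⁻¹) = f (φ g) := by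
    intro φ hφ g hg
    rw [hfx, ← conj_R hφ haS1 hg]
  -- unipotence of the elements of rank at most `r`
  have hf'u : ∀ m ∈ XS K r S1, IsNilpotent (f' m - 1) := by
    rintro m ⟨φ, hφ, W', hW', hW'r, w0, hw0K, hw0, rfl⟩
    rw [← hf'tw φ hφ w0 (fsub_mono hW' hw0)]
    exact hT3 _ a W' (fun h => haS1 (hW' h)) (by omega) w0 hw0K hw0
  -- rank one
  have hf'r : ∀ m ∈ XS K r S1, ∃ (e : V) (l : Module.Dual ℂ V), ∀ x, (f' m - 1) x = l x • e := by
    rintro m ⟨φ, hφ, W', hW', hW'r, w0, hw0K, hw0, rfl⟩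
    obtain ⟨c, hcS, hcW, hWc, hScard, haS⟩ := hS W' hW' hW'r
    obtain ⟨e, l, hel⟩ := rank_le_one hc r hr (S1.erase c) a haS V
      (fun g => σ (iota a * φ * g * (iota a * φ)⁻¹)) (htw _) (htwu _ _ hScard)
      (fun d hd' => hTD _ a (S1.erase c) haS hScard d hd') (by omega) W' hWc hW'r w0 hw0K hw0
    refine ⟨e, l, fun x => ?_⟩
    have h1 := hel x
    rw [hf'tw φ hφ w0 (fsub_mono hW' hw0)] at h1
    exact h1
  have hfr : ∃ (e : V) (l : Module.Dual ℂ V), ∀ x, (f w - 1) x = l x • e := by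
    obtain ⟨c, hcS, hcW, hWc, hScard, haS⟩ := hS W hWS1 hWr
    obtain ⟨e, l, hel⟩ := rank_le_one hc r hr (S1.erase c) a haS V σ hσ (hu0 _ hScard)
      (fun d hd' => by
        have := hTD 1 a (S1.erase c) haS hScard d hd'
        simpa only [one_mul, inv_one, mul_one] using this) (by omega) W hWc hWr w hwK hw
    exact ⟨e, l, fun x => by rw [hfx]; exact hel x⟩
  have hwX : w ∈ XS K r S1 := ⟨1, one_mem _, W, hWS1, hWr, w, hwK, hw, rfl⟩
  have hwm : w ∈ K ⊓ fsub S1 := hXm w hwX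
  have hfw1 : f w ≠ 1 := by rw [hfx]; exact hf1
  have hf'w1 : f' w ≠ 1 := by rw [hf'x]; exact hf2
  -- the fixed vectors of `f'`
  let U : Submodule ℂ V :=
    { carrier := {x | ∀ m ∈ XS K r S1, f' m x = x}
      add_mem' := fun {x y} hx hy d hd => by rw [map_add, hx d hd, hy d hd]
      zero_mem' := fun d _ => map_zero _
      smul_mem' := fun k x hx d hd => by rw [map_smul, hx d hd] }
  have hU : ∀ x, x ∈ U ↔ ∀ m ∈ XS K r S1, f' m x = x := fun x => Iff.rfl
  let V' : Submodule ℂ V := Submodule.span ℂ {y | ∃ m ∈ XS K r S1, ∃ x, y = f' m x - x}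
  have hV' : ∀ m ∈ XS K r S1, ∀ x, f' m x - x ∈ V' :=
    fun m hm x => Submodule.subset_span ⟨m, hm, x, rfl⟩
  -- stability
  have hUh : ∀ h ∈ H ⊓ StabS S1, ∀ x ∈ U, σ h x ∈ U := by
    intro h hh x hx
    rw [hU]
    intro m hm
    have h1 := DFunLike.congr_fun (hconj' h hh m (hXm m hm)) x
    rw [Module.End.mul_apply, Module.End.mul_apply,
      (hU x).1 hx _ (XS_map hm (inv_mem hh.2))] at h1
    exact h1
  have hUf' : ∀ g ∈ K ⊓ fsub S1, ∀ x ∈ U, f' g x ∈ U := by
    intro g hg x hx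
    rw [hU]
    intro m hm
    have h1 := DFunLike.congr_fun (hconjg g hg m (hXm m hm)) x
    have h2 := XS_conj hm (inv_mem hg.2)
    rw [inv_inv] at h2
    rw [Module.End.mul_apply, Module.End.mul_apply, (hU x).1 hx _ h2] at h1
    exact h1
  have hUf : ∀ g ∈ K ⊓ fsub S1, ∀ x ∈ U, f g x ∈ U := by
    intro g hg x hx
    rw [hU]
    intro m hm
    have h1 := DFunLike.congr_fun (hff' g hg m (hXm m hm)) x
    rw [Module.End.mul_apply, Module.End.mul_apply, (hU x).1 hx m hm] at h1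
    exact h1.symm
  have hV'h : ∀ h ∈ H ⊓ StabS S1, ∀ x ∈ V', σ h x ∈ V' := by
    intro h hh x hx
    have h1 : V' ≤ V'.comap (σ h) := by
      rw [Submodule.span_le]
      rintro y ⟨m, hm, x, rfl⟩
      simp only [SetLike.mem_coe, Submodule.mem_comap, map_sub]
      have hm2 : h m ∈ XS K r S1 := XS_map hm hh.2
      have h2 := DFunLike.congr_fun (hconj' h hh (h m) (hXm _ hm2)) x
      rw [Module.End.mul_apply, Module.End.mul_apply] at h2
      have h3 : h⁻¹ (h m) = m := by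
        rw [← MulAut.mul_apply, inv_mul_cancel]; rfl
      rw [h3] at h2
      rw [← h2]
      exact hV' _ hm2 _
    exact h1 hx
  have hV'f : ∀ g ∈ K ⊓ fsub S1, ∀ x ∈ V', f g x ∈ V' := by
    intro g hg x hx
    have h1 : V' ≤ V'.comap (f g) := by
      rw [Submodule.span_le]
      rintro y ⟨m, hm, x, rfl⟩
      simp only [SetLike.mem_coe, Submodule.mem_comap, map_sub]
      have h2 := DFunLike.congr_fun (hff' g hg m (hXm m hm)) x
      rw [Module.End.mul_apply, Module.End.mul_apply] at h2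
      rw [h2]
      exact hV' m hm _
    exact h1 hx
  -- a nonzero fixed vector
  have hU0 : 0 < Module.finrank ℂ U := by
    obtain ⟨e, l, hel⟩ := hfr
    obtain ⟨x0, hx0⟩ : ∃ x0, (f w - 1) x0 ≠ 0 := by
      by_contra h
      push Not at h
      exact hfw1 (sub_eq_zero.mp (LinearMap.ext h))
    have hxU : (f w - 1) x0 ∈ U := by
      rw [hU]
      intro m hm
      have hcomm : f' m * (f w - 1) = (f w - 1) * f' m := by
        rw [mul_sub, sub_mul, mul_one, one_mul, hff' w hwm m (hXm m hm)]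
      exact (rank1_comm (hf'u m hm) hel hcomm).1 x0
    rw [Nat.pos_iff_ne_zero]
    intro h
    have h2 := Submodule.finrank_eq_zero.mp h
    rw [h2, Submodule.mem_bot] at hxU
    exact hx0 hxU
  have hUtop : Module.finrank ℂ U < Module.finrank ℂ V := by
    apply Submodule.finrank_lt
    intro h
    apply hf'w1
    ext x
    have hx : x ∈ U := by rw [h]; exact Submodule.mem_top
    exact (hU x).1 hx w hwX
  have hqU := Submodule.finrank_quotient_add_finrank U
  have hqV' := Submodule.finrank_quotient_add_finrank V'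
  have hSE : ∀ c, StabS (S1.erase c) ≤ (StabS S1 : Subgroup (MulAut (FreeGroup α))) :=
    fun c => StabS_mono (Finset.erase_subset _ _)
  -- `f'` acts trivially modulo `U`
  have hmodU : ∀ m ∈ XS K r S1, ∀ x, f' m x - x ∈ U := by
    rintro m ⟨φ, hφ, W', hW', hW'r, w0, hw0K, hw0, rfl⟩ x
    obtain ⟨c, hcS, hcW, hWc, hScard, haS⟩ := hS W' hW' hW'r
    have h1 := stage2_quot hc r (S1.erase c) a haS V
      (fun g => σ (iota a * φ * g * (iota a * φ)⁻¹)) (htw _) (htwu _ _ hScard)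
      (fun d hd' => hTD _ a (S1.erase c) haS hScard d hd') U
      (by
        intro h hh x hx
        have hhS1 : φ * h * φ⁻¹ ∈ StabS S1 :=
          (StabS S1).mul_mem ((StabS S1).mul_mem hφ (hSE c hh.2)) ((StabS S1).inv_mem hφ)
        have e1 : iota a * φ * h * (iota a * φ)⁻¹ = φ * h * φ⁻¹ := by
          have := iota_comm haS1 hhS1
          calc iota a * φ * h * (iota a * φ)⁻¹ = iota a * (φ * h * φ⁻¹) * (iota a)⁻¹ := by
                group
            _ = φ * h * φ⁻¹ := by rw [this, mul_assoc, mul_inv_cancel, mul_one]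
        show σ (iota a * φ * h * (iota a * φ)⁻¹) x ∈ U
        rw [e1]
        exact hUh _ ⟨hc.Hn.conj_mem _ hh.1 φ, hhS1⟩ x hx)
      (by
        intro g hgK hg x hx
        have hgS1 : g ∈ fsub S1 := fsub_mono (Finset.erase_subset _ _) hg
        show σ (iota a * φ * R a g * (iota a * φ)⁻¹) x ∈ U
        rw [hf'tw φ hφ g hgS1]
        exact hUf' _ ⟨hc.Kc φ g hgK, StabS_map hφ hgS1⟩ x hx)
      (by omega) W' hWc hW'r w0 hw0K hw0 x
    rw [hf'tw φ hφ w0 (fsub_mono hW' hw0)] at h1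
    exact h1
  have hV'U : V' ≤ U := by
    rw [Submodule.span_le]
    rintro y ⟨m, hm, x, rfl⟩
    exact hmodU m hm x
  have hV'0 : 0 < Module.finrank ℂ V' := by
    obtain ⟨x0, hx0⟩ : ∃ x0, (f' w - 1) x0 ≠ 0 := by
      by_contra h
      push Not at h
      exact hf'w1 (sub_eq_zero.mp (LinearMap.ext h))
    rw [Nat.pos_iff_ne_zero]
    intro h
    have h2 := Submodule.finrank_eq_zero.mp h
    have h3 := hV' w hwX x0
    rw [h2, Submodule.mem_bot] at h3
    exact hx0 h3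
  -- `f` acts trivially on `U` and modulo `V'`
  have hfU : ∀ m ∈ XS K r S1, ∀ x ∈ U, f m x = x := by
    rintro m ⟨φ, hφ, W', hW', hW'r, w0, hw0K, hw0, rfl⟩
    obtain ⟨c, hcS, hcW, hWc, hScard, haS⟩ := hS W' hW' hW'r
    have h1 := stage2_sub hc r (S1.erase c) a haS V
      (fun g => σ (φ * g * φ⁻¹)) (htw _) (htwu _ _ hScard)
      (fun d hd' => hTD _ a (S1.erase c) haS hScard d hd') U
      (by
        intro h hh x hx
        exact hUh _ ⟨hc.Hn.conj_mem _ hh.1 φ, (StabS S1).mul_mem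
          ((StabS S1).mul_mem hφ (hSE c hh.2)) ((StabS S1).inv_mem hφ)⟩ x hx)
      (by
        intro g hgK hg x hx
        have hgS1 : g ∈ fsub S1 := fsub_mono (Finset.erase_subset _ _) hg
        show σ (φ * R a g * φ⁻¹) x ∈ U
        rw [hftw φ hφ g hgS1]
        exact hUf _ ⟨hc.Kc φ g hgK, StabS_map hφ hgS1⟩ x hx)
      (by omega) W' hWc hW'r w0 hw0K hw0
    rw [hftw φ hφ w0 (fsub_mono hW' hw0)] at h1
    exact h1
  have hfV' : ∀ m ∈ XS K r S1, ∀ x, f m x - x ∈ V' := by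
    rintro m ⟨φ, hφ, W', hW', hW'r, w0, hw0K, hw0, rfl⟩
    obtain ⟨c, hcS, hcW, hWc, hScard, haS⟩ := hS W' hW' hW'r
    have h1 := stage2_quot hc r (S1.erase c) a haS V
      (fun g => σ (φ * g * φ⁻¹)) (htw _) (htwu _ _ hScard)
      (fun d hd' => hTD _ a (S1.erase c) haS hScard d hd') V'
      (by
        intro h hh x hx
        exact hV'h _ ⟨hc.Hn.conj_mem _ hh.1 φ, (StabS S1).mul_mem
          ((StabS S1).mul_mem hφ (hSE c hh.2)) ((StabS S1).inv_mem hφ)⟩ x hx)
      (by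
        intro g hgK hg x hx
        have hgS1 : g ∈ fsub S1 := fsub_mono (Finset.erase_subset _ _) hg
        show σ (φ * R a g * φ⁻¹) x ∈ V'
        rw [hftw φ hφ g hgS1]
        exact hV'f _ ⟨hc.Kc φ g hgK, StabS_map hφ hgS1⟩ x hx)
      (by omega) W' hWc hW'r w0 hw0K hw0
    rw [hftw φ hφ w0 (fsub_mono hW' hw0)] at h1
    exact h1
  -- two letters outside `W`
  have hpq : 2 ≤ (S1 \ W).card := by
    rw [Finset.card_sdiff_of_subset hWS1]; omega
  obtain ⟨p, hp, q, hq, hpq⟩ := Finset.one_lt_card.mp hpq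
  rw [Finset.mem_sdiff] at hp hq
  have hpqS : ({p, q} : Finset α) ⊆ S1 := by
    intro x hx
    rw [Finset.mem_insert, Finset.mem_singleton] at hx
    rcases hx with rfl | rfl
    · exact hp.1
    · exact hq.1
  -- the elements `R p w`
  have hT : ∀ p ∈ S1, p ∉ W → (∀ x ∈ U, σ (R p w) x = x) ∧ (∀ x, σ (R p w) x - x ∈ V') := by
    intro p hp hpW
    have hWp : W ⊆ S1.erase p := fun x hx =>
      Finset.mem_erase.mpr ⟨fun h => hpW (h ▸ hx), hWS1 hx⟩
    have hScard : (S1.erase p).card + 2 = Fintype.card α := by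
      rw [Finset.card_erase_of_mem hp]; omega
    have hRp : ∀ g ∈ K, g ∈ fsub (S1.erase p) → R p g ∈ H ⊓ StabS S1 := fun g hgK hg =>
      ⟨hc.RH p g hgK, R_mem_StabS hp hg⟩
    have hDp : ∀ d ∈ DS K (S1.erase p), IsNilpotent (σ (R p d) - 1) := fun d hd' => by
      have := hTD 1 p (S1.erase p) (Finset.notMem_erase _ _) hScard d hd'
      simpa only [one_mul, inv_one, mul_one] using this
    constructor
    · exact stage2_sub hc r (S1.erase p) p (Finset.notMem_erase _ _) V σ hσ (hu0 _ hScard) hDp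
        U (fun h hh => hUh h ⟨hh.1, hSE p hh.2⟩)
        (fun g hgK hg => hUh _ (hRp g hgK hg)) (by omega) W hWp hWr w hwK hw
    · exact stage2_quot hc r (S1.erase p) p (Finset.notMem_erase _ _) V σ hσ (hu0 _ hScard) hDp
        V' (fun h hh => hV'h h ⟨hh.1, hSE p hh.2⟩)
        (fun g hgK hg => hV'h _ (hRp g hgK hg)) (by omega) W hWp hWr w hwK hw
  -- `f g` for `g` a word in `p, q`
  have hgu : ∀ g ∈ K, g ∈ fsub ({p, q} : Finset α) → IsNilpotent (f g - 1) := by
    intro g hgK hg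
    have hgm : g ∈ K ⊓ fsub S1 := ⟨hgK, fsub_mono hpqS hg⟩
    rcases Nat.lt_or_ge (Fintype.card α) 5 with h5 | h5
    · rw [hfx]
      refine hdet (by omega) _ (hRH g hgm) (f' w - 1) (sub_ne_zero.mpr hf'w1)
        (hf'u w hwX) ?_
      rw [← hfx, mul_sub, sub_mul, mul_one, one_mul, hff' g hgm w hwm]
    · have h1 := hT3 1 a {p, q} (fun h => haS1 (hpqS h))
        (by rw [Finset.card_pair hpq]; omega) g hgK hg
      rw [hfx]
      simpa only [one_mul, inv_one, mul_one] using h1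
  have hgcomm : ∀ g ∈ K ⊓ fsub S1, ∀ m ∈ XS K r S1, f g * (f' m - 1) = (f' m - 1) * f g := by
    intro g hg m hm
    rw [mul_sub, sub_mul, mul_one, one_mul, hff' g hg m (hXm m hm)]
  have hgV' : ∀ g ∈ K, g ∈ fsub ({p, q} : Finset α) → ∀ x ∈ V', f g x = x := by
    intro g hgK hg x hx
    have hgm : g ∈ K ⊓ fsub S1 := ⟨hgK, fsub_mono hpqS hg⟩
    have h1 : V' ≤ LinearMap.ker (f g - 1) := by
      rw [Submodule.span_le]
      rintro y ⟨m, hm, x, rfl⟩
      obtain ⟨e, l, hel⟩ := hf'r m hm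
      have h2 := (rank1_comm (hgu g hgK hg) hel (hgcomm g hgm m hm)).1 x
      rw [SetLike.mem_coe, LinearMap.mem_ker, LinearMap.sub_apply, Module.End.one_apply,
        sub_eq_zero]
      exact h2
    have h2 := h1 hx
    rw [LinearMap.mem_ker, LinearMap.sub_apply, Module.End.one_apply, sub_eq_zero] at h2
    exact h2
  have hgU : ∀ g ∈ K, g ∈ fsub ({p, q} : Finset α) → ∀ x, f g x - x ∈ U := by
    intro g hgK hg x
    have hgm : g ∈ K ⊓ fsub S1 := ⟨hgK, fsub_mono hpqS hg⟩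
    rw [hU]
    intro m hm
    obtain ⟨e, l, hel⟩ := hf'r m hm
    have h2 := (rank1_comm (hgu g hgK hg) hel (hgcomm g hgm m hm)).2 x
    rw [LinearMap.sub_apply, Module.End.one_apply, sub_eq_zero] at h2
    exact h2
  -- commutation
  have hcommX : ∀ X : Module.End ℂ V, (∀ x ∈ U, X x = x) → (∀ x, X x - x ∈ V') →
      ∀ g ∈ K, g ∈ fsub ({p, q} : Finset α) → X * f g = f g * X := by
    intro X h1 h2 g hgK hg
    ext x
    rw [Module.End.mul_apply, Module.End.mul_apply]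
    have e1 : X (f g x) = X x + (f g x - x) := by
      have := h1 _ (hgU g hgK hg x)
      rw [map_sub] at this
      rw [← this]; abel
    have e2 : f g (X x) = f g x + (X x - x) := by
      have := hgV' g hgK hg _ (h2 x)
      rw [map_sub] at this
      rw [← this]; abel
    rw [e1, e2]; abel
  -- the normal closure of `w`
  have hMw : ∀ m ∈ Mw ({p, q} : Finset α) w, m ∈ K ⊓ fsub S1 ∧ (∀ x ∈ U, f m x = x) ∧
      (∀ x, f m x - x ∈ V') := by
    intro m hm
    unfold Mw at hm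
    induction hm using Subgroup.closure_induction with
    | mem y hy =>
      obtain ⟨u, hu, rfl⟩ := hy
      have hX := XS_conj hwX (fsub_mono hpqS hu)
      exact ⟨hXm _ hX, hfU _ hX, hfV' _ hX⟩
    | one =>
      refine ⟨one_mem _, fun x _ => by rw [hrf.one]; rfl, fun x => ?_⟩
      rw [hrf.one, Module.End.one_apply, sub_self]
      exact zero_mem _
    | mul y z _ _ hy hz =>
      refine ⟨mul_mem hy.1 hz.1, fun x hx => ?_, fun x => ?_⟩
      · rw [hrf.mul y hy.1 z hz.1, Module.End.mul_apply, hz.2.1 x hx, hy.2.1 x hx]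
      · rw [hrf.mul y hy.1 z hz.1, Module.End.mul_apply]
        have h1 := hy.2.2 (f z x)
        have h2 := hz.2.2 x
        have h3 : f y (f z x) - x = (f y (f z x) - f z x) + (f z x - x) := by abel
        rw [h3]
        exact add_mem h1 h2
    | inv y _ hy =>
      have hyi : ∀ x, f y⁻¹ (f y x) = x := fun x => by
        rw [← Module.End.mul_apply, hrf.inv_mul hy.1]; rfl
      have hyi2 : ∀ x, f y (f y⁻¹ x) = x := fun x => by
        rw [← Module.End.mul_apply, hrf.mul_inv hy.1]; rfl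
      refine ⟨inv_mem hy.1, fun x hx => ?_, fun x => ?_⟩
      · have h1 := hyi x
        rw [hy.2.1 x hx] at h1
        exact h1
      · have h1 := hy.2.2 (f y⁻¹ x)
        rw [hyi2] at h1
        have h2 := neg_mem h1
        rwa [neg_sub] at h2
  have hfin : f w = 1 := by
    refine lemmaN2 K hc.Kn hc.Kf {p, q} p q (Finset.mem_insert_self _ _)
      (Finset.mem_insert_of_mem (Finset.mem_singleton_self _)) hpq w (kill_eq hw hp.2)
      (kill_eq hw hq.2) (K ⊓ fsub S1) ?_ ?_ f hrf ?_ ?_ ?_ ?_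
    · intro u hu
      exact hXm _ (XS_conj hwX (fsub_mono hpqS hu))
    · exact inf_le_inf_left _ (fsub_mono hpqS)
    · intro m hm m' hm'
      obtain ⟨h1, h2, h3⟩ := hMw m hm
      obtain ⟨h1', h2', h3'⟩ := hMw m' hm'
      ext x
      rw [hrf.mul m h1 m' h1', LinearMap.add_apply, LinearMap.sub_apply, LinearMap.sub_apply,
        LinearMap.sub_apply, Module.End.one_apply, Module.End.mul_apply]
      have h4 := h2 _ (hV'U (h3' x))
      rw [map_sub] at h4
      have h5 : f m (f m' x) = (f m' x - x) + f m x := by rw [← h4]; abel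
      rw [h5]; abel
    · intro g hgK hg u hu
      have hX := XS_conj hwX (fsub_mono hpqS hu)
      exact (hcommX _ (hfU _ hX) (hfV' _ hX) g hgK hg).symm
    · intro g hgK hg
      have hgm : g ∈ K ⊓ fsub S1 := ⟨hgK, fsub_mono hpqS hg⟩
      obtain ⟨h1, h2⟩ := hT p hp.1 hp.2
      have hWp : W ⊆ S1.erase p := fun x hx =>
        Finset.mem_erase.mpr ⟨fun h => hp.2 (h ▸ hx), hWS1 hx⟩
      have hTm : R p w ∈ H ⊓ StabS S1 :=
        ⟨hc.RH p w hwK, R_mem_StabS hp.1 (fsub_mono hWp hw)⟩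
      rw [← hftw _ hTm.2 g hgm.2, hσ.conj hTm.1 (hRH g hgm), ← hfx,
        hcommX _ h1 h2 g hgK hg, mul_assoc, hσ.mul_inv hTm.1, mul_one]
    · intro g hgK hg
      have hgm : g ∈ K ⊓ fsub S1 := ⟨hgK, fsub_mono hpqS hg⟩
      obtain ⟨h1, h2⟩ := hT q hq.1 hq.2
      have hWq : W ⊆ S1.erase q := fun x hx =>
        Finset.mem_erase.mpr ⟨fun h => hq.2 (h ▸ hx), hWS1 hx⟩
      have hTm : R q w ∈ H ⊓ StabS S1 :=
        ⟨hc.RH q w hwK, R_mem_StabS hq.1 (fsub_mono hWq hw)⟩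
      rw [← hftw _ hTm.2 g hgm.2, hσ.conj hTm.1 (hRH g hgm), ← hfx,
        hcommX _ h1 h2 g hgK hg, mul_assoc, hσ.mul_inv hTm.1, mul_one]
  exact hfw1 hfin

end AFn
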