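import Mathlib
import Pool.Agent.AFn.Defs
import Pool.Agent.AFn.Basic
import Pool.Agent.AFn.RepLib
import Pool.Agent.AFn.Core
import Pool.Agent.AFn.Datum

/-!
# Modules over the automorphisms of a free factor together with the factor

`PMod.exists_sub`, `PMod.exists_quot`: use `IsRepOn.exists_sub`, `IsRepOn.exists_quot`
(RepLib.lean) for the two representations, `nilpotent_sub`, `nilpotent_quot`, `unip_mem`
(Core.lean) and `IsT.mem`; elements of `XS K (r - 1) S` are in `K ⊓ fsub S` (`XS_mem`).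
-/

set_option autoImplicit false

namespace AFn

universe u v

variable {α : Type u} [DecidableEq α]

/-- the representations over `S` of dimension less than `y` in which the elements of rank at
most `r - 1` are trivial are trivial on the elements of rank at most `r` -/
def YOk.{u', v'} {α : Type u'} [DecidableEq α] (H : Subgroup (MulAut (FreeGroup α)))
    (K : Subgroup (FreeGroup α)) (r : ℕ) (S : Finset α) (y : ℕ) : Prop :=
  ∀ (V : Type v') [AddCommGroup V] [Module ℂ V] [FiniteDimensional ℂ V]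
    (τ : MulAut (FreeGroup α) → Module.End ℂ V), IsRepOn (H ⊓ StabS S) τ → UnipOn K S τ →
    (∀ T, IsT K (r - 1) S T → τ T = 1) → Module.finrank ℂ V < y →
    ∀ T, IsT K r S T → τ T = 1

/-- a representation of `(K ⊓ fsub S) ⋊ (H ⊓ StabS S)`, given by two maps, which is unipotent
on `K ⊓ fsub S` and trivial in ranks at most `r - 1` -/
structure PMod (H : Subgroup (MulAut (FreeGroup α))) (K : Subgroup (FreeGroup α)) (r : ℕ)
    (S : Finset α) {V : Type v} [AddCommGroup V] [Module ℂ V]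
    (σ : MulAut (FreeGroup α) → Module.End ℂ V) (f : FreeGroup α → Module.End ℂ V) :
    Prop where
  rep : IsRepOn (H ⊓ StabS S) σ
  repf : IsRepOn (K ⊓ fsub S) f
  eqv : ∀ h ∈ H ⊓ StabS S, ∀ g ∈ K ⊓ fsub S, σ h * f g = f (h g) * σ h
  unip : UnipOn K S σ
  unipf : ∀ g ∈ K ⊓ fsub S, IsNilpotent (f g - 1)
  kill : ∀ T, IsT K (r - 1) S T → σ T = 1
  killf : ∀ x ∈ XS K (r - 1) S, f x = 1

theorem PMod.exists_sub {H : Subgroup (MulAut (FreeGroup α))} {K : Subgroup (FreeGroup α)}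
    (hc : Ctx H K) {r : ℕ} {S : Finset α} {V : Type v} [AddCommGroup V] [Module ℂ V]
    {σ : MulAut (FreeGroup α) → Module.End ℂ V} {f : FreeGroup α → Module.End ℂ V}
    (hP : PMod H K r S σ f) (B : Submodule ℂ V) (hB1 : ∀ h ∈ H ⊓ StabS S, ∀ x ∈ B, σ h x ∈ B)
    (hB2 : ∀ g ∈ K ⊓ fsub S, ∀ x ∈ B, f g x ∈ B) :
    ∃ (σB : MulAut (FreeGroup α) → Module.End ℂ B) (fB : FreeGroup α → Module.End ℂ B),
      PMod H K r S σB fB ∧ (∀ h ∈ H ⊓ StabS S, ∀ x : B, (σB h x : V) = σ h x) ∧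
      (∀ g ∈ K ⊓ fsub S, ∀ x : B, (fB g x : V) = f g x) := by
  obtain ⟨σB, h1, h2⟩ := hP.rep.exists_sub B hB1
  obtain ⟨fB, h3, h4⟩ := hP.repf.exists_sub B hB2
  refine ⟨σB, fB, ⟨h1, h3, ?_, ?_, ?_, ?_, ?_⟩, h2, h4⟩
  · intro h hh g hg
    ext x
    have hhg : h g ∈ K ⊓ fsub S := ⟨hc.Kc h g hg.1, StabS_map hh.2 hg.2⟩
    have h5 := DFunLike.congr_fun (hP.eqv h hh g hg) (x : V)
    rw [Module.End.mul_apply, Module.End.mul_apply] at h5
    rw [Module.End.mul_apply, Module.End.mul_apply, h2 h hh, h4 g hg, h4 _ hhg, h2 h hh]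
    exact h5
  · intro φ hφ a ha w hwK hw
    exact nilpotent_sub (h2 _ (unip_mem hc hφ ha hwK hw)) (hP.unip φ hφ a ha w hwK hw)
  · intro g hg
    exact nilpotent_sub (h4 g hg) (hP.unipf g hg)
  · intro T hT
    ext x
    rw [h2 T (hT.mem hc), hP.kill T hT]
    rfl
  · intro x hx
    ext y
    rw [h4 x (XS_mem hc hx), hP.killf x hx]
    rfl

theorem PMod.exists_quot {H : Subgroup (MulAut (FreeGroup α))} {K : Subgroup (FreeGroup α)}
    (hc : Ctx H K) {r : ℕ} {S : Finset α} {V : Type v} [AddCommGroup V] [Module ℂ V]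
    {σ : MulAut (FreeGroup α) → Module.End ℂ V} {f : FreeGroup α → Module.End ℂ V}
    (hP : PMod H K r S σ f) (B : Submodule ℂ V) (hB1 : ∀ h ∈ H ⊓ StabS S, ∀ x ∈ B, σ h x ∈ B)
    (hB2 : ∀ g ∈ K ⊓ fsub S, ∀ x ∈ B, f g x ∈ B) :
    ∃ (σQ : MulAut (FreeGroup α) → Module.End ℂ (V ⧸ B))
      (fQ : FreeGroup α → Module.End ℂ (V ⧸ B)),
      PMod H K r S σQ fQ ∧ (∀ h ∈ H ⊓ StabS S, ∀ x : V,
        σQ h (Submodule.Quotient.mk x) = Submodule.Quotient.mk (σ h x)) ∧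
      (∀ g ∈ K ⊓ fsub S, ∀ x : V,
        fQ g (Submodule.Quotient.mk x) = Submodule.Quotient.mk (f g x)) := by
  obtain ⟨σQ, h1, h2⟩ := hP.rep.exists_quot B hB1
  obtain ⟨fQ, h3, h4⟩ := hP.repf.exists_quot B hB2
  refine ⟨σQ, fQ, ⟨h1, h3, ?_, ?_, ?_, ?_, ?_⟩, h2, h4⟩
  · intro h hh g hg
    ext x
    have hhg : h g ∈ K ⊓ fsub S := ⟨hc.Kc h g hg.1, StabS_map hh.2 hg.2⟩
    have h5 := DFunLike.congr_fun (hP.eqv h hh g hg) x
    rw [Module.End.mul_apply, Module.End.mul_apply] at h5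
    show σQ h (fQ g (Submodule.Quotient.mk x)) = fQ (h g) (σQ h (Submodule.Quotient.mk x))
    rw [h4 g hg, h2 h hh, h2 h hh, h4 _ hhg, h5]
  · intro φ hφ a ha w hwK hw
    exact nilpotent_quot (h2 _ (unip_mem hc hφ ha hwK hw)) (hP.unip φ hφ a ha w hwK hw)
  · intro g hg
    exact nilpotent_quot (h4 g hg) (hP.unipf g hg)
  · intro T hT
    ext x
    show σQ T (Submodule.Quotient.mk x) = Submodule.Quotient.mk x
    rw [h2 T (hT.mem hc), hP.kill T hT]
    rfl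
  · intro y hy
    ext x
    show fQ y (Submodule.Quotient.mk x) = Submodule.Quotient.mk x
    rw [h4 y (XS_mem hc hy), hP.killf y hy]
    rfl

/-- `YOk` on a subspace -/
theorem YOk.sub {H : Subgroup (MulAut (FreeGroup α))} {K : Subgroup (FreeGroup α)}
    (hc : Ctx H K) {r : ℕ} {S : Finset α} {y : ℕ} (hY : YOk.{u, v} H K r S y)
    {V : Type v} [AddCommGroup V] [Module ℂ V] [FiniteDimensional ℂ V]
    {σ : MulAut (FreeGroup α) → Module.End ℂ V} (hσ : IsRepOn (H ⊓ StabS S) σ)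
    (hu : UnipOn K S σ) (hk : ∀ T, IsT K (r - 1) S T → σ T = 1) (B : Submodule ℂ V)
    (hB1 : ∀ h ∈ H ⊓ StabS S, ∀ x ∈ B, σ h x ∈ B) (hd : Module.finrank ℂ B < y)
    (T : MulAut (FreeGroup α)) (hT : IsT K r S T) : ∀ x ∈ B, σ T x = x := by
  obtain ⟨τ, h1, h2⟩ := hσ.exists_sub B hB1
  have h3 := hY B τ h1
    (by
      intro φ hφ a ha w hwK hw
      exact nilpotent_sub (h2 _ (unip_mem hc hφ ha hwK hw)) (hu φ hφ a ha w hwK hw))
    (by
      intro T hT
      ext x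
      rw [h2 T (hT.mem hc), hk T hT]
      rfl) hd T hT
  intro x hx
  have h4 := h2 T (hT.mem hc) ⟨x, hx⟩
  rw [h3] at h4
  exact h4.symm

/-- `YOk` on a quotient -/
theorem YOk.quot {H : Subgroup (MulAut (FreeGroup α))} {K : Subgroup (FreeGroup α)}
    (hc : Ctx H K) {r : ℕ} {S : Finset α} {y : ℕ} (hY : YOk.{u, v} H K r S y)
    {V : Type v} [AddCommGroup V] [Module ℂ V] [FiniteDimensional ℂ V]
    {σ : MulAut (FreeGroup α) → Module.End ℂ V} (hσ : IsRepOn (H ⊓ StabS S) σ)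
    (hu : UnipOn K S σ) (hk : ∀ T, IsT K (r - 1) S T → σ T = 1) (B : Submodule ℂ V)
    (hB1 : ∀ h ∈ H ⊓ StabS S, ∀ x ∈ B, σ h x ∈ B) (hd : Module.finrank ℂ (V ⧸ B) < y)
    (T : MulAut (FreeGroup α)) (hT : IsT K r S T) : ∀ x, σ T x - x ∈ B := by
  obtain ⟨τ, h1, h2⟩ := hσ.exists_quot B hB1
  have h3 := hY (V ⧸ B) τ h1
    (by
      intro φ hφ a ha w hwK hw
      exact nilpotent_quot (h2 _ (unip_mem hc hφ ha hwK hw)) (hu φ hφ a ha w hwK hw))
    (by
      intro T hT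
      ext x
      show τ T (Submodule.Quotient.mk x) = Submodule.Quotient.mk x
      rw [h2 T (hT.mem hc), hk T hT]
      rfl) hd T hT
  intro x
  have h4 := h2 T (hT.mem hc) x
  rw [h3, Module.End.one_apply] at h4
  exact (Submodule.Quotient.eq B).mp h4.symm

end AFn
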