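import Mathlib
import Pool.Agent.AFn.Defs
import Pool.Agent.AFn.Basic
import Pool.Agent.AFn.RepLib
import Pool.Agent.AFn.Kolchin
import Pool.Agent.AFn.Core
import Pool.Agent.AFn.ThmY
import Pool.Agent.AFn.Stage2
import Pool.Agent.AFn.Stage2g
import Pool.Agent.AFn.ND2
import Pool.Agent.AFn.Datum
import Pool.Agent.AFn.PModDefs

/-!
# Stage 2 with an oracle for small dimensions

`core2` is `core` (Core.lean) with the hypothesis that the elements of rank at most `r - 1` act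
trivially: copy the proof of `core`; the restrictions to the subspace `V'` and to the quotient by
`U` satisfy the extra hypothesis too.

`stage2h`, `stage2h_sub`, `stage2h_quot` are `stage2g`, `stage2_sub`, `stage2_quot`
(Stage2g.lean) with the hypothesis `hd` on the dimension replaced by `r + 2 ≤ S.card` and by
the oracle `hY`, and with `core2` instead of `core` (the calls of `theoremY` are replaced by
`hY`). Copy the proofs (`stabB` is private in Stage2g.lean, copy it as well).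
-/

set_option autoImplicit false

namespace AFn

universe u v

variable {α : Type u} [DecidableEq α]

theorem YOk.mono {H : Subgroup (MulAut (FreeGroup α))} {K : Subgroup (FreeGroup α)} {r : ℕ}
    {S : Finset α} {y y' : ℕ} (hy : y' ≤ y) (hY : YOk.{u, v} H K r S y) :
    YOk.{u, v} H K r S y' := by
  intro V _ _ _ τ hτ hu hk hd T hT
  exact hY V τ hτ hu hk (lt_of_lt_of_le hd hy) T hT

theorem core2 {H : Subgroup (MulAut (FreeGroup α))} {K : Subgroup (FreeGroup α)}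
    (hc : Ctx H K) (r : ℕ) (S : Finset α) (a : α) (ha : a ∉ S)
    (V : Type v) [AddCommGroup V] [Module ℂ V] [FiniteDimensional ℂ V]
    (σ : MulAut (FreeGroup α) → Module.End ℂ V) (Γ : Subgroup (MulAut (FreeGroup α)))
    (hΓ : H ⊓ StabS S ≤ Γ) (hσ : IsRepOn Γ σ) (hR : ∀ g ∈ K, g ∈ fsub S → R a g ∈ Γ)
    (hu : UnipOn K S σ) (hk : ∀ T, IsT K (r - 1) S T → σ T = 1)
    (D : Subgroup (FreeGroup α)) (hDK : D ≤ K ⊓ fsub S)
    (hDinv : ∀ φ ∈ StabS S, ∀ d ∈ D, φ d ∈ D)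
    (hDu : ∀ d ∈ D, IsNilpotent (σ (R a d) - 1))
    (hY : YOk.{u, v} H K r S (Module.finrank ℂ V))
    (hne : ∃ d ∈ D, σ (R a d) ≠ 1) :
    ∀ T, IsT K r S T → ∀ g ∈ D, σ (R a (T g)) = σ (R a g) := by
  classical
  have hDR : ∀ d ∈ D, R a d ∈ Γ := fun d hd => hR d (hDK hd).1 (hDK hd).2
  -- conjugation
  have hconj : ∀ h ∈ H ⊓ StabS S, ∀ d ∈ D, σ (R a (h d)) = σ h * σ (R a d) * σ h⁻¹ := by
    intro h hh d hd
    rw [← conj_R hh.2 ha (hDK hd).2]
    exact hσ.conj (hΓ hh) (hDR d hd)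
  have hconj2 : ∀ h ∈ H ⊓ StabS S, ∀ d ∈ D, σ (R a d) * σ h = σ h * σ (R a (h⁻¹ d)) := by
    intro h hh d hd
    rw [hconj h⁻¹ (inv_mem hh) d hd, inv_inv]
    calc σ (R a d) * σ h = (σ h * σ h⁻¹) * (σ (R a d) * σ h) := by
          rw [hσ.mul_inv (hΓ hh), one_mul]
      _ = σ h * (σ h⁻¹ * σ (R a d) * σ h) := by simp only [mul_assoc]
  have hconj3 : ∀ h ∈ H ⊓ StabS S, ∀ d ∈ D, σ h * σ (R a d) = σ (R a (h d)) * σ h := by
    intro h hh d hd
    rw [hconj h hh d hd]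
    calc σ h * σ (R a d) = σ h * σ (R a d) * (σ h⁻¹ * σ h) := by
          rw [hσ.inv_mul (hΓ hh), mul_one]
      _ = σ h * σ (R a d) * σ h⁻¹ * σ h := by simp only [mul_assoc]
  -- the set of operators
  let E : Set (Module.End ℂ V) := {s | ∃ d ∈ D, s = σ (R a d)}
  have hEmul : ∀ s ∈ E, ∀ t ∈ E, s * t ∈ E := by
    rintro s ⟨d, hd, rfl⟩ t ⟨d', hd', rfl⟩
    refine ⟨d * d', mul_mem hd hd', ?_⟩
    rw [map_mul, hσ.mul _ (hDR d hd) _ (hDR d' hd')]
  have hEu : ∀ s ∈ E, IsNilpotent (s - 1) := by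
    rintro s ⟨d, hd, rfl⟩
    exact hDu d hd
  obtain ⟨d0, hd0, hd0'⟩ := hne
  have hnt : Nontrivial V := by
    by_contra h
    rw [not_nontrivial_iff_subsingleton] at h
    apply hd0'
    ext x
    exact Subsingleton.elim _ _
  -- fixed vectors
  let U : Submodule ℂ V :=
    { carrier := {x | ∀ d ∈ D, σ (R a d) x = x}
      add_mem' := fun {x y} hx hy d hd => by rw [map_add, hx d hd, hy d hd]
      zero_mem' := fun d hd => map_zero _
      smul_mem' := fun k x hx d hd => by rw [map_smul, hx d hd] }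
  have hUmem : ∀ x, x ∈ U ↔ ∀ d ∈ D, σ (R a d) x = x := fun x => Iff.rfl
  have hU0 : U ≠ ⊥ := by
    obtain ⟨x, hx0, hx⟩ := kolchin E hEmul hEu
    intro h
    apply hx0
    have : x ∈ U := (hUmem x).mpr fun d hd => hx _ ⟨d, hd, rfl⟩
    rwa [h, Submodule.mem_bot] at this
  -- the images
  let V' : Submodule ℂ V := Submodule.span ℂ {y | ∃ d ∈ D, ∃ x, y = σ (R a d) x - x}
  have hV'mem : ∀ d ∈ D, ∀ x, σ (R a d) x - x ∈ V' :=
    fun d hd x => Submodule.subset_span ⟨d, hd, x, rfl⟩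
  have hV'0 : V' ≠ ⊤ := by
    obtain ⟨l, hl0, hl⟩ := kolchin_dual E hEmul hEu
    intro h
    apply hl0
    have h1 : V' ≤ LinearMap.ker l := by
      rw [Submodule.span_le]
      rintro y ⟨d, hd, x, rfl⟩
      simp only [SetLike.mem_coe, LinearMap.mem_ker, map_sub]
      rw [hl _ ⟨d, hd, rfl⟩, sub_self]
    rw [h, top_le_iff, LinearMap.ker_eq_top] at h1
    exact h1
  -- invariance
  have hUinv : ∀ h ∈ H ⊓ StabS S, ∀ x ∈ U, σ h x ∈ U := by
    intro h hh x hx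
    rw [hUmem]
    intro d hd
    have h1 := DFunLike.congr_fun (hconj2 h hh d hd) x
    rw [Module.End.mul_apply, Module.End.mul_apply,
      hx _ (hDinv h⁻¹ (inv_mem hh.2) d hd)] at h1
    exact h1
  have hV'inv : ∀ h ∈ H ⊓ StabS S, ∀ x ∈ V', σ h x ∈ V' := by
    intro h hh x hx
    have h1 : V' ≤ V'.comap (σ h) := by
      rw [Submodule.span_le]
      rintro y ⟨d, hd, x, rfl⟩
      simp only [SetLike.mem_coe, Submodule.mem_comap, map_sub]
      have h2 := DFunLike.congr_fun (hconj3 h hh d hd) x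
      rw [Module.End.mul_apply, Module.End.mul_apply] at h2
      rw [h2]
      exact hV'mem _ (hDinv h hh.2 d hd) _
    exact h1 hx
  have hσ' : IsRepOn (H ⊓ StabS S) σ := hσ.mono hΓ
  obtain ⟨τ1, hτ1, hτ1'⟩ := hσ'.exists_sub V' hV'inv
  obtain ⟨τ2, hτ2, hτ2'⟩ := hσ'.exists_quot U hUinv
  have hu1 : UnipOn K S τ1 := by
    intro φ hφ b hb w hwK hw
    exact nilpotent_sub (hτ1' _ (unip_mem hc hφ hb hwK hw)) (hu φ hφ b hb w hwK hw)
  have hu2 : UnipOn K S τ2 := by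
    intro φ hφ b hb w hwK hw
    exact nilpotent_quot (hτ2' _ (unip_mem hc hφ hb hwK hw)) (hu φ hφ b hb w hwK hw)
  have hd1 : Module.finrank ℂ V' < Module.finrank ℂ V := Submodule.finrank_lt hV'0
  have hd2 : Module.finrank ℂ (V ⧸ U) < Module.finrank ℂ V := by
    have h1 := Submodule.finrank_quotient_add_finrank U
    have h2 : 0 < Module.finrank ℂ U := by
      rw [Nat.pos_iff_ne_zero]
      intro h
      exact hU0 (Submodule.finrank_eq_zero.mp h)
    omega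
  intro T hT g hg
  have hTm := hT.mem hc
  have hk1 : ∀ T, IsT K (r - 1) S T → τ1 T = 1 := by
    intro T hT
    ext x
    rw [hτ1' T (hT.mem hc) x, hk T hT]
    rfl
  have hk2 : ∀ T, IsT K (r - 1) S T → τ2 T = 1 := by
    intro T hT
    apply LinearMap.ext
    intro x
    obtain ⟨x, rfl⟩ := Submodule.Quotient.mk_surjective U x
    rw [hτ2' T (hT.mem hc) x, hk T hT]
    rfl
  have hT1 := hY V' τ1 hτ1 hu1 hk1 hd1 T hT
  have hT2 := hY (V ⧸ U) τ2 hτ2 hu2 hk2 hd2 T hT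
  have hTx1 : ∀ x ∈ V', σ T x = x := by
    intro x hx
    have h1 := hτ1' T hTm ⟨x, hx⟩
    rw [hT1] at h1
    exact h1.symm
  have hTx2 : ∀ x, σ T x - x ∈ U := by
    intro x
    have h1 := hτ2' T hTm x
    rw [hT2, Module.End.one_apply] at h1
    exact (Submodule.Quotient.eq U).mp h1.symm
  have hcomm : σ T * σ (R a g) = σ (R a g) * σ T := by
    ext x
    rw [Module.End.mul_apply, Module.End.mul_apply]
    have h1 : σ T (σ (R a g) x) = σ T x + (σ (R a g) x - x) := by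
      have := hTx1 _ (hV'mem g hg x)
      rw [map_sub] at this
      rw [← this]; abel
    have h2 : σ (R a g) (σ T x) = σ (R a g) x + (σ T x - x) := by
      have := (hUmem _).mp (hTx2 x) g hg
      rw [map_sub] at this
      rw [← this]; abel
    rw [h1, h2]; abel
  rw [hconj T hTm g hg, hcomm, mul_assoc, hσ.mul_inv (hΓ hTm), mul_one]

theorem stage2h {H : Subgroup (MulAut (FreeGroup α))} {K : Subgroup (FreeGroup α)}
    (hc : Ctx H K) (r : ℕ) (S : Finset α) (a : α) (ha : a ∉ S)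
    (V : Type v) [AddCommGroup V] [Module ℂ V] [FiniteDimensional ℂ V]
    (σ : MulAut (FreeGroup α) → Module.End ℂ V) (Γ : Subgroup (MulAut (FreeGroup α)))
    (hΓ : H ⊓ StabS S ≤ Γ) (hσ : IsRepOn Γ σ) (hR : ∀ g ∈ K, g ∈ fsub S → R a g ∈ Γ)
    (hu : UnipOn K S σ) (hk : ∀ T, IsT K (r - 1) S T → σ T = 1)
    (hD : ∀ d ∈ DS K S, IsNilpotent (σ (R a d) - 1))
    (hS : r + 2 ≤ S.card) (hS3 : 3 ≤ S.card) (hY : YOk.{u, v} H K r S (Module.finrank ℂ V))
    (W : Finset α) (hW : W ⊆ S) (hWr : W.card ≤ r) (w : FreeGroup α) (hwK : w ∈ K)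
    (hw : w ∈ fsub W) : σ (R a w) = 1 := by
  classical
  rcases Nat.eq_zero_or_pos (Module.finrank ℂ V) with h0 | h0
  · have := Module.finrank_zero_iff.mp h0
    exact Subsingleton.elim _ _
  have hKD : ∀ b ∈ S, ∀ g ∈ K, g ∈ fsub (S.erase b) → g ∈ DS K S := by
    intro b hb g hgK hg
    exact Subgroup.subset_closure (Or.inr ⟨1, one_mem _, b, hb, g, hgK, hg, rfl⟩)
  have hbex : ∃ b ∈ S, b ∉ W := by
    by_contra h
    push Not at h
    have := Finset.card_le_card (show S ⊆ W from h)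
    omega
  obtain ⟨b, hb, hbW⟩ := hbex
  have hWb : W ⊆ S.erase b := fun x hx =>
    Finset.mem_erase.mpr ⟨fun h => hbW (h ▸ hx), hW hx⟩
  have hwD : w ∈ DS K S := hKD b hb w hwK (fsub_mono hWb hw)
  rcases Nat.lt_or_ge (Module.finrank ℂ V) 2 with h2 | h2
  · exact sub_eq_zero.mp (nilpotent_dim_le_one (by omega) (hD w hwD))
  rcases Nat.eq_zero_or_pos r with hr | hr
  · have hW0 : W = ∅ := Finset.card_eq_zero.mp (by omega)
    rw [hW0] at hw
    rw [fsub_empty hw, map_one]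
    exact hσ.one
  by_cases hne : ∀ d ∈ DS K S, σ (R a d) = 1
  · exact hne w hwD
  push Not at hne
  have hinv := core2 hc r S a ha V σ Γ hΓ hσ hR hu hk (DS K S) (DS_le hc S) (DS_inv hc S) hD
    hY hne
  -- two letters outside `W`
  have hpq : 2 ≤ (S \ W).card := by
    rw [Finset.card_sdiff_of_subset hW]; omega
  obtain ⟨p, hp, q, hq, hpq⟩ := Finset.one_lt_card.mp hpq
  rw [Finset.mem_sdiff] at hp hq
  have hcex : ∃ c ∈ S, c ∉ ({p, q} : Finset α) := by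
    by_contra h
    push Not at h
    have h1 := Finset.card_le_card (show S ⊆ {p, q} from h)
    rw [Finset.card_pair hpq] at h1
    omega
  obtain ⟨c, hcS, hcpq⟩ := hcex
  have hpqS : ({p, q} : Finset α) ⊆ S := by
    intro x hx
    rw [Finset.mem_insert, Finset.mem_singleton] at hx
    rcases hx with rfl | rfl
    · exact hp.1
    · exact hq.1
  have hpqc : ({p, q} : Finset α) ⊆ S.erase c := fun x hx =>
    Finset.mem_erase.mpr ⟨fun h => hcpq (h ▸ hx), hpqS hx⟩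
  have hWp : W ⊆ S.erase p := fun x hx =>
    Finset.mem_erase.mpr ⟨fun h => hp.2 (h ▸ hx), hW hx⟩
  have hWq : W ⊆ S.erase q := fun x hx =>
    Finset.mem_erase.mpr ⟨fun h => hq.2 (h ▸ hx), hW hx⟩
  have hDK : K ⊓ fsub ({p, q} : Finset α) ≤ DS K S := fun g hg =>
    hKD c hcS g hg.1 (fsub_mono hpqc hg.2)
  have hDSle : DS K S ≤ K ⊓ fsub S := DS_le hc S
  have hf : IsRepOn (DS K S) (fun g => σ (R a g)) := by
    refine ⟨by simp only [map_one]; exact hσ.one, fun g hg h hh => ?_⟩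
    simp only [map_mul]
    exact hσ.mul _ (hR g (hDSle hg).1 (hDSle hg).2) _ (hR h (hDSle hh).1 (hDSle hh).2)
  refine lemmaE2 K hc.Kn hc.Kf {p, q} p q (Finset.mem_insert_self _ _)
    (Finset.mem_insert_of_mem (Finset.mem_singleton_self _)) hpq w (kill_eq hw hp.2)
    (kill_eq hw hq.2) (DS K S) ?_ hDK (fun g => σ (R a g)) hf hD ?_ ?_
  · intro u hu'
    exact conj_mem_DS hp.1 hwK (fsub_mono hWp hw) (fsub_mono hpqS hu')
  · intro g hgK hg
    have h1 := hinv (1 * R p w * 1⁻¹)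
      ⟨1, one_mem _, p, hp.1, W, hWp, hWr, w, hwK, hw, rfl⟩ g (hDK ⟨hgK, hg⟩)
    rwa [one_mul, inv_one, mul_one] at h1
  · intro g hgK hg
    have h1 := hinv (1 * R q w * 1⁻¹)
      ⟨1, one_mem _, q, hq.1, W, hWq, hWr, w, hwK, hw, rfl⟩ g (hDK ⟨hgK, hg⟩)
    rwa [one_mul, inv_one, mul_one] at h1

/-- the elements of `H` preserving a subspace -/
private def stabBh {G : Type u} [Group G] {V : Type v} [AddCommGroup V] [Module ℂ V]
    {H : Subgroup G} {σ : G → Module.End ℂ V} (hσ : IsRepOn H σ) (B : Submodule ℂ V) :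
    Subgroup G where
  carrier := {h | h ∈ H ∧ (∀ x ∈ B, σ h x ∈ B) ∧ (∀ x ∈ B, σ h⁻¹ x ∈ B)}
  one_mem' := ⟨one_mem _, fun x hx => by rw [hσ.one]; exact hx,
    fun x hx => by rw [inv_one, hσ.one]; exact hx⟩
  mul_mem' := by
    rintro g h ⟨hg, hg1, hg2⟩ ⟨hh, hh1, hh2⟩
    refine ⟨mul_mem hg hh, fun x hx => ?_, fun x hx => ?_⟩
    · rw [hσ.mul g hg h hh, Module.End.mul_apply]
      exact hg1 _ (hh1 x hx)
    · rw [mul_inv_rev, hσ.mul _ (inv_mem hh) _ (inv_mem hg), Module.End.mul_apply]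
      exact hh2 _ (hg2 x hx)
  inv_mem' := by
    rintro g ⟨hg, hg1, hg2⟩
    exact ⟨inv_mem hg, hg2, by rw [inv_inv]; exact hg1⟩

theorem stage2h_sub {H : Subgroup (MulAut (FreeGroup α))} {K : Subgroup (FreeGroup α)}
    (hc : Ctx H K) (r : ℕ) (S : Finset α) (a : α) (ha : a ∉ S)
    (V : Type v) [AddCommGroup V] [Module ℂ V] [FiniteDimensional ℂ V]
    (σ : MulAut (FreeGroup α) → Module.End ℂ V) (hσ : IsRepOn H σ)
    (hu : UnipOn K S σ) (hk : ∀ T, IsT K (r - 1) S T → σ T = 1)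
    (hD : ∀ d ∈ DS K S, IsNilpotent (σ (R a d) - 1))
    (B : Submodule ℂ V) (hB1 : ∀ h ∈ H ⊓ StabS S, ∀ x ∈ B, σ h x ∈ B)
    (hB2 : ∀ g ∈ K, g ∈ fsub S → ∀ x ∈ B, σ (R a g) x ∈ B)
    (hS : r + 2 ≤ S.card) (hS3 : 3 ≤ S.card) (y : ℕ) (hY : YOk.{u, v} H K r S y)
    (hd : Module.finrank ℂ B ≤ y)
    (W : Finset α) (hW : W ⊆ S) (hWr : W.card ≤ r) (w : FreeGroup α) (hwK : w ∈ K)
    (hw : w ∈ fsub W) : ∀ x ∈ B, σ (R a w) x = x := by
  have hΓ : H ⊓ StabS S ≤ stabBh hσ B := fun h hh =>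
    ⟨hh.1, hB1 h hh, hB1 h⁻¹ (inv_mem hh)⟩
  have hR : ∀ g ∈ K, g ∈ fsub S → R a g ∈ stabBh hσ B := fun g hgK hg =>
    ⟨hc.RH a g hgK, hB2 g hgK hg, by
      rw [← map_inv]; exact hB2 g⁻¹ (inv_mem hgK) (inv_mem hg)⟩
  have hσB : IsRepOn (stabBh hσ B) σ := hσ.mono (fun h hh => hh.1)
  obtain ⟨τ, hτ, hτ'⟩ := hσB.exists_sub B (fun g hg => hg.2.1)
  have huτ : UnipOn K S τ := by
    intro φ hφ b hb w' hw'K hw'
    exact nilpotent_sub (hτ' _ (hΓ (unip_mem hc hφ hb hw'K hw'))) (hu φ hφ b hb w' hw'K hw')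
  have hDτ : ∀ d ∈ DS K S, IsNilpotent (τ (R a d) - 1) := fun d hd' =>
    nilpotent_sub (hτ' _ (hR d (DS_le hc S hd').1 (DS_le hc S hd').2)) (hD d hd')
  have hkτ : ∀ T, IsT K (r - 1) S T → τ T = 1 := by
    intro T hT
    ext x
    rw [hτ' T (hΓ (hT.mem hc)) x, hk T hT]
    rfl
  have h1 := stage2h hc r S a ha B τ (stabBh hσ B) hΓ hτ hR huτ hkτ hDτ hS hS3
    (hY.mono hd) W hW hWr w hwK hw
  intro x hx
  have h2 := hτ' _ (hR w hwK (fsub_mono hW hw)) ⟨x, hx⟩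
  rw [h1] at h2
  exact h2.symm

theorem stage2h_quot {H : Subgroup (MulAut (FreeGroup α))} {K : Subgroup (FreeGroup α)}
    (hc : Ctx H K) (r : ℕ) (S : Finset α) (a : α) (ha : a ∉ S)
    (V : Type v) [AddCommGroup V] [Module ℂ V] [FiniteDimensional ℂ V]
    (σ : MulAut (FreeGroup α) → Module.End ℂ V) (hσ : IsRepOn H σ)
    (hu : UnipOn K S σ) (hk : ∀ T, IsT K (r - 1) S T → σ T = 1)
    (hD : ∀ d ∈ DS K S, IsNilpotent (σ (R a d) - 1))
    (B : Submodule ℂ V) (hB1 : ∀ h ∈ H ⊓ StabS S, ∀ x ∈ B, σ h x ∈ B)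
    (hB2 : ∀ g ∈ K, g ∈ fsub S → ∀ x ∈ B, σ (R a g) x ∈ B)
    (hS : r + 2 ≤ S.card) (hS3 : 3 ≤ S.card) (y : ℕ) (hY : YOk.{u, v} H K r S y)
    (hd : Module.finrank ℂ (V ⧸ B) ≤ y)
    (W : Finset α) (hW : W ⊆ S) (hWr : W.card ≤ r) (w : FreeGroup α) (hwK : w ∈ K)
    (hw : w ∈ fsub W) : ∀ x, σ (R a w) x - x ∈ B := by
  have hΓ : H ⊓ StabS S ≤ stabBh hσ B := fun h hh =>
    ⟨hh.1, hB1 h hh, hB1 h⁻¹ (inv_mem hh)⟩
  have hR : ∀ g ∈ K, g ∈ fsub S → R a g ∈ stabBh hσ B := fun g hgK hg =>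
    ⟨hc.RH a g hgK, hB2 g hgK hg, by
      rw [← map_inv]; exact hB2 g⁻¹ (inv_mem hgK) (inv_mem hg)⟩
  have hσB : IsRepOn (stabBh hσ B) σ := hσ.mono (fun h hh => hh.1)
  obtain ⟨τ, hτ, hτ'⟩ := hσB.exists_quot B (fun g hg => hg.2.1)
  have huτ : UnipOn K S τ := by
    intro φ hφ b hb w' hw'K hw'
    exact nilpotent_quot (hτ' _ (hΓ (unip_mem hc hφ hb hw'K hw'))) (hu φ hφ b hb w' hw'K hw')
  have hDτ : ∀ d ∈ DS K S, IsNilpotent (τ (R a d) - 1) := fun d hd' =>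
    nilpotent_quot (hτ' _ (hR d (DS_le hc S hd').1 (DS_le hc S hd').2)) (hD d hd')
  have hkτ : ∀ T, IsT K (r - 1) S T → τ T = 1 := by
    intro T hT
    apply LinearMap.ext
    intro x
    obtain ⟨x, rfl⟩ := Submodule.Quotient.mk_surjective B x
    rw [hτ' T (hΓ (hT.mem hc)) x, hk T hT]
    rfl
  have h1 := stage2h hc r S a ha (V ⧸ B) τ (stabBh hσ B) hΓ hτ hR huτ hkτ hDτ hS hS3
    (hY.mono hd) W hW hWr w hwK hw
  intro x
  have h2 := hτ' _ (hR w hwK (fsub_mono hW hw)) x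
  rw [h1, Module.End.one_apply] at h2
  exact (Submodule.Quotient.eq B).mp h2.symm

end AFn
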