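import Mathlib
import Pool.Agent.AFn.Defs
import Pool.Agent.AFn.Basic
import Pool.Agent.AFn.Datum
import Pool.Agent.AFn.Gfun
import Pool.Agent.AFn.HLDefs
import Pool.Agent.AFn.CocycA

/-!
# The invariant functions in the space `SS`

Write `c_μ x = μ (δ x)`; `hd.addInv μ : AddInv K r S c_μ` (Gfun.lean). All elements of
`K ⊓ fsub W` are in `NS K r S` (`NS_of`, as `W.card ≤ r`).

`SS_tr`: on a generator, `gfun_tr` : `tr (mkS K S g) (gfun K S c_μ w) =
gfun K S c_μ (g * w * g⁻¹)`, and `g * w * g⁻¹ ∈ K ⊓ fsub W` (`hc.Kn`). Span induction.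

`SS_fixW`: first `avJ K S W f = 0` for `f` in the span. On a generator: fix `u ∈ fsub S`; the map
`h g = avJ K S W (gfun K S c_μ g) (mkS K S u)` on `K ⊓ fsub W` is additive (`gfun_add`), invariant
under conjugation by `y ∈ fsub W` (`gfun_tr` and `avJ_tr`) and zero at the powers
`of j ^ k ∈ K`, `j ∈ W` (all `gfun K S c_μ (of j ^ k) = 0`: rank one, `hd.kill` since
`1 ≤ r - 1`, `XS_conj`, `XS_mono`). `transfer_zero` for the group `↥(fsub W)` with
`X = {of j | j ∈ W}` gives `h = 0`. Then for `f ∈ FixJ K S W`, `avJ_fix` gives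
`(n : ℂ) • f = 0`, `n ≠ 0`.

`SS_fix_ne`: enlarge `I` to `I'` with `I'.card + 2 = W.card`, `W = insert y (insert z I')`,
`y ≠ z`, both not in `I'` (`FixJ K S I' ≤ FixJ K S I`). Fix `μ`. Let `P = ↥(fsub W)`,
`P0 = K.subgroupOf (fsub W)`, `M = QS K S → ℂ`, `act g = tr (mkS K S g)`,
`η g = gfun K S c_μ g`; `cocycle_ext` with `N = SS K S W δ` gives a cocycle `c` on `P` with
values in `SS`. On `fsub (insert y I')` (rank `W.card - 1 ≤ r - 1`) the cocycle vanishes on
`K`-elements (`hd.kill`), so `cocycle_trivial` gives `Λy ∈ SS` with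
`c g = tr (mkS K S g) Λy - Λy`; likewise `Λz` on `fsub (insert z I')`. On `fsub I'`:
`tr (mkS K S g) (Λy - Λz) = Λy - Λz`, so `Λy - Λz ∈ SS ⊓ FixJ K S I' = ⊥`. The set of
`g ∈ fsub W` with `c g = tr (mkS K S g) Λ - Λ` is a subgroup (cocycle rule) containing all the
letters of `W`, so it is everything. For `g ∈ K ⊓ fsub W`, `mkS K S g = 1` (`mkS_one`), so
`c g = 0`, `gfun K S c_μ g = 0`, and evaluating at `mkS K S 1` : `μ (δ g) = 0`. All `μ`:
`δ g = 0` (`Module.forall_dual_apply_eq_zero_iff`).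
-/

set_option autoImplicit false

namespace AFn

universe u v

variable {α : Type u} [DecidableEq α]

theorem SS_tr {H : Subgroup (MulAut (FreeGroup α))} {K : Subgroup (FreeGroup α)} [K.Normal]
    (hc : Ctx H K) {r : ℕ} {S W : Finset α} (hW : W ⊆ S) (hWr : W.card ≤ r)
    {E : Type v} [AddCommGroup E] [Module ℂ E] {τ : MulAut (FreeGroup α) → Module.End ℂ E}
    {δ : FreeGroup α → E} (hd : Datum K r S τ δ) {f : QS K S → ℂ} (hf : f ∈ SS K S W δ)
    {g : FreeGroup α} (hg : g ∈ fsub W) : tr (mkS K S g) f ∈ SS K S W δ := by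
  unfold SS at hf ⊢
  induction hf using Submodule.span_induction with
  | mem f hf =>
    obtain ⟨μ, w, hw, rfl⟩ := hf
    have hwN : w ∈ NS K r S := NS_of hW hWr hw.1 hw.2
    rw [gfun_tr (hd.addInv μ) hwN (fsub_mono hW hg)]
    exact Submodule.subset_span ⟨μ, g * w * g⁻¹, ⟨hc.Kn.conj_mem _ hw.1 g,
      (fsub W).mul_mem ((fsub W).mul_mem hg hw.2) ((fsub W).inv_mem hg)⟩, rfl⟩
  | zero => rw [map_zero]; exact zero_mem _
  | add x y _ _ hx hy => rw [map_add]; exact add_mem hx hy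
  | smul c x _ hx => rw [map_smul]; exact Submodule.smul_mem _ c hx

private theorem gfun_kill {K : Subgroup (FreeGroup α)} {r : ℕ} {S : Finset α}
    {c : FreeGroup α → ℂ} (hA : AddInv K r S c) {x : FreeGroup α} (hx : x ∈ XS K (r - 1) S) :
    gfun K S c x = 0 := by
  funext q
  exact hA.kill _ (XS_conj hx q.out.2)

theorem SS_fixW {H : Subgroup (MulAut (FreeGroup α))} {K : Subgroup (FreeGroup α)} [K.Normal]
    [K.FiniteIndex] (hc : Ctx H K) {r : ℕ} (hr : 2 ≤ r) {S W : Finset α} (hW : W ⊆ S)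
    (hWr : W.card ≤ r) {E : Type v} [AddCommGroup E] [Module ℂ E]
    {τ : MulAut (FreeGroup α) → Module.End ℂ E} {δ : FreeGroup α → E} (hd : Datum K r S τ δ)
    {f : QS K S → ℂ} (hf : f ∈ SS K S W δ) (hfix : f ∈ FixJ K S W) : f = 0 := by
  have key : avJ K S W f = 0 := by
    clear hfix
    unfold SS at hf
    induction hf using Submodule.span_induction with
    | mem f hf =>
      obtain ⟨μ, w, hw, rfl⟩ := hf
      have hA := hd.addInv μ
      funext q
      have hN : ∀ g ∈ K.subgroupOf (fsub W), (g : FreeGroup α) ∈ NS K r S := fun g hg =>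
        NS_of hW hWr (Subgroup.mem_subgroupOf.mp hg) g.2
      have h := transfer_zero (K.subgroupOf (fsub W)) inferInstance inferInstance
        (fun g : ↥(fsub W) => avJ K S W (gfun K S (fun x => μ (δ x)) (g : FreeGroup α)) q)
        (fun g hg g' hg' => by
          show avJ K S W (gfun K S (fun x => μ (δ x)) ((g : FreeGroup α) * g')) q = _
          rw [gfun_add hA (hN g hg) (hN g' hg'), map_add]
          rfl)
        (fun y g hg => by
          show avJ K S W (gfun K S (fun x => μ (δ x)) ((y : FreeGroup α) * g * (y : FreeGroup α)⁻¹)) q = _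
          rw [← gfun_tr hA (hN g hg) (fsub_mono hW y.2), avJ_tr y.2])
        (((↑) : Subgroup.closure (FreeGroup.of '' (W : Set α)) → FreeGroup α) ⁻¹'
          (FreeGroup.of '' (W : Set α)))
        Subgroup.closure_closure_coe_preimage
        (fun x hx k hk => by
          obtain ⟨j, hj, hjx⟩ := hx
          have hj' : j ∈ W := Finset.mem_coe.mp hj
          have h1 : (x : FreeGroup α) ^ k ∈ XS K (r - 1) S := by
            refine XS_of (I := {j}) (Finset.singleton_subset_iff.mpr (hW hj')) ?_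
              (Subgroup.mem_subgroupOf.mp hk) ?_
            · rw [Finset.card_singleton]; omega
            · rw [← hjx]
              exact pow_mem (of_mem_fsub (Finset.mem_singleton_self j)) k
          show avJ K S W (gfun K S (fun x => μ (δ x)) ((x : FreeGroup α) ^ k)) q = 0
          rw [gfun_kill hA h1, map_zero]
          rfl)
        ⟨w, hw.2⟩ (Subgroup.mem_subgroupOf.mpr hw.1)
      exact h
    | zero => rw [map_zero]
    | add x y _ _ hx hy => rw [map_add, hx, hy, add_zero]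
    | smul c x _ hx => rw [map_smul, hx, smul_zero]
  obtain ⟨n, hn, h1⟩ := avJ_fix hfix
  rw [key] at h1
  rcases smul_eq_zero.mp h1.symm with h2 | h2
  · exact absurd (Nat.cast_eq_zero.mp h2) hn
  · exact h2

/-- the cocycle is trivial on the factors of smaller rank -/
private theorem triv_J {K : Subgroup (FreeGroup α)}
    [K.Normal] [K.FiniteIndex] {r : ℕ} {S W J : Finset α}
    (hW : W ⊆ S) (hJ : J ⊆ W) (hJr : J.card ≤ r - 1)
    {c0 : FreeGroup α → ℂ} (hA : AddInv K r S c0) (N : Submodule ℂ (QS K S → ℂ))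
    (c : ↥(fsub W) → (QS K S → ℂ))
    (hc1 : ∀ g h, c (g * h) = c g + tr (mkS K S (g : FreeGroup α)) (c h))
    (hc2 : ∀ g ∈ K.subgroupOf (fsub W), c g =
      ((K.subgroupOf (fsub W)).index : ℂ) • gfun K S c0 (g : FreeGroup α))
    (hc3 : ∀ g, c g ∈ N) :
    ∃ Λ ∈ N, ∀ g : ↥(fsub W), (g : FreeGroup α) ∈ fsub J →
      c g = tr (mkS K S (g : FreeGroup α)) Λ - Λ := by
  obtain ⟨Λ, hΛ, h⟩ := cocycle_trivial (K.subgroupOf (fsub J)) inferInstance
    (fun g : ↥(fsub J) => tr (mkS K S (g : FreeGroup α)))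
    (fun g => c (Subgroup.inclusion (fsub_mono hJ) g))
    (fun g h => by
      rw [map_mul]
      exact hc1 _ _)
    (fun g hg => by
      have h1 : Subgroup.inclusion (fsub_mono hJ) g ∈ K.subgroupOf (fsub W) := by
        rw [Subgroup.mem_subgroupOf]
        exact Subgroup.mem_subgroupOf.mp hg
      rw [hc2 _ h1]
      have h2 : (g : FreeGroup α) ∈ XS K (r - 1) S :=
        XS_of (hJ.trans hW) hJr (Subgroup.mem_subgroupOf.mp hg) g.2
      have h3 : gfun K S c0 (Subgroup.inclusion (fsub_mono hJ) g : FreeGroup α) = 0 :=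
        gfun_kill hA h2
      rw [h3, smul_zero]) N (fun g => hc3 _)
  refine ⟨Λ, hΛ, fun g hg => ?_⟩
  exact h ⟨g, hg⟩

theorem SS_fix_ne {H : Subgroup (MulAut (FreeGroup α))} {K : Subgroup (FreeGroup α)}
    [K.Normal] [K.FiniteIndex] (hc : Ctx H K) {r : ℕ} {S W I : Finset α}
    (hW : W ⊆ S) (hWr : W.card ≤ r) (hI : I ⊆ W) (hIr : I.card + 2 ≤ W.card)
    {E : Type v} [AddCommGroup E] [Module ℂ E]
    {τ : MulAut (FreeGroup α) → Module.End ℂ E} {δ : FreeGroup α → E} (hd : Datum K r S τ δ)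
    (h0 : ∀ f ∈ SS K S W δ, f ∈ FixJ K S I → f = 0) :
    ∀ w ∈ K ⊓ fsub W, δ w = 0 := by
  intro w hw
  rw [← Module.forall_dual_apply_eq_zero_iff ℂ]
  intro μ
  have hA := hd.addInv μ
  obtain ⟨I', hI1, hI2, hI3⟩ := Finset.exists_subsuperset_card_eq hI
    (show I.card ≤ W.card - 2 by omega) (show W.card - 2 ≤ W.card by omega)
  have hcard : (W \ I').card = 2 := by
    rw [Finset.card_sdiff_of_subset hI2]; omega
  obtain ⟨y, z, hyz, hWI⟩ := Finset.card_eq_two.mp hcard
  have hy : y ∈ W \ I' := by rw [hWI]; exact Finset.mem_insert_self _ _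
  have hz : z ∈ W \ I' := by
    rw [hWI]; exact Finset.mem_insert_of_mem (Finset.mem_singleton_self _)
  rw [Finset.mem_sdiff] at hy hz
  obtain ⟨c, hc1, hc2, hc3⟩ := cocycle_ext (K.subgroupOf (fsub W)) inferInstance inferInstance
    (fun g : ↥(fsub W) => tr (mkS K S (g : FreeGroup α)))
    (fun g : ↥(fsub W) => gfun K S (fun x => μ (δ x)) (g : FreeGroup α))
    (fun g hg g' hg' => gfun_add hA (NS_of hW hWr (Subgroup.mem_subgroupOf.mp hg) g.2)
      (NS_of hW hWr (Subgroup.mem_subgroupOf.mp hg') g'.2))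
    (fun y g hg => (gfun_tr hA (NS_of hW hWr (Subgroup.mem_subgroupOf.mp hg) g.2)
      (fsub_mono hW y.2)).symm)
    (SS K S W δ)
    (fun g hg => Submodule.subset_span ⟨μ, g, ⟨Subgroup.mem_subgroupOf.mp hg, g.2⟩, rfl⟩)
  have hsub : ∀ a ∈ W, a ∉ I' → insert a I' ⊆ W ∧ (insert a I').card ≤ r - 1 := by
    intro a ha haI
    refine ⟨Finset.insert_subset ha hI2, ?_⟩
    rw [Finset.card_insert_of_notMem haI]
    omega
  obtain ⟨hy1, hy2⟩ := hsub y hy.1 hy.2
  obtain ⟨hz1, hz2⟩ := hsub z hz.1 hz.2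
  obtain ⟨Λy, hΛy, hy3⟩ := triv_J hW hy1 hy2 hA _ c hc1 hc2 hc3
  obtain ⟨Λz, hΛz, hz3⟩ := triv_J hW hz1 hz2 hA _ c hc1 hc2 hc3
  have hd0 : Λy - Λz = 0 := by
    refine h0 _ (Submodule.sub_mem _ hΛy hΛz) ?_
    intro g hg
    have hg1 : g ∈ fsub W := fsub_mono hI hg
    have e1 := hy3 ⟨g, hg1⟩ (fsub_mono (hI1.trans (Finset.subset_insert _ _)) hg)
    have e2 := hz3 ⟨g, hg1⟩ (fsub_mono (hI1.trans (Finset.subset_insert _ _)) hg)
    rw [e1] at e2
    rw [map_sub]
    rw [sub_eq_sub_iff_add_eq_add] at e2 ⊢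
    rw [e2, add_comm]
  have hΛ : Λz = Λy := (sub_eq_zero.mp hd0).symm
  rw [hΛ] at hz3
  have hc4 : c 1 = 0 := by
    have := hc1 1 1
    rw [mul_one] at this
    have e : tr (mkS K S ((1 : ↥(fsub W)) : FreeGroup α)) (c 1) = c 1 := by
      rw [OneMemClass.coe_one, map_one, tr_one]
    rw [e] at this
    exact left_eq_add.mp this
  have hall : ∀ g (hg : g ∈ fsub W), c ⟨g, hg⟩ = tr (mkS K S g) Λy - Λy := by
    intro g hg
    have hg' : g ∈ Subgroup.closure (FreeGroup.of '' (W : Set α)) := hg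
    induction hg' using Subgroup.closure_induction with
    | mem x hx =>
      obtain ⟨j, hj, rfl⟩ := hx
      have hj' : j ∈ W := Finset.mem_coe.mp hj
      by_cases hjI : j ∈ I'
      · exact hy3 _ (of_mem_fsub (Finset.mem_insert_of_mem hjI))
      · have hj2 : j ∈ W \ I' := Finset.mem_sdiff.mpr ⟨hj', hjI⟩
        rw [hWI, Finset.mem_insert, Finset.mem_singleton] at hj2
        rcases hj2 with rfl | rfl
        · exact hy3 _ (of_mem_fsub (Finset.mem_insert_self _ _))
        · exact hz3 _ (of_mem_fsub (Finset.mem_insert_self _ _))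
    | one =>
      have e : (⟨1, hg⟩ : ↥(fsub W)) = 1 := rfl
      rw [e, hc4, map_one, tr_one, sub_self]
    | mul x y hx hy ihx ihy =>
      have e : (⟨x * y, hg⟩ : ↥(fsub W)) = ⟨x, hx⟩ * ⟨y, hy⟩ := rfl
      rw [e, hc1, ihx hx, ihy hy, map_mul, tr_mul, map_sub]
      abel
    | inv x hx ihx =>
      have h1 := hc1 ⟨x⁻¹, hg⟩ ⟨x, hx⟩
      have e : (⟨x⁻¹, hg⟩ : ↥(fsub W)) * ⟨x, hx⟩ = 1 := by
        apply Subtype.ext
        exact inv_mul_cancel x
      rw [e, hc4, ihx hx, map_sub] at h1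
      have e2 : tr (mkS K S x⁻¹) (tr (mkS K S x) Λy) = Λy := by
        rw [← tr_mul, ← map_mul, inv_mul_cancel, map_one, tr_one]
      have h2 : (0 : QS K S → ℂ) = c ⟨x⁻¹, hg⟩ + (Λy - tr (mkS K S x⁻¹) Λy) := by
        rw [h1]
        congr 2
      rw [eq_comm, add_eq_zero_iff_eq_neg] at h2
      rw [h2, neg_sub]
  have h1 := hall w hw.2
  rw [mkS_one K hw.1 (fsub_mono hW hw.2), tr_one, sub_self,
    hc2 ⟨w, hw.2⟩ (Subgroup.mem_subgroupOf.mpr hw.1)] at h1
  have hidx : ((K.subgroupOf (fsub W)).index : ℂ) ≠ 0 := by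
    exact_mod_cast Subgroup.FiniteIndex.index_ne_zero
  have h2 := (smul_eq_zero.mp h1).resolve_left hidx
  have h3 := congrFun h2 (mkS K S 1)
  have h4 := gfun_mk hA (NS_of hW hWr hw.1 hw.2) (one_mem (fsub S))
  rw [one_mul, inv_one, mul_one] at h4
  exact h4.symm.trans h3

end AFn
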