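import Mathlib

/-!
# A chain of subspaces

Induction on `k`. For `k = 0` take `J = ∅`. Step: `J ⊆ W` with `J.card = k`, `k + 2 ≤ W.card`;
`F J ≠ ⊥`. If `F J ≤ F (insert y J)` for all `y ∈ W` then `F J ≤ F W = ⊥`, a contradiction. So
there is `y ∈ W` with `¬ F J ≤ F (insert y J)`; then `y ∉ J` and `F (insert y J) < F J`, so the
dimension drops (`Submodule.finrank_lt_finrank_of_lt`).
-/

set_option autoImplicit false

namespace AFn

universe u v

theorem chain_dim {α : Type u} [DecidableEq α] {M : Type v} [AddCommGroup M] [Module ℂ M]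
    [FiniteDimensional ℂ M] (W : Finset α) (F : Finset α → Submodule ℂ M)
    (hmono : ∀ J y, F (insert y J) ≤ F J)
    (hall : ∀ J ⊆ W, (∀ y ∈ W, F J ≤ F (insert y J)) → F J ≤ F W) (hW : F W = ⊥)
    (hne : ∀ J ⊆ W, J.card + 2 ≤ W.card → F J ≠ ⊥) (k : ℕ) (hk : k + 1 ≤ W.card) :
    ∃ J ⊆ W, J.card = k ∧ Module.finrank ℂ (F J) + k ≤ Module.finrank ℂ (F ∅) := by
  induction k with
  | zero =>
    exact ⟨∅, Finset.empty_subset W, Finset.card_empty, le_refl _⟩
  | succ k ih =>
    obtain ⟨J, hJW, hJk, hJ⟩ := ih (by omega)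
    have hneJ : F J ≠ ⊥ := hne J hJW (by omega)
    have hex : ∃ y ∈ W, ¬ F J ≤ F (insert y J) := by
      by_contra hcon
      push Not at hcon
      apply hneJ
      have h1 := hall J hJW hcon
      rw [hW] at h1
      exact le_bot_iff.mp h1
    obtain ⟨y, hyW, hy⟩ := hex
    have hyJ : y ∉ J := by
      intro hmem
      apply hy
      rw [Finset.insert_eq_of_mem hmem]
    refine ⟨insert y J, Finset.insert_subset hyW hJW, ?_, ?_⟩
    · rw [Finset.card_insert_of_notMem hyJ, hJk]
    · have hlt : F (insert y J) < F J := lt_of_le_not_ge (hmono J y) hy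
      have hfr := Submodule.finrank_lt_finrank_of_lt hlt
      omega

end AFn
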