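import Mathlib
import Pool.Agent.AFn.Defs
import Pool.Agent.AFn.Basic
import Pool.Agent.AFn.Datum
import Pool.Agent.AFn.Gfun
import Pool.Agent.AFn.HLDefs
import Pool.Agent.AFn.CocycA
import Pool.Agent.AFn.CocycB

/-!
# The functionals defined by the space `SS`

Write `c_μ x = μ (δ x)`; `hd.addInv μ : AddInv K r S c_μ`. For `w ∈ K ⊓ fsub W`
(`W ⊆ S.erase b`, `W.card ≤ r`): `w ∈ NS K r S`, `kill b w = w` (`kill_eq`), and `R b w` is one
of the elements `T` : `IsT K r S (R b w)` (take `φ = 1` in `IsT`). The key formula is `bet_gfun`: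
`bet K S b h (gfun K S c_μ w) (mkS K S u) = c_μ (u * (R b w h * h⁻¹) * u⁻¹)`. Also
`R b w h * h⁻¹ ∈ NS K r S` (`Mw_le_NS` and `delta_mem`, or `delta_NS`).
All identities below are linear in `s` (`betL`), so it suffices to check them on the generators
`s = gfun K S c_μ w` of `SS K S W δ` (`Submodule.span_induction`).

`bet_cocycle`: `R b w (g * h) * (g * h)⁻¹ = (R b w g * g⁻¹) * (g * (R b w h * h⁻¹) * g⁻¹)`.

`bet_of_ne`: `R b w (of i) * (of i)⁻¹ = 1`. `bet_of_self`: `R b w (of b) * (of b)⁻¹ =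
of b * w * (of b)⁻¹`.

`bet_conj`: for `h ∈ NS K r S`, `u ∈ fsub S`:
`c (u * (R b w h * h⁻¹) * u⁻¹) = c (u * R b w h * u⁻¹) - c (u * h * u⁻¹)` and
`c (R b w (u * h * u⁻¹) * (u * h * u⁻¹)⁻¹) = c (R b w u * R b w h * (R b w u)⁻¹) -
c (u * h * u⁻¹)`; the first terms agree by `AddInv.cong`, since `mkS K S (R b w u) = mkS K S u`
(`IsT_cong`/`R_cong`).

`theta_ker`: the map `β g = bet K S b g s` for `g ∈ ↥(fsub (insert b J))` is a cocycle for
`act g = tr (mkS K S g)`; for `g ∈ K` it is zero: `insert b J` has at most `r` elements, so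
`g` and all its conjugates are in `NS K r S`, and `bet K S b g s (mkS K S u) =
bet K S b (u * g * u⁻¹) s 1 = 0`. `cocycle_trivial` (with `N = ⊤`) gives `Λ` with
`bet K S b g s = tr (mkS K S g) Λ - Λ` for `g ∈ fsub (insert b J)`. With `bet_of_ne`, `Λ` is
invariant under `fsub J`; with `bet_of_self`, `s (q * t) = Λ (q * t) - Λ q` for
`t = mkS K S (of b)`. Now `unitary_zero` with `G = QS K S`, `Y = (fsub J).map (mkS K S)`.

`theta_im`: for the generator `gfun K S c_μ w` take `ξ = μ ∘ (τ (R b w) - 1)` :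
`ξ (δ x) = μ (δ (R b w x)) - μ (δ x) = c_μ (R b w x * x⁻¹)` by `hd.eqv`; for `x ∈ K ⊓ fsub W`,
`R b w x = x` (`R_fix`, `b ∉ W`).
-/

set_option autoImplicit false

namespace AFn

universe u v

variable {α : Type u} [DecidableEq α]

section

variable {H : Subgroup (MulAut (FreeGroup α))} {K : Subgroup (FreeGroup α)} [K.Normal]
  {r : ℕ} {S W : Finset α} {b : α} {E : Type v} [AddCommGroup E] [Module ℂ E]
  {τ : MulAut (FreeGroup α) → Module.End ℂ E} {δ : FreeGroup α → E}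

private theorem w_facts (hW : W ⊆ S.erase b) (hWr : W.card ≤ r) {w : FreeGroup α}
    (hw : w ∈ K ⊓ fsub W) :
    w ∈ NS K r S ∧ kill b w = w ∧ w ∈ fsub (S.erase b) ∧ b ∉ W := by
  have hbW : b ∉ W := fun h => Finset.notMem_erase b S (hW h)
  have hWS : W ⊆ S := hW.trans (Finset.erase_subset _ _)
  exact ⟨NS_of hWS hWr hw.1 hw.2, kill_eq hw.2 hbW, fsub_mono hW hw.2, hbW⟩

private theorem delta_mem_NS (hb : b ∈ S) (hW : W ⊆ S.erase b) (hWr : W.card ≤ r)
    {w : FreeGroup α} (hw : w ∈ K ⊓ fsub W) {g : FreeGroup α} (hg : g ∈ fsub S) :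
    R b w g * g⁻¹ ∈ NS K r S := by
  obtain ⟨h1, -, h3, -⟩ := w_facts (r := r) hW hWr hw
  exact Mw_le_NS h1 (delta_mem hb h3 hg)

/-- two linear maps that agree on the generators agree on `SS` -/
private theorem SS_ext {M : Type*} [AddCommGroup M] [Module ℂ M]
    (L1 L2 : (QS K S → ℂ) →ₗ[ℂ] M)
    (h : ∀ (μ : Module.Dual ℂ E) (w : FreeGroup α), w ∈ K ⊓ fsub W →
      L1 (gfun K S (fun x => μ (δ x)) w) = L2 (gfun K S (fun x => μ (δ x)) w))
    {s : QS K S → ℂ} (hs : s ∈ SS K S W δ) : L1 s = L2 s := by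
  refine LinearMap.eqOn_span (f := L1) (g := L2) ?_ hs
  rintro f ⟨μ, w, hw, rfl⟩
  exact h μ w hw

theorem bet_cocycle (hc : Ctx H K) (hb : b ∈ S) (hW : W ⊆ S.erase b) (hWr : W.card ≤ r)
    (hd : Datum K r S τ δ) {s : QS K S → ℂ} (hs : s ∈ SS K S W δ) {g h : FreeGroup α}
    (hg : g ∈ fsub S) (hh : h ∈ fsub S) :
    bet K S b (g * h) s = bet K S b g s + tr (mkS K S g) (bet K S b h s) := by
  refine SS_ext (betL K S b (g * h))
    (betL K S b g + (tr (mkS K S g)).comp (betL K S b h)) ?_ hs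
  intro μ w hw
  obtain ⟨h1, h2, h3, -⟩ := w_facts (r := r) hW hWr hw
  have hA := hd.addInv μ
  funext q
  obtain ⟨u, hu, rfl⟩ := mkS_surj K S q
  rw [LinearMap.add_apply, LinearMap.comp_apply, Pi.add_apply, tr_apply, betL_apply, betL_apply,
    betL_apply, ← map_mul, bet_gfun hA hb h1 h2 ((fsub S).mul_mem hg hh) hu,
    bet_gfun hA hb h1 h2 hg hu, bet_gfun hA hb h1 h2 hh ((fsub S).mul_mem hu hg)]
  have e : u * (R b w (g * h) * (g * h)⁻¹) * u⁻¹ =
      (u * (R b w g * g⁻¹) * u⁻¹) * ((u * g) * (R b w h * h⁻¹) * (u * g)⁻¹) := by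
    rw [map_mul]
    group
  rw [e]
  exact hA.add _ (NS_conj (delta_mem_NS hb hW hWr hw hg) hu) _
    (NS_conj (delta_mem_NS hb hW hWr hw hh) ((fsub S).mul_mem hu hg))

theorem bet_of_ne (hc : Ctx H K) (hb : b ∈ S) (hW : W ⊆ S.erase b) (hWr : W.card ≤ r)
    (hd : Datum K r S τ δ) {s : QS K S → ℂ} (hs : s ∈ SS K S W δ) {i : α} (hi : i ∈ S.erase b) :
    bet K S b (FreeGroup.of i) s = 0 := by
  refine SS_ext (betL K S b (FreeGroup.of i)) 0 ?_ hs
  intro μ w hw
  obtain ⟨h1, h2, h3, -⟩ := w_facts (r := r) hW hWr hw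
  have hA := hd.addInv μ
  funext q
  obtain ⟨u, hu, rfl⟩ := mkS_surj K S q
  rw [betL_apply, bet_gfun hA hb h1 h2 (of_mem_fsub (Finset.mem_of_mem_erase hi)) hu,
    R_of_ne (Finset.ne_of_mem_erase hi), mul_inv_cancel, mul_one, mul_inv_cancel, hA.one]
  rfl

theorem bet_of_self (hc : Ctx H K) (hb : b ∈ S) (hW : W ⊆ S.erase b) (hWr : W.card ≤ r)
    (hd : Datum K r S τ δ) {s : QS K S → ℂ} (hs : s ∈ SS K S W δ) :
    bet K S b (FreeGroup.of b) s = tr (mkS K S (FreeGroup.of b)) s := by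
  refine SS_ext (betL K S b (FreeGroup.of b)) (tr (mkS K S (FreeGroup.of b))) ?_ hs
  intro μ w hw
  obtain ⟨h1, h2, h3, -⟩ := w_facts (r := r) hW hWr hw
  have hA := hd.addInv μ
  funext q
  obtain ⟨u, hu, rfl⟩ := mkS_surj K S q
  rw [betL_apply, bet_gfun hA hb h1 h2 (of_mem_fsub hb) hu, tr_apply, ← map_mul,
    gfun_mk hA h1 ((fsub S).mul_mem hu (of_mem_fsub hb)), R_of_self, h2]
  congr 1
  group

theorem bet_conj (hc : Ctx H K) (hb : b ∈ S) (hW : W ⊆ S.erase b) (hWr : W.card ≤ r)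
    (hd : Datum K r S τ δ) {s : QS K S → ℂ} (hs : s ∈ SS K S W δ) {h u : FreeGroup α}
    (hh : h ∈ NS K r S) (hu : u ∈ fsub S) :
    bet K S b h s (mkS K S u) = bet K S b (u * h * u⁻¹) s 1 := by
  refine SS_ext ((LinearMap.proj (mkS K S u)).comp (betL K S b h))
    ((LinearMap.proj (1 : QS K S)).comp (betL K S b (u * h * u⁻¹))) ?_ hs
  intro μ w hw
  obtain ⟨h1, h2, h3, -⟩ := w_facts (r := r) hW hWr hw
  have hA := hd.addInv μ
  have hhS : h ∈ fsub S := (NS_le hc hh).2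
  have huh : u * h * u⁻¹ ∈ NS K r S := NS_conj hh hu
  have huhS : u * h * u⁻¹ ∈ fsub S := (NS_le hc huh).2
  have hR : R b w ∈ StabS S := R_mem_StabS hb h3
  have hRh : R b w h ∈ NS K r S := NS_map hh hR
  have hRu : R b w u ∈ fsub S := StabS_map hR hu
  rw [LinearMap.comp_apply, LinearMap.comp_apply, LinearMap.proj_apply, LinearMap.proj_apply,
    betL_apply, betL_apply, bet_gfun hA hb h1 h2 hhS hu]
  have hone : bet K S b (u * h * u⁻¹) (gfun K S (fun x => μ (δ x)) w) 1 =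
      μ (δ (1 * (R b w (u * h * u⁻¹) * (u * h * u⁻¹)⁻¹) * 1⁻¹)) := by
    have := bet_gfun hA hb h1 h2 huhS (one_mem (fsub S))
    rw [map_one] at this
    exact this
  rw [hone]
  have e1 : u * (R b w h * h⁻¹) * u⁻¹ = (u * R b w h * u⁻¹) * (u * h * u⁻¹)⁻¹ := by group
  have e2 : 1 * (R b w (u * h * u⁻¹) * (u * h * u⁻¹)⁻¹) * (1 : FreeGroup α)⁻¹ =
      (R b w u * R b w h * (R b w u)⁻¹) * (u * h * u⁻¹)⁻¹ := by
    rw [map_mul, map_mul, map_inv]
    group
  rw [e1, e2, hA.sub (NS_conj hRh hu) huh, hA.sub (NS_conj hRh hRu) huh]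
  congr 1
  refine hA.cong hRh hu hRu ?_
  rw [mkS_eq_iff K hu hRu]
  have h4 : R b w u * u⁻¹ ∈ K := R_cong hc.Kn (by rw [h2]; exact hw.1) u
  have h5 := hc.Kn.conj_mem _ h4 u⁻¹
  have e3 : u⁻¹ * (R b w u * u⁻¹) * u⁻¹⁻¹ = u⁻¹ * R b w u := by group
  rw [e3] at h5
  exact h5

theorem theta_ker [K.FiniteIndex] (hc : Ctx H K) (hb : b ∈ S) (hW : W ⊆ S.erase b)
    (hWr : W.card ≤ r) (hd : Datum K r S τ δ) {J : Finset α} (hJ : J ⊆ S.erase b)
    (hJr : J.card + 1 ≤ r) {s : QS K S → ℂ}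
    (hs : s ∈ SS K S W δ) (h0 : ∀ x ∈ NS K r S, bet K S b x s 1 = 0)
    (hav : avJ K S J s = 0) : s = 0 := by
  classical
  have hJb : insert b J ⊆ S := by
    intro x hx
    rcases Finset.mem_insert.mp hx with h | h
    · rw [h]; exact hb
    · exact Finset.mem_of_mem_erase (hJ h)
  have hcard : (insert b J).card ≤ r := (Finset.card_insert_le _ _).trans hJr
  have hle : fsub (insert b J) ≤ fsub S := fsub_mono hJb
  obtain ⟨Λ, -, hΛ⟩ := cocycle_trivial (P := ↥(fsub (insert b J)))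
    (K.subgroupOf (fsub (insert b J))) inferInstance (M := QS K S → ℂ)
    (fun g => tr (mkS K S (g : FreeGroup α))) (fun g => bet K S b (g : FreeGroup α) s)
    (fun g h => bet_cocycle hc hb hW hWr hd hs (hle g.2) (hle h.2))
    (fun g hg => by
      have hgK : (g : FreeGroup α) ∈ K := Subgroup.mem_subgroupOf.mp hg
      have hgN : (g : FreeGroup α) ∈ NS K r S := NS_of hJb hcard hgK g.2
      funext q
      obtain ⟨u, hu, rfl⟩ := mkS_surj K S q
      rw [bet_conj hc hb hW hWr hd hs hgN hu, h0 _ (NS_conj hgN hu)]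
      rfl) ⊤ (fun _ => Submodule.mem_top)
  have hfix : ∀ y ∈ fsub J, tr (mkS K S y) Λ = Λ := by
    intro y hy
    unfold fsub at hy
    induction hy using Subgroup.closure_induction with
    | mem x hx =>
      obtain ⟨i, hi, rfl⟩ := hx
      have hiJ : i ∈ J := Finset.mem_coe.mp hi
      have h1 := hΛ ⟨FreeGroup.of i, of_mem_fsub (Finset.mem_insert_of_mem hiJ)⟩
      have h2 : bet K S b (FreeGroup.of i) s = 0 := bet_of_ne hc hb hW hWr hd hs (hJ hiJ)
      change bet K S b (FreeGroup.of i) s = tr (mkS K S (FreeGroup.of i)) Λ - Λ at h1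
      rw [h2] at h1
      exact sub_eq_zero.mp h1.symm
    | one => rw [map_one, tr_one]
    | mul x y _ _ hx hy => rw [map_mul, tr_mul, hy, hx]
    | inv x _ hx =>
      have h1 : tr (mkS K S x⁻¹) (tr (mkS K S x) Λ) = Λ := by
        rw [← tr_mul, ← map_mul, inv_mul_cancel, map_one, tr_one]
      rwa [hx] at h1
  have hself : tr (mkS K S (FreeGroup.of b)) s = tr (mkS K S (FreeGroup.of b)) Λ - Λ := by
    have h1 := hΛ ⟨FreeGroup.of b, of_mem_fsub (Finset.mem_insert_self b J)⟩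
    have h2 := bet_of_self hc hb hW hWr hd hs
    change bet K S b (FreeGroup.of b) s = tr (mkS K S (FreeGroup.of b)) Λ - Λ at h1
    rw [h2] at h1
    exact h1
  let _ : Fintype (QS K S) := Subgroup.fintypeQuotientOfFiniteIndex
  let _ : Fintype ↥((fsub J).map (mkS K S)) := Fintype.ofFinite _
  have hz := unitary_zero (G := QS K S) ((fsub J).map (mkS K S)) (mkS K S (FreeGroup.of b)) Λ s
    (fun u y hy => by
      obtain ⟨g, hg, rfl⟩ := Subgroup.mem_map.mp hy
      have h1 := congrFun (hfix g hg) u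
      exact h1)
    (fun u => by
      have h1 := congrFun hself u
      exact h1)
    (fun u => by
      have h1 := congrFun hav u
      unfold avJ at h1
      rw [LinearMap.sum_apply, Finset.sum_apply] at h1
      rw [← Finset.sum_coe_sort] at h1
      rw [Pi.zero_apply] at h1
      rw [← h1]
      refine Fintype.sum_equiv (Equiv.subtypeEquivRight (fun x => ?_)) _ _ (fun x => rfl)
      rw [Set.Finite.mem_toFinset, SetLike.mem_coe])
  funext u
  exact hz u

theorem theta_im (hc : Ctx H K) (hb : b ∈ S) (hW : W ⊆ S.erase b) (hWr : W.card ≤ r)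
    (hd : Datum K r S τ δ) {s : QS K S → ℂ} (hs : s ∈ SS K S W δ) :
    ∃ ξ : Module.Dual ℂ E, (∀ x ∈ NS K r S, bet K S b x s 1 = ξ (δ x)) ∧
      (∀ x ∈ K ⊓ fsub W, ξ (δ x) = 0) := by
  unfold SS at hs
  induction hs using Submodule.span_induction with
  | mem f hf =>
    obtain ⟨μ, w, hw, rfl⟩ := hf
    obtain ⟨h1, h2, h3, h4⟩ := w_facts (r := r) hW hWr hw
    have hA := hd.addInv μ
    have hR : R b w ∈ StabS S := R_mem_StabS hb h3
    have hT : IsT K r S (R b w) := IsT_of_XS hb (XS_of hW hWr hw.1 hw.2)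
    refine ⟨μ ∘ₗ (τ (R b w) - 1), fun x hx => ?_, fun x hx => ?_⟩
    · have h5 := bet_gfun hA hb h1 h2 (NS_le hc hx).2 (one_mem (fsub S))
      rw [map_one] at h5
      rw [h5]
      have e : 1 * (R b w x * x⁻¹) * (1 : FreeGroup α)⁻¹ = R b w x * x⁻¹ := by group
      rw [e, hA.sub (NS_map hx hR) hx]
      simp only [hd.eqv _ hT x hx]
      rw [LinearMap.comp_apply, LinearMap.sub_apply, map_sub]
      rfl
    · have hxN : x ∈ NS K r S := NS_of (hW.trans (Finset.erase_subset _ _)) hWr hx.1 hx.2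
      rw [LinearMap.comp_apply, LinearMap.sub_apply, map_sub, ← hd.eqv _ hT x hxN, R_fix h4 hx.2]
      exact sub_self _
  | zero =>
    refine ⟨0, fun x _ => ?_, fun x _ => rfl⟩
    rw [← betL_apply, map_zero]
    rfl
  | add f f' _ _ hf hf' =>
    obtain ⟨ξ, h1, h2⟩ := hf
    obtain ⟨ξ', h1', h2'⟩ := hf'
    refine ⟨ξ + ξ', fun x hx => ?_, fun x hx => ?_⟩
    · rw [← betL_apply, map_add, Pi.add_apply, betL_apply, betL_apply, h1 x hx, h1' x hx]
      rfl
    · rw [LinearMap.add_apply, h2 x hx, h2' x hx, add_zero]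
  | smul c f _ hf =>
    obtain ⟨ξ, h1, h2⟩ := hf
    refine ⟨c • ξ, fun x hx => ?_, fun x hx => ?_⟩
    · rw [← betL_apply, map_smul, Pi.smul_apply, betL_apply, h1 x hx]
      rfl
    · rw [LinearMap.smul_apply, h2 x hx, smul_zero]

end

end AFn
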