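import Mathlib
import Pool.Agent.AFn.Defs
import Pool.Agent.AFn.Basic
import Pool.Agent.AFn.Datum
import Pool.Agent.AFn.Gfun
import Pool.Agent.AFn.HLDefs
import Pool.Agent.AFn.HLa
import Pool.Agent.AFn.HLb
import Pool.Agent.AFn.HLc

/-!
# The base case of the dimension bound

Let `D = span (δ '' XS K r S)`, `Q = span (δ '' {w | w ∈ K ⊓ fsub W})`; `Q ≤ D` (elements of
`K ⊓ fsub W` have rank at most `r`) and `Q ≠ ⊥`. Let `SSp = SS K S W δ`.

1. `chain_dim` with `F J = SSp ⊓ FixJ K S J` and `k = r - 1`: `F W = ⊥` by `SS_fixW`;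
`F J ≠ ⊥` for `J.card + 2 ≤ r` by `SS_fix_ne` (otherwise `δ w0 = 0`); `hmono` and `hall` since
`fsub (insert y J)` is generated by `fsub J` and `of y` (`FixJ K S J` is determined by the
letters of `J`). So there is `J ⊆ W` with `J.card = r - 1` and
`finrank (F J) + (r - 1) ≤ finrank (F ∅) ≤ finrank SSp`.

2. Let `Θ : SSp → (↥(NS K r S) → ℂ)`, `Θ s x = bet K S b x s 1` (linear, `betL`). The map
`avJ K S J` sends `SSp` to `F J` (`SS_tr`, `avJ_mem`; it is a sum of translates) and is
injective on the kernel of `Θ` by `theta_ker`, so `finrank (ker Θ) ≤ finrank (F J)`.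

3. By `theta_im` the range of `Θ` is contained in the image of `Q.dualAnnihilator` under the
linear map `ρ ξ x = ξ (δ x)` (`x : ↥(NS K r S)`), whose kernel contains `D.dualAnnihilator`
(`δ` of an element of `NS K r S` is in `D`: closure induction with `hd.add`, `AddInv`-like
computation for inverses), which is contained in `Q.dualAnnihilator`. Hence
`finrank (range Θ) ≤ finrank Q.dualAnnihilator - finrank D.dualAnnihilator =
finrank D - finrank Q ≤ finrank D - 1` (`Subspace.finrank_add_finrank_dualAnnihilator_eq`).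

So `finrank SSp ≤ finrank (F J) + finrank D - 1` and `r ≤ finrank D`.
-/

set_option autoImplicit false

namespace AFn

universe u v

variable {α : Type u} [DecidableEq α]

/-- invariance under the letters -/
theorem FixJ_of_letters {K : Subgroup (FreeGroup α)} [K.Normal] {S W : Finset α}
    {f : QS K S → ℂ} (hf : ∀ y ∈ W, tr (mkS K S (FreeGroup.of y)) f = f) :
    f ∈ FixJ K S W := by
  intro g hg
  unfold fsub at hg
  induction hg using Subgroup.closure_induction with
  | mem x hx =>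
    obtain ⟨y, hy, rfl⟩ := hx
    exact hf y (Finset.mem_coe.1 hy)
  | one => rw [map_one, tr_one]
  | mul x y _ _ hx hy => rw [map_mul, tr_mul, hy, hx]
  | inv x _ hx =>
    have h1 : tr (mkS K S x⁻¹) (tr (mkS K S x) f) = f := by
      rw [← tr_mul, ← map_mul, inv_mul_cancel, map_one, tr_one]
    rw [hx] at h1
    exact h1

theorem FixJ_anti {K : Subgroup (FreeGroup α)} [K.Normal] {S J J' : Finset α} (h : J ⊆ J') :
    FixJ K S J' ≤ FixJ K S J := fun _ hf y hy => hf y (fsub_mono h hy)

/-- the values of a datum -/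
theorem Datum.mem_span {K : Subgroup (FreeGroup α)} {r : ℕ} {S : Finset α} {E : Type v}
    [AddCommGroup E] [Module ℂ E] {τ : MulAut (FreeGroup α) → Module.End ℂ E}
    {δ : FreeGroup α → E} (hd : Datum K r S τ δ) {x : FreeGroup α} (hx : x ∈ NS K r S) :
    δ x ∈ Submodule.span ℂ (δ '' XS K r S) := by
  have h1 : δ 1 = 0 := by
    have h := hd.add 1 (one_mem _) 1 (one_mem _)
    rw [mul_one] at h
    exact left_eq_add.mp h
  have key : ∀ x ∈ NS K r S, δ x ∈ Submodule.span ℂ (δ '' XS K r S) := by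
    intro x hx
    unfold NS at hx
    induction hx using Subgroup.closure_induction with
    | mem y hy => exact Submodule.subset_span ⟨y, hy, rfl⟩
    | one => rw [h1]; exact zero_mem _
    | mul y z hy hz ihy ihz =>
      rw [hd.add y hy z hz]
      exact add_mem ihy ihz
    | inv y hy ihy =>
      have h2 := hd.add y hy y⁻¹ ((NS K r S).inv_mem hy)
      rw [mul_inv_cancel, h1] at h2
      have h3 : δ y⁻¹ = - δ y := eq_neg_of_add_eq_zero_right h2.symm
      rw [h3]
      exact neg_mem ihy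
  exact key x hx

theorem hl_base {H : Subgroup (MulAut (FreeGroup α))} {K : Subgroup (FreeGroup α)}
    (hc : Ctx H K) (r : ℕ) (hr : 2 ≤ r) (S W : Finset α) (b : α) (hb : b ∈ S)
    (hW : W ⊆ S.erase b) (hWr : W.card = r)
    {E : Type v} [AddCommGroup E] [Module ℂ E] [FiniteDimensional ℂ E]
    (τ : MulAut (FreeGroup α) → Module.End ℂ E) (δ : FreeGroup α → E) (hd : Datum K r S τ δ)
    (w0 : FreeGroup α) (hw0K : w0 ∈ K) (hw0 : w0 ∈ fsub W) (hne : δ w0 ≠ 0) :
    r ≤ Module.finrank ℂ (Submodule.span ℂ (δ '' XS K r S)) := by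
  classical
  haveI := hc.Kn
  haveI := hc.Kf
  have hWS : W ⊆ S := hW.trans (Finset.erase_subset _ _)
  obtain ⟨D, hDdef⟩ : ∃ D : Submodule ℂ E, D = Submodule.span ℂ (δ '' XS K r S) := ⟨_, rfl⟩
  obtain ⟨Q, hQdef⟩ : ∃ Q : Submodule ℂ E, Q = Submodule.span ℂ
    (δ '' ((K ⊓ fsub W : Subgroup (FreeGroup α)) : Set (FreeGroup α))) := ⟨_, rfl⟩
  rw [← hDdef]
  -- the chain
  obtain ⟨J, hJW, hJc, hJd⟩ := chain_dim W (fun J => SS K S W δ ⊓ FixJ K S J)
    (by
      intro J y
      exact inf_le_inf_left _ (FixJ_anti (Finset.subset_insert _ _)))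
    (by
      intro J _ hall f hf
      refine ⟨hf.1, FixJ_of_letters fun y hy => ?_⟩
      exact (hall y hy hf).2 _ (of_mem_fsub (Finset.mem_insert_self _ _)))
    (by
      rw [Submodule.eq_bot_iff]
      intro f hf
      exact SS_fixW hc hr hWS hWr.le hd hf.1 hf.2)
    (by
      intro J hJW hJ h0
      apply hne
      refine SS_fix_ne hc hWS hWr.le hJW hJ hd ?_ w0 ⟨hw0K, hw0⟩
      intro f hf hf'
      have : f ∈ SS K S W δ ⊓ FixJ K S J := ⟨hf, hf'⟩
      rw [h0, Submodule.mem_bot] at this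
      exact this)
    (r - 1) (by omega)
  have hF0 : Module.finrank ℂ (↥(SS K S W δ ⊓ FixJ K S ∅)) ≤ Module.finrank ℂ (SS K S W δ) :=
    Submodule.finrank_mono inf_le_left
  -- the functionals
  let Θ : SS K S W δ →ₗ[ℂ] (NS K r S → ℂ) :=
    LinearMap.pi (fun x => (LinearMap.proj (1 : QS K S)).comp
      ((betL K S b (x : FreeGroup α)).comp (SS K S W δ).subtype))
  have hΘ : ∀ (s : SS K S W δ) (x : NS K r S), Θ s x = bet K S b x s 1 := fun s x => rfl
  -- the kernel
  have hker : Module.finrank ℂ (LinearMap.ker Θ) ≤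
      Module.finrank ℂ (↥(SS K S W δ ⊓ FixJ K S J)) := by
    have hav : ∀ s : SS K S W δ, avJ K S J (s : QS K S → ℂ) ∈ SS K S W δ ⊓ FixJ K S J := by
      intro s
      refine ⟨?_, avJ_mem _⟩
      unfold avJ
      rw [LinearMap.sum_apply]
      refine Submodule.sum_mem _ fun y hy => ?_
      rw [mem_avSet] at hy
      obtain ⟨g, hg, rfl⟩ := hy
      exact SS_tr hc hWS hWr.le hd s.2 (fsub_mono hJW hg)
    let A : LinearMap.ker Θ →ₗ[ℂ] (↥(SS K S W δ ⊓ FixJ K S J)) :=
      { toFun := fun s => ⟨avJ K S J (s : SS K S W δ), hav s⟩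
        map_add' := fun s t => Subtype.ext (map_add (avJ K S J) _ _)
        map_smul' := fun c s => Subtype.ext (map_smul (avJ K S J) _ _) }
    refine LinearMap.finrank_le_finrank_of_injective (f := A) ?_
    intro s t hst
    have h1 : avJ K S J ((s : SS K S W δ) : QS K S → ℂ) =
        avJ K S J ((t : SS K S W δ) : QS K S → ℂ) := congrArg Subtype.val hst
    have h2 : ∀ x ∈ NS K r S, bet K S b x
        (((s : SS K S W δ) - (t : SS K S W δ) : SS K S W δ) : QS K S → ℂ) 1 = 0 := by
      intro x hx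
      have h3 : Θ ((s : SS K S W δ) - (t : SS K S W δ)) = 0 :=
        (LinearMap.ker Θ).sub_mem s.2 t.2
      rw [← hΘ _ ⟨x, hx⟩, h3]
      rfl
    have h5 : avJ K S J (((s : SS K S W δ) - (t : SS K S W δ) : SS K S W δ) : QS K S → ℂ) = 0 := by
      rw [Submodule.coe_sub, map_sub, h1, sub_self]
    have h4 := theta_ker hc hb hW hWr.le hd (J := J) (hJW.trans hW) (by omega)
      ((s : SS K S W δ) - (t : SS K S W δ) : SS K S W δ).2 h2 h5
    rw [Submodule.coe_sub, sub_eq_zero] at h4
    exact Subtype.ext (Subtype.ext h4)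
  -- the range
  let ρ' : Module.Dual ℂ E →ₗ[ℂ] (NS K r S → ℂ) :=
    LinearMap.pi (fun x => LinearMap.applyₗ (δ (x : FreeGroup α)))
  have hρ' : ∀ (ξ : Module.Dual ℂ E) (x : NS K r S), ρ' ξ x = ξ (δ x) := fun ξ x => rfl
  have hQD : Q ≤ D := by
    rw [hQdef, hDdef]
    refine Submodule.span_mono (Set.image_mono ?_)
    intro x hx
    exact XS_of hWS hWr.le hx.1 hx.2
  have hann : D.dualAnnihilator ≤ Q.dualAnnihilator := Submodule.dualAnnihilator_anti hQD
  have hrange : LinearMap.range Θ ≤ LinearMap.range (ρ'.domRestrict Q.dualAnnihilator) := by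
    rintro _ ⟨s, rfl⟩
    obtain ⟨ξ, hξ1, hξ2⟩ := theta_im hc hb hW hWr.le hd s.2
    have hξQ : ξ ∈ Q.dualAnnihilator := by
      rw [Submodule.mem_dualAnnihilator]
      intro e he
      have h1 : Q ≤ LinearMap.ker ξ := by
        rw [hQdef, Submodule.span_le]
        rintro _ ⟨x, hx, rfl⟩
        exact hξ2 x hx
      exact h1 he
    refine ⟨⟨ξ, hξQ⟩, ?_⟩
    funext x
    rw [LinearMap.domRestrict_apply, hρ', hΘ, hξ1 x x.2]
  have hkerρ : Module.finrank ℂ D.dualAnnihilator ≤
      Module.finrank ℂ (LinearMap.ker (ρ'.domRestrict Q.dualAnnihilator)) := by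
    have h1 : ∀ ξ : D.dualAnnihilator, (⟨ξ, hann ξ.2⟩ : Q.dualAnnihilator) ∈
        LinearMap.ker (ρ'.domRestrict Q.dualAnnihilator) := by
      intro ξ
      rw [LinearMap.mem_ker, LinearMap.domRestrict_apply]
      funext x
      rw [hρ']
      have h2 := hd.mem_span x.2
      rw [← hDdef] at h2
      exact (Submodule.mem_dualAnnihilator _).mp ξ.2 _ h2
    let B : D.dualAnnihilator →ₗ[ℂ] LinearMap.ker (ρ'.domRestrict Q.dualAnnihilator) :=
      { toFun := fun ξ => ⟨⟨ξ, hann ξ.2⟩, h1 ξ⟩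
        map_add' := fun _ _ => rfl
        map_smul' := fun _ _ => rfl }
    refine LinearMap.finrank_le_finrank_of_injective (f := B) ?_
    intro ξ ξ' h
    have h3 : ((B ξ : Q.dualAnnihilator) : Module.Dual ℂ E) = (B ξ' : Q.dualAnnihilator) := by
      rw [h]
    exact Subtype.ext h3
  have e1 := LinearMap.finrank_range_add_finrank_ker Θ
  have e2 := LinearMap.finrank_range_add_finrank_ker (ρ'.domRestrict Q.dualAnnihilator)
  have e3 := Submodule.finrank_mono hrange
  have e4 := Subspace.finrank_add_finrank_dualAnnihilator_eq D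
  have e5 := Subspace.finrank_add_finrank_dualAnnihilator_eq Q
  have e6 : 0 < Module.finrank ℂ Q := by
    rw [Nat.pos_iff_ne_zero]
    intro h
    have h1 := Submodule.finrank_eq_zero.mp h
    have h2 : δ w0 ∈ Q := by
      rw [hQdef]
      exact Submodule.subset_span ⟨w0, ⟨hw0K, hw0⟩, rfl⟩
    rw [h1, Submodule.mem_bot] at h2
    exact hne h2
  omega

end AFn
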