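import Mathlib
import Pool.Agent.AFn.Defs
import Pool.Agent.AFn.Basic
import Pool.Agent.AFn.Datum
import Pool.Agent.AFn.Gfun
import Pool.Agent.AFn.ClaimA
import Pool.Agent.AFn.HLBase

/-!
# The dimension bound

Induction on `n = S.card`. Let `δ x ≠ 0`, `x = φ w0`, `φ ∈ StabS S`, `w0 ∈ K ⊓ fsub W`,
`W ⊆ S`, `W.card ≤ r`.

Twist: `δ1 x = δ (φ x)`, `τ1 T = τ (φ * T * φ⁻¹)` is a datum (`NS_map`, `IsT_conj`, `hc.Kc`,
`StabS_map`, `XS_map`), `δ1 w0 ≠ 0`, and `δ1 '' XS K r S = δ '' XS K r S` (at least `⊆`).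
So we may assume `δ w0 ≠ 0`. Since `r + 1 ≤ S.card` there is `b ∈ S`, `b ∉ W`;
`w0 ∈ XS K r (S.erase b)`.

Case `S.card = r + 1`: take a set `W'` with `W ⊆ W' ⊆ S.erase b`, `W'.card = r`
(here `W' = S.erase b`), and use `hl_base`.

Case `r + 2 ≤ S.card`. Choose a functional `μ` with `μ (δ w0) ≠ 0` and apply `claimA` to
`c x = μ (δ x)` (its conclusion fails for `w = w0`, `u = 1`): so there are
`w1 ∈ XS K r (S.erase b)`, `x ∈ NS K r S`, `u ∈ fsub S` with
`μ (δ (u * R b w1 x * u⁻¹)) ≠ μ (δ (u * x * u⁻¹))`. Let `T = R b w1` (`IsT_of_XS`). Since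
`T u = k * u` with `k ∈ K ⊓ fsub S` (`IsT_cong'`), `δ (T (u * x * u⁻¹)) = δ (u * T x * u⁻¹)`
by `hd.inv`, so `τ T (δ y) ≠ δ y` for `y = u * x * u⁻¹ ∈ NS K r S`.

There is `u' ∈ fsub S` with `δ (u' * w1 * u'⁻¹) ≠ 0`: otherwise `δ` vanishes on `Mw S w1`
(closure induction, inside `NS K r S`), which contains `u * (R b w1 x * x⁻¹) * u⁻¹`
(`delta_mem`), a contradiction.

The map `δ2 x = δ (u' * x * u'⁻¹)` with `τ` is a datum over `S.erase b`: for the rule `inv` use
`AddInv`-like `cong`: `u' * g * x * g⁻¹ * u'⁻¹ = (u' g u'⁻¹) * (u' x u'⁻¹) * (u' g u'⁻¹)⁻¹`; for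
`eqv`: `u' * T' x * u'⁻¹ = T' (T'⁻¹ u' * x * (T'⁻¹ u')⁻¹)`, `T'⁻¹ u' = k' * u'` with
`k' ∈ K ⊓ fsub S`. `δ2 w1 ≠ 0`, so the induction hypothesis gives
`n - 1 ≤ finrank (span (δ2 '' XS K r (S.erase b))) + 1`.

Finally `span (δ2 '' XS K r (S.erase b))` is a proper subspace of `span (δ '' XS K r S)`: it is
contained in it (`XS_conj`, `XS_mono`) and in the kernel of `τ T - 1`:
`τ T (δ (u' * x * u'⁻¹)) = δ (T u' * x * (T u')⁻¹) = δ (u' * x * u'⁻¹)` for
`x ∈ XS K r (S.erase b)` (`T x = x` by `R_fix`), while `δ y` is in the larger space (`δ` of an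
element of `NS K r S` is in the span of `δ '' XS K r S`) and is not fixed by `τ T`.
-/

set_option autoImplicit false

namespace AFn

universe u v

variable {α : Type u} [DecidableEq α]

private theorem hl_twist {H : Subgroup (MulAut (FreeGroup α))} {K : Subgroup (FreeGroup α)}
    (hc : Ctx H K) {r : ℕ} {S : Finset α} {E : Type v} [AddCommGroup E] [Module ℂ E]
    {τ : MulAut (FreeGroup α) → Module.End ℂ E} {δ : FreeGroup α → E} (hd : Datum K r S τ δ)
    {φ : MulAut (FreeGroup α)} (hφ : φ ∈ StabS S) :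
    Datum K r S (fun T => τ (φ * T * φ⁻¹)) (fun x => δ (φ x)) := by
  refine ⟨fun x hx y hy => ?_, fun g hg x hx => ?_, fun T hT x hx => ?_, fun x hx => ?_⟩
  · show δ (φ (x * y)) = δ (φ x) + δ (φ y)
    rw [map_mul]
    exact hd.add _ (NS_map hx hφ) _ (NS_map hy hφ)
  · show δ (φ (g * x * g⁻¹)) = δ (φ x)
    rw [map_mul, map_mul, map_inv]
    exact hd.inv _ ⟨hc.Kc φ g hg.1, StabS_map hφ hg.2⟩ _ (NS_map hx hφ)
  · show δ (φ (T x)) = τ (φ * T * φ⁻¹) (δ (φ x))
    have e : (φ * T * φ⁻¹) (φ x) = φ (T x) := by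
      rw [MulAut.mul_apply, MulAut.mul_apply, MulAut.inv_apply_self]
    have h := hd.eqv _ (IsT_conj hT hφ) _ (NS_map hx hφ)
    rw [e] at h
    exact h
  · exact hd.kill _ (XS_map hx hφ)

private theorem hl_T_conj {H : Subgroup (MulAut (FreeGroup α))} {K : Subgroup (FreeGroup α)}
    (hc : Ctx H K) {r : ℕ} {S : Finset α} {E : Type v} [AddCommGroup E] [Module ℂ E]
    {τ : MulAut (FreeGroup α) → Module.End ℂ E} {δ : FreeGroup α → E} (hd : Datum K r S τ δ)
    {T : MulAut (FreeGroup α)} (hT : IsT K r S T) {u : FreeGroup α} (hu : u ∈ fsub S)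
    {x : FreeGroup α} (hx : x ∈ NS K r S) :
    τ T (δ (u * x * u⁻¹)) = δ (u * T x * u⁻¹) := by
  have hTS : T ∈ StabS S := (hT.mem hc).2
  rw [← hd.eqv T hT _ (NS_conj hx hu)]
  have hk := IsT_cong' hc hT hu
  have e : T (u * x * u⁻¹) = (T u * u⁻¹) * (u * T x * u⁻¹) * (T u * u⁻¹)⁻¹ := by
    rw [map_mul, map_mul, map_inv]
    group
  rw [e]
  exact hd.inv _ hk _ (NS_conj (NS_map hx hTS) hu)

private theorem hl_restr {H : Subgroup (MulAut (FreeGroup α))} {K : Subgroup (FreeGroup α)}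
    (hc : Ctx H K) {r : ℕ} {S : Finset α} {E : Type v} [AddCommGroup E] [Module ℂ E]
    {τ : MulAut (FreeGroup α) → Module.End ℂ E} {δ : FreeGroup α → E} (hd : Datum K r S τ δ)
    (b : α) {u : FreeGroup α} (hu : u ∈ fsub S) :
    Datum K r (S.erase b) τ (fun x => δ (u * x * u⁻¹)) := by
  have hS : S.erase b ⊆ S := Finset.erase_subset _ _
  refine ⟨fun x hx y hy => ?_, fun g hg x hx => ?_, fun T hT x hx => ?_, fun x hx => ?_⟩
  · show δ (u * (x * y) * u⁻¹) = δ (u * x * u⁻¹) + δ (u * y * u⁻¹)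
    rw [← hd.add _ (NS_conj (NS_mono le_rfl hS hx) hu) _ (NS_conj (NS_mono le_rfl hS hy) hu)]
    congr 1
    group
  · show δ (u * (g * x * g⁻¹) * u⁻¹) = δ (u * x * u⁻¹)
    rw [← hd.inv (u * g * u⁻¹) ⟨hc.Kn.conj_mem _ hg.1 _,
      (fsub S).mul_mem ((fsub S).mul_mem hu (fsub_mono hS hg.2)) ((fsub S).inv_mem hu)⟩ _
      (NS_conj (NS_mono le_rfl hS hx) hu)]
    congr 1
    group
  · exact (hl_T_conj hc hd (IsT_mono le_rfl hS hT) hu (NS_mono le_rfl hS hx)).symm
  · exact hd.kill _ (XS_conj (XS_mono le_rfl hS hx) hu)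

/-- if `δ` vanishes on the conjugates of `w` it vanishes on their normal closure -/
private theorem hl_Mw {K : Subgroup (FreeGroup α)} {r : ℕ} {S : Finset α} {E : Type v}
    [AddCommGroup E] [Module ℂ E] {τ : MulAut (FreeGroup α) → Module.End ℂ E}
    {δ : FreeGroup α → E} (hd : Datum K r S τ δ) {w : FreeGroup α} (hw : w ∈ NS K r S)
    (h0 : ∀ u ∈ fsub S, δ (u * w * u⁻¹) = 0) {x : FreeGroup α} (hx : x ∈ Mw S w) :
    δ x = 0 := by
  have h1 : δ 1 = 0 := by
    have h := hd.add 1 (one_mem _) 1 (one_mem _)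
    rw [mul_one] at h
    exact left_eq_add.mp h
  have key : x ∈ NS K r S ∧ δ x = 0 := by
    unfold Mw at hx
    induction hx using Subgroup.closure_induction with
    | mem y hy =>
      obtain ⟨u, hu, rfl⟩ := hy
      exact ⟨NS_conj hw hu, h0 u hu⟩
    | one => exact ⟨one_mem _, h1⟩
    | mul y z _ _ hy hz =>
      refine ⟨mul_mem hy.1 hz.1, ?_⟩
      rw [hd.add y hy.1 z hz.1, hy.2, hz.2, add_zero]
    | inv y _ hy =>
      refine ⟨inv_mem hy.1, ?_⟩
      have h2 := hd.add y hy.1 y⁻¹ (inv_mem hy.1)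
      rw [mul_inv_cancel, h1, hy.2, zero_add] at h2
      exact h2.symm
  exact key.2

theorem hl {H : Subgroup (MulAut (FreeGroup α))} {K : Subgroup (FreeGroup α)}
    (hc : Ctx H K) (r : ℕ) (hr : 2 ≤ r) (n : ℕ) : ∀ (S : Finset α) (_ : S.card = n)
    (_ : r + 1 ≤ S.card) (E : Type v) [AddCommGroup E] [Module ℂ E] [FiniteDimensional ℂ E]
    (τ : MulAut (FreeGroup α) → Module.End ℂ E) (δ : FreeGroup α → E) (_ : Datum K r S τ δ)
    (_ : ∃ x ∈ XS K r S, δ x ≠ 0),
    S.card ≤ Module.finrank ℂ (Submodule.span ℂ (δ '' XS K r S)) + 1 := by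
  classical
  induction n with
  | zero =>
    intro S hS hrS
    omega
  | succ n ih =>
    intro S hSn hrS E _ _ _ τ' δ' hd' hex
    obtain ⟨x, hx, hne'⟩ := hex
    obtain ⟨φ, hφ, W, hW, hWr, w0, hw0K, hw0, rfl⟩ := hx
    -- the twisted datum
    obtain ⟨τ, hτ⟩ : ∃ τ : MulAut (FreeGroup α) → Module.End ℂ E,
      τ = fun T => τ' (φ * T * φ⁻¹) := ⟨_, rfl⟩
    obtain ⟨δ, hδ⟩ : ∃ δ : FreeGroup α → E, δ = fun x => δ' (φ x) := ⟨_, rfl⟩
    have hd : Datum K r S τ δ := by
      rw [hτ, hδ]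
      exact hl_twist hc hd' hφ
    have hne : δ w0 ≠ 0 := by
      rw [hδ]
      exact hne'
    have hsub : Submodule.span ℂ (δ '' XS K r S) ≤ Submodule.span ℂ (δ' '' XS K r S) := by
      rw [Submodule.span_le]
      rintro _ ⟨y, hy, rfl⟩
      rw [hδ]
      exact Submodule.subset_span ⟨φ y, XS_map hy hφ, rfl⟩
    have hmono := Submodule.finrank_mono hsub
    suffices h : S.card ≤ Module.finrank ℂ (Submodule.span ℂ (δ '' XS K r S)) + 1 by omega
    obtain ⟨b, hb, hbW⟩ : ∃ b ∈ S, b ∉ W :=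
      Finset.exists_mem_notMem_of_card_lt_card (by omega)
    have hWb : W ⊆ S.erase b := Finset.subset_erase.2 ⟨hW, hbW⟩
    have hSb : S.erase b ⊆ S := Finset.erase_subset _ _
    have hcard : (S.erase b).card = n := by
      rw [Finset.card_erase_of_mem hb, hSn]
      rfl
    rcases Nat.eq_or_lt_of_le hrS with hr1 | hr2
    · have h := hl_base hc r hr S (S.erase b) b hb (Finset.Subset.refl _) (by omega) τ δ hd w0
        hw0K (fsub_mono hWb hw0) hne
      omega
    · -- a functional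
      obtain ⟨μ, hμ⟩ : ∃ μ : Module.Dual ℂ E, μ (δ w0) ≠ 0 := by
        by_contra hcon
        apply hne
        rw [← Module.forall_dual_apply_eq_zero_iff ℂ]
        intro μ
        by_contra hμ
        exact hcon ⟨μ, hμ⟩
      have hA := hd.addInv μ
      obtain ⟨w1, hw1, x, hx, u, hu, hne1⟩ : ∃ w ∈ XS K r (S.erase b), ∃ x ∈ NS K r S,
          ∃ u ∈ fsub S, μ (δ (u * R b w x * u⁻¹)) ≠ μ (δ (u * x * u⁻¹)) := by
        by_contra hcon
        push Not at hcon
        have h := claimA hc r hr S b hb (fun x => μ (δ x)) hA.add hA.inv hA.kill hcon w0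
          (XS_of hWb hWr hw0K hw0) 1 (one_mem _)
        rw [one_mul, inv_one, mul_one] at h
        exact hμ h
      have hw1f : w1 ∈ fsub (S.erase b) := (XS_mem hc hw1).2
      have hT : IsT K r S (R b w1) := IsT_of_XS hb hw1
      obtain ⟨T, hTdef⟩ : ∃ T : MulAut (FreeGroup α), T = R b w1 := ⟨_, rfl⟩
      rw [← hTdef] at hT hne1
      obtain ⟨y, hy⟩ : ∃ y, y = u * x * u⁻¹ := ⟨_, rfl⟩
      have hyN : y ∈ NS K r S := by
        rw [hy]
        exact NS_conj hx hu
      have hτy : τ T (δ y) ≠ δ y := by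
        rw [hy, hl_T_conj hc hd hT hu hx]
        intro h
        exact hne1 (congrArg μ h)
      -- the conjugate
      obtain ⟨u', hu', hne2⟩ : ∃ u' ∈ fsub S, δ (u' * w1 * u'⁻¹) ≠ 0 := by
        by_contra hcon
        push Not at hcon
        have hw1N : w1 ∈ NS K r S := NS_mono le_rfl hSb (XS_sub_NS hw1)
        have hyf : y ∈ fsub S := (NS_le hc hyN).2
        have h1 : δ (R b w1 y * y⁻¹) = 0 := hl_Mw hd hw1N hcon (delta_mem hb hw1f hyf)
        rw [← hTdef] at h1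
        have hTyN : T y ∈ NS K r S := NS_map hyN (hT.mem hc).2
        have h2 := hd.add (T y * y⁻¹) (mul_mem hTyN (inv_mem hyN)) y hyN
        rw [h1, zero_add, inv_mul_cancel_right, hd.eqv T hT y hyN] at h2
        exact hτy h2
      have hd2 := hl_restr hc hd b hu'
      have hih := ih (S.erase b) hcard (by omega) E τ _ hd2 ⟨w1, hw1, hne2⟩
      have hlt : Submodule.span ℂ ((fun x => δ (u' * x * u'⁻¹)) '' XS K r (S.erase b)) <
          Submodule.span ℂ (δ '' XS K r S) := by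
        rw [SetLike.lt_iff_le_and_exists]
        refine ⟨?_, δ y, hd.mem_span hyN, fun hmem => ?_⟩
        · rw [Submodule.span_le]
          rintro _ ⟨z, hz, rfl⟩
          exact Submodule.subset_span ⟨u' * z * u'⁻¹, XS_conj (XS_mono le_rfl hSb hz) hu', rfl⟩
        · have hker : Submodule.span ℂ ((fun x => δ (u' * x * u'⁻¹)) '' XS K r (S.erase b)) ≤
              LinearMap.ker (τ T - 1) := by
            rw [Submodule.span_le]
            rintro _ ⟨z, hz, rfl⟩
            show (τ T - 1) (δ (u' * z * u'⁻¹)) = 0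
            have hzN : z ∈ NS K r S := XS_sub_NS (XS_mono le_rfl hSb hz)
            have hTz : T z = z := by
              rw [hTdef]
              exact R_fix (Finset.notMem_erase b S) (XS_mem hc hz).2 w1
            rw [LinearMap.sub_apply, hl_T_conj hc hd hT hu' hzN, hTz, Module.End.one_apply,
              sub_self]
          have h3 : (τ T - 1) (δ y) = 0 := hker hmem
          rw [LinearMap.sub_apply, Module.End.one_apply, sub_eq_zero] at h3
          exact hτy h3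
      have hlt' := Submodule.finrank_lt_finrank_of_lt hlt
      omega

end AFn
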