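import Mathlib
import Pool.Agent.AFn.Defs
import Pool.Agent.AFn.Basic
import Pool.Agent.AFn.RepLib
import Pool.Agent.AFn.Kolchin
import Pool.Agent.AFn.Core
import Pool.Agent.AFn.Datum
import Pool.Agent.AFn.PModDefs
import Pool.Agent.AFn.HL

/-!
# The doubling lemma

Strong induction on `n = finrank V`. Let `D = K ⊓ fsub S` and suppose `f x0 ≠ 1`,
`x0 ∈ XS K r S`. By `kolchin` / `kolchin_dual` (as in Core.lean) the space
`U = {v | ∀ g ∈ D, f g v = v}` is nonzero and `V' = span {f g v - v | g ∈ D}` is proper; both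
are stable under `σ h`, `h ∈ H ⊓ StabS S` (`eqv`) and `f g`, `g ∈ D`. By induction for the
submodule `V'` and the quotient by `U` (`PMod.exists_sub`, `PMod.exists_quot`), for
`x ∈ XS K r S`, hence for `x ∈ NS K r S` (closure induction): `f x v = v` for `v ∈ V'` and
`f x v - v ∈ U` for all `v`. Put `δ x = f x - 1`. For `x, x' ∈ NS K r S`, `g ∈ D`:
`δ (x * x') = δ x + δ x'` (the product `δ x * δ x'` is zero, the range of `δ x'` is in `V'`);
`δ (g * x * g⁻¹) = δ x` (the range of `δ x` is in `U`, and `δ x` kills `V'`);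
`σ h * δ x = δ (h x) * σ h` for `h ∈ H ⊓ StabS S`; `δ x = 0` for `x ∈ XS K (r - 1) S`.

Let `U1 = span {δ x v | x ∈ XS K r S}` and `V1 = {v | ∀ x ∈ XS K r S, δ x v = 0}`; both are
stable under `σ h`, and `U1 ≤ V' ≤ V1`, `V' ≠ ⊥` (it contains `δ x0 v`), `V' ≠ ⊤`.

Case A: `σ T v - v ∈ V1` for all `T` with `IsT K r S T` and all `v`. Choose `v` with
`δ x0 v ≠ 0`. The map `x ↦ δ x v` is a `Datum K r S σ`: `δ (T x) v = δ (T x) (σ T v) =
σ T (δ x v)`. By `hl`, `S.card ≤ finrank (span ..) + 1`, and the span is contained in `V'`, of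
dimension at most `finrank V - 1`; this contradicts `finrank V + 1 ≤ S.card`.

Case B: `σ T u = u` for all `T` with `IsT K r S T` and `u ∈ U1`. Choose a functional `l` and
`v` with `l (δ x0 v) ≠ 0`. With `E = Module.Dual ℂ V`, `τ T ξ = ξ ∘ σ T⁻¹`, the map
`x ↦ l ∘ δ x` is a datum: `δ (T x) * σ T = σ T * δ x = δ x`. By `hl` as before: the span is
contained in `V'.dualAnnihilator`, of dimension `finrank V - finrank V' ≤ finrank V - 1`.

Case C: neither. Then by `YOk.quot` (for `V1`) `y ≤ finrank (V ⧸ V1)` and by `YOk.sub` (for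
`U1`) `y ≤ finrank U1 ≤ finrank V1`, so `2 * y ≤ finrank V`.
-/

set_option autoImplicit false

namespace AFn

universe u v

variable {α : Type u} [DecidableEq α]

theorem lemP {H : Subgroup (MulAut (FreeGroup α))} {K : Subgroup (FreeGroup α)}
    (hc : Ctx H K) (r : ℕ) (hr : 2 ≤ r) (S : Finset α) (hS : r + 1 ≤ S.card) (y : ℕ)
    (hY : YOk.{u, v} H K r S y) (n : ℕ) : ∀ (V : Type v) [AddCommGroup V] [Module ℂ V]
    [FiniteDimensional ℂ V] (_ : Module.finrank ℂ V = n)
    (σ : MulAut (FreeGroup α) → Module.End ℂ V) (f : FreeGroup α → Module.End ℂ V)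
    (_ : PMod H K r S σ f) (_ : Module.finrank ℂ V < 2 * y)
    (_ : Module.finrank ℂ V + 1 ≤ S.card), ∀ x ∈ XS K r S, f x = 1 := by
  classical
  induction n using Nat.strong_induction_on with
  | _ n ih =>
  intro V _ _ _ hn σ f hP hd hS2
  by_contra hcon
  push Not at hcon
  obtain ⟨x0, hx0, hx0'⟩ := hcon
  have hmulf : ∀ g ∈ K ⊓ fsub S, ∀ g' ∈ K ⊓ fsub S, ∀ v, f (g * g') v = f g (f g' v) := by
    intro g hg g' hg' v
    rw [hP.repf.mul g hg g' hg', Module.End.mul_apply]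
  have hinvf : ∀ g ∈ K ⊓ fsub S, ∀ v, f g (f g⁻¹ v) = v := by
    intro g hg v
    rw [← hmulf g hg g⁻¹ (inv_mem hg), mul_inv_cancel, hP.repf.one, Module.End.one_apply]
  have hinvf' : ∀ g ∈ K ⊓ fsub S, ∀ v, f g⁻¹ (f g v) = v := by
    intro g hg v
    rw [← hmulf g⁻¹ (inv_mem hg) g hg, inv_mul_cancel, hP.repf.one, Module.End.one_apply]
  have hinvσ : ∀ h ∈ H ⊓ StabS S, ∀ v, σ h (σ h⁻¹ v) = v := by
    intro h hh v
    have := DFunLike.congr_fun (hP.rep.mul_inv hh) v
    rwa [Module.End.mul_apply, Module.End.one_apply] at this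
  have hact : ∀ h ∈ H ⊓ StabS S, ∀ g ∈ K ⊓ fsub S, h g ∈ K ⊓ fsub S := by
    intro h hh g hg
    exact ⟨hc.Kc h g hg.1, StabS_map hh.2 hg.2⟩
  have hsf : ∀ h ∈ H ⊓ StabS S, ∀ g ∈ K ⊓ fsub S, ∀ v, σ h (f g v) = f (h g) (σ h v) := by
    intro h hh g hg v
    have := DFunLike.congr_fun (hP.eqv h hh g hg) v
    rwa [Module.End.mul_apply, Module.End.mul_apply] at this
  have happ : ∀ h : MulAut (FreeGroup α), ∀ g : FreeGroup α, h (h⁻¹ g) = g := by
    intro h g
    rw [← MulAut.mul_apply, mul_inv_cancel]; rfl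
  -- Kolchin
  let E : Set (Module.End ℂ V) := {s | ∃ g ∈ K ⊓ fsub S, s = f g}
  have hEmul : ∀ s ∈ E, ∀ t ∈ E, s * t ∈ E := by
    rintro s ⟨g, hg, rfl⟩ t ⟨g', hg', rfl⟩
    exact ⟨g * g', mul_mem hg hg', (hP.repf.mul g hg g' hg').symm⟩
  have hEu : ∀ s ∈ E, IsNilpotent (s - 1) := by
    rintro s ⟨g, hg, rfl⟩
    exact hP.unipf g hg
  have hnt : Nontrivial V := by
    by_contra h
    rw [not_nontrivial_iff_subsingleton] at h
    apply hx0'
    ext x
    exact Subsingleton.elim _ _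
  let U : Submodule ℂ V :=
    { carrier := {x | ∀ g ∈ K ⊓ fsub S, f g x = x}
      add_mem' := fun {x y} hx hy g hg => by rw [map_add, hx g hg, hy g hg]
      zero_mem' := fun g hg => map_zero _
      smul_mem' := fun k x hx g hg => by rw [map_smul, hx g hg] }
  have hUmem : ∀ x, x ∈ U ↔ ∀ g ∈ K ⊓ fsub S, f g x = x := fun x => Iff.rfl
  have hU0 : U ≠ ⊥ := by
    obtain ⟨x, hx0, hx⟩ := kolchin E hEmul hEu
    intro h
    apply hx0
    have : x ∈ U := (hUmem x).mpr fun g hg => hx _ ⟨g, hg, rfl⟩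
    rwa [h, Submodule.mem_bot] at this
  let V' : Submodule ℂ V := Submodule.span ℂ {y | ∃ g ∈ K ⊓ fsub S, ∃ x, y = f g x - x}
  have hV'mem : ∀ g ∈ K ⊓ fsub S, ∀ x, f g x - x ∈ V' :=
    fun g hg x => Submodule.subset_span ⟨g, hg, x, rfl⟩
  have hV'0 : V' ≠ ⊤ := by
    obtain ⟨l, hl0, hl⟩ := kolchin_dual E hEmul hEu
    intro h
    apply hl0
    have h1 : V' ≤ LinearMap.ker l := by
      rw [Submodule.span_le]
      rintro y ⟨g, hg, x, rfl⟩
      simp only [SetLike.mem_coe, LinearMap.mem_ker, map_sub]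
      rw [hl _ ⟨g, hg, rfl⟩, sub_self]
    rw [h, top_le_iff, LinearMap.ker_eq_top] at h1
    exact h1
  have hd1 : Module.finrank ℂ V' < Module.finrank ℂ V := Submodule.finrank_lt hV'0
  have hd2 : Module.finrank ℂ (V ⧸ U) < Module.finrank ℂ V := by
    have h1 := Submodule.finrank_quotient_add_finrank U
    have h2 : 0 < Module.finrank ℂ U := by
      rw [Nat.pos_iff_ne_zero]
      intro h
      exact hU0 (Submodule.finrank_eq_zero.mp h)
    omega
  -- stability
  have hUσ : ∀ h ∈ H ⊓ StabS S, ∀ x ∈ U, σ h x ∈ U := by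
    intro h hh x hx
    rw [hUmem]
    intro g hg
    have h1 := hsf h hh (h⁻¹ g) (hact h⁻¹ (inv_mem hh) g hg) x
    rw [happ, (hUmem x).mp hx _ (hact h⁻¹ (inv_mem hh) g hg)] at h1
    exact h1.symm
  have hUf : ∀ g ∈ K ⊓ fsub S, ∀ x ∈ U, f g x ∈ U := by
    intro g hg x hx
    rw [(hUmem x).mp hx g hg]
    exact hx
  have hV'σ : ∀ h ∈ H ⊓ StabS S, ∀ x ∈ V', σ h x ∈ V' := by
    intro h hh x hx
    have h1 : V' ≤ V'.comap (σ h) := by
      rw [Submodule.span_le]
      rintro y ⟨g, hg, x, rfl⟩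
      simp only [SetLike.mem_coe, Submodule.mem_comap, map_sub]
      rw [hsf h hh g hg]
      exact hV'mem _ (hact h hh g hg) _
    exact h1 hx
  have hV'f : ∀ g ∈ K ⊓ fsub S, ∀ x ∈ V', f g x ∈ V' := by
    intro g hg x hx
    have h1 : f g x = (f g x - x) + x := by abel
    rw [h1]
    exact V'.add_mem (hV'mem g hg x) hx
  obtain ⟨σ1, f1, hP1, -, hf1⟩ := hP.exists_sub hc V' hV'σ hV'f
  obtain ⟨σ2, f2, hP2, -, hf2⟩ := hP.exists_quot hc U hUσ hUf
  have key1 : ∀ x ∈ XS K r S, ∀ v ∈ V', f x v = v := by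
    intro x hx v hv
    have h1 := ih _ (hn ▸ hd1) V' rfl σ1 f1 hP1 (by omega) (by omega) x hx
    have h2 := hf1 x (XS_mem hc hx) ⟨v, hv⟩
    rw [h1] at h2
    exact h2.symm
  have key2 : ∀ x ∈ XS K r S, ∀ v, f x v - v ∈ U := by
    intro x hx v
    have h1 := ih _ (hn ▸ hd2) (V ⧸ U) rfl σ2 f2 hP2 (by omega) (by omega) x hx
    have h2 := hf2 x (XS_mem hc hx) v
    rw [h1, Module.End.one_apply] at h2
    exact (Submodule.Quotient.eq U).mp h2.symm
  have key : ∀ x ∈ NS K r S, (∀ v ∈ V', f x v = v) ∧ (∀ v, f x v - v ∈ U) := by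
    intro x hx
    unfold NS at hx
    induction hx using Subgroup.closure_induction with
    | mem z hz => exact ⟨key1 z hz, key2 z hz⟩
    | one =>
      rw [hP.repf.one]
      exact ⟨fun v _ => rfl, fun v => by rw [Module.End.one_apply, sub_self]; exact U.zero_mem⟩
    | mul a b ha hb iha ihb =>
      have ha' : a ∈ K ⊓ fsub S := NS_le hc ha
      have hb' : b ∈ K ⊓ fsub S := NS_le hc hb
      refine ⟨fun v hv => ?_, fun v => ?_⟩
      · rw [hmulf a ha' b hb', ihb.1 v hv, iha.1 v hv]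
      · rw [hmulf a ha' b hb']
        have e : f a (f b v) - v = (f a (f b v) - f b v) + (f b v - v) := by abel
        rw [e]
        exact U.add_mem (iha.2 _) (ihb.2 _)
    | inv a ha iha =>
      have ha' : a ∈ K ⊓ fsub S := NS_le hc ha
      refine ⟨fun v hv => ?_, fun v => ?_⟩
      · have h1 := hinvf' a ha' v
        rw [iha.1 v hv] at h1
        exact h1
      · have h1 := iha.2 (f a⁻¹ v)
        rw [hinvf a ha' v] at h1
        have h2 := U.neg_mem h1
        rwa [neg_sub] at h2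
  -- the map delta
  obtain ⟨δ, hδ⟩ : ∃ δ : FreeGroup α → Module.End ℂ V, ∀ x v, δ x v = f x v - v :=
    ⟨fun x => f x - 1, fun x v => by rw [LinearMap.sub_apply, Module.End.one_apply]⟩
  have hδV' : ∀ x ∈ K ⊓ fsub S, ∀ v, δ x v ∈ V' := by
    intro x hx v
    rw [hδ]
    exact hV'mem x hx v
  have hδk : ∀ x ∈ NS K r S, ∀ v ∈ V', δ x v = 0 := by
    intro x hx v hv
    rw [hδ, (key x hx).1 v hv, sub_self]
  have hδU : ∀ x ∈ NS K r S, ∀ v, δ x v ∈ U := by
    intro x hx v
    rw [hδ]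
    exact (key x hx).2 v
  have hδadd : ∀ x ∈ NS K r S, ∀ z ∈ NS K r S, ∀ v, δ (x * z) v = δ x v + δ z v := by
    intro x hx z hz v
    have h1 := hδk x hx _ (hδV' z (NS_le hc hz) v)
    rw [hδ, hδ, hδ, hmulf x (NS_le hc hx) z (NS_le hc hz)]
    rw [hδ, hδ, map_sub] at h1
    have h2 : f x (f z v) = f x v + (f z v - v) := by
      rw [sub_eq_zero] at h1
      rw [← h1]; abel
    rw [h2]; abel
  have hδinv : ∀ g ∈ K ⊓ fsub S, ∀ x ∈ NS K r S, ∀ v, δ (g * x * g⁻¹) v = δ x v := by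
    intro g hg x hx v
    have hx' : x ∈ K ⊓ fsub S := NS_le hc hx
    rw [hδ (g * x * g⁻¹), hmulf (g * x) (mul_mem hg hx') g⁻¹ (inv_mem hg), hmulf g hg x hx']
    have h1 : f x (f g⁻¹ v) = f g⁻¹ v + δ x v := by
      have h2 : δ x (f g⁻¹ v) = δ x v := by
        have h3 := hδk x hx _ (hV'mem g⁻¹ (inv_mem hg) v)
        rwa [map_sub, sub_eq_zero] at h3
      rw [← h2, hδ]; abel
    rw [h1, map_add, hinvf g hg v, (hUmem _).mp (hδU x hx v) g hg]
    abel
  have hδeqv : ∀ h ∈ H ⊓ StabS S, ∀ x ∈ K ⊓ fsub S, ∀ v, σ h (δ x v) = δ (h x) (σ h v) := by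
    intro h hh x hx v
    rw [hδ, hδ, map_sub, hsf h hh x hx]
  have hδkill : ∀ x ∈ XS K (r - 1) S, ∀ v, δ x v = 0 := by
    intro x hx v
    rw [hδ, hP.killf x hx, Module.End.one_apply, sub_self]
  have hTm : ∀ T, IsT K r S T → T ∈ H ⊓ StabS S := fun T hT => hT.mem hc
  -- the spaces U1 and V1
  let U1 : Submodule ℂ V := Submodule.span ℂ {z | ∃ x ∈ XS K r S, ∃ v, z = δ x v}
  let V1 : Submodule ℂ V :=
    { carrier := {v | ∀ x ∈ XS K r S, δ x v = 0}
      add_mem' := fun {a b} ha hb x hx => by rw [map_add, ha x hx, hb x hx, add_zero]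
      zero_mem' := fun x hx => map_zero _
      smul_mem' := fun k a ha x hx => by rw [map_smul, ha x hx, smul_zero] }
  have hV1mem : ∀ v, v ∈ V1 ↔ ∀ x ∈ XS K r S, δ x v = 0 := fun v => Iff.rfl
  have hU1σ : ∀ h ∈ H ⊓ StabS S, ∀ x ∈ U1, σ h x ∈ U1 := by
    intro h hh x hx
    have h1 : U1 ≤ U1.comap (σ h) := by
      rw [Submodule.span_le]
      rintro z ⟨x, hx, v, rfl⟩
      simp only [SetLike.mem_coe, Submodule.mem_comap]
      rw [hδeqv h hh x (XS_mem hc hx)]
      exact Submodule.subset_span ⟨h x, XS_map hx hh.2, _, rfl⟩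
    exact h1 hx
  have hV1σ : ∀ h ∈ H ⊓ StabS S, ∀ x ∈ V1, σ h x ∈ V1 := by
    intro h hh v hv
    rw [hV1mem]
    intro x hx
    have hx2 : h⁻¹ x ∈ XS K r S := XS_map hx (inv_mem hh).2
    have h1 := hδeqv h hh (h⁻¹ x) (XS_mem hc hx2) v
    rw [happ, (hV1mem v).mp hv _ hx2, map_zero] at h1
    exact h1.symm
  have hU1V1 : U1 ≤ V1 := by
    rw [Submodule.span_le]
    rintro z ⟨x, hx, v, rfl⟩
    rw [SetLike.mem_coe, hV1mem]
    intro x' hx'
    exact hδk x' (XS_sub_NS hx') _ (hδV' x (XS_mem hc hx) v)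
  have hV1NS : ∀ x ∈ NS K r S, ∀ v ∈ V1, δ x v = 0 := by
    intro x hx v hv
    have h1 : f x v = v := by
      unfold NS at hx
      induction hx using Subgroup.closure_induction with
      | mem z hz =>
        have := (hV1mem v).mp hv z hz
        rwa [hδ, sub_eq_zero] at this
      | one => rw [hP.repf.one, Module.End.one_apply]
      | mul a b ha hb iha ihb => rw [hmulf a (NS_le hc ha) b (NS_le hc hb), ihb, iha]
      | inv a ha iha =>
        have h1 := hinvf' a (NS_le hc ha) v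
        rw [iha] at h1
        exact h1
    rw [hδ, h1, sub_self]
  have hU1NS : ∀ x ∈ NS K r S, ∀ v, δ x v ∈ U1 := by
    intro x hx v
    have h0 : ∀ v, δ (1 : FreeGroup α) v = 0 := by
      intro v
      rw [hδ, hP.repf.one, Module.End.one_apply, sub_self]
    unfold NS at hx
    induction hx using Subgroup.closure_induction with
    | mem z hz => exact Submodule.subset_span ⟨z, hz, v, rfl⟩
    | one => rw [h0]; exact U1.zero_mem
    | mul a b ha hb iha ihb =>
      rw [hδadd a ha b hb]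
      exact U1.add_mem iha ihb
    | inv a ha iha =>
      have h1 := hδadd a ha a⁻¹ (inv_mem ha) v
      rw [mul_inv_cancel, h0] at h1
      have h2 : δ a⁻¹ v = - δ a v := by
        rw [eq_neg_iff_add_eq_zero, add_comm]
        exact h1.symm
      rw [h2]
      exact U1.neg_mem iha
  -- a nonzero value
  obtain ⟨v0, hv0⟩ : ∃ v, δ x0 v ≠ 0 := by
    by_contra h
    push Not at h
    apply hx0'
    ext v
    have := h v
    rwa [hδ, sub_eq_zero] at this
  by_cases hA : ∀ T, IsT K r S T → ∀ v, σ T v - v ∈ V1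
  · -- case A
    have hD : Datum K r S σ (fun x => δ x v0) := by
      refine ⟨fun x hx z hz => hδadd x hx z hz v0, fun g hg x hx => hδinv g hg x hx v0, ?_,
        fun x hx => hδkill x hx v0⟩
      intro T hT x hx
      rw [hδeqv T (hTm T hT) x (NS_le hc hx)]
      have h1 := hV1NS (T x) (NS_map hx (hTm T hT).2) _ (hA T hT v0)
      rw [map_sub, sub_eq_zero] at h1
      exact h1.symm
    have h1 := hl hc r hr S.card S rfl hS V σ (fun x => δ x v0) hD ⟨x0, hx0, hv0⟩
    have h2 : Submodule.span ℂ ((fun x => δ x v0) '' XS K r S) ≤ V' := by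
      rw [Submodule.span_le]
      rintro z ⟨x, hx, rfl⟩
      exact hδV' x (XS_mem hc hx) v0
    have h3 := Submodule.finrank_mono h2
    omega
  by_cases hB : ∀ T, IsT K r S T → ∀ u ∈ U1, σ T u = u
  · -- case B
    obtain ⟨l, hl0⟩ : ∃ l : Module.Dual ℂ V, l (δ x0 v0) ≠ 0 := by
      by_contra h
      push Not at h
      exact hv0 ((Module.forall_dual_apply_eq_zero_iff ℂ _).mp h)
    have hD : Datum K r S (E := Module.Dual ℂ V)
        (fun T => (LinearMap.dualMap (σ T⁻¹) : Module.End ℂ (Module.Dual ℂ V)))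
        (fun x => l.comp (δ x)) := by
      refine ⟨fun x hx z hz => ?_, fun g hg x hx => ?_, fun T hT x hx => ?_, fun x hx => ?_⟩
      · ext v
        change l (δ (x * z) v) = l (δ x v) + l (δ z v)
        rw [hδadd x hx z hz, map_add]
      · ext v
        change l (δ (g * x * g⁻¹) v) = l (δ x v)
        rw [hδinv g hg x hx]
      · ext v
        change l (δ (T x) v) = l (δ x (σ T⁻¹ v))
        have h1 := hδeqv T (hTm T hT) x (NS_le hc hx) (σ T⁻¹ v)
        rw [hinvσ T (hTm T hT), hB T hT _ (hU1NS x hx _)] at h1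
        rw [h1]
      · ext v
        change l (δ x v) = 0
        rw [hδkill x hx, map_zero]
    have h1 := hl hc r hr S.card S rfl hS (Module.Dual ℂ V) _ _ hD ⟨x0, hx0, fun h => by
      apply hl0
      have := DFunLike.congr_fun h v0
      exact this⟩
    have h2 : Submodule.span ℂ ((fun x => l.comp (δ x)) '' XS K r S) ≤
        V'.dualAnnihilator := by
      rw [Submodule.span_le]
      rintro z ⟨x, hx, rfl⟩
      rw [SetLike.mem_coe, Submodule.mem_dualAnnihilator]
      intro w hw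
      change l (δ x w) = 0
      rw [hδk x (XS_sub_NS hx) w hw, map_zero]
    have h3 : S.card ≤ Module.finrank ℂ V'.dualAnnihilator + 1 :=
      le_trans h1 (Nat.add_le_add_right (Submodule.finrank_mono h2) 1)
    have h4 : Module.finrank ℂ V' + Module.finrank ℂ V'.dualAnnihilator =
        Module.finrank ℂ V := Subspace.finrank_add_finrank_dualAnnihilator_eq V'
    have h5 : 0 < Module.finrank ℂ V' := by
      rw [Nat.pos_iff_ne_zero]
      intro h
      rw [Submodule.finrank_eq_zero] at h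
      have h6 := hδV' x0 (XS_mem hc hx0) v0
      rw [h, Submodule.mem_bot] at h6
      exact hv0 h6
    omega
  -- case C
  push Not at hA hB
  obtain ⟨T1, hT1, v1, hv1⟩ := hA
  obtain ⟨T2, hT2, u2, hu2, hu2'⟩ := hB
  have h1 : y ≤ Module.finrank ℂ (V ⧸ V1) := by
    by_contra h
    push Not at h
    exact hv1 (hY.quot hc hP.rep hP.unip hP.kill V1 hV1σ h T1 hT1 v1)
  have h2 : y ≤ Module.finrank ℂ U1 := by
    by_contra h
    push Not at h
    exact hu2' (hY.sub hc hP.rep hP.unip hP.kill U1 hU1σ h T2 hT2 u2 hu2)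
  have h3 := Submodule.finrank_mono hU1V1
  have h4 := Submodule.finrank_quotient_add_finrank V1
  omega

end AFn
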