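import Mathlib
import Pool.Agent.AFn.Defs
import Pool.Agent.AFn.Basic
import Pool.Agent.AFn.RepLib
import Pool.Agent.AFn.Core
import Pool.Agent.AFn.Datum
import Pool.Agent.AFn.PModDefs
import Pool.Agent.AFn.LemP

/-!
# Theorem Y with the doubled bound

`theoremY2`: induction on `n = S.card`. If `S.card = r + 1` then `finrank V < 2`, and
`nilpotent_dim_le_one` (with `UnipOn`) shows that all `σ T` are `1`. If `r + 2 ≤ S.card`:
`T = φ * R a w * φ⁻¹`, `a ∈ S`, `w ∈ K ⊓ fsub W`, `W ⊆ S.erase a`, `W.card ≤ r`. Twist: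
`σ' g = σ (φ * g * φ⁻¹)` satisfies the same hypotheses (`IsRepOn.twist`, `twist_unip`,
`IsT_conj`). Show `σ' (R a w) = 1`. Let `S' = S.erase a`, `f g = σ' (R a g)`. This is a
`PMod H K r S' σ' f` : `eqv` by `conj_R`, `unipf` by `UnipOn` at `φ = 1`, `kill` by
`IsT_mono`, `killf` by `IsT_of_XS`. With `y = min (2 ^ (S'.card - r)) (S'.card - 1)` the
induction hypothesis gives `YOk H K r S' y`; `finrank V < 2 * y` and
`finrank V + 1 ≤ S'.card`. `lemP` finishes.
-/

set_option autoImplicit false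

namespace AFn

universe u v

variable {α : Type u} [DecidableEq α]

theorem theoremY2 {H : Subgroup (MulAut (FreeGroup α))} {K : Subgroup (FreeGroup α)}
    (hc : Ctx H K) (r : ℕ) (hr : 2 ≤ r) (n : ℕ) : ∀ (S : Finset α) (_ : S.card = n)
    (_ : r + 1 ≤ S.card) (V : Type v) [AddCommGroup V] [Module ℂ V] [FiniteDimensional ℂ V]
    (σ : MulAut (FreeGroup α) → Module.End ℂ V) (_ : IsRepOn (H ⊓ StabS S) σ)
    (_ : UnipOn K S σ) (_ : ∀ T, IsT K (r - 1) S T → σ T = 1)
    (_ : Module.finrank ℂ V + 2 ≤ S.card) (_ : Module.finrank ℂ V < 2 ^ (S.card - r))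
    (T : MulAut (FreeGroup α)) (_ : IsT K r S T), σ T = 1 := by
  classical
  induction n with
  | zero =>
    intro S hS hS1 V _ _ _ σ _ _ _ hd
    omega
  | succ n ih =>
    intro S hS hS1 V _ _ _ σ hσ hu hk hd hd2 T hT
    obtain ⟨φ, hφ, a, ha, W, hW, hWr, w, hwK, hw, rfl⟩ := hT
    -- twist
    have htw : ∀ g ∈ H ⊓ StabS S, φ * g * φ⁻¹ ∈ H ⊓ StabS S := fun g hg =>
      ⟨hc.Hn.conj_mem _ hg.1 φ,
        (StabS S).mul_mem ((StabS S).mul_mem hφ hg.2) ((StabS S).inv_mem hφ)⟩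
    obtain ⟨σ', hσ'def⟩ : ∃ σ' : MulAut (FreeGroup α) → Module.End ℂ V,
        σ' = fun g => σ (φ * g * φ⁻¹) := ⟨_, rfl⟩
    have hσ' : IsRepOn (H ⊓ StabS S) σ' := by
      rw [hσ'def]; exact hσ.twist φ htw
    have hu' : UnipOn K S σ' := by
      intro ψ hψ b hb w' hw'K hw'
      rw [hσ'def]
      have h1 := hu (φ * ψ) ((StabS S).mul_mem hφ hψ) b hb w' hw'K hw'
      have h2 : φ * (ψ * R b w' * ψ⁻¹) * φ⁻¹ = φ * ψ * R b w' * (φ * ψ)⁻¹ := by
        rw [mul_inv_rev]; simp only [mul_assoc]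
      show IsNilpotent (σ (φ * (ψ * R b w' * ψ⁻¹) * φ⁻¹) - 1)
      rw [h2]
      exact h1
    have hk' : ∀ T, IsT K (r - 1) S T → σ' T = 1 := by
      intro T hT
      rw [hσ'def]
      exact hk _ (IsT_conj hT hφ)
    suffices hmain : σ' (R a w) = 1 by
      rw [hσ'def] at hmain
      exact hmain
    have haS : a ∉ S.erase a := Finset.notMem_erase a S
    have hcardS : (S.erase a).card = n := by rw [Finset.card_erase_of_mem ha]; omega
    have hStab : (StabS (S.erase a) : Subgroup (MulAut (FreeGroup α))) ≤ StabS S :=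
      StabS_mono (Finset.erase_subset _ _)
    have hu1 : ∀ g ∈ K, g ∈ fsub (S.erase a) → IsNilpotent (σ' (R a g) - 1) := by
      intro g hgK hg
      have := hu' 1 (one_mem _) a ha g hgK hg
      rwa [one_mul, inv_one, mul_one] at this
    have hRm : ∀ g ∈ K, g ∈ fsub (S.erase a) → R a g ∈ H ⊓ StabS S := fun g hgK hg =>
      ⟨hc.RH a g hgK, R_mem_StabS ha hg⟩
    rcases Nat.lt_or_ge (Module.finrank ℂ V) 2 with hV | hV
    · have h1 := nilpotent_dim_le_one (by omega) (hu1 w hwK (fsub_mono hW hw))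
      exact sub_eq_zero.mp h1
    have hrn : r + 1 ≤ n := by
      by_contra hcon
      have h1 : S.card - r = 1 := by omega
      rw [h1] at hd2
      omega
    have hf : IsRepOn (K ⊓ fsub (S.erase a)) (fun g => σ' (R a g)) := by
      refine ⟨by simp only [map_one]; exact hσ'.one, fun g hg h hh => ?_⟩
      simp only [map_mul]
      exact hσ'.mul _ (hRm g hg.1 hg.2) _ (hRm h hh.1 hh.2)
    have hΓ : H ⊓ StabS (S.erase a) ≤ H ⊓ StabS S := inf_le_inf_left _ hStab
    have huS' : UnipOn K (S.erase a) σ' := by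
      intro ψ hψ b hb w' hw'K hw'
      refine hu' ψ (hStab hψ) b (Finset.mem_of_mem_erase hb) w' hw'K ?_
      exact fsub_mono (Finset.erase_subset_erase _ (Finset.erase_subset _ _)) hw'
    have hP : PMod H K r (S.erase a) σ' (fun g => σ' (R a g)) := by
      refine ⟨hσ'.mono hΓ, hf, ?_, huS', fun g hg => hu1 g hg.1 hg.2, ?_, ?_⟩
      · intro h hh g hg
        show σ' h * σ' (R a g) = σ' (R a (h g)) * σ' h
        have hm := hRm g hg.1 hg.2
        have hh' := hΓ hh
        rw [← hσ'.mul _ hh' _ hm, ← conj_R hh.2 haS hg.2,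
          ← hσ'.mul _ (mul_mem (mul_mem hh' hm) (inv_mem hh')) _ hh', inv_mul_cancel_right]
      · intro T hT
        exact hk' T (IsT_mono le_rfl (Finset.erase_subset _ _) hT)
      · intro x hx
        exact hk' _ (IsT_of_XS ha hx)
    have hpow : 2 ^ (S.card - r) = 2 * 2 ^ ((S.erase a).card - r) := by
      rw [hcardS, hS, show n + 1 - r = (n - r) + 1 by omega, pow_succ]
      ring
    refine lemP hc r hr (S.erase a) (by omega)
      (min (2 ^ ((S.erase a).card - r)) ((S.erase a).card - 1)) ?_ (Module.finrank ℂ V) V rfl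
      σ' (fun g => σ' (R a g)) hP ?_ (by omega) w (XS_of hW hWr hwK hw)
    · intro V2 _ _ _ τ hτ huτ hkτ hdτ T hT
      have h1 := lt_min_iff.mp hdτ
      exact ih (S.erase a) hcardS (by omega) V2 τ hτ huτ hkτ (by omega) h1.1 T hT
    · rw [hpow] at hd2
      rcases min_choice (2 ^ ((S.erase a).card - r)) ((S.erase a).card - 1) with h1 | h1
      · rw [h1]; exact hd2
      · rw [h1]; omega

theorem YOk_of {H : Subgroup (MulAut (FreeGroup α))} {K : Subgroup (FreeGroup α)}
    (hc : Ctx H K) (r : ℕ) (hr : 2 ≤ r) (S : Finset α) (hS : r + 1 ≤ S.card) (y : ℕ)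
    (hy1 : y + 1 ≤ S.card) (hy2 : y ≤ 2 ^ (S.card - r)) : YOk.{u, v} H K r S y := by
  intro V _ _ _ τ hτ hu hk hd T hT
  exact theoremY2 hc r hr S.card S rfl hS V τ hτ hu hk (by omega) (by omega) T hT

end AFn
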