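import Mathlib
import Pool.Agent.AFn.Final
import Pool.Agent.AFn.Final3
import Pool.Agent.AFn.Dim2
import Pool.Agent.AFn.Star
import Pool.Agent.AFn.Pattern
import Pool.Agent.AFn.ThmY2
import Pool.Agent.AFn.Star2

/-!
# The final theorem with the improved range of ranks

As in Final3.lean, with strong induction on the rank in the new range.
-/

set_option autoImplicit false

namespace AFn

/-- letters outside a small set -/
private theorem exists_letter4 {n : ℕ} (T : Finset (Fin n)) (h : T.card < n) : ∃ x, x ∉ T := by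
  by_contra hcon
  push Not at hcon
  have h1 : (Finset.univ : Finset (Fin n)) ⊆ T := fun x _ => hcon x
  have h2 := Finset.card_le_card h1
  rw [Finset.card_univ, Fintype.card_fin] at h2
  omega

/-- the theorem for given groups `H`, `K` -/
theorem final_given (n m : ℕ) (Hin : Subgroup (MulAut (FreeGroup (Fin n))))
    (ρ : Hin →* Matrix.GeneralLinearGroup (Fin m) ℤ) (H : Subgroup (MulAut (FreeGroup (Fin n))))
    (hHn : H.Normal) (hHf : H.FiniteIndex)
    (hH : ∀ h ∈ H, ∃ hh : h ∈ Hin, ∀ i j,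
      (3 : ℤ) ∣ ((ρ ⟨h, hh⟩ : Matrix (Fin m) (Fin m) ℤ) i j -
        (1 : Matrix (Fin m) (Fin m) ℤ) i j))
    (K : Subgroup (FreeGroup (Fin n))) (hc : Ctx H K) :
    ∀ (r : ℕ) (W : Finset (Fin n)), W.card = r → ∀ a ∉ W,
      (W.card + m + 1 ≤ n ∨ (W.card + 4 ≤ n ∧ m + 2 ≤ n ∧ m ≤ 2 ^ (n - 2 - W.card) + 1)) →
      ∀ w ∈ K, w ∈ fsub W → ∀ φ : MulAut (FreeGroup (Fin n)),
        rhoC Hin ρ (φ * R a w * φ⁻¹) = 1 := by
  classical
  have hHle : H ≤ Hin := fun h hh => (hH h hh).1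
  have hmemH : ∀ (φ : MulAut (FreeGroup (Fin n))) (a : Fin n), ∀ w ∈ K,
      φ * R a w * φ⁻¹ ∈ H := fun φ a w hwK => hHn.conj_mem _ (hc.RH a w hwK) φ
  have hrep : IsRepOn H (rhoC Hin ρ) := (rhoC_rep Hin ρ).mono hHle
  have hunip : ∀ g ∈ H, en (rhoC Hin ρ g) = 0 → IsNilpotent (rhoC Hin ρ g - 1) :=
    fun g hg hen => unip_of_en Hin ρ g (hH g hg) hen
  -- dimension zero
  rcases Nat.eq_zero_or_pos m with hm0 | hm0
  · subst hm0
    intro r W hWr a haW hcond w hwK hw φ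
    ext x i
    exact i.elim0
  -- dimension one
  rcases Nat.lt_or_ge m 2 with hm1 | hm1
  · have hm1' : m = 1 := by omega
    subst hm1'
    intro r W hWr a haW hcond w hwK hw φ
    obtain ⟨hin, h3⟩ := hH _ (hmemH φ a w hwK)
    have hr : rhoC Hin ρ (φ * R a w * φ⁻¹) = Matrix.toLin'
        ((ρ ⟨φ * R a w * φ⁻¹, hin⟩ : Matrix (Fin 1) (Fin 1) ℤ).map (Int.cast : ℤ → ℂ)) := by
      unfold rhoC; rw [dif_pos hin]
    have hdet : IsUnit (ρ ⟨φ * R a w * φ⁻¹, hin⟩ : Matrix (Fin 1) (Fin 1) ℤ).det :=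
      (Matrix.isUnit_iff_isUnit_det _).mp (Units.isUnit (ρ ⟨φ * R a w * φ⁻¹, hin⟩))
    generalize (ρ ⟨φ * R a w * φ⁻¹, hin⟩ : Matrix (Fin 1) (Fin 1) ℤ) = M at h3 hr hdet
    have h4 : M 0 0 = 1 := by
      have h5 := h3 0 0
      rw [Matrix.det_fin_one] at hdet
      rcases Int.isUnit_iff.mp hdet with h | h
      · exact h
      · rw [h, Matrix.one_apply_eq] at h5
        norm_num at h5
    have h6 : M = 1 := by
      ext i j
      rw [Subsingleton.elim i 0, Subsingleton.elim j 0, h4, Matrix.one_apply_eq]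
    rw [hr, h6, Matrix.map_one _ Int.cast_zero Int.cast_one, Matrix.toLin'_one]
    rfl
  -- three letters outside the support
  have hT3 : ∀ (ψ : MulAut (FreeGroup (Fin n))) (x : Fin n) (W' : Finset (Fin n)), x ∉ W' →
      W'.card + 3 ≤ n → ∀ w' ∈ K, w' ∈ fsub W' →
      IsNilpotent (rhoC Hin ρ (ψ * R x w' * ψ⁻¹) - 1) := by
    intro ψ x W' hx hcard w' hw'K hw'
    obtain ⟨b, hb⟩ := exists_letter4 (insert x W')
      (by rw [Finset.card_insert_of_notMem hx]; omega)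
    obtain ⟨c, hcc⟩ := exists_letter4 (insert b (insert x W'))
      (by rw [Finset.card_insert_of_notMem hb, Finset.card_insert_of_notMem hx]; omega)
    simp only [Finset.mem_insert, not_or] at hb hcc
    exact hunip _ (hHn.conj_mem _ (hc.RH x w' hw'K) ψ)
      (gram3 H hHn hHf _ hrep W' x b c (Ne.symm hb.1) (Ne.symm hcc.2.1) (Ne.symm hcc.1) hx hb.2
        hcc.2.2 w' hw' (fun y => hc.RH y w' hw'K) ψ)
  -- two letters outside the support
  have hTD : ∀ (ψ : MulAut (FreeGroup (Fin n))) (x : Fin n) (S : Finset (Fin n)), x ∉ S →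
      S.card + 2 = n → ∀ d ∈ DS K S, IsNilpotent (rhoC Hin ρ (ψ * R x d * ψ⁻¹) - 1) := by
    intro ψ x S hx hcard d hd
    obtain ⟨c, hcc⟩ := exists_letter4 (insert x S)
      (by rw [Finset.card_insert_of_notMem hx]; omega)
    simp only [Finset.mem_insert, not_or] at hcc
    have hrep' : IsRepOn H (fun g => rhoC Hin ρ (ψ * g * ψ⁻¹)) :=
      hrep.twist ψ (fun g hg => hHn.conj_mem _ hg ψ)
    have hfrep : IsRepOn (K ⊓ fsub S) (fun g => rhoC Hin ρ (ψ * R x g * ψ⁻¹)) := by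
      refine ⟨?_, fun g hg h hh => ?_⟩
      · show rhoC Hin ρ (ψ * R x 1 * ψ⁻¹) = 1
        rw [map_one, mul_one, mul_inv_cancel]
        exact hrep.one
      · show rhoC Hin ρ (ψ * R x (g * h) * ψ⁻¹) = _
        rw [map_mul]
        exact hrep'.mul _ (hc.RH x g hg.1) _ (hc.RH x h hh.1)
    have h5 := unip_closure (K ⊓ fsub S)
      {y | ∃ ψ' ∈ StabS S, ∃ b ∈ S, ∃ w ∈ K, w ∈ fsub (S.erase b) ∧ y = ψ' w}
      (by
        rintro y ⟨ψ', hψ', b, hb, w', hw'K, hw', rfl⟩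
        exact ⟨hc.Kc ψ' w' hw'K,
          StabS_map hψ' (fsub_mono (Finset.erase_subset _ _) hw')⟩)
      (Module.finrank ℂ (Fin m → ℂ)) (Fin m → ℂ) rfl
      (fun g => rhoC Hin ρ (ψ * R x g * ψ⁻¹)) hfrep
      (by
        intro g hg
        have hgK : g ∈ K := by
          have h7 : ⁅K ⊓ fsub S, K ⊓ fsub S⁆ ≤ K ⊓ fsub S := by
            rw [Subgroup.commutator_le]
            intro g1 hg1 g2 hg2
            exact (K ⊓ fsub S).mul_mem ((K ⊓ fsub S).mul_mem ((K ⊓ fsub S).mul_mem hg1 hg2)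
              ((K ⊓ fsub S).inv_mem hg1)) ((K ⊓ fsub S).inv_mem hg2)
          exact (h7 hg).1
        refine hunip _ (hHn.conj_mem _ (hc.RH x g hgK) ψ) ?_
        exact gram2 H hHn hHf _ hrep S x c (Ne.symm hcc.1) hx hcc.2 K hc.RH g hg ψ)
      (by
        rintro y ⟨ψ', hψ', b, hb, w', hw'K, hw', rfl⟩
        show IsNilpotent (rhoC Hin ρ (ψ * R x (ψ' w') * ψ⁻¹) - 1)
        rw [← conj_R hψ' hx (fsub_mono (Finset.erase_subset _ _) hw')]
        have h4 : ψ * (ψ' * R x w' * ψ'⁻¹) * ψ⁻¹ = ψ * ψ' * R x w' * (ψ * ψ')⁻¹ := by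
          rw [mul_inv_rev]; simp only [mul_assoc]
        rw [h4]
        refine hT3 (ψ * ψ') x (S.erase b) (fun h => hx (Finset.mem_of_mem_erase h)) ?_ w'
          hw'K hw'
        rw [Finset.card_erase_of_mem hb]
        have := Finset.card_pos.mpr ⟨b, hb⟩
        omega)
      d
    refine h5 ?_
    revert hd
    apply SetLike.le_def.mp
    rw [DS, Subgroup.closure_union, sup_comm]
    refine sup_le_sup_left ?_ _
    rw [Subgroup.closure_le]
    rintro y ⟨g, hg, h, hh, hgS, hhS, rfl⟩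
    exact Subgroup.commutator_mem_commutator (show g ∈ K ⊓ fsub S from ⟨hg, hgS⟩)
      (show h ∈ K ⊓ fsub S from ⟨hh, hhS⟩)
  -- dimension two
  have hdet : m = 2 → ∀ h ∈ H, ∀ N : Module.End ℂ (Fin m → ℂ), N ≠ 0 → IsNilpotent N →
      rhoC Hin ρ h * N = N * rhoC Hin ρ h → IsNilpotent (rhoC Hin ρ h - 1) := by
    intro hm2 h hh N hN hNn hNc
    subst hm2
    obtain ⟨hin, h3⟩ := hH _ hh
    have hr : rhoC Hin ρ h = Matrix.toLin'
        ((ρ ⟨h, hin⟩ : Matrix (Fin 2) (Fin 2) ℤ).map (Int.cast : ℤ → ℂ)) := by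
      unfold rhoC; rw [dif_pos hin]
    rw [hr] at hNc ⊢
    exact gl2_comm_unipotent _ h3
      ((Matrix.isUnit_iff_isUnit_det _).mp (Units.isUnit (ρ ⟨h, hin⟩))) N hN hNn hNc
  have htw : ∀ ψ : MulAut (FreeGroup (Fin n)), IsRepOn H (fun g => rhoC Hin ρ (ψ * g * ψ⁻¹)) :=
    fun ψ => hrep.twist ψ (fun g hg => hHn.conj_mem _ hg ψ)
  have hcomp : ∀ ψ φ' g : MulAut (FreeGroup (Fin n)),
      ψ * (φ' * g * φ'⁻¹) * ψ⁻¹ = ψ * φ' * g * (ψ * φ')⁻¹ := by
    intro ψ φ' g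
    rw [mul_inv_rev]; simp only [mul_assoc]
  have hT3' : ∀ ψ φ' : MulAut (FreeGroup (Fin n)), ∀ (y : Fin n) (W' : Finset (Fin n)), y ∉ W' →
      W'.card + 3 ≤ Fintype.card (Fin n) → ∀ w' ∈ K, w' ∈ fsub W' →
      IsNilpotent (rhoC Hin ρ (ψ * (φ' * R y w' * φ'⁻¹) * ψ⁻¹) - 1) := by
    intro ψ φ' y W' hy hcard w' hw'K hw'
    rw [hcomp]
    rw [Fintype.card_fin] at hcard
    exact hT3 _ y W' hy hcard w' hw'K hw'
  have hTD' : ∀ ψ φ' : MulAut (FreeGroup (Fin n)), ∀ (y : Fin n) (S : Finset (Fin n)), y ∉ S →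
      S.card + 2 = Fintype.card (Fin n) → ∀ d ∈ DS K S,
      IsNilpotent (rhoC Hin ρ (ψ * (φ' * R y d * φ'⁻¹) * ψ⁻¹) - 1) := by
    intro ψ φ' y S hy hcard d hd
    rw [hcomp]
    rw [Fintype.card_fin] at hcard
    exact hTD _ y S hy hcard d hd
  intro r
  induction r using Nat.strong_induction_on with
  | _ r ih =>
    intro W hWr a haW hcond w hwK hw φ
    -- rank zero
    rcases Nat.eq_zero_or_pos W.card with hW0 | hW0
    · rw [Finset.card_eq_zero] at hW0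
      subst hW0
      rw [fsub_empty hw, map_one, mul_one, mul_inv_cancel]
      exact hrep.one
    -- the dichotomy for all twists
    have hstar : ∀ x ∉ W, ∀ ψ : MulAut (FreeGroup (Fin n)),
        rhoC Hin ρ (ψ * R x w * ψ⁻¹) = 1 ∨ rhoC Hin ρ (ψ * Lw x w * ψ⁻¹) = 1 := by
      intro x hx ψ
      by_cases hfirst : W.card + m + 1 ≤ n
      · refine star hc W.card hW0 (Fin m → ℂ) (fun g => rhoC Hin ρ (ψ * g * ψ⁻¹)) (htw ψ)
          (hT3' ψ) (hTD' ψ) ?_ ?_ ?_ x W hx le_rfl w hwK hw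
        · rw [Module.finrank_fin_fun, Fintype.card_fin]; omega
        · rw [Module.finrank_fin_fun]; exact hm1
        · intro hm2 h hh N hN hNn hNc
          rw [Module.finrank_fin_fun] at hm2
          exact hdet hm2 _ (hHn.conj_mem _ hh ψ) N hN hNn hNc
      · obtain ⟨hc4, hmn, hm2⟩ := hcond.resolve_left hfirst
        have hr2 : 2 ≤ W.card := by omega
        refine star2 hc W.card hr2 (Fin m → ℂ) (fun g => rhoC Hin ρ (ψ * g * ψ⁻¹)) (htw ψ)
          (hT3' ψ) (hTD' ψ) ?_ ?_ ?_ ?_ x W hx le_rfl w hwK hw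
        · intro φ' y W' hy hW' w' hw'K hw'
          show rhoC Hin ρ (ψ * (φ' * R y w' * φ'⁻¹) * ψ⁻¹) = 1
          rw [hcomp]
          refine ih W'.card (by omega) W' rfl y hy (Or.inr ⟨by omega, hmn, ?_⟩) w' hw'K hw' _
          refine hm2.trans (Nat.add_le_add_right (Nat.pow_le_pow_right (by norm_num) ?_) 1)
          omega
        · rw [Fintype.card_fin]; exact hc4
        · rw [Module.finrank_fin_fun]; exact hm1
        · intro S hS
          rw [Fintype.card_fin] at hS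
          rw [Module.finrank_fin_fun]
          have e : n - 2 - W.card = S.card - W.card := by omega
          rw [e] at hm2
          exact YOk_of hc W.card hr2 S (by omega) (m - 1) (by omega) (by omega)
    -- the letters
    have hW3 : W.card + 3 ≤ n := by omega
    obtain ⟨c, hcc⟩ := exists_letter4 (insert a W)
      (by rw [Finset.card_insert_of_notMem haW]; omega)
    obtain ⟨c', hcc'⟩ := exists_letter4 (insert c (insert a W))
      (by rw [Finset.card_insert_of_notMem hcc, Finset.card_insert_of_notMem haW]; omega)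
    simp only [Finset.mem_insert, not_or] at hcc hcc'
    exact pattern hc (rhoC Hin ρ) hrep (Ne.symm hcc.1) (Ne.symm hcc'.2.1) (Ne.symm hcc'.1) haW
      hcc.2 hcc'.2.2 hwK hw hstar (fun x hx ψ => hT3 ψ x W hx hW3 w hwK hw) φ

theorem final_core4 (n m : ℕ) (Hin : Subgroup (MulAut (FreeGroup (Fin n))))
    (hf : Hin.FiniteIndex) (ρ : Hin →* Matrix.GeneralLinearGroup (Fin m) ℤ) :
    ∃ K : Subgroup (FreeGroup (Fin n)), K.FiniteIndex ∧
      (∀ φ : MulAut (FreeGroup (Fin n)), ∀ w ∈ K, φ w ∈ K) ∧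
      ∀ (φ : MulAut (FreeGroup (Fin n))) (a : Fin n) (W : Finset (Fin n)), a ∉ W →
        (W.card + m + 1 ≤ n ∨
          (W.card + 4 ≤ n ∧ m + 2 ≤ n ∧ m ≤ 2 ^ (n - 2 - W.card) + 1)) →
        ∀ w ∈ K, w ∈ fsub W →
          ∃ hh : φ * R a w * φ⁻¹ ∈ Hin, ρ ⟨φ * R a w * φ⁻¹, hh⟩ = 1 := by
  obtain ⟨H, hHn, hHf, hH⟩ := exists_H Hin hf ρ
  obtain ⟨K, hc, -⟩ := exists_K H hHn hHf ⊤ inferInstance
  refine ⟨K, hc.Kf, hc.Kc, ?_⟩
  intro φ a W haW hcond w hwK hw
  exact ⟨(hH _ (hHn.conj_mem _ (hc.RH a w hwK) φ)).1, rhoC_eq_one _ _ _ _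
    (final_given n m Hin ρ H hHn hHf hH K hc W.card W rfl a haW hcond w hwK hw φ)⟩

end AFn
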