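import Mathlib
import Pool.Agent.AFn.Defs
import Pool.Agent.AFn.Basic
import Pool.Agent.AFn.RepLib
import Pool.Agent.AFn.Core
import Pool.Agent.AFn.Iota
import Pool.Agent.AFn.Pattern
import Pool.Agent.AFn.Datum
import Pool.Agent.AFn.ClaimA
import Pool.Agent.AFn.Chi

set_option autoImplicit false

namespace AFn

universe u v

variable {α : Type u} [DecidableEq α]

theorem aut_ext_of {φ ψ : MulAut (FreeGroup α)}
    (h : ∀ x, φ (FreeGroup.of x) = ψ (FreeGroup.of x)) : φ = ψ := by
  have h1 : (φ : MulAut (FreeGroup α)).toMonoidHom = (ψ : MulAut (FreeGroup α)).toMonoidHom := by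
    ext x
    exact h x
  ext g
  exact DFunLike.congr_fun h1 g

theorem Lw_ne {x c : α} (h : x ≠ c) (w : FreeGroup α) :
    Lw c w (FreeGroup.of x) = FreeGroup.of x := by
  unfold Lw
  rw [MulAut.mul_apply, MulAut.mul_apply, iota_inv, iota_ne h, R_of_ne h, iota_ne h]

theorem Lw_fix {W : Finset α} {c : α} (hc : c ∉ W) {g : FreeGroup α} (hg : g ∈ fsub W)
    (w : FreeGroup α) : Lw c w g = g := by
  unfold Lw
  rw [MulAut.mul_apply, MulAut.mul_apply, iota_inv, iota_fix hc hg, R_fix hc hg,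
    iota_fix hc hg]

theorem Lw_self {W : Finset α} {c : α} (hc : c ∉ W) {w : FreeGroup α} (hw : w ∈ fsub W) :
    Lw c w (FreeGroup.of c) = w⁻¹ * FreeGroup.of c := by
  unfold Lw
  rw [MulAut.mul_apply, MulAut.mul_apply, iota_inv, iota_self, map_inv, R_of_self,
    kill_eq hw hc, mul_inv_rev, map_mul, map_inv, map_inv, iota_self, iota_fix hc hw, inv_inv]

/-- the products of left and right multiplications by elements of `K ⊓ fsub W` are trivial -/
theorem lr_trivial {H : Subgroup (MulAut (FreeGroup α))} {K : Subgroup (FreeGroup α)}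
    (hc : Ctx H K) {V : Type v} [AddCommGroup V] [Module ℂ V]
    (σ : MulAut (FreeGroup α) → Module.End ℂ V) (hσ : IsRepOn H σ) (W : Finset α)
    (hk : ∀ (φ : MulAut (FreeGroup α)) (x : α), x ∉ W → ∀ w ∈ K, w ∈ fsub W →
      σ (φ * R x w * φ⁻¹) = 1) (Y : Finset α) :
    ∀ (l m : α → FreeGroup α) (T : MulAut (FreeGroup α)), (∀ c ∈ Y, c ∉ W) →
      (∀ c ∈ Y, l c ∈ K ∧ l c ∈ fsub W ∧ m c ∈ K ∧ m c ∈ fsub W) →
      (∀ c ∈ Y, T (FreeGroup.of c) = l c * FreeGroup.of c * m c) →
      (∀ c, c ∉ Y → T (FreeGroup.of c) = FreeGroup.of c) →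
      T ∈ H ∧ ∀ φ : MulAut (FreeGroup α), σ (φ * T * φ⁻¹) = 1 := by
  induction Y using Finset.induction_on with
  | empty =>
    intro l m T _ _ _ hT
    have h1 : T = 1 := aut_ext_of fun x => hT x (Finset.notMem_empty _)
    rw [h1]
    refine ⟨one_mem _, fun φ => ?_⟩
    rw [mul_one, mul_inv_cancel]
    exact hσ.one
  | insert c Y hcY ih =>
    intro l m T hYW hlm hTY hT
    have hcW : c ∉ W := hYW c (Finset.mem_insert_self _ _)
    obtain ⟨hl1, hl2, hm1, hm2⟩ := hlm c (Finset.mem_insert_self _ _)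
    have hli : (l c)⁻¹ ∈ fsub W := (fsub W).inv_mem hl2
    have hTW : ∀ g ∈ fsub W, T g = g := by
      intro g hg
      unfold fsub at hg
      induction hg using Subgroup.closure_induction with
      | mem y hy =>
        obtain ⟨x, hx, rfl⟩ := hy
        exact hT x (fun h => hYW x h (Finset.mem_coe.1 hx))
      | one => exact map_one _
      | mul x y _ _ hx hy => rw [map_mul, hx, hy]
      | inv x _ hx => rw [map_inv, hx]
    obtain ⟨A, hA⟩ : ∃ A : MulAut (FreeGroup α), A = Lw c (l c)⁻¹ * R c (m c) := ⟨_, rfl⟩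
    have hAc : A (FreeGroup.of c) = l c * FreeGroup.of c * m c := by
      rw [hA, MulAut.mul_apply, R_of_self, kill_eq hm2 hcW, map_mul, Lw_self hcW hli,
        Lw_fix hcW hm2, inv_inv]
    have hAd : ∀ d, d ≠ c → A (FreeGroup.of d) = FreeGroup.of d := by
      intro d hd
      rw [hA, MulAut.mul_apply, R_of_ne hd, Lw_ne hd]
    have hAW : ∀ g ∈ fsub W, A g = g := by
      intro g hg
      rw [hA, MulAut.mul_apply, R_fix hcW hg, Lw_fix hcW hg]
    have hinv : ∀ g g' : FreeGroup α, A g = g' → A⁻¹ g' = g := by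
      intro g g' h
      rw [← h, ← MulAut.mul_apply, inv_mul_cancel]
      rfl
    have hA1 : A⁻¹ (FreeGroup.of c) = (l c)⁻¹ * FreeGroup.of c * (m c)⁻¹ := by
      apply hinv
      rw [map_mul, map_mul, hAc, hAW _ hli, hAW _ ((fsub W).inv_mem hm2)]
      group
    have ihT := ih l m (T * A⁻¹) (fun d hd => hYW d (Finset.mem_insert_of_mem hd))
      (fun d hd => hlm d (Finset.mem_insert_of_mem hd))
      (by
        intro d hd
        have hdc : d ≠ c := fun h => hcY (h ▸ hd)
        rw [MulAut.mul_apply, hinv _ _ (hAd d hdc), hTY d (Finset.mem_insert_of_mem hd)])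
      (by
        intro d hd
        by_cases hdc : d = c
        · subst hdc
          rw [MulAut.mul_apply, hA1, map_mul, map_mul, hTW _ hli,
            hTW _ ((fsub W).inv_mem hm2), hTY d (Finset.mem_insert_self _ _)]
          group
        · rw [MulAut.mul_apply, hinv _ _ (hAd d hdc)]
          exact hT d (fun h => (Finset.mem_insert.mp h).elim hdc hd))
    have hL : Lw c (l c)⁻¹ ∈ H := hc.Hn.conj_mem _ (hc.RH c _ (inv_mem hl1)) _
    have hR : R c (m c) ∈ H := hc.RH c _ hm1
    have hTe : T = T * A⁻¹ * Lw c (l c)⁻¹ * R c (m c) := by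
      rw [mul_assoc (T * A⁻¹), ← hA]
      group
    refine ⟨?_, fun φ => ?_⟩
    · rw [hTe]
      exact mul_mem (mul_mem ihT.1 hL) hR
    · have e1 : φ * T * φ⁻¹ = (φ * (T * A⁻¹) * φ⁻¹) * (φ * Lw c (l c)⁻¹ * φ⁻¹) *
          (φ * R c (m c) * φ⁻¹) := by
        conv_lhs => rw [hTe]
        group
      have e2 : φ * Lw c (l c)⁻¹ * φ⁻¹ = (φ * iota c) * R c (l c)⁻¹ * (φ * iota c)⁻¹ := by
        unfold Lw
        rw [mul_inv_rev]; simp only [mul_assoc]
      rw [e1, hσ.mul _ (mul_mem (hc.Hn.conj_mem _ ihT.1 φ) (hc.Hn.conj_mem _ hL φ)) _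
        (hc.Hn.conj_mem _ hR φ), hσ.mul _ (hc.Hn.conj_mem _ ihT.1 φ) _ (hc.Hn.conj_mem _ hL φ),
        ihT.2 φ, e2, hk _ c hcW _ (inv_mem hl1) hli, hk _ c hcW _ hm1 hm2, mul_one, mul_one]

theorem conj_aut (T : MulAut (FreeGroup α)) (x : FreeGroup α) :
    T * MulAut.conj x * T⁻¹ = MulAut.conj (T x) := by
  ext y
  rw [MulAut.mul_apply, MulAut.mul_apply, MulAut.conj_apply, MulAut.conj_apply, map_mul,
    map_mul, map_inv, ← MulAut.mul_apply, mul_inv_cancel]
  rfl

/-- elements of a factor of rank one commute with the letter -/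
theorem fsub_one_comm {W : Finset α} (hW : W.card ≤ 1) {w : FreeGroup α} (hw : w ∈ fsub W)
    {j : α} (hj : j ∈ W) : w * FreeGroup.of j * w⁻¹ = FreeGroup.of j := by
  have hWj : ∀ x ∈ W, x = j := fun x hx => Finset.card_le_one.mp hW x hx j hj
  have h1 : w * FreeGroup.of j = FreeGroup.of j * w := by
    unfold fsub at hw
    induction hw using Subgroup.closure_induction with
    | mem y hy =>
      obtain ⟨x, hx, rfl⟩ := hy
      rw [hWj x (Finset.mem_coe.1 hx)]
    | one => rw [one_mul, mul_one]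
    | mul x y _ _ hx hy => rw [mul_assoc, hy, ← mul_assoc, hx, mul_assoc]
    | inv x _ hx =>
      have h2 : x⁻¹ * (x * FreeGroup.of j) * x⁻¹ = x⁻¹ * (FreeGroup.of j * x) * x⁻¹ := by rw [hx]
      have e1 : x⁻¹ * (x * FreeGroup.of j) * x⁻¹ = FreeGroup.of j * x⁻¹ := by group
      have e2 : x⁻¹ * (FreeGroup.of j * x) * x⁻¹ = x⁻¹ * FreeGroup.of j := by group
      rw [e1, e2] at h2
      exact h2.symm
  rw [h1, mul_assoc, mul_inv_cancel, mul_one]

/-- the inner automorphisms by elements of `K` of rank at most `r` are trivial -/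
theorem inner_trivial [Fintype α] {H : Subgroup (MulAut (FreeGroup α))}
    {K : Subgroup (FreeGroup α)} (hc : Ctx H K) (hI : ∀ w ∈ K, MulAut.conj w ∈ H)
    {V : Type v} [AddCommGroup V] [Module ℂ V] (r : ℕ) :
    ∀ (σ : MulAut (FreeGroup α) → Module.End ℂ V) (_ : IsRepOn H σ)
      (_ : ∀ h ∈ H, ∀ k : ℕ, k ≠ 0 → σ (h ^ k) = 1 → σ h = 1)
      (_ : ∀ (φ : MulAut (FreeGroup α)) (x : α) (W : Finset α), x ∉ W → W.card ≤ r →
        ∀ w ∈ K, w ∈ fsub W → σ (φ * R x w * φ⁻¹) = 1)
      (_ : r + 2 ≤ Fintype.card α) (W : Finset α) (_ : W.card ≤ r) (w : FreeGroup α)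
      (_ : w ∈ K) (_ : w ∈ fsub W), σ (MulAut.conj w) = 1 := by
  classical
  induction r with
  | zero =>
    intro σ hσ _ _ _ W hW w hwK hw
    rw [Nat.le_zero, Finset.card_eq_zero] at hW
    subst hW
    have h1 : w = 1 := by
      unfold fsub at hw
      rw [Finset.coe_empty, Set.image_empty, Subgroup.closure_empty] at hw
      exact Subgroup.mem_bot.mp hw
    rw [h1, map_one]
    exact hσ.one
  | succ r ih =>
    intro σ hσ htf hk hcard W hW w hwK hw
    rcases Nat.eq_zero_or_pos r with hr0 | hr0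
    · -- rank one
      subst hr0
      have h1 := (lr_trivial hc σ hσ W (fun φ x hx w hwK hw => hk φ x W hx hW w hwK hw)
        (Finset.univ \ W) (fun _ => w) (fun _ => w⁻¹) (MulAut.conj w)
        (fun c hcc => (Finset.mem_sdiff.mp hcc).2)
        (fun c _ => ⟨hwK, hw, inv_mem hwK, (fsub W).inv_mem hw⟩)
        (fun c _ => MulAut.conj_apply _ _)
        (by
          intro c hcc
          have hcW : c ∈ W := by
            by_contra h
            exact hcc (Finset.mem_sdiff.mpr ⟨Finset.mem_univ _, h⟩)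
          rw [MulAut.conj_apply]
          exact fsub_one_comm hW hw hcW)).2 1
      rwa [one_mul, inv_one, mul_one] at h1
    · by_contra hne
      -- the letters
      obtain ⟨b0, hb0⟩ : ∃ x, x ∉ W := by
        by_contra hcon
        push Not at hcon
        have h1 := Finset.card_le_card (show (Finset.univ : Finset α) ⊆ W from fun x _ => hcon x)
        rw [Finset.card_univ] at h1
        omega
      obtain ⟨b, hb⟩ : ∃ x, x ∉ insert b0 W := by
        by_contra hcon
        push Not at hcon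
        have h1 := Finset.card_le_card
          (show (Finset.univ : Finset α) ⊆ insert b0 W from fun x _ => hcon x)
        rw [Finset.card_univ, Finset.card_insert_of_notMem hb0] at h1
        omega
      rw [Finset.mem_insert, not_or] at hb
      obtain ⟨S', hS'⟩ : ∃ S' : Finset α, S' = Finset.univ.erase b0 := ⟨_, rfl⟩
      have hb0S : b0 ∉ S' := by rw [hS']; exact Finset.notMem_erase _ _
      have hbS : b ∈ S' := by
        rw [hS']; exact Finset.mem_erase.mpr ⟨hb.1, Finset.mem_univ _⟩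
      have hWS : W ⊆ S' := fun x hx => by
        rw [hS']; exact Finset.mem_erase.mpr ⟨fun h => hb0 (h ▸ hx), Finset.mem_univ _⟩
      have hWSb : W ⊆ S'.erase b := fun x hx =>
        Finset.mem_erase.mpr ⟨fun h => hb.2 (h ▸ hx), hWS hx⟩
      -- the elements `T`
      have hT1 : ∀ (S : Finset α) (T : MulAut (FreeGroup α)), IsT K (r + 1) S T →
          ∀ ψ : MulAut (FreeGroup α), ψ * T * ψ⁻¹ ∈ H ∧ σ (ψ * T * ψ⁻¹) = 1 := by
        rintro S T ⟨φ, hφ, a, ha, W', hW', hW'r, w', hw'K, hw', rfl⟩ ψ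
        have e1 : ψ * (φ * R a w' * φ⁻¹) * ψ⁻¹ = ψ * φ * R a w' * (ψ * φ)⁻¹ := by
          rw [mul_inv_rev]; simp only [mul_assoc]
        rw [e1]
        exact ⟨hc.Hn.conj_mem _ (hc.RH a w' hw'K) _,
          hk _ a W' (fun h => (Finset.mem_erase.mp (hW' h)).1 rfl) hW'r w' hw'K hw'⟩
      obtain ⟨Ψ, hΨ⟩ : ∃ Ψ : FreeGroup α → Module.End ℂ V,
        Ψ = fun x => σ (MulAut.conj x) := ⟨_, rfl⟩
      have hΨx : ∀ x, Ψ x = σ (MulAut.conj x) := fun x => by rw [hΨ]
      have hΨ1 : Ψ 1 = 1 := by rw [hΨx, map_one]; exact hσ.one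
      have hΨmul : ∀ x ∈ K, ∀ y ∈ K, Ψ (x * y) = Ψ x * Ψ y := by
        intro x hx y hy
        rw [hΨx, hΨx, hΨx, map_mul]
        exact hσ.mul _ (hI x hx) _ (hI y hy)
      have hΨT : ∀ (S : Finset α) (T : MulAut (FreeGroup α)), IsT K (r + 1) S T →
          ∀ ψ : MulAut (FreeGroup α), ∀ x ∈ K, Ψ ((ψ * T * ψ⁻¹) x) = Ψ x := by
        intro S T hT ψ x hx
        obtain ⟨h1, h2⟩ := hT1 S T hT ψ
        have h3 : σ (ψ * T * ψ⁻¹)⁻¹ = 1 := by
          have h4 := hσ.inv_mul h1
          rwa [h2, mul_one] at h4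
        rw [hΨx, hΨx, ← conj_aut, hσ.mul _ (mul_mem h1 (hI x hx)) _ (inv_mem h1),
          hσ.mul _ h1 _ (hI x hx), h2, h3, one_mul, mul_one]
      -- commutation
      have hc1 : ∀ w' ∈ XS K (r + 1) S', ∀ x ∈ K ⊓ fsub S', Ψ (w' * x * w'⁻¹) = Ψ x := by
        intro w' hw' x hx
        have hw'm := XS_mem hc hw'
        have hT : IsT K (r + 1) Finset.univ (R b0 w') :=
          IsT_of_XS (Finset.mem_univ _) (by rw [← hS']; exact hw')
        have h1 := hΨT _ _ hT (MulAut.conj (FreeGroup.of b0)⁻¹) x hx.1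
        have h2 : (MulAut.conj (FreeGroup.of b0)⁻¹ * R b0 w' *
            (MulAut.conj (FreeGroup.of b0)⁻¹)⁻¹) x = w' * x * w'⁻¹ := by
          rw [MulAut.mul_apply, MulAut.mul_apply, ← map_inv, inv_inv, MulAut.conj_apply,
            MulAut.conj_apply, map_mul, map_mul, map_inv, R_of_self, kill_eq hw'm.2 hb0S,
            R_fix hb0S hx.2]
          group
        rw [h2] at h1
        exact h1
      have hc2 : ∀ y ∈ NS K (r + 1) S', ∀ x ∈ K ⊓ fsub S', Ψ y * Ψ x = Ψ x * Ψ y := by
        intro y hy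
        have hyK : ∀ z ∈ NS K (r + 1) S', z ∈ K := fun z hz => (NS_le hc hz).1
        unfold NS at hy hyK
        induction hy using Subgroup.closure_induction with
        | mem z hz =>
          intro x hx
          have hzK := (XS_mem hc hz).1
          have h1 := hc1 z hz x hx
          rw [hΨmul _ (mul_mem hzK hx.1) _ (inv_mem hzK), hΨmul _ hzK _ hx.1] at h1
          have h2 : Ψ z⁻¹ * Ψ z = 1 := by
            rw [← hΨmul _ (inv_mem hzK) _ hzK, inv_mul_cancel, hΨ1]
          calc Ψ z * Ψ x = Ψ z * Ψ x * (Ψ z⁻¹ * Ψ z) := by rw [h2, mul_one]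
            _ = (Ψ z * Ψ x * Ψ z⁻¹) * Ψ z := by simp only [mul_assoc]
            _ = Ψ x * Ψ z := by rw [h1]
        | one =>
          intro x hx
          rw [hΨ1, one_mul, mul_one]
        | mul y z hy hz ihy ihz =>
          intro x hx
          rw [hΨmul _ (hyK y hy) _ (hyK z hz), mul_assoc, ihz x hx, ← mul_assoc, ihy x hx,
            mul_assoc]
        | inv y hy ihy =>
          intro x hx
          have h1 : Ψ y⁻¹ * Ψ y = 1 := by
            rw [← hΨmul _ (inv_mem (hyK y hy)) _ (hyK y hy), inv_mul_cancel, hΨ1]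
          have h2 : Ψ y * Ψ y⁻¹ = 1 := by
            rw [← hΨmul _ (hyK y hy) _ (inv_mem (hyK y hy)), mul_inv_cancel, hΨ1]
          calc Ψ y⁻¹ * Ψ x = Ψ y⁻¹ * Ψ x * (Ψ y * Ψ y⁻¹) := by rw [h2, mul_one]
            _ = Ψ y⁻¹ * (Ψ x * Ψ y) * Ψ y⁻¹ := by simp only [mul_assoc]
            _ = (Ψ y⁻¹ * Ψ y) * Ψ x * Ψ y⁻¹ := by rw [← ihy x hx]; simp only [mul_assoc]
            _ = Ψ x * Ψ y⁻¹ := by rw [h1, one_mul]
      have hNS : NS K (r + 1) S' ≤ K ⊓ fsub S' := NS_le hc
      have hwN : w ∈ NS K (r + 1) S' := NS_of hWS hW hwK hw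
      -- the functional
      obtain ⟨c, hcadd, hcΨ, hcw⟩ := exists_chi (NS K (r + 1) S') Ψ hΨ1
        (fun x hx y hy => hΨmul x (hNS hx).1 y (hNS hy).1)
        (fun x hx y hy => hc2 x hx y (hNS hy)) w hwN
        (by
          intro k hk0 hk1
          apply hne
          refine htf _ (hI w hwK) k hk0 ?_
          rw [← map_pow, ← hΨx]
          exact hk1)
      have hc0 : c 1 = 0 := by
        have h1 := hcadd 1 (one_mem _) 1 (one_mem _)
        rw [mul_one] at h1
        exact left_eq_add.mp h1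
      have hfin := claimA hc (r + 1) (by omega) S' b hbS c hcadd
        (by
          intro g hg x hx
          refine hcΨ _ (NS_conj hx hg.2) _ hx ?_
          have hxK := (hNS hx).1
          rw [hΨmul _ (mul_mem hg.1 hxK) _ (inv_mem hg.1), hΨmul _ hg.1 _ hxK,
            ← hc2 x hx g hg, mul_assoc, ← hΨmul _ hg.1 _ (inv_mem hg.1), mul_inv_cancel, hΨ1,
            mul_one])
        (by
          intro x hx
          have hxN : x ∈ NS K (r + 1) S' := XS_sub_NS (XS_mono (by omega) (Finset.Subset.refl _) hx)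
          rw [← hc0]
          refine hcΨ _ hxN _ (one_mem _) ?_
          rw [hΨ1]
          rw [Nat.add_sub_cancel] at hx
          obtain ⟨φ, hφ, W', hW', hW'r, w1, hw1K, hw1, rfl⟩ := hx
          rw [hΨx, ← conj_aut]
          refine ih (fun g => σ (φ * g * φ⁻¹))
            (hσ.twist φ (fun g hg => hc.Hn.conj_mem _ hg φ)) ?_ ?_ (by omega) W' hW'r w1
            hw1K hw1
          · intro h hh k hk0 hk1
            refine htf _ (hc.Hn.conj_mem _ hh φ) k hk0 ?_
            have e1 : (φ * h * φ⁻¹) ^ k = φ * h ^ k * φ⁻¹ := conj_pow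
            rw [e1]
            exact hk1
          · intro ψ x W'' hx hW'' w'' hw''K hw''
            show σ (φ * (ψ * R x w'' * ψ⁻¹) * φ⁻¹) = 1
            have e1 : φ * (ψ * R x w'' * ψ⁻¹) * φ⁻¹ = φ * ψ * R x w'' * (φ * ψ)⁻¹ := by
              rw [mul_inv_rev]; simp only [mul_assoc]
            rw [e1]
            exact hk _ x W'' hx (by omega) w'' hw''K hw'')
        (by
          intro w' hw' x hx u hu
          have hT : IsT K (r + 1) S' (R b w') := IsT_of_XS hbS hw'
          have hTm : R b w' ∈ StabS S' := (hT.mem hc).2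
          refine hcΨ _ (NS_conj (NS_map hx hTm) hu) _ (NS_conj hx hu) ?_
          have h1 := hΨT _ _ hT (MulAut.conj u) (u * x * u⁻¹) (hNS (NS_conj hx hu)).1
          have h2 : (MulAut.conj u * R b w' * (MulAut.conj u)⁻¹) (u * x * u⁻¹) =
              u * R b w' x * u⁻¹ := by
            rw [MulAut.mul_apply, MulAut.mul_apply, ← map_inv, MulAut.conj_apply,
              MulAut.conj_apply]
            congr 2
            congr 1
            group
          rw [h2] at h1
          exact h1)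
      have h1 := hfin w (XS_of hWSb hW hwK hw) 1 (one_mem _)
      rw [one_mul, inv_one, mul_one] at h1
      exact hcw h1

end AFn
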