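import Mathlib
import Pool.Agent.AFn.Final4
import Pool.Agent.AFn.Inner

/-!
# The final theorem for partial conjugations
-/

set_option autoImplicit false

namespace AFn

universe u v

/-- the group `K`, with inner automorphisms by its elements in `H` -/
theorem exists_K2 {α : Type u} [DecidableEq α] [Finite α]
    (H : Subgroup (MulAut (FreeGroup α))) (hn : H.Normal) (hf : H.FiniteIndex) :
    ∃ K : Subgroup (FreeGroup α), Ctx H K ∧ ∀ w ∈ K, MulAut.conj w ∈ H := by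
  haveI : Finite (MulAut (FreeGroup α) ⧸ H) := Subgroup.finite_quotient_of_finiteIndex
  haveI : Finite (FreeGroup α →* (MulAut (FreeGroup α) ⧸ H)) :=
    Finite.of_equiv _ FreeGroup.lift
  set K : Subgroup (FreeGroup α) :=
    ⨅ f : FreeGroup α →* (MulAut (FreeGroup α) ⧸ H), f.ker with hK
  have hmem : ∀ w : FreeGroup α, w ∈ K ↔
      ∀ f : FreeGroup α →* (MulAut (FreeGroup α) ⧸ H), f w = 1 := by
    intro w
    rw [hK, Subgroup.mem_iInf]
    exact forall_congr' fun f => MonoidHom.mem_ker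
  have hcomp : ∀ g : FreeGroup α →* MulAut (FreeGroup α), ∀ w ∈ K, g w ∈ H := by
    intro g w hw
    rw [hmem] at hw
    have h1 := hw ((QuotientGroup.mk' H).comp g)
    rw [MonoidHom.comp_apply, QuotientGroup.mk'_apply, QuotientGroup.eq_one_iff] at h1
    exact h1
  refine ⟨K, ⟨hn, hf, ?_, ?_, fun a => hcomp (R a)⟩, hcomp MulAut.conj⟩
  · intro φ w hw
    rw [hmem] at hw ⊢
    intro f
    exact hw (f.comp φ.toMonoidHom)
  · rw [hK]
    haveI : ∀ f : FreeGroup α →* (MulAut (FreeGroup α) ⧸ H),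
        f.ker.FiniteIndex := fun f => Subgroup.finiteIndex_ker f
    exact Subgroup.finiteIndex_iInf this

/-- a unipotent endomorphism of finite order is trivial -/
theorem nil_pow {V : Type v} [AddCommGroup V] [Module ℂ V] {A : Module.End ℂ V}
    (hA : IsNilpotent (A - 1)) {k : ℕ} (hk : k ≠ 0) (hAk : A ^ k = 1) : A = 1 := by
  obtain ⟨N, hN⟩ : ∃ N : Module.End ℂ V, N = A - 1 := ⟨_, rfl⟩
  have hA1 : A = 1 + N := by rw [hN]; abel
  rw [← hN] at hA
  by_contra hne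
  have hN0 : N ≠ 0 := by
    intro h
    rw [h, add_zero] at hA1
    exact hne hA1
  have hex : ∃ j : ℕ, N ^ (j + 1) = 0 := by
    obtain ⟨j, hj⟩ := hA
    exact ⟨j, by rw [pow_succ, hj, zero_mul]⟩
  classical
  obtain ⟨j, hj⟩ : ∃ j, j = Nat.find hex := ⟨_, rfl⟩
  have hj1 : N ^ (j + 1) = 0 := by rw [hj]; exact Nat.find_spec hex
  have hj0 : j ≠ 0 := by
    intro h
    rw [h, zero_add, pow_one] at hj1
    exact hN0 hj1
  obtain ⟨i, rfl⟩ := Nat.exists_eq_succ_of_ne_zero hj0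
  have hi : N ^ (i + 1) ≠ 0 := by
    have := Nat.find_min hex (m := i) (by omega)
    exact this
  have key : ∀ q : ℕ, N ^ i * A ^ q = N ^ i + (q : ℂ) • N ^ (i + 1) := by
    intro q
    induction q with
    | zero => simp
    | succ q ih =>
      have e1 : N ^ (i + 1) * N = 0 := by rw [← pow_succ]; exact hj1
      rw [pow_succ, ← mul_assoc, ih, hA1, mul_add, mul_one, add_mul, smul_mul_assoc, e1,
        smul_zero, ← pow_succ]
      push_cast
      rw [add_smul, one_smul]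
      abel
  have h1 := key k
  rw [hAk, mul_one] at h1
  have h2 : (k : ℂ) • N ^ (i + 1) = 0 := by
    have h3 := h1.symm
    rwa [add_eq_left] at h3
  rcases smul_eq_zero.mp h2 with h3 | h3
  · exact hk (Nat.cast_eq_zero.mp h3)
  · exact hi h3

theorem torsion_free {n m : ℕ} (Hin : Subgroup (MulAut (FreeGroup (Fin n))))
    (ρ : Hin →* Matrix.GeneralLinearGroup (Fin m) ℤ) (H : Subgroup (MulAut (FreeGroup (Fin n))))
    (hH : ∀ h ∈ H, ∃ hh : h ∈ Hin, ∀ i j,
      (3 : ℤ) ∣ ((ρ ⟨h, hh⟩ : Matrix (Fin m) (Fin m) ℤ) i j -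
        (1 : Matrix (Fin m) (Fin m) ℤ) i j)) :
    ∀ h ∈ H, ∀ k : ℕ, k ≠ 0 → rhoC Hin ρ (h ^ k) = 1 → rhoC Hin ρ h = 1 := by
  intro h hh k hk h1
  have hrep : IsRepOn H (rhoC Hin ρ) := (rhoC_rep Hin ρ).mono (fun g hg => (hH g hg).1)
  have hpow : ∀ q : ℕ, rhoC Hin ρ (h ^ q) = rhoC Hin ρ h ^ q := by
    intro q
    induction q with
    | zero => rw [pow_zero, pow_zero]; exact hrep.one
    | succ q ih => rw [pow_succ, hrep.mul _ (pow_mem hh q) _ hh, ih, pow_succ]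
  rw [hpow] at h1
  refine nil_pow (unip_of_en Hin ρ h (hH h hh) ?_) hk h1
  unfold en
  have h2 : ∀ μ ∈ (rhoC Hin ρ h).charpoly.roots, (Real.log ‖μ‖) ^ 2 = 0 := by
    intro μ hμ
    have h4 : Module.End.HasEigenvalue (rhoC Hin ρ h) μ := by
      rw [Module.End.hasEigenvalue_iff_isRoot_charpoly]
      exact (Polynomial.mem_roots'.mp hμ).2
    obtain ⟨x, hx⟩ := h4.exists_hasEigenvector
    have h5 : ∀ q : ℕ, (rhoC Hin ρ h ^ q) x = μ ^ q • x := by
      intro q
      induction q with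
      | zero => simp
      | succ q ih =>
        rw [pow_succ', Module.End.mul_apply, ih, map_smul, hx.apply_eq_smul, smul_smul,
          pow_succ]
    have h6 := h5 k
    rw [h1, Module.End.one_apply] at h6
    have h7 : (μ ^ k - 1) • x = 0 := by rw [sub_smul, one_smul, ← h6, sub_self]
    rcases smul_eq_zero.mp h7 with h8 | h8
    · have h9 : ‖μ‖ = 1 := Complex.norm_eq_one_of_pow_eq_one (sub_eq_zero.mp h8) hk
      rw [h9, Real.log_one]
      norm_num
    · exact absurd h8 hx.2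
  rw [Multiset.map_congr rfl h2]
  simp

theorem final_core5 (n m : ℕ) (Hin : Subgroup (MulAut (FreeGroup (Fin n))))
    (hf : Hin.FiniteIndex) (ρ : Hin →* Matrix.GeneralLinearGroup (Fin m) ℤ) :
    ∃ K : Subgroup (FreeGroup (Fin n)), K.FiniteIndex ∧
      (∀ φ : MulAut (FreeGroup (Fin n)), ∀ w ∈ K, φ w ∈ K) ∧
      ∀ (φ : MulAut (FreeGroup (Fin n))) (W : Finset (Fin n)),
        (W.card + m + 1 ≤ n ∨
          (W.card + 4 ≤ n ∧ m + 2 ≤ n ∧ m ≤ 2 ^ (n - 2 - W.card) + 1)) →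
        ∀ g ∈ K, g ∈ fsub W → ∀ l k : Fin n → FreeGroup (Fin n),
          (∀ c ∉ W, l c ∈ K ∧ l c ∈ fsub W ∧ k c ∈ K ∧ k c ∈ fsub W) →
          ∀ T : MulAut (FreeGroup (Fin n)),
            (∀ c ∈ W, T (FreeGroup.of c) = g * FreeGroup.of c * g⁻¹) →
            (∀ c ∉ W, T (FreeGroup.of c) = l c * FreeGroup.of c * k c) →
            ∃ hh : φ * T * φ⁻¹ ∈ Hin, ρ ⟨φ * T * φ⁻¹, hh⟩ = 1 := by
  classical
  obtain ⟨H, hHn, hHf, hH⟩ := exists_H Hin hf ρ
  obtain ⟨K, hc, hI⟩ := exists_K2 H hHn hHf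
  refine ⟨K, hc.Kf, hc.Kc, ?_⟩
  intro φ W hcond g hgK hg l k hlk T hTW hTc
  have hHle : H ≤ Hin := fun h hh => (hH h hh).1
  have hrep : IsRepOn H (rhoC Hin ρ) := (rhoC_rep Hin ρ).mono hHle
  have hk : ∀ (ψ : MulAut (FreeGroup (Fin n))) (x : Fin n) (W' : Finset (Fin n)), x ∉ W' →
      W'.card ≤ W.card → ∀ w ∈ K, w ∈ fsub W' → rhoC Hin ρ (ψ * R x w * ψ⁻¹) = 1 := by
    intro ψ x W' hx hW' w hwK hw
    refine final_given n m Hin ρ H hHn hHf hH K hc W'.card W' rfl x hx ?_ w hwK hw ψ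
    rcases hcond with h | ⟨h1, h2, h3⟩
    · exact Or.inl (by omega)
    · refine Or.inr ⟨by omega, h2, ?_⟩
      refine h3.trans (Nat.add_le_add_right (Nat.pow_le_pow_right (by norm_num) ?_) 1)
      omega
  -- the inner automorphism
  have hinner : rhoC Hin ρ (φ * MulAut.conj g * φ⁻¹) = 1 := by
    rcases Nat.eq_zero_or_pos m with hm0 | hm0
    · subst hm0
      ext x i
      exact i.elim0
    · refine inner_trivial hc hI W.card (fun h => rhoC Hin ρ (φ * h * φ⁻¹))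
        (hrep.twist φ (fun g hg => hHn.conj_mem _ hg φ)) ?_ ?_ ?_ W le_rfl g hgK hg
      · intro h hh q hq h1
        refine torsion_free Hin ρ H hH _ (hHn.conj_mem _ hh φ) q hq ?_
        have e1 : (φ * h * φ⁻¹) ^ q = φ * h ^ q * φ⁻¹ := conj_pow
        rw [e1]
        exact h1
      · intro ψ x W' hx hW' w hwK hw
        show rhoC Hin ρ (φ * (ψ * R x w * ψ⁻¹) * φ⁻¹) = 1
        have e1 : φ * (ψ * R x w * ψ⁻¹) * φ⁻¹ = φ * ψ * R x w * (φ * ψ)⁻¹ := by
          rw [mul_inv_rev]; simp only [mul_assoc]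
        rw [e1]
        exact hk _ x W' hx hW' w hwK hw
      · rw [Fintype.card_fin]
        omega
  -- the rest
  have hgi : g⁻¹ ∈ fsub W := (fsub W).inv_mem hg
  have hrest := lr_trivial hc (rhoC Hin ρ) hrep W
    (fun ψ x hx w hwK hw => hk ψ x W hx le_rfl w hwK hw) (Finset.univ \ W)
    (fun c => g⁻¹ * l c) (fun c => k c * g) ((MulAut.conj g)⁻¹ * T)
    (fun c hcc => (Finset.mem_sdiff.mp hcc).2)
    (by
      intro c hcc
      obtain ⟨h1, h2, h3, h4⟩ := hlk c (Finset.mem_sdiff.mp hcc).2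
      exact ⟨mul_mem (inv_mem hgK) h1, (fsub W).mul_mem hgi h2, mul_mem h3 hgK,
        (fsub W).mul_mem h4 hg⟩)
    (by
      intro c hcc
      rw [MulAut.mul_apply, hTc c (Finset.mem_sdiff.mp hcc).2, ← map_inv, MulAut.conj_apply]
      group)
    (by
      intro c hcc
      have hcW : c ∈ W := by
        by_contra h
        exact hcc (Finset.mem_sdiff.mpr ⟨Finset.mem_univ _, h⟩)
      rw [MulAut.mul_apply, hTW c hcW, ← map_inv, MulAut.conj_apply]
      group)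
  have hgH : MulAut.conj g ∈ H := hI g hgK
  have hTe : φ * T * φ⁻¹ = (φ * MulAut.conj g * φ⁻¹) * (φ * ((MulAut.conj g)⁻¹ * T) * φ⁻¹) := by
    group
  have hTH : φ * T * φ⁻¹ ∈ H := by
    rw [hTe]
    exact mul_mem (hHn.conj_mem _ hgH φ) (hHn.conj_mem _ hrest.1 φ)
  refine ⟨hHle hTH, rhoC_eq_one _ _ _ _ ?_⟩
  rw [hTe, hrep.mul _ (hHn.conj_mem _ hgH φ) _ (hHn.conj_mem _ hrest.1 φ), hinner,
    hrest.2 φ, mul_one]

end AFn
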